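import Mathlib

set_option autoImplicit false

namespace Pool.Agent.H387R2.Vor

noncomputable section

/-- number of divisors -/
def dv (n : ℕ) : ℝ := (n.divisors.card : ℝ)

/-- the summatory function of the divisor function -/
def Dsum (x : ℝ) : ℝ := ∑ n ∈ Finset.Icc 1 ⌊x⌋₊, dv n

/-- the error term in the divisor problem -/
def Del (x : ℝ) : ℝ := Dsum x - x * Real.log x - (2 * Real.eulerMascheroniConstant - 1) * x

/-- the normalised error term as a function of `R = √x` -/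
def Ed (R : ℝ) : ℝ := Del (R ^ 2) / √R

/-- `e(y) = exp(2 π i y)` -/
def ex (y : ℝ) : ℂ := Complex.exp (((2 * Real.pi * y : ℝ) : ℂ) * Complex.I)

/-- `c(y) = (e(y) - 1) / (2 π i y)` -/
def cf (y : ℝ) : ℂ := (ex y - 1) / (((2 * Real.pi * y : ℝ) : ℂ) * Complex.I)

/-- the `m`-th term of the smoothed Voronoi series -/
def vt (R δ : ℝ) (m : ℕ) : ℝ :=
  dv m * (m : ℝ) ^ (-(3 / 4) : ℝ) * (1 / (Real.pi * √2)) *
    (Complex.exp (-((Real.pi / 4 : ℝ) : ℂ) * Complex.I) * ex (2 * √(m : ℝ) * R) *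
      cf (2 * √(m : ℝ) * δ) ^ 2).re

end

end Pool.Agent.H387R2.Vor
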