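import Pool.Agent.H387R2.MB8

set_option autoImplicit false

open Finset Filter Topology
open scoped ContDiff

namespace Pool.Agent.H387R2.MB

open Pool.Agent.H378R2

/-- `m` has no prime factor in `PS` -/
def Rg (δ X : ℝ) (m : ℕ) : Prop := ∀ p ∈ PS δ X, ¬ p ∣ m

lemma rg_prime {δ X : ℝ} {m p : ℕ} (h : Rg δ X m) (hp : p.Prime) (hpm : p ∣ m) : Real.exp (δ * LL X) < p := by
  by_contra hle
  push Not at hle
  exact h p (mem_PS.2 ⟨hp, hle⟩) hpm

lemma rg_omega {δ X : ℝ} (hδ : 0 < δ) (hX : 4 ≤ X) (hL : 1 ≤ LL X) {m : ℕ} (hm : 1 ≤ m) (hmX : (m : ℝ) ≤ 4 * X)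
    (h : Rg δ X m) : m.primeFactors.card ≤ ⌈400 / δ⌉₊ := by
  have hL0 : 0 < LL X := by linarith
  have h1 : Real.exp (δ * LL X) ^ m.primeFactors.card ≤ ((∏ p ∈ m.primeFactors, p : ℕ) : ℝ) := by
    push_cast
    rw [← prod_const]
    apply Finset.prod_le_prod
    · intro p _; exact (Real.exp_pos _).le
    · intro p hp
      exact (rg_prime h (Nat.prime_of_mem_primeFactors hp) (Nat.dvd_of_mem_primeFactors hp)).le
  have h2 : ((∏ p ∈ m.primeFactors, p : ℕ) : ℝ) ≤ 4 * X := by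
    refine le_trans ?_ hmX
    exact_mod_cast Nat.le_of_dvd hm (Nat.prod_primeFactors_dvd m)
  have h3 := h1.trans h2
  rw [← Real.exp_nat_mul] at h3
  have h4 := Real.log_le_log (Real.exp_pos _) h3
  rw [Real.log_exp] at h4
  have h5 := h4.trans (log4X hX)
  have h6 : (m.primeFactors.card : ℝ) ≤ 400 / δ := by
    rw [le_div_iff₀ hδ]
    have : (m.primeFactors.card * δ) * LL X ≤ 400 * LL X := by linarith
    exact le_of_mul_le_mul_right this hL0
  exact_mod_cast h6.trans (Nat.le_ceil _)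

lemma card_sqf_div {m : ℕ} (hm : m ≠ 0) (E : Finset ℕ) (R : ℕ) :
    ((adm E R).filter (fun d => d ∣ m)).card ≤ 2 ^ m.primeFactors.card := by
  rw [← card_powerset]
  apply card_le_card_of_injOn (fun d => d.primeFactors)
  · intro d hd
    rw [mem_coe, mem_filter, mem_adm] at hd
    rw [mem_coe, mem_powerset]
    exact Nat.primeFactors_mono hd.2 hm
  · intro d hd e he hde
    rw [mem_coe, mem_filter, mem_adm] at hd he
    beta_reduce at hde
    rw [← Nat.prod_primeFactors_of_squarefree hd.1.2.1, ← Nat.prod_primeFactors_of_squarefree he.1.2.1, hde]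

lemma VV_rg_le {δ X : ℝ} (hδ : 0 < δ) (hX : 4 ≤ X) (hL : 1 ≤ LL X) {m : ℕ} (hm : 1 ≤ m) (hmX : (m : ℝ) ≤ 4 * X)
    (h : Rg δ X m) (E : Finset ℕ) (R : ℕ) (F : ℝ → ℝ) (hF : ∀ x, |F x| ≤ 1) :
    |VVm E R (LL X) F (m : ℤ)| ≤ 2 ^ ⌈400 / δ⌉₊ := by
  classical
  unfold VVm
  refine (abs_sum_le_sum_abs _ _).trans ?_
  have h1 : ∀ d ∈ adm E R, |if (d : ℤ) ∣ (m : ℤ) then ((ArithmeticFunction.moebius d : ℤ) : ℝ) * F (Real.log d / LL X) else 0| ≤
      if d ∣ m then 1 else 0 := by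
    intro d _
    by_cases hd : d ∣ m
    · rw [if_pos (Int.natCast_dvd_natCast.2 hd), if_pos hd, abs_mul]
      have hm : |((ArithmeticFunction.moebius d : ℤ) : ℝ)| ≤ 1 := by
        rw [← Int.cast_abs]
        exact_mod_cast ArithmeticFunction.abs_moebius_le_one
      calc |((ArithmeticFunction.moebius d : ℤ) : ℝ)| * |F (Real.log d / LL X)| ≤ 1 * 1 := by
            apply mul_le_mul hm (hF _) (abs_nonneg _) zero_le_one
        _ = 1 := one_mul 1
    · rw [if_neg (fun h => hd (Int.natCast_dvd_natCast.1 h)), if_neg hd, abs_zero]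
  refine (sum_le_sum h1).trans ?_
  rw [← sum_filter, sum_const, nsmul_eq_mul, mul_one]
  calc (((adm E R).filter (fun d => d ∣ m)).card : ℝ) ≤ 2 ^ m.primeFactors.card := by
        exact_mod_cast card_sqf_div (by omega) E R
    _ ≤ 2 ^ ⌈400 / δ⌉₊ := pow_le_pow_right₀ (by norm_num) (rg_omega hδ hX hL hm hmX h)

lemma VV_rg_eq {δ X s : ℝ} (hs0 : 0 < s) (hsδ : s ≤ δ) (hL : 1 ≤ LL X) {m : ℕ}
    (h : Rg δ X m) (E : Finset ℕ) (R : ℕ) (hR : 1 ≤ R) :
    VVm E R (LL X) (hs s) (m : ℤ) = 1 := by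
  have hL0 : 0 < LL X := by linarith
  unfold VVm
  rw [sum_eq_single 1]
  · simp [hs_at_zero]
  · intro d hd hne
    rw [mem_adm] at hd
    by_cases hdm : (d : ℤ) ∣ (m : ℤ)
    · rw [if_pos hdm]
      obtain ⟨p, hp, hpd⟩ := Nat.exists_prime_and_dvd hne
      have h1 := rg_prime h hp (hpd.trans (Int.natCast_dvd_natCast.1 hdm))
      have h2 : (p : ℝ) ≤ d := by exact_mod_cast Nat.le_of_dvd hd.1.1 hpd
      have h3 : δ * LL X ≤ Real.log d := by
        have h4 : Real.exp (δ * LL X) ≤ d := by linarith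
        have := Real.log_le_log (Real.exp_pos _) h4
        rwa [Real.log_exp] at this
      have h5 : s ≤ |Real.log d / LL X| := by
        refine le_trans ?_ (le_abs_self _)
        rw [le_div_iff₀ hL0]
        nlinarith
      rw [hs_zero hs0 h5, mul_zero]
    · rw [if_neg hdm]
  · intro h1
    exfalso
    apply h1
    rw [mem_adm]
    refine ⟨⟨le_rfl, hR⟩, squarefree_one, fun p _ hp h2 => hp.one_lt.ne' (Nat.dvd_one.1 h2)⟩

open Classical in
/-- many `n` with several primes and no small prime factor, counted without weight -/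
theorem pos1 (k : ℕ) : ∃ K : ℕ, 1 ≤ K ∧ ∃ δ : ℝ, 0 < δ ∧ δ ≤ 1 / 10 ∧ ∃ c0 : ℝ, 0 < c0 ∧ ∃ z : ℕ, ∀ᶠ X : ℝ in atTop,
    ∀ (W : ℕ) (E : Finset ℕ) (a0 : ℕ) (t : Fin K → ℕ), CS X z W E → Squarefree W → DT E t →
      (∀ j, (a0 + t j).Coprime W) → (∀ j, (t j : ℝ) ≤ Real.sqrt X) →
      (∑ p ∈ E.filter (fun p => ¬ p ∣ W), (1 : ℝ) / p ≤ δ) → (W.totient : ℝ) ≤ 2 * (W * BE E) →
      c0 * QQ K X W E ≤ ∑ n ∈ Icc 1 ⌊3 * X⌋₊, nu X W a0 n *
        (if (k + 1 ≤ (univ.filter (fun j => (n + t j).Prime)).card) ∧ (∀ j, Rg δ X (n + t j)) then 1 else 0) := by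
  obtain ⟨K0, B, f, A, hf1, δ, hδ, hδ1, c0, hc0, z, h⟩ := positivity k
  set D : ℝ := ((A.card : ℝ) * (2 ^ ⌈400 / δ⌉₊) ^ (K0 + 1)) ^ 2 + 1 with hD
  have hD0 : 0 < D := by positivity
  refine ⟨K0 + 1, by omega, δ, hδ, hδ1, c0 / D, by positivity, z, ?_⟩
  filter_upwards [h, eventually_ge_atTop 4, LL_tendsto.eventually_ge_atTop 1] with X h1 h4 h6
  intro W E a0 t hCS hWsq hDT hcop ht hE1 hBW
  have h2 := h1 W E a0 t hCS hWsq hDT hcop ht hE1 hBW
  rw [div_mul_eq_mul_div, div_le_iff₀ hD0, sum_mul]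
  refine h2.trans ?_
  apply sum_le_sum
  intro n hn
  rw [mem_Icc] at hn
  have hn3 : (n : ℝ) ≤ 3 * X := (Nat.le_floor_iff (by linarith)).1 hn.2
  have hnu := nu_nonneg X W a0 n
  rw [mul_assoc]
  apply mul_le_mul_of_nonneg_left _ hnu
  by_cases hc : (k + 1 ≤ (univ.filter (fun j => (n + t j).Prime)).card) ∧ (∀ j, ∀ p ∈ PS δ X, ¬ p ∣ n + t j)
  · have hc' : (k + 1 ≤ (univ.filter (fun j => (n + t j).Prime)).card) ∧ (∀ j, Rg δ X (n + t j)) := hc
    rw [if_pos hc, if_pos hc', one_mul]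
    have hsq : Real.sqrt X ≤ X := by
      rw [Real.sqrt_le_left (by linarith)]
      nlinarith
    have hV : ∀ (j : Fin (K0 + 1)) (l : Fin B), |VVm E (RR X) (LL X) (f l) ((n : ℤ) + t j)| ≤ 2 ^ ⌈400 / δ⌉₊ := by
      intro j l
      have e : (n : ℤ) + t j = ((n + t j : ℕ) : ℤ) := by push_cast; ring
      rw [e]
      apply VV_rg_le hδ h4 h6 (by omega) _ (hc'.2 j) E _ _ (hf1 l)
      push_cast
      have := ht j
      linarith
    have habs : |sqw E X f A (fun j => (n : ℤ) + t j)| ≤ (A.card : ℝ) * (2 ^ ⌈400 / δ⌉₊) ^ (K0 + 1) := by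
      unfold sqw
      refine (abs_sum_le_sum_abs _ _).trans ?_
      rw [← nsmul_eq_mul]
      apply sum_le_card_nsmul
      intro a _
      rw [abs_prod]
      calc ∏ j : Fin (K0 + 1), |VVm E (RR X) (LL X) (f (a j)) ((n : ℤ) + t j)| ≤ ∏ _j : Fin (K0 + 1), (2:ℝ) ^ ⌈400 / δ⌉₊ :=
            Finset.prod_le_prod (fun j _ => abs_nonneg _) (fun j _ => hV j (a j))
        _ = _ := by rw [prod_const, card_univ, Fintype.card_fin]
    have hsqw : sqw E X f A (fun j => (n : ℤ) + t j) ^ 2 ≤ ((A.card : ℝ) * (2 ^ ⌈400 / δ⌉₊) ^ (K0 + 1)) ^ 2 := by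
      rw [← sq_abs]
      exact pow_le_pow_left₀ (abs_nonneg _) habs 2
    rw [hD]
    linarith
  · have hc' : ¬ ((k + 1 ≤ (univ.filter (fun j => (n + t j).Prime)).card) ∧ (∀ j, Rg δ X (n + t j))) := hc
    rw [if_neg hc, if_neg hc', zero_mul]

open Classical in
/-- few `n` with all `n + t_j` free of small prime factors -/
theorem rough_up (J : ℕ) {δ : ℝ} (hδ : 0 < δ) : ∃ C : ℝ, 0 < C ∧ ∃ z : ℕ, ∀ᶠ X : ℝ in atTop,
    ∀ (W : ℕ) (E : Finset ℕ) (a0 : ℕ) (t : Fin J → ℕ), CS X z W E → DT E t →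
      ∑ n ∈ Icc 1 ⌊3 * X⌋₊, nu X W a0 n * (if ∀ j, Rg δ X (n + t j) then 1 else 0) ≤ C * QQ J X W E := by
  set s : ℝ := min δ (1 / (J + 2)) with hs_def
  have hs0 : 0 < s := lt_min hδ (by positivity)
  have hsδ : s ≤ δ := min_le_left _ _
  have hsJ : s ≤ 1 / (J + 2) := min_le_right _ _
  have hs2 : s ≤ 1 / 2 := by
    refine hsJ.trans ?_
    apply one_div_le_one_div_of_le (by norm_num)
    have : (0:ℝ) ≤ J := Nat.cast_nonneg J
    linarith
  set f : Fin 1 → ℝ → ℝ := fun _ => hs s with hf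
  set A : Finset (Fin J → Fin 1) := {fun _ => 0} with hA
  obtain ⟨z, h⟩ := S1up f (fun _ => s) A (fun _ => hs_smooth s) (fun _ => hs_compact hs0)
    (fun _ x hx => hs_zero hs0 (hx.le.trans (le_abs_self x))) (fun _ => ⟨hs0.le, hs2⟩)
    (fun a _ => by
      rw [sum_const, card_univ, Fintype.card_fin, nsmul_eq_mul]
      calc (J : ℝ) * s ≤ J * (1 / (J + 2)) := by gcongr
        _ ≤ 1 := by
            rw [mul_one_div, div_le_one (by positivity)]
            linarith) (fun _ x => hs_abs_le s x) 1 one_pos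
  refine ⟨|II f A| + 2, by positivity, z, ?_⟩
  have h9 := Real.tendsto_log_atTop.eventually (ev_pow_exp 3 (1 / 700) 1 (by norm_num))
  filter_upwards [h, exp_err J 5 1 one_pos, LL_tendsto.eventually_ge_atTop 1, h9] with X h1 h2 h6 h9
  intro W E a0 t hCS hDT
  have hWle : (W : ℝ) ≤ Real.exp (Real.log X / 700) := by
    refine hCS.le.trans ?_
    rw [one_mul] at h9
    calc Real.log X ^ 3 ≤ Real.exp (1 / 700 * Real.log X) := h9
      _ = _ := by ring_nf
  have k1 := h1 W E a0 t ⟨hCS.gs.toGE h6, hCS.pos, hWle, hCS.dv⟩ hDT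
  have k2 := h2 W E hCS.pos hCS.le hCS.gs.pr
  have hW0 : (0:ℝ) < W := by exact_mod_cast hCS.pos
  have hBE : 0 < BE E := BE_pos hCS.gs.pr
  have hL0 : 0 < LL X := by linarith
  have hMP := MPhi_nonneg X
  have hQ0 : 0 ≤ QQ J X W E := by unfold QQ; positivity
  have hR : 1 ≤ RR X := by
    unfold RR
    apply Nat.le_floor
    rw [Nat.cast_one]
    exact Real.one_le_exp (by linarith)
  have k3 : ∀ n ∈ Icc 1 ⌊3 * X⌋₊, nu X W a0 n * (if ∀ j, Rg δ X (n + t j) then 1 else 0) ≤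
      nu X W a0 n * sqw E X f A (fun j => (n : ℤ) + t j) ^ 2 := by
    intro n _
    apply mul_le_mul_of_nonneg_left _ (nu_nonneg X W a0 n)
    split_ifs with hc
    · have e : sqw E X f A (fun j => (n : ℤ) + t j) = 1 := by
        unfold sqw
        rw [hA, sum_singleton]
        apply prod_eq_one
        intro j _
        have e : (n : ℤ) + t j = ((n + t j : ℕ) : ℤ) := by push_cast; ring
        beta_reduce
        rw [e]
        exact VV_rg_eq hs0 hsδ h6 (hc j) E _ hR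
      rw [e]; norm_num
    · exact sq_nonneg _
  refine (sum_le_sum k3).trans (k1.trans ?_)
  have e1 : (A.card : ℝ) = 1 := by rw [hA, card_singleton]; norm_num
  rw [e1]
  have e2 : MPhi X * (1 / (W:ℝ)) * (1 / (LL X * BE E) ^ J) = QQ J X W E := rfl
  rw [e2] at k2 ⊢
  have e3 : 5 * Real.exp (2 * LL X) ≤ 5 * Real.exp (3 * LL X) := by
    have : Real.exp (2 * LL X) ≤ Real.exp (3 * LL X) := Real.exp_le_exp.2 (by linarith)
    linarith
  have e4 : QQ J X W E * (II f A + 1) ≤ QQ J X W E * (|II f A| + 1) := by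
    apply mul_le_mul_of_nonneg_left _ hQ0
    linarith [le_abs_self (II f A)]
  calc _ ≤ QQ J X W E * (|II f A| + 1) + 1 * QQ J X W E := by
        rw [one_pow, one_mul]
        linarith
    _ = _ := by ring

end Pool.Agent.H387R2.MB
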