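import Mathlib

set_option autoImplicit false

open Finset

namespace Pool.Agent.H387R2.MB

/-- the number of `1 ≤ n ≤ N` with `n + t` prime for all `t ∈ T` -/
def piN (N : ℕ) (T : Finset ℕ) : ℕ := ((Icc 1 N).filter (fun n => ∀ t ∈ T, (n + t).Prime)).card

end Pool.Agent.H387R2.MB
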