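import Pool.Agent.H387R2.MB14
import Pool.Agent.H387R2.MBDefs

set_option autoImplicit false

open Finset Filter Topology

namespace Pool.Agent.H387R2.MB

open Pool.Agent.H378R2

/-- lower bound for the sum over subsets -/
lemma sum_choose_ge {I : Finset ℕ} (x : ℕ → ℕ) (k : ℕ) {S G : ℝ} (hS : S ≤ ∑ b ∈ I, (x b : ℝ))
    (hG : (I.card : ℝ) ≤ G) (hG0 : 0 < G) (hk : k * G ≤ S / 2) (hS0 : 0 ≤ S) :
    (S / 2) ^ (k + 1) / G ^ k / (k + 1).factorial ≤ ∑ b ∈ I, (((x b).choose (k + 1) : ℕ) : ℝ) := by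
  have hf : (0:ℝ) < (k + 1).factorial := by exact_mod_cast Nat.factorial_pos _
  have h3 : ∀ b ∈ I, (max ((x b : ℝ) - k) 0) ^ (k + 1) / (k + 1).factorial ≤ (((x b).choose (k + 1) : ℕ) : ℝ) := by
    intro b _
    have h4 := Nat.pow_le_choose (α := ℝ) (k + 1) (x b)
    have h5 : ((x b + 1 - (k + 1) : ℕ) : ℝ) = max ((x b : ℝ) - k) 0 := by
      rcases le_or_gt k (x b) with h | h
      · rw [show x b + 1 - (k + 1) = x b - k by omega, Nat.cast_sub h, max_eq_left]
        have : (k:ℝ) ≤ x b := by exact_mod_cast h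
        linarith
      · rw [show x b + 1 - (k + 1) = 0 by omega, Nat.cast_zero, max_eq_right]
        have : (x b:ℝ) ≤ k := by exact_mod_cast h.le
        linarith
    rw [h5] at h4
    exact h4
  refine le_trans ?_ (sum_le_sum h3)
  rw [← sum_div]
  apply div_le_div_of_nonneg_right _ hf.le
  have h4 := pow_sum_div_card_le_sum_pow (s := I) (f := fun b => max ((x b : ℝ) - k) 0)
    (fun b _ => le_max_right _ _) k
  have h5 : S / 2 ≤ ∑ b ∈ I, max ((x b : ℝ) - k) 0 := by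
    have hk0 : (0:ℝ) ≤ k := Nat.cast_nonneg k
    have h6 : (k:ℝ) * I.card ≤ S / 2 := by
      refine le_trans ?_ hk
      exact mul_le_mul_of_nonneg_left hG hk0
    calc S / 2 ≤ ∑ b ∈ I, (x b : ℝ) - ∑ _b ∈ I, (k:ℝ) := by rw [sum_const, nsmul_eq_mul]; linarith
      _ = ∑ b ∈ I, ((x b : ℝ) - k) := by rw [sum_sub_distrib]
      _ ≤ _ := sum_le_sum fun b _ => le_max_left _ _
  rcases Nat.eq_zero_or_pos I.card with h0 | h0
  · have h7 : I = ∅ := card_eq_zero.1 h0
    rw [h7, sum_empty] at h5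
    have h8 : S / 2 = 0 := le_antisymm h5 (by linarith)
    rw [h8, zero_pow (by omega), zero_div, h7, sum_empty]
  · have hI : (0:ℝ) < I.card := by exact_mod_cast h0
    refine le_trans ?_ h4
    calc (S / 2) ^ (k + 1) / G ^ k ≤ (∑ b ∈ I, max ((x b : ℝ) - k) 0) ^ (k + 1) / G ^ k := by
          apply div_le_div_of_nonneg_right _ (by positivity)
          exact pow_le_pow_left₀ (by linarith) h5 _
      _ ≤ (∑ b ∈ I, max ((x b : ℝ) - k) 0) ^ (k + 1) / (I.card : ℝ) ^ k := by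
          apply div_le_div_of_nonneg_left _ (by positivity)
          · exact pow_le_pow_left₀ hI.le hG _
          · exact pow_nonneg (sum_nonneg fun b _ => le_max_right _ _) _

/-- algebra for the lower bound of the sum of the constants -/
lemma alg5 {ρ W v a : ℝ} (k : ℕ) (hρ : 0 < ρ) (hW : 0 < W) (hv : 0 < v) :
    (1 / 2) ^ (k + 1) / (3 / 2) ^ k / (k + 1).factorial / 2 * (1 / v) ^ k * a ^ (k + 1) =
    (1 / ρ) ^ (k + 1) / W / 2 * ((a * (ρ * W) / 2) ^ (k + 1) / (3 / 2 * (v * W)) ^ k / (k + 1).factorial) := by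
  have e1 : (a * (ρ * W) / 2) ^ (k + 1) = a ^ (k + 1) * (ρ ^ (k + 1) * W ^ (k + 1)) * (1 / 2) ^ (k + 1) := by
    rw [div_eq_mul_one_div, mul_pow, mul_pow, mul_pow]
  have e2 : (3 / 2 * (v * W)) ^ k = (3 / 2) ^ k * (v ^ k * W ^ k) := by
    rw [mul_pow, mul_pow]
  have e3 : W ^ (k + 1) = W ^ k * W := pow_succ W k
  rw [e1, e2, e3, one_div_pow, one_div_pow v, one_div_pow ρ]
  field_simp

/-- lower bound for the sum of the constants -/
theorem CT_sum_ge (k : ℕ) {lam : ℝ} (hlam : 0 < lam) (q : ℕ) (hq : 1 ≤ q) (C : ℝ) : ∀ᶠ N : ℕ in atTop,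
    ∀ (r : ℕ) (A : Finset ℕ), (∀ a ∈ A, a ≡ r [MOD q]) → (∀ a ∈ A, a ≤ ⌊Real.log N ^ C⌋₊) →
      lam * ((Nat.totient q : ℝ) / q) * Real.log N ≤ A.card →
      (1 / 2) ^ (k + 1) / (3 / 2) ^ k / (k + 1).factorial / 2 * ((q : ℝ) / Nat.totient q) ^ k * (A.card : ℝ) ^ (k + 1) ≤
        ∑ T ∈ A.powersetCard (k + 1), Uni.CT T := by
  classical
  have tN : Tendsto (fun N : ℕ => (N : ℝ)) atTop atTop := tendsto_natCast_atTop_atTop
  have tL : Tendsto (fun N : ℕ => Real.log (N : ℝ)) atTop atTop := Real.tendsto_log_atTop.comp tN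
  have tu : Tendsto (fun N : ℕ => Real.log (Real.log (N : ℝ))) atTop atTop := Real.tendsto_log_atTop.comp tL
  have ty : Tendsto (fun N : ℕ => ⌊Real.log (Real.log (N : ℝ))⌋₊) atTop atTop :=
    tendsto_nat_floor_atTop.comp tu
  have e1 := tu.eventually (ev_pow_exp 1 1 ((3 * k + 1 : ℝ) / lam) (by norm_num))
  filter_upwards [Uni.par_eventually k C (by norm_num : (0:ℝ) < 1 / 2) (by norm_num) q,
    ty.eventually_ge_atTop (2 * (k + 1) ^ 2), e1, tu.eventually_ge_atTop 1] with N hP h8 h9 h10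
  intro r A hAr hAM hcard
  set y := ⌊Real.log (Real.log (N:ℝ))⌋₊ with hy
  set W := Uni.WW y with hW
  set L := Real.log (N:ℝ) with hL
  have hL1 : 1 ≤ L := hP.hL
  have hL0 : 0 < L := by linarith
  have hρ := rho_pos y
  have hWpos : 0 < W := Uni.WW_pos y
  have hW0 : (0:ℝ) < W := by exact_mod_cast hWpos
  have hk0 : (0:ℝ) ≤ k := Nat.cast_nonneg k
  have hy1 : 1 ≤ y := by
    have : 1 ≤ (k + 1) ^ 2 := Nat.one_le_pow _ _ (by omega)
    omega
  have hy0 : (0:ℝ) < y := by exact_mod_cast hy1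
  set u := Real.log L with hu
  have hu0 : 0 < u := by linarith
  have hyu : (y:ℝ) ≤ u := Nat.floor_le hu0.le
  have hφW : ((W : ℝ) / Nat.totient W) = 1 / rho y := by
    unfold rho
    rw [← hW, one_div_div]
  have hq0 : (0:ℝ) < q := by exact_mod_cast hq
  have hφq : (0:ℝ) < Nat.totient q := by exact_mod_cast Nat.totient_pos.2 hq
  have hz : ∀ b ∈ range W, b ∉ Uni.gd W q r → Uni.Ab W A b = ∅ := by
    intro b hb hb'
    apply Uni.Ab_empty hW hP.hqy hq hAr
    intro h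
    exact hb' (mem_filter.2 ⟨hb, h⟩)
  have hgd : Uni.gd W q r ⊆ range W := filter_subset _ _
  have g1 : ∑ b ∈ Uni.gd W q r, ((Uni.Ab W A b).card : ℝ) = ∑ b ∈ range W, ((Uni.Ab W A b).card : ℝ) :=
    sum_subset hgd fun b hb hb' => by rw [hz b hb hb']; simp
  have g2 : ∑ b ∈ range W, ((Uni.Ab W A b).card : ℝ) = A.card * Nat.totient W := by
    exact_mod_cast Uni.sum_card_Ab W A
  have g3 : (Nat.totient W : ℝ) = rho y * W := by
    unfold rho
    rw [← hW]
    field_simp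
  have g4 : ((Uni.gd W q r).card : ℝ) ≤ (3 / 2) * (Nat.totient q / q * W) := by
    have h7 : ((Uni.gd W q r).card : ℝ) ≤ Nat.totient q * ((W / q : ℕ) + 1) := by exact_mod_cast Uni.card_gd W q r hq
    have h8 : ((W / q : ℕ) : ℝ) ≤ W / q := Nat.cast_div_le
    have h9 : (1:ℝ) ≤ (1 / 2) * (W / q) := by
      rw [mul_div_assoc', le_div_iff₀ hq0, one_mul]; exact hP.hW4
    calc ((Uni.gd W q r).card : ℝ) ≤ Nat.totient q * ((W / q : ℕ) + 1) := h7
      _ ≤ Nat.totient q * (W / q + (1 / 2) * (W / q)) := by gcongr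
      _ = _ := by field_simp; ring
  have g5 : ∑ T ∈ A.powersetCard (k + 1), (Uni.gT W T : ℝ) = ∑ b ∈ Uni.gd W q r, (((Uni.Ab W A b).card.choose (k + 1) : ℕ) : ℝ) := by
    have g6 : ∑ b ∈ Uni.gd W q r, (((Uni.Ab W A b).card.choose (k + 1) : ℕ) : ℝ) =
        ∑ b ∈ range W, (((Uni.Ab W A b).card.choose (k + 1) : ℕ) : ℝ) :=
      sum_subset hgd fun b hb hb' => by rw [hz b hb hb']; simp
    rw [g6]
    have g7 := Uni.sum_choose (range W) A (k + 1) (fun b a => Nat.Coprime W (b + a))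
    unfold Uni.gT Uni.Ab
    exact_mod_cast g7.symm
  have g8 : 3 * (k:ℝ) ≤ lam * L * rho y := by
    have k1 : 1 / u ≤ rho y := le_trans (one_div_le_one_div_of_le hy0 hyu) (rho_ge hy1)
    have k2 : L = Real.exp u := by rw [hu, hL, Real.exp_log hL0]
    rw [pow_one, one_mul] at h9
    calc 3 * (k:ℝ) ≤ (3 * k + 1 : ℝ) := by linarith
      _ = ((3 * k + 1 : ℝ) / lam * u) * (lam * (1 / u)) := by field_simp
      _ ≤ L * (lam * (1 / u)) := by
          rw [k2]
          exact mul_le_mul_of_nonneg_right h9 (by positivity)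
      _ = lam * L * (1 / u) := by ring
      _ ≤ _ := mul_le_mul_of_nonneg_left k1 (by positivity)
  have g9 : (k:ℝ) * ((3 / 2) * (Nat.totient q / q * W)) ≤ (A.card * (rho y * W)) / 2 := by
    have k1 : 3 * (k:ℝ) * (Nat.totient q / q) ≤ A.card * rho y := by
      calc 3 * (k:ℝ) * (Nat.totient q / q) ≤ (lam * L * rho y) * (Nat.totient q / q) :=
            mul_le_mul_of_nonneg_right g8 (by positivity)
        _ = (lam * ((Nat.totient q : ℝ) / q) * L) * rho y := by ring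
        _ ≤ A.card * rho y := mul_le_mul_of_nonneg_right hcard hρ.le
    have k2 := mul_le_mul_of_nonneg_right k1 (by positivity : 0 ≤ (W:ℝ) / 2)
    calc (k:ℝ) * ((3 / 2) * (Nat.totient q / q * W)) = 3 * (k:ℝ) * (Nat.totient q / q) * ((W:ℝ) / 2) := by ring
      _ ≤ A.card * rho y * ((W:ℝ) / 2) := k2
      _ = _ := by ring
  have g10 := sum_choose_ge (I := Uni.gd W q r) (fun b => (Uni.Ab W A b).card) k (S := A.card * (rho y * W))
    (G := (3 / 2) * (Nat.totient q / q * W)) (by rw [g1, g2, g3]) g4 (mul_pos (by norm_num) (mul_pos (div_pos hφq hq0) hW0)) g9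
    (mul_nonneg (Nat.cast_nonneg _) (mul_nonneg hρ.le hW0.le))
  rw [← g5] at g10
  have g11 : ∀ T ∈ A.powersetCard (k + 1), ((1 / rho y) ^ (k + 1) / W / 2) * (Uni.gT W T : ℝ) ≤ Uni.CT T := by
    intro T hT
    rw [mem_powersetCard] at hT
    have k1 := Uni.CT_ge T y hy1 (by rw [hT.2]; exact h8)
    rw [hT.2, ← hW, hφW] at k1
    refine le_trans (le_of_eq ?_) k1
    ring
  refine le_trans ?_ (sum_le_sum g11)
  rw [← mul_sum]
  refine le_trans ?_ (mul_le_mul_of_nonneg_left g10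
    (div_nonneg (div_nonneg (pow_nonneg (one_div_nonneg.2 hρ.le) _) hW0.le) (by norm_num)))
  have e1 : ((q : ℝ) / Nat.totient q) = 1 / ((Nat.totient q : ℝ) / q) := by rw [one_div_div]
  rw [e1, alg5 k hρ hW0 (div_pos hφq hq0)]

/-- abstract positive proportion -/
lemma proportion {ι : Type*} (P : Finset ι) (s c : ι → ℝ) {a b : ℝ} (ha : 0 < a) (hb : 0 < b) (hc : ∀ T ∈ P, 0 ≤ c T)
    (h1 : a * ∑ T ∈ P, c T ≤ ∑ T ∈ P, s T) (h2 : ∀ T ∈ P, s T ≤ b * c T) [DecidablePred fun T => a / 2 * c T ≤ s T] :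
    a / (2 * b) * ∑ T ∈ P, c T ≤ ∑ T ∈ P.filter (fun T => a / 2 * c T ≤ s T), c T := by
  have h3 := sum_filter_add_sum_filter_not P (fun T => a / 2 * c T ≤ s T) s
  have h4 : ∑ T ∈ P.filter (fun T => a / 2 * c T ≤ s T), s T ≤ b * ∑ T ∈ P.filter (fun T => a / 2 * c T ≤ s T), c T := by
    rw [mul_sum]
    exact sum_le_sum fun T hT => h2 T (mem_filter.1 hT).1
  have h5 : ∑ T ∈ P.filter (fun T => ¬ a / 2 * c T ≤ s T), s T ≤ a / 2 * ∑ T ∈ P, c T := by
    calc _ ≤ ∑ T ∈ P.filter (fun T => ¬ a / 2 * c T ≤ s T), a / 2 * c T := by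
          apply sum_le_sum
          intro T hT
          exact (not_le.1 (mem_filter.1 hT).2).le
      _ ≤ ∑ T ∈ P, a / 2 * c T := by
          apply sum_le_sum_of_subset_of_nonneg (filter_subset _ _)
          intro T hT _
          exact mul_nonneg (by linarith) (hc T hT)
      _ = _ := by rw [mul_sum]
  rw [div_mul_eq_mul_div, div_le_iff₀ (by positivity)]
  linarith

lemma cnt_le_piN (k N M : ℕ) (T : Finset ℕ) : Uni.cnt k (N - M) T ≤ piN N T := by
  unfold Uni.cnt piN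
  apply card_le_card
  apply filter_subset_filter
  intro n hn
  rw [mem_Ioc] at hn
  rw [mem_Icc]
  omega

open Classical in
/-- **Positive proportion at every scale** -/
theorem everyScale (k : ℕ) {lam : ℝ} (hlam : 0 < lam) : ∃ κ : ℝ, 0 < κ ∧ ∀ (q : ℕ) (_ : 1 ≤ q) (C : ℝ),
    ∃ N₀ : ℕ, ∀ N : ℕ, N₀ ≤ N → ∀ (c : ℕ) (A : Finset ℕ), (∀ a ∈ A, a ≡ c [MOD q]) →
      (∀ a ∈ A, (a : ℝ) ≤ Real.log N ^ C) → lam * ((Nat.totient q : ℝ) / q) * Real.log N ≤ A.card →
      κ * ((q : ℝ) / Nat.totient q) ^ k * (A.card : ℝ) ^ (k + 1) ≤ ∑ T ∈ A.powersetCard (k + 1), Uni.CT T ∧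
      κ * ∑ T ∈ A.powersetCard (k + 1), Uni.CT T ≤
        ∑ T ∈ (A.powersetCard (k + 1)).filter
          (fun T => κ * Uni.CT T * (N / Real.log N ^ (k + 1)) ≤ piN N T), Uni.CT T := by
  obtain ⟨c, hc, hmain⟩ := main_low k hlam
  obtain ⟨C1, hC1, hupp⟩ := upp_eventually (k + 1) (δ := 1 / 10) (by norm_num)
  set B : ℝ := 2 ^ ((k + 1) * (k + 1)) with hB
  have hB0 : 0 < B := by positivity
  set c3 : ℝ := 200 ^ (k + 1) / (80 * B) with hc3
  have hc30 : 0 < c3 := by positivity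
  set C4 : ℝ := 400 ^ (k + 1) with hC4
  have hC40 : 0 < C4 := by positivity
  set c5 : ℝ := (1 / 2) ^ (k + 1) / (3 / 2) ^ k / (k + 1).factorial / 2 with hc5
  have hc50 : 0 < c5 := by positivity
  set a : ℝ := c * c3 with ha
  have ha0 : 0 < a := by positivity
  set b : ℝ := C1 * C4 with hb
  have hb0 : 0 < b := by positivity
  set κ : ℝ := min c5 (min (a / (2 * b)) (a / 4)) with hκ
  have hκ0 : 0 < κ := lt_min hc50 (lt_min (by positivity) (by positivity))
  have hκ1 : κ ≤ c5 := min_le_left _ _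
  have hκ2 : κ ≤ a / (2 * b) := (min_le_right _ _).trans (min_le_left _ _)
  have hκ3 : κ ≤ a / 4 := (min_le_right _ _).trans (min_le_right _ _)
  refine ⟨κ, hκ0, fun q hq C => ?_⟩
  have tN : Tendsto (fun N : ℕ => (N : ℝ)) atTop atTop := tendsto_natCast_atTop_atTop
  have tL : Tendsto (fun N : ℕ => Real.log (N : ℝ)) atTop atTop := Real.tendsto_log_atTop.comp tN
  have tu : Tendsto (fun N : ℕ => Real.log (Real.log (N : ℝ))) atTop atTop := Real.tendsto_log_atTop.comp tL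
  have ty : Tendsto (fun N : ℕ => ⌊Real.log (Real.log (N : ℝ))⌋₊) atTop atTop :=
    tendsto_nat_floor_atTop.comp tu
  have tX : Tendsto (fun N : ℕ => (N : ℝ) / 4) atTop atTop := tN.atTop_div_const (by norm_num)
  rw [← eventually_atTop]
  filter_upwards [CT_sum_ge k hlam q hq C, hmain q hq C, hupp C, Uni.par_eventually k C (by norm_num : (0:ℝ) < 1 / 2) (by norm_num) q,
    M_le_sqrt C, (LL_tendsto.comp tX).eventually_ge_atTop 1,
    tX.eventually_ge_atTop (40 + (k + 1)), ty.eventually_ge_atTop (2 * (k + 1) ^ 2), tu.eventually_ge_atTop 1,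
    tN.eventually (Uni.log_pow_small 1 (η := 1 / 4) (by norm_num))]
    with N hsumCT h1 h2 hP h5 h6 h7 h8 h10 h11
  intro r A hAr hAM' hcard
  have hAM : ∀ a ∈ A, a ≤ ⌊Real.log N ^ C⌋₊ := fun a ha => Nat.le_floor (hAM' a ha)
  set M := ⌊Real.log N ^ C⌋₊ with hM
  set X := (N:ℝ) / 4 with hX
  set y := ⌊Real.log (Real.log (N:ℝ))⌋₊ with hy
  set W := Uni.WW y with hW
  set L := Real.log (N:ℝ) with hL
  have hL1 : 1 ≤ L := hP.hL
  have hL0 : 0 < L := by linarith
  have hLL1 : 1 ≤ LL X := h6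
  have hLL0 : 0 < LL X := by linarith
  have hρ := rho_pos y
  have hρ1 := rho_le_one y
  have hWpos : 0 < W := Uni.WW_pos y
  have hW0 : (0:ℝ) < W := by exact_mod_cast hWpos
  have hk0 : (0:ℝ) ≤ k := Nat.cast_nonneg k
  have hX40 : 40 ≤ X := by linarith
  have hX0 : 0 < X := by linarith
  have hNX : (N:ℝ) = 4 * X := by rw [hX]; ring
  have hLLL : L ≤ 400 * LL X := by
    have := log4X (by linarith : 4 ≤ X)
    rw [← hNX] at this
    exact this
  have hLLL2 : 200 * LL X ≤ L := by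
    unfold LL
    rw [show 200 * (Real.log X / 200) = Real.log X by ring, hL]
    apply Real.log_le_log hX0
    linarith
  have hy1 : 1 ≤ y := by
    have : 1 ≤ (k + 1) ^ 2 := Nat.one_le_pow _ _ (by omega)
    omega
  have hy0 : (0:ℝ) < y := by exact_mod_cast hy1
  set u := Real.log (Real.log (N:ℝ)) with hu
  have hu0 : 0 < u := by linarith
  have hyu : (y:ℝ) ≤ u := Nat.floor_le hu0.le
  have huL : u ≤ L := by
    rw [hu]
    exact (Real.log_le_sub_one_of_pos hL0).trans (by linarith)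
  have hLX : L ≤ X := by
    rw [Real.rpow_one] at h11
    rw [hX, hL]
    linarith
  set V : ℝ := N / L ^ (k + 1) with hV
  have hV0 : 0 ≤ V := by positivity
  -- comparison of the local counts with the constants
  have hφW : ((W : ℝ) / Nat.totient W) = 1 / rho y := by
    unfold rho
    rw [← hW, one_div_div]
  have hMl : X / 20 ≤ MPhi X := MPhi_ge X hX40
  have hMu : MPhi X ≤ 2 * X := MPhi_le X (by linarith)
  have hUe : ∀ g : ℝ, g * UU (k + 1) X y = ((1 / rho y) ^ (k + 1) * (g / W)) * (MPhi X / LL X ^ (k + 1)) := by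
    intro g
    unfold UU
    rw [← hW, mul_pow, one_div_pow]
    field_simp
  have hr1 : (200:ℝ) ^ (k + 1) / 80 * V ≤ MPhi X / LL X ^ (k + 1) := by
    rw [hV, hNX]
    have : (200:ℝ) ^ (k + 1) / 80 * (4 * X / L ^ (k + 1)) = (X / 20) / (L / 200) ^ (k + 1) := by
      rw [div_pow]; field_simp; ring
    rw [this]
    apply div_le_div₀ (MPhi_nonneg X) hMl (by positivity)
    apply pow_le_pow_left₀ hLL0.le
    linarith
  have hr2 : MPhi X / LL X ^ (k + 1) ≤ (400:ℝ) ^ (k + 1) / 2 * V := by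
    rw [hV, hNX]
    have : (400:ℝ) ^ (k + 1) / 2 * (4 * X / L ^ (k + 1)) = (2 * X) / (L / 400) ^ (k + 1) := by
      rw [div_pow]; field_simp; ring
    rw [this]
    apply div_le_div₀ (by positivity) hMu (by positivity)
    apply pow_le_pow_left₀ (by positivity)
    linarith
  have hlo : ∀ T ∈ A.powersetCard (k + 1), c3 * V * Uni.CT T ≤ (Uni.gT W T : ℝ) * UU (k + 1) X y := by
    intro T hT
    rw [mem_powersetCard] at hT
    have k1 := Uni.CT_le T y (K := 2) (by norm_num) (M := M) (fun t ht => hAM t (hT.1 ht))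
      (fun n hn1 hn2 => (hP.htt n hn1 hn2).trans (by norm_num))
    rw [hT.2, ← hW, hφW, ← hB] at k1
    rw [hUe]
    set z := (1 / rho y) ^ (k + 1) * ((Uni.gT W T : ℝ) / W) with hz
    have hz0 : 0 ≤ z := by positivity
    calc c3 * V * Uni.CT T ≤ c3 * V * (B * z) := mul_le_mul_of_nonneg_left k1 (by positivity)
      _ = z * ((200:ℝ) ^ (k + 1) / 80 * V) := by rw [hc3]; field_simp
      _ ≤ z * (MPhi X / LL X ^ (k + 1)) := mul_le_mul_of_nonneg_left hr1 hz0
  have hhi : ∀ T ∈ A.powersetCard (k + 1), (Uni.gT W T : ℝ) * UU (k + 1) X y ≤ C4 * V * Uni.CT T := by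
    intro T hT
    rw [mem_powersetCard] at hT
    have k1 := Uni.CT_ge T y hy1 (by rw [hT.2]; exact h8)
    rw [hT.2, ← hW, hφW] at k1
    rw [hUe]
    set z := (1 / rho y) ^ (k + 1) * ((Uni.gT W T : ℝ) / W) with hz
    have hz0 : 0 ≤ z := by positivity
    calc z * (MPhi X / LL X ^ (k + 1)) ≤ z * ((400:ℝ) ^ (k + 1) / 2 * V) := mul_le_mul_of_nonneg_left hr2 hz0
      _ = C4 * V * (z / 2) := by rw [hC4]; ring
      _ ≤ C4 * V * Uni.CT T := mul_le_mul_of_nonneg_left k1 (by positivity)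
  have hCT : ∀ T ∈ A.powersetCard (k + 1), 0 ≤ Uni.CT T := fun T _ => Uni.CT_nonneg T
  -- the three properties of `ST`
  have p1 : a * ∑ T ∈ A.powersetCard (k + 1), V * Uni.CT T ≤ ∑ T ∈ A.powersetCard (k + 1), ST N T := by
    refine le_trans ?_ (h1 r A hAr hAM hcard)
    rw [ha, mul_sum, mul_sum]
    apply sum_le_sum
    intro T hT
    have := mul_le_mul_of_nonneg_left (hlo T hT) hc.le
    calc c * c3 * (V * Uni.CT T) = c * (c3 * V * Uni.CT T) := by ring
      _ ≤ _ := this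
      _ = _ := by ring
  have hMX : (M:ℝ) ≤ X := by
    refine h5.trans ?_
    rw [Real.sqrt_le_left hX0.le, sq]
    calc X = X * 1 := (mul_one X).symm
      _ ≤ X * X := mul_le_mul_of_nonneg_left (by linarith) hX0.le
  have p2 : ∀ T ∈ A.powersetCard (k + 1), ST N T ≤ b * (V * Uni.CT T) := by
    intro T hT
    have hT' := mem_powersetCard.1 hT
    have k1 := ST_le h2 hC1.le T hT'.2 (fun t ht => hAM t (hT'.1 ht)) hLL0.le (hyu.trans (huL.trans hLX)) hX0 (by
      calc Real.exp (1 / 10 * LL X) ≤ Real.exp (Real.log X) := by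
            apply Real.exp_le_exp.2
            unfold LL
            have : 0 ≤ Real.log X := Real.log_nonneg (by linarith)
            linarith
        _ = X := Real.exp_log hX0)
    refine k1.trans ?_
    have := mul_le_mul_of_nonneg_left (hhi T hT) hC1.le
    calc (Uni.gT W T : ℝ) * (C1 * UU (k + 1) X y) = C1 * ((Uni.gT W T : ℝ) * UU (k + 1) X y) := by ring
      _ ≤ C1 * (C4 * V * Uni.CT T) := this
      _ = _ := by rw [hb]; ring
  have p3 : ∀ T ∈ A.powersetCard (k + 1), ST N T ≤ piN N T := by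
    intro T hT
    have hT' := mem_powersetCard.1 hT
    refine (ST_le_cnt (k := k) (M := M) T (by linarith) hMX).trans ?_
    exact_mod_cast cnt_le_piN k N M T
  refine ⟨?_, ?_⟩
  · refine le_trans ?_ (hsumCT r A hAr hAM hcard)
    have : 0 ≤ ((q : ℝ) / Nat.totient q) ^ k := by positivity
    exact mul_le_mul_of_nonneg_right (mul_le_mul_of_nonneg_right hκ1 this) (pow_nonneg (Nat.cast_nonneg _) _)
  · have hN0 : (0:ℝ) < N := by rw [hNX]; exact mul_pos (by norm_num) hX0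
    have hV1 : 0 < V := by positivity
    have k1 := proportion (A.powersetCard (k + 1)) (fun T => ST N T) (fun T => V * Uni.CT T) ha0 hb0
      (fun T hT => mul_nonneg hV0 (hCT T hT)) p1 p2
    have k2 : a / (2 * b) * ∑ T ∈ A.powersetCard (k + 1), Uni.CT T ≤
        ∑ T ∈ (A.powersetCard (k + 1)).filter (fun T => a / 2 * (V * Uni.CT T) ≤ ST N T), Uni.CT T := by
      rw [← mul_sum, ← mul_sum] at k1
      have : V * (a / (2 * b) * ∑ T ∈ A.powersetCard (k + 1), Uni.CT T) ≤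
        V * ∑ T ∈ (A.powersetCard (k + 1)).filter (fun T => a / 2 * (V * Uni.CT T) ≤ ST N T), Uni.CT T := by
        refine le_trans (le_of_eq ?_) k1
        ring
      exact le_of_mul_le_mul_left this hV1
    have k3 : κ * ∑ T ∈ A.powersetCard (k + 1), Uni.CT T ≤ a / (2 * b) * ∑ T ∈ A.powersetCard (k + 1), Uni.CT T :=
      mul_le_mul_of_nonneg_right hκ2 (sum_nonneg hCT)
    refine k3.trans (k2.trans ?_)
    apply sum_le_sum_of_subset_of_nonneg
    · intro T hT
      rw [mem_filter] at hT ⊢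
      refine ⟨hT.1, ?_⟩
      have k4 := hCT T hT.1
      calc κ * Uni.CT T * (N / L ^ (k + 1)) ≤ a / 4 * Uni.CT T * V :=
            mul_le_mul_of_nonneg_right (mul_le_mul_of_nonneg_right hκ3 k4) hV0
        _ ≤ a / 2 * Uni.CT T * V :=
            mul_le_mul_of_nonneg_right (mul_le_mul_of_nonneg_right (by linarith) k4) hV0
        _ = a / 2 * (V * Uni.CT T) := by ring
        _ ≤ ST N T := hT.2
        _ ≤ _ := p3 T hT.1
    · intro T hT _
      exact Uni.CT_nonneg T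

end Pool.Agent.H387R2.MB
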