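import Pool.Agent.H387R2.U3

set_option autoImplicit false

open Finset Filter Topology

namespace Pool.Agent.H387R2.Uni

/-- all conditions on `N` -/
structure Par (k : ℕ) (C δ : ℝ) (q N M y : ℕ) : Prop where
  hL : 1 ≤ Real.log N
  hM : M = ⌊Real.log N ^ C⌋₊
  hMN : M ≤ N
  hN' : (1 - δ) * N ≤ ((N - M : ℕ) : ℝ)
  hpi : (1 - δ) * (N / Real.log N) ≤ H343E.pi1 (N - M)
  herr : ((N - M : ℕ) : ℝ) / Real.log ((N - M : ℕ) : ℝ) ^ 6 + M + (k + 2) ≤ δ * (N / Real.log N ^ 3)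
  hSW : ∀ W : ℕ, 1 ≤ W → (W : ℝ) ≤ Real.log ((N - M : ℕ) : ℝ) ^ 2 → ∀ a : ℕ, a < W → a.Coprime W →
    |H343E.piAP (N - M) W a - H343E.pi1 (N - M) / (Nat.totient W : ℝ)| ≤
      ((N - M : ℕ) : ℝ) / Real.log ((N - M : ℕ) : ℝ) ^ 6
  hW1 : (WW y : ℝ) ≤ Real.log ((N - M : ℕ) : ℝ) ^ 2
  hW2 : (WW y : ℝ) ≤ Real.log N ^ 2
  hW3 : (WW y : ℝ) + (k + 2) ≤ δ * N
  hW4 : (q : ℝ) ≤ δ * WW y
  hqy : q ≤ y
  htt : ∀ n : ℕ, 1 ≤ n → n ≤ M → Pool.Agent.H386R2.HL.tt y n ≤ 1 + δ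

lemma WW_eq_primorial (y : ℕ) : WW y = primorial y := rfl

lemma WW_le (y : ℕ) : WW y ≤ 4 ^ y := by
  rw [WW_eq_primorial]; exact primorial_le_four_pow y

lemma le_WW {y : ℕ} (hy : 2 ≤ y) : y ≤ 2 * WW y := by
  obtain ⟨p, hp, h1, h2⟩ := Nat.exists_prime_lt_and_le_two_mul (y / 2) (by omega)
  have h3 : p ∣ WW y := by
    unfold WW
    apply dvd_prod_of_mem
    rw [Nat.mem_primesBelow]
    exact ⟨by omega, hp⟩
  have h4 := Nat.le_of_dvd (WW_pos y) h3
  omega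

set_option maxHeartbeats 4000000 in
lemma par_eventually (k : ℕ) (C : ℝ) {δ : ℝ} (hδ : 0 < δ) (hδ1 : δ ≤ 1 / 2) (q : ℕ) :
    ∀ᶠ N : ℕ in atTop, Par k C δ q N ⌊Real.log N ^ C⌋₊ ⌊Real.log (Real.log N)⌋₊ := by
  have tN : Tendsto (fun N : ℕ => (N : ℝ)) atTop atTop := tendsto_natCast_atTop_atTop
  have tL : Tendsto (fun N : ℕ => Real.log (N : ℝ)) atTop atTop := Real.tendsto_log_atTop.comp tN
  have tLL : Tendsto (fun N : ℕ => Real.log (Real.log (N : ℝ))) atTop atTop := Real.tendsto_log_atTop.comp tL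
  have ty : Tendsto (fun N : ℕ => ⌊Real.log (Real.log (N : ℝ))⌋₊) atTop atTop :=
    tendsto_nat_floor_atTop.comp tLL
  have e1 := tN.eventually (log_pow_small C (η := δ / 4) (by positivity))
  have e2 := tN.eventually (log_pow_small (C + 3) (η := δ / 4) (by positivity))
  have e3 := tN.eventually (log_pow_small 3 (η := δ / (4 * (k + 3))) (by positivity))
  have e4 := tL.eventually (eventually_ge_atTop (max 16 (256 / δ)))
  have e4' := tN.eventually (log_pow_small 2 (η := δ / 4) (by positivity))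
  have e5 := ty.eventually (eventually_ge_atTop (max 2 (max q ⌈2 * (q : ℝ) / δ⌉₊)))
  have e6 := tLL.eventually (eventually_ge_atTop 2)
  -- shifted argument
  have tN' : Tendsto (fun N : ℕ => N - ⌊Real.log (N : ℝ) ^ C⌋₊) atTop atTop := by
    refine tendsto_atTop.2 fun b => ?_
    filter_upwards [e1, eventually_ge_atTop (2 * b + 1), e4] with N h1 h2 h3
    have h4 : (⌊Real.log (N : ℝ) ^ C⌋₊ : ℝ) ≤ Real.log (N : ℝ) ^ C :=
      Nat.floor_le (Real.rpow_nonneg (by linarith [le_max_left (16:ℝ) (256 / δ)]) _)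
    have h5 : (⌊Real.log (N : ℝ) ^ C⌋₊ : ℝ) ≤ N / 2 := by
      have : (0:ℝ) ≤ N := Nat.cast_nonneg N
      nlinarith
    have h6 : 2 * ⌊Real.log (N : ℝ) ^ C⌋₊ ≤ N := by
      have : (2:ℝ) * ⌊Real.log (N : ℝ) ^ C⌋₊ ≤ N := by linarith
      exact_mod_cast this
    omega
  obtain ⟨x0, hSW⟩ := siegel
  have e7 := tN'.eventually (eventually_ge_atTop x0)
  have e8 := tN'.eventually (pi1_lower (η := δ / 4) (by positivity))
  have e9 : ∀ᶠ N : ℕ in atTop, 2 * (C * Real.log (Real.log N)) /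
      ((⌊Real.log (Real.log (N : ℝ))⌋₊ : ℝ) * Real.log (⌊Real.log (Real.log (N : ℝ))⌋₊ : ℝ)) ≤ δ / 2 := by
    have t1 : Tendsto (fun N : ℕ => Real.log (⌊Real.log (Real.log (N : ℝ))⌋₊ : ℝ)) atTop atTop :=
      Real.tendsto_log_atTop.comp (tendsto_natCast_atTop_atTop.comp ty)
    filter_upwards [t1.eventually (eventually_ge_atTop (max 1 (8 * |C| / δ))), e6, e5] with N h1 h2 h3
    set u := Real.log (Real.log (N : ℝ)) with hu
    have h4 : u < ⌊u⌋₊ + 1 := Nat.lt_floor_add_one u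
    have h5 : (2:ℝ) ≤ ⌊u⌋₊ := by exact_mod_cast (le_max_left _ _).trans h3
    have h6 : u ≤ 2 * ⌊u⌋₊ := by linarith
    have h7 : 1 ≤ Real.log (⌊u⌋₊ : ℝ) := (le_max_left _ _).trans h1
    have h8 : 8 * |C| / δ ≤ Real.log (⌊u⌋₊ : ℝ) := (le_max_right _ _).trans h1
    rw [div_le_iff₀ (by positivity)]
    rw [div_le_iff₀ hδ] at h8
    have h9 : C * u ≤ |C| * (2 * ⌊u⌋₊) := by
      calc C * u ≤ |C| * u := mul_le_mul_of_nonneg_right (le_abs_self C) (by linarith)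
        _ ≤ |C| * (2 * ⌊u⌋₊) := mul_le_mul_of_nonneg_left h6 (abs_nonneg C)
    have h10 : 8 * |C| * ⌊u⌋₊ ≤ Real.log (⌊u⌋₊ : ℝ) * δ * ⌊u⌋₊ :=
      mul_le_mul_of_nonneg_right h8 (by linarith)
    nlinarith
  filter_upwards [e1, e2, e3, e4, e4', e5, e6, e7, e8, e9, eventually_ge_atTop 3] with N h1 h2 h3 h4 h4' h5 h6 h7 h8 h9 h10
  set L := Real.log (N : ℝ) with hLdef
  set M := ⌊L ^ C⌋₊ with hMdef
  set y := ⌊Real.log L⌋₊ with hydef
  have hL16 : 16 ≤ L := (le_max_left _ _).trans h4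
  have hLd : 256 / δ ≤ L := (le_max_right _ _).trans h4
  have hL0 : 0 < L := by linarith
  have hN0 : (0:ℝ) < N := by positivity
  have hMle : (M : ℝ) ≤ L ^ C := Nat.floor_le (Real.rpow_nonneg hL0.le _)
  have hMN1 : (M : ℝ) ≤ δ / 4 * N := hMle.trans h1
  have hMN : M ≤ N := by
    have : (M : ℝ) ≤ N := by nlinarith
    exact_mod_cast this
  have hcast : ((N - M : ℕ) : ℝ) = N - M := by push_cast [Nat.cast_sub hMN]; ring
  have hN'0 : (N : ℝ) / 2 ≤ ((N - M : ℕ) : ℝ) := by rw [hcast]; nlinarith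
  have hN'pos : (0:ℝ) < ((N - M : ℕ) : ℝ) := by linarith
  have hN'le : ((N - M : ℕ) : ℝ) ≤ N := by rw [hcast]; linarith [(Nat.cast_nonneg M : (0:ℝ) ≤ M)]
  have hlogN' : L / 2 ≤ Real.log ((N - M : ℕ) : ℝ) := by
    have a1 : Real.log ((N : ℝ) / 2) ≤ Real.log ((N - M : ℕ) : ℝ) := Real.log_le_log (by positivity) hN'0
    rw [Real.log_div hN0.ne' (by norm_num)] at a1
    have a2 : Real.log 2 < 1 := by
      have := Real.log_two_lt_d9; linarith
    linarith
  have hlogN'2 : Real.log ((N - M : ℕ) : ℝ) ≤ L := Real.log_le_log hN'pos hN'le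
  have hlogN'0 : 0 < Real.log ((N - M : ℕ) : ℝ) := by linarith
  have hy : max 2 (max q ⌈2 * (q : ℝ) / δ⌉₊) ≤ y := h5
  have hy2 : 2 ≤ y := (le_max_left _ _).trans hy
  have hyL : (y : ℝ) ≤ Real.log L := Nat.floor_le (by linarith)
  -- the modulus
  have hWle : (WW y : ℝ) ≤ L ^ (3 / 2 : ℝ) := by
    calc (WW y : ℝ) ≤ (4:ℝ) ^ y := by exact_mod_cast WW_le y
      _ = Real.exp (y * Real.log 4) := by rw [Real.exp_nat_mul, Real.exp_log (by norm_num)]
      _ ≤ Real.exp (Real.log L * (3 / 2)) := by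
          apply Real.exp_le_exp.2
          have a1 : Real.log 4 ≤ 3 / 2 := by
            rw [show (4:ℝ) = 2 ^ 2 by norm_num, Real.log_pow]
            have := Real.log_two_lt_d9
            push_cast
            linarith
          have a2 : 0 ≤ Real.log 4 := Real.log_nonneg (by norm_num)
          have a3 : (0:ℝ) ≤ y := Nat.cast_nonneg y
          nlinarith
      _ = L ^ (3 / 2 : ℝ) := by rw [Real.rpow_def_of_pos hL0]
  have hL32 : L ^ (3 / 2 : ℝ) ≤ L ^ 2 / 4 := by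
    have a1 : L ^ (2 : ℝ) = L ^ (3 / 2 : ℝ) * L ^ (1 / 2 : ℝ) := by
      rw [← Real.rpow_add hL0]; norm_num
    have a2 : 4 ≤ L ^ (1 / 2 : ℝ) := by
      rw [← Real.sqrt_eq_rpow]
      exact Real.le_sqrt_of_sq_le (by linarith)
    have a3 : 0 ≤ L ^ (3 / 2 : ℝ) := Real.rpow_nonneg hL0.le _
    rw [← Real.rpow_two, a1]
    nlinarith
  refine ⟨by linarith, rfl, hMN, ?_, ?_, ?_, ?_, ?_, ?_, ?_, ?_, ?_, ?_⟩
  · rw [hcast]
    have a1 : δ / 4 * N ≤ δ * N := mul_le_mul_of_nonneg_right (by linarith) hN0.le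
    linarith
  · -- primes
    have a1 : (1 - δ / 4) * (((N - M : ℕ) : ℝ) / Real.log ((N - M : ℕ) : ℝ)) ≤ H343E.pi1 (N - M) := h8
    refine le_trans ?_ a1
    have a2 : (1 - δ / 4) * N / L ≤ ((N - M : ℕ) : ℝ) / Real.log ((N - M : ℕ) : ℝ) := by
      apply div_le_div₀ hN'pos.le _ hlogN'0 hlogN'2
      rw [hcast]; linarith
    have a3 : 0 ≤ (N:ℝ) / L := by positivity
    calc (1 - δ) * (N / L) ≤ (1 - δ / 4) * ((1 - δ / 4) * N / L) := by
          have : (1 - δ / 4) * ((1 - δ / 4) * N / L) = (1 - δ / 4) ^ 2 * (N / L) := by ring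
          rw [this]
          apply mul_le_mul_of_nonneg_right _ a3
          nlinarith
      _ ≤ _ := mul_le_mul_of_nonneg_left a2 (by linarith)
  · -- errors
    have a1 : ((N - M : ℕ) : ℝ) / Real.log ((N - M : ℕ) : ℝ) ^ 6 ≤ δ / 4 * (N / L ^ 3) := by
      calc ((N - M : ℕ) : ℝ) / Real.log ((N - M : ℕ) : ℝ) ^ 6 ≤ N / (L / 2) ^ 6 := by gcongr
        _ = (64 / L ^ 3) * (N / L ^ 3) := by field_simp; norm_num
        _ ≤ δ / 4 * (N / L ^ 3) := by
            apply mul_le_mul_of_nonneg_right _ (by positivity)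
            rw [div_le_iff₀ (by positivity)]
            have b1 : 256 ≤ δ * L := by
              rw [div_le_iff₀ hδ] at hLd
              linarith
            have b2 : L ≤ L ^ 3 := by nlinarith [mul_pos hL0 hL0]
            have b3 : δ * L ≤ δ * L ^ 3 := mul_le_mul_of_nonneg_left b2 hδ.le
            linarith
    have a2 : (M : ℝ) ≤ δ / 4 * (N / L ^ 3) := by
      rw [mul_div_assoc', le_div_iff₀ (by positivity)]
      calc (M : ℝ) * L ^ 3 ≤ L ^ C * L ^ 3 := by gcongr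
        _ = L ^ (C + 3) := by
            rw [Real.rpow_add hL0]; norm_cast
        _ ≤ δ / 4 * N := h2
    have a3 : ((k:ℝ) + 2) ≤ δ / 4 * (N / L ^ 3) := by
      rw [mul_div_assoc', le_div_iff₀ (by positivity)]
      have b1 : L ^ 3 ≤ δ / (4 * (k + 3)) * N := by
        have : L ^ (3:ℝ) = L ^ 3 := by norm_cast
        rw [← this]; exact h3
      have hk3 : (0:ℝ) < k + 3 := by positivity
      calc ((k:ℝ) + 2) * L ^ 3 ≤ (k + 3) * (δ / (4 * (k + 3)) * N) := by gcongr; norm_num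
        _ = δ / 4 * N := by field_simp
    have a4 : 0 ≤ (N:ℝ) / L ^ 3 := by positivity
    nlinarith
  · intro W hW1 hW2 a ha hac
    exact hSW (N - M) h7 W hW1 hW2 a ha hac
  · refine hWle.trans (hL32.trans ?_)
    have : (L / 2) ^ 2 ≤ Real.log ((N - M : ℕ) : ℝ) ^ 2 := pow_le_pow_left₀ (by positivity) hlogN' 2
    have e : (L / 2) ^ 2 = L ^ 2 / 4 := by ring
    rw [e] at this
    exact this
  · refine hWle.trans (hL32.trans ?_)
    nlinarith
  · have b0 : L ^ 2 ≤ δ / 4 * N := by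
      have : L ^ (2:ℝ) = L ^ 2 := by norm_cast
      rw [← this]; exact h4'
    have b1 : L ^ 3 ≤ δ / (4 * (k + 3)) * N := by
      have : L ^ (3:ℝ) = L ^ 3 := by norm_cast
      rw [← this]; exact h3
    have hk3 : (0:ℝ) < k + 3 := by positivity
    have b2 : ((k:ℝ) + 2) ≤ δ / 4 * N := by
      calc ((k:ℝ) + 2) ≤ (k + 3) * L ^ 3 := by
            have : 1 ≤ L ^ 3 := one_le_pow₀ (by linarith)
            nlinarith
        _ ≤ (k + 3) * (δ / (4 * (k + 3)) * N) := by gcongr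
        _ = δ / 4 * N := by field_simp
    have b3 : (WW y : ℝ) ≤ L ^ 2 := hWle.trans (hL32.trans (by nlinarith))
    have b4 : 0 ≤ δ * N := by positivity
    calc (WW y : ℝ) + (k + 2) ≤ L ^ 2 + δ / 4 * N := add_le_add b3 b2
      _ ≤ δ / 4 * N + δ / 4 * N := add_le_add b0 le_rfl
      _ = δ * N / 2 := by ring
      _ ≤ δ * N := half_le_self b4
  · have b1 : ⌈2 * (q : ℝ) / δ⌉₊ ≤ y := ((le_max_right _ _).trans (le_max_right _ _)).trans hy
    have b2 : 2 * (q : ℝ) / δ ≤ y := (Nat.le_ceil _).trans (by exact_mod_cast b1)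
    have b3 : (y : ℝ) ≤ 2 * WW y := by exact_mod_cast le_WW hy2
    rw [div_le_iff₀ hδ] at b2
    nlinarith
  · exact ((le_max_left _ _).trans (le_max_right _ _)).trans hy
  · intro n hn hnM
    refine (tt_le y n hy2 hn).trans ?_
    have c1 : Real.log n ≤ C * Real.log L := by
      rw [← Real.log_rpow hL0]
      apply Real.log_le_log (by exact_mod_cast hn)
      exact (by exact_mod_cast hnM : (n:ℝ) ≤ M).trans hMle
    have hlogy : 0 < Real.log y := Real.log_pos (by exact_mod_cast hy2)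
    have c2 : 2 * Real.log n / (y * Real.log y) ≤ δ / 2 := by
      refine le_trans ?_ h9
      gcongr
    have c3 : Real.exp (2 * Real.log n / (y * Real.log y)) ≤ Real.exp (δ / 2) := Real.exp_le_exp.2 c2
    refine c3.trans ?_
    have c4 := Real.abs_exp_sub_one_le (x := δ / 2) (by rw [abs_of_pos (by positivity)]; linarith)
    rw [abs_of_pos (show 0 < δ / 2 by positivity)] at c4
    have := (abs_le.1 c4).2
    linarith

end Pool.Agent.H387R2.Uni
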