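import Pool.Agent.H387R2.MB9
import Pool.Agent.H387R2.U4

set_option autoImplicit false

open Finset Filter Topology

namespace Pool.Agent.H387R2.MB

open Pool.Agent.H378R2

lemma one_sub_sum_le {ι : Type*} (s : Finset ι) (x : ι → ℝ) (h0 : ∀ i ∈ s, 0 ≤ x i) (h1 : ∀ i ∈ s, x i ≤ 1) :
    1 - ∑ i ∈ s, x i ≤ ∏ i ∈ s, (1 - x i) := by
  classical
  induction s using Finset.induction_on with
  | empty => simp
  | insert a s ha ih =>
    rw [sum_insert ha, prod_insert ha]
    have i1 := ih (fun i hi => h0 i (mem_insert_of_mem hi)) (fun i hi => h1 i (mem_insert_of_mem hi))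
    have i2 := h0 a (mem_insert_self _ _)
    have i3 := h1 a (mem_insert_self _ _)
    have i4 : 0 ≤ ∑ i ∈ s, x i := sum_nonneg fun i hi => h0 i (mem_insert_of_mem hi)
    have i5 : (1 - x a) * (1 - ∑ i ∈ s, x i) ≤ (1 - x a) * ∏ i ∈ s, (1 - x i) :=
      mul_le_mul_of_nonneg_left i1 (by linarith)
    have i6 : 0 ≤ x a * ∑ i ∈ s, x i := mul_nonneg i2 i4
    nlinarith

/-- excluded primes for the set of shifts `R` -/
noncomputable def ER (y : ℕ) (R : Finset ℕ) : Finset ℕ :=
  (y + 1).primesBelow ∪ R.offDiag.biUnion (fun ab => ((ab.1 : ℤ) - ab.2).natAbs.primeFactors)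

lemma mem_ER_prime {y : ℕ} {R : Finset ℕ} {p : ℕ} (h : p ∈ ER y R) : p.Prime := by
  unfold ER at h
  rw [mem_union, mem_biUnion] at h
  rcases h with h | ⟨ab, _, h⟩
  · exact Nat.prime_of_mem_primesBelow h
  · exact Nat.prime_of_mem_primeFactors h

lemma small_mem_ER {y : ℕ} {R : Finset ℕ} {p : ℕ} (hp : p.Prime) (hpy : p ≤ y) : p ∈ ER y R := by
  unfold ER
  rw [mem_union]
  left
  rw [Nat.mem_primesBelow]
  exact ⟨by omega, hp⟩

lemma DT_ER {y : ℕ} {R : Finset ℕ} {J : ℕ} (t : Fin J → ℕ) (ht : ∀ j, t j ∈ R) (hinj : Function.Injective t) :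
    DT (ER y R) t := by
  intro i j hij p hp hpE hdvd
  apply hpE
  unfold ER
  rw [mem_union, mem_biUnion]
  right
  refine ⟨(t i, t j), ?_, ?_⟩
  · rw [mem_offDiag]
    exact ⟨ht i, ht j, fun h => hij (hinj h)⟩
  · rw [Nat.mem_primeFactors]
    refine ⟨hp, Int.natCast_dvd.1 hdvd, ?_⟩
    rw [Int.natAbs_ne_zero, sub_ne_zero]
    intro h
    exact hij (hinj (by exact_mod_cast h))

lemma dvd_WW {p y : ℕ} (hp : p.Prime) : p ∣ Uni.WW y ↔ p ≤ y := by
  have h1 : p ∣ Uni.WW y ↔ p ∈ (Uni.WW y).primeFactors := by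
    rw [Nat.mem_primeFactors]
    exact ⟨fun h => ⟨hp, h, (Uni.WW_pos y).ne'⟩, fun h => h.2.1⟩
  rw [h1, Uni.WW_factors, Nat.mem_primesBelow]
  constructor
  · intro h; omega
  · intro h; exact ⟨by omega, hp⟩

lemma WW_sqf (y : ℕ) : Squarefree (Uni.WW y) := by
  have h : Uni.WW y = ∏ p ∈ (Uni.WW y).primeFactors, p := by
    rw [Uni.WW_factors]; rfl
  rw [Nat.squarefree_iff_prime_squarefree]
  intro p hp hpp
  have h1 : p ∣ Uni.WW y := (Dvd.intro _ rfl).trans hpp
  have h2 : p ∈ (y + 1).primesBelow := by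
    rw [Nat.mem_primesBelow]
    exact ⟨by have := (dvd_WW hp).1 h1; omega, hp⟩
  have h3 : Uni.WW y = p * ∏ r ∈ (y + 1).primesBelow.erase p, r := by
    unfold Uni.WW
    exact (mul_prod_erase (y + 1).primesBelow (fun p => p) h2).symm
  rw [h3] at hpp
  have h4 : p ∣ ∏ r ∈ (y + 1).primesBelow.erase p, r := Nat.dvd_of_mul_dvd_mul_left hp.pos hpp
  rw [Prime.dvd_finset_prod_iff hp.prime] at h4
  obtain ⟨r, hr, hpr⟩ := h4
  rw [mem_erase, Nat.mem_primesBelow] at hr
  exact hr.1 ((Nat.prime_dvd_prime_iff_eq hp hr.2.2).1 hpr).symm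

lemma card_big {y D : ℕ} (hy : 2 ≤ y) (hD : D ≠ 0) {L : ℝ} (hL : Real.log D ≤ L) :
    ((D.primeFactors.filter (fun p => y < p)).card : ℝ) ≤ L / Real.log y := by
  have hy0 : (0:ℝ) < y := by exact_mod_cast (by omega : 0 < y)
  have hly : 0 < Real.log y := Real.log_pos (by exact_mod_cast (by omega : 1 < y))
  rw [le_div_iff₀ hly]
  refine le_trans ?_ hL
  rw [← Real.log_pow]
  apply Real.log_le_log (by positivity)
  have h1 : (y:ℝ) ^ (D.primeFactors.filter (fun p => y < p)).card ≤ ((∏ p ∈ D.primeFactors.filter (fun p => y < p), p : ℕ) : ℝ) := by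
    push_cast
    rw [← prod_const]
    apply Finset.prod_le_prod
    · intro p _; exact hy0.le
    · intro p hp
      exact_mod_cast (mem_filter.1 hp).2.le
  refine h1.trans ?_
  have h2 : ∏ p ∈ D.primeFactors.filter (fun p => y < p), p ∣ D :=
    (prod_dvd_prod_of_subset _ _ _ (filter_subset _ _)).trans (Nat.prod_primeFactors_dvd D)
  exact_mod_cast Nat.le_of_dvd (Nat.pos_of_ne_zero hD) h2

lemma ER_big {y : ℕ} (hy : 2 ≤ y) {R : Finset ℕ} {M : ℕ} (hR : ∀ a ∈ R, a ≤ M) {L : ℝ} (hL0 : 0 ≤ L)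
    (hL : ∀ D : ℕ, 1 ≤ D → D ≤ M → Real.log D ≤ L) :
    (((ER y R).filter (fun p => y < p)).card : ℝ) ≤ (R.card : ℝ) ^ 2 * (L / Real.log y) := by
  have hly : 0 < Real.log y := Real.log_pos (by exact_mod_cast (by omega : 1 < y))
  have hsub : (ER y R).filter (fun p => y < p) ⊆
      R.offDiag.biUnion (fun ab => (((ab.1 : ℤ) - ab.2).natAbs.primeFactors).filter (fun p => y < p)) := by
    intro p hp
    rw [mem_filter] at hp
    obtain ⟨h1, h2⟩ := hp
    unfold ER at h1
    rw [mem_union, mem_biUnion] at h1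
    rw [mem_biUnion]
    rcases h1 with h1 | ⟨ab, hab, h1⟩
    · rw [Nat.mem_primesBelow] at h1
      omega
    · exact ⟨ab, hab, mem_filter.2 ⟨h1, h2⟩⟩
  have h3 : (((ER y R).filter (fun p => y < p)).card : ℝ) ≤ ∑ ab ∈ R.offDiag,
      (((((ab.1 : ℤ) - ab.2).natAbs.primeFactors).filter (fun p => y < p)).card : ℝ) := by
    exact_mod_cast (card_le_card hsub).trans card_biUnion_le
  refine h3.trans ?_
  have h4 : ∀ ab ∈ R.offDiag, (((((ab.1 : ℤ) - ab.2).natAbs.primeFactors).filter (fun p => y < p)).card : ℝ) ≤ L / Real.log y := by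
    intro ab hab
    rw [mem_offDiag] at hab
    have hne : ((ab.1 : ℤ) - ab.2).natAbs ≠ 0 := by
      rw [Int.natAbs_ne_zero, sub_ne_zero]
      intro h
      exact hab.2.2 (by exact_mod_cast h)
    apply card_big hy hne
    apply hL _ (Nat.pos_of_ne_zero hne)
    have h5 := hR _ hab.1
    have h6 := hR _ hab.2.1
    omega
  refine (sum_le_sum h4).trans ?_
  rw [sum_const, nsmul_eq_mul]
  apply mul_le_mul_of_nonneg_right _ (by positivity)
  have : R.offDiag.card ≤ R.card ^ 2 := by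
    rw [offDiag_card, sq]
    omega
  exact_mod_cast this

lemma sum_inv_primes_le (y : ℕ) : ∑ p ∈ (y + 1).primesBelow, (1:ℝ) / p ≤ 1 + Real.log y := by
  have h := harmonic_le_one_add_log y
  refine le_trans ?_ h
  rw [harmonic_eq_sum_Icc]
  push_cast
  refine le_trans (le_of_eq (sum_congr rfl fun p _ => one_div _)) ?_
  apply sum_le_sum_of_subset_of_nonneg
  · intro p hp
    rw [Nat.mem_primesBelow] at hp
    rw [mem_Icc]
    exact ⟨hp.2.one_lt.le, by omega⟩
  · intro p _ _
    positivity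

lemma ER_split (y : ℕ) (R : Finset ℕ) : ER y R = (y + 1).primesBelow ∪ (ER y R).filter (fun p => y < p) := by
  ext p
  rw [mem_union, mem_filter]
  constructor
  · intro h
    by_cases hy : y < p
    · exact Or.inr ⟨h, hy⟩
    · left
      rw [Nat.mem_primesBelow]
      exact ⟨by omega, mem_ER_prime h⟩
  · rintro (h | h)
    · unfold ER
      exact mem_union_left _ h
    · exact h.1

lemma ER_disj (y : ℕ) (R : Finset ℕ) : Disjoint (y + 1).primesBelow ((ER y R).filter (fun p => y < p)) := by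
  rw [disjoint_left]
  intro p h1 h2
  rw [Nat.mem_primesBelow] at h1
  rw [mem_filter] at h2
  omega

/-- sum over the large excluded primes -/
lemma ER_sum_big {y : ℕ} (hy : 2 ≤ y) (R : Finset ℕ) {B : ℝ} (hB : (((ER y R).filter (fun p => y < p)).card : ℝ) ≤ B * y) :
    ∑ p ∈ (ER y R).filter (fun p => y < p), (1:ℝ) / p ≤ B := by
  have hy0 : (0:ℝ) < y := by exact_mod_cast (by omega : 0 < y)
  have h1 : ∀ p ∈ (ER y R).filter (fun p => y < p), (1:ℝ) / p ≤ 1 / y := by
    intro p hp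
    apply one_div_le_one_div_of_le hy0
    exact_mod_cast (mem_filter.1 hp).2.le
  refine (sum_le_sum h1).trans ?_
  rw [sum_const, nsmul_eq_mul, mul_one_div, div_le_iff₀ hy0]
  exact hB

/-- the density of the class conditions -/
noncomputable def rho (y : ℕ) : ℝ := (Uni.WW y).totient / Uni.WW y

lemma rho_eq (y : ℕ) : rho y = ∏ p ∈ (y + 1).primesBelow, (1 - 1 / (p : ℝ)) := by
  unfold rho
  rw [Uni.totient_WW]
  have : (Uni.WW y : ℝ) ≠ 0 := by exact_mod_cast (Uni.WW_pos y).ne'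
  field_simp

lemma rho_pos (y : ℕ) : 0 < rho y := by
  unfold rho
  have h1 : (0:ℝ) < Uni.WW y := by exact_mod_cast Uni.WW_pos y
  have h2 : (0:ℝ) < (Uni.WW y).totient := by exact_mod_cast Nat.totient_pos.2 (Uni.WW_pos y)
  positivity

lemma rho_le_one (y : ℕ) : rho y ≤ 1 := by
  unfold rho
  have h1 : (0:ℝ) < Uni.WW y := by exact_mod_cast Uni.WW_pos y
  rw [div_le_one h1]
  exact_mod_cast Nat.totient_le _

lemma BE_ER {y : ℕ} (hy : 2 ≤ y) (R : Finset ℕ) {B : ℝ} (hB : (((ER y R).filter (fun p => y < p)).card : ℝ) ≤ B * y)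
    (hB2 : B ≤ 1 / 2) : BE (ER y R) ≤ rho y ∧ rho y / 2 ≤ BE (ER y R) := by
  have hs := ER_sum_big hy R hB
  have e : BE (ER y R) = rho y * BE ((ER y R).filter (fun p => y < p)) := by
    rw [rho_eq]
    unfold BE
    rw [← prod_union (ER_disj y R), ← ER_split]
  have hp : ∀ p ∈ (ER y R).filter (fun p => y < p), p.Prime := fun p hp => mem_ER_prime (mem_filter.1 hp).1
  have h1 := BE_le_one hp
  have h2 : 1 / 2 ≤ BE ((ER y R).filter (fun p => y < p)) := by
    unfold BE
    refine le_trans ?_ (one_sub_sum_le _ (fun p : ℕ => 1 / (p:ℝ)) (fun p _ => by positivity) (fun p hp' => by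
      have : (1:ℝ) ≤ p := by exact_mod_cast (hp p hp').one_lt.le
      rw [div_le_one (by linarith)]; exact this))
    linarith
  have h3 := rho_pos y
  rw [e]
  constructor <;> nlinarith

/-- all conditions on the excluded sets -/
def EC (J z : ℕ) (δ : ℝ) (N M y : ℕ) : Prop :=
  ∀ R : Finset ℕ, R.card ≤ J → (∀ a ∈ R, a ≤ M) →
     CS ((N : ℝ) / 4) z (Uni.WW y) (ER y R) ∧ (∑ p ∈ (ER y R).filter (fun p => ¬ p ∣ Uni.WW y), (1 : ℝ) / p ≤ δ) ∧
     BE (ER y R) ≤ rho y ∧ rho y / 2 ≤ BE (ER y R)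

lemma log400 : Real.log 400 ≤ 6 := by
  rw [Real.log_le_iff_le_exp (by norm_num)]
  have h1 : Real.exp 6 = (Real.exp 1) ^ 6 := by rw [← Real.exp_nat_mul]; norm_num
  have h2 : (2.718 : ℝ) ≤ Real.exp 1 := by have := Real.exp_one_gt_d9; linarith
  rw [h1]
  calc (400 : ℝ) ≤ 2.718 ^ 6 := by norm_num
    _ ≤ _ := pow_le_pow_left₀ (by norm_num) h2 6

theorem ec_eventually (J z : ℕ) (C : ℝ) {δ : ℝ} (hδ : 0 < δ) :
    ∀ᶠ N : ℕ in atTop, EC J z δ N ⌊Real.log N ^ C⌋₊ ⌊Real.log (Real.log N)⌋₊ := by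
  have tN : Tendsto (fun N : ℕ => (N : ℝ)) atTop atTop := tendsto_natCast_atTop_atTop
  have tL : Tendsto (fun N : ℕ => Real.log (N : ℝ)) atTop atTop := Real.tendsto_log_atTop.comp tN
  have tu : Tendsto (fun N : ℕ => Real.log (Real.log (N : ℝ))) atTop atTop := Real.tendsto_log_atTop.comp tL
  have ty : Tendsto (fun N : ℕ => ⌊Real.log (Real.log (N : ℝ))⌋₊) atTop atTop :=
    tendsto_nat_floor_atTop.comp tu
  have tly : Tendsto (fun N : ℕ => Real.log (⌊Real.log (Real.log (N : ℝ))⌋₊ : ℝ)) atTop atTop :=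
    Real.tendsto_log_atTop.comp (tendsto_natCast_atTop_atTop.comp ty)
  set B : ℝ := min δ (1 / 2) with hB
  have hB0 : 0 < B := lt_min hδ (by norm_num)
  have hB2 : B ≤ 1 / 2 := min_le_right _ _
  have hBδ : B ≤ δ := min_le_left _ _
  have e1 := tu.eventually (ev_pow_exp 1 (1 / 4) (4 * Real.exp 2) (by norm_num))
  have e2 := tu.eventually (ev_pow_exp 1 (1 / 128) 1 (by norm_num))
  filter_upwards [Uni.par_eventually 0 C (by norm_num : (0:ℝ) < 1 / 2) (by norm_num) 1, e1, e2,
    tu.eventually_ge_atTop 400, tL.eventually_ge_atTop 8, ty.eventually_ge_atTop (max 2 z),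
    tly.eventually_ge_atTop (2 * (J:ℝ) ^ 2 * |C| / B)] with N hP h1 h2 h3 h4 h5 h6
  intro R hRJ hRM
  set u := Real.log (Real.log (N : ℝ)) with hu
  set l := Real.log (N : ℝ) with hl
  set y := ⌊u⌋₊ with hy
  have hy2 : 2 ≤ y := (le_max_left _ _).trans h5
  have hyz : z ≤ y := (le_max_right _ _).trans h5
  have hl0 : 0 < l := by linarith
  have hlu : l = Real.exp u := by rw [hu, Real.exp_log hl0]
  have hN0 : (0:ℝ) < N := by
    rcases Nat.eq_zero_or_pos N with h | h
    · rw [hl, h] at hl0; simp at hl0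
    · exact_mod_cast h
  have hyu : (y:ℝ) ≤ u := Nat.floor_le (by linarith)
  have hyu2 : u ≤ 2 * y := by
    have : u < y + 1 := Nat.lt_floor_add_one u
    linarith
  have hy0 : (0:ℝ) < y := by exact_mod_cast (by omega : 0 < y)
  have hly : 0 < Real.log y := Real.log_pos (by exact_mod_cast (by omega : 1 < y))
  -- the cardinality bound
  have hcard : (((ER y R).filter (fun p => y < p)).card : ℝ) ≤ B * y := by
    have k1 := ER_big hy2 hRM (L := |C| * u) (by positivity) (fun D hD1 hDM => by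
      have hD0 : (0:ℝ) < D := by exact_mod_cast hD1
      have hD : (D:ℝ) ≤ l ^ C := (Nat.le_floor_iff (Real.rpow_nonneg hl0.le _)).1 hDM
      have := Real.log_le_log hD0 hD
      rw [Real.log_rpow hl0, ← hu] at this
      refine this.trans ?_
      exact mul_le_mul_of_nonneg_right (le_abs_self C) (by linarith))
    refine k1.trans ?_
    have k2 : (R.card : ℝ) ^ 2 ≤ (J : ℝ) ^ 2 := by
      have : (R.card : ℝ) ≤ J := by exact_mod_cast hRJ
      exact pow_le_pow_left₀ (Nat.cast_nonneg _) this 2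
    calc (R.card : ℝ) ^ 2 * (|C| * u / Real.log y) ≤ (J : ℝ) ^ 2 * (|C| * u / Real.log y) :=
          mul_le_mul_of_nonneg_right k2 (by positivity)
      _ ≤ (J : ℝ) ^ 2 * (|C| * (2 * y) / Real.log y) := by gcongr
      _ = (2 * (J:ℝ) ^ 2 * |C|) * y / Real.log y := by ring
      _ ≤ B * y := by
          rw [div_le_iff₀ hly]
          have k3 : 2 * (J:ℝ) ^ 2 * |C| ≤ Real.log y * B := by
            rw [div_le_iff₀ hB0] at h6; exact h6
          calc (2 * (J:ℝ) ^ 2 * |C|) * y ≤ (Real.log y * B) * y := mul_le_mul_of_nonneg_right k3 hy0.le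
            _ = _ := by ring
  have hbig := ER_sum_big hy2 R hcard
  -- size of `LL`
  have hlog4 : Real.log 4 ≤ 2 := by
    have : Real.log 4 = 2 * Real.log 2 := by
      rw [show (4 : ℝ) = 2 ^ 2 by norm_num, Real.log_pow]; norm_num
    have := Real.log_two_lt_d9
    linarith
  have hlX : Real.log ((N:ℝ) / 4) = l - Real.log 4 := Real.log_div hN0.ne' (by norm_num)
  have hlX2 : l / 2 ≤ Real.log ((N:ℝ) / 4) := by rw [hlX]; linarith
  have hLL : l / 400 ≤ LL ((N:ℝ) / 4) := by unfold LL; linarith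
  have hLL0 : 0 < LL ((N:ℝ) / 4) := by
    have : 0 < l / 400 := by positivity
    linarith
  have hlogLL : u - 6 ≤ Real.log (LL ((N:ℝ) / 4)) := by
    have k1 := Real.log_le_log (by positivity) hLL
    rw [Real.log_div hl0.ne' (by norm_num), ← hu] at k1
    linarith [log400]
  have hlogu : Real.log u ≤ u / 128 := by
    rw [Real.log_le_iff_le_exp (by linarith)]
    rw [pow_one, one_mul] at h2
    calc u ≤ Real.exp (1 / 128 * u) := h2
      _ = _ := by ring_nf
  refine ⟨⟨⟨fun p hp => mem_ER_prime hp, fun p hp hpz => small_mem_ER hp (hpz.trans hyz), ?_, ?_⟩, Uni.WW_pos y, ?_, ?_⟩,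
    ?_, BE_ER hy2 R hcard hB2⟩
  · -- s1
    have k1 : ∑ p ∈ ER y R, Real.log p / p ≤ ((ER y R).card : ℝ) := by
      rw [card_eq_sum_ones]
      push_cast
      exact sum_le_sum fun p hp => log_div_le_one (mem_ER_prime hp)
    have k2 : ((ER y R).card : ℝ) ≤ 2 * u := by
      rw [ER_split, card_union_of_disjoint (ER_disj y R)]
      push_cast
      have k3 : (((y + 1).primesBelow).card : ℝ) ≤ y := by
        have : ((y + 1).primesBelow).card ≤ y := by
          have h7 : (y + 1).primesBelow ⊆ Icc 1 y := by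
            intro p hp
            rw [Nat.mem_primesBelow] at hp
            rw [mem_Icc]
            exact ⟨hp.2.one_lt.le, by omega⟩
          have := card_le_card h7
          rwa [Nat.card_Icc, Nat.add_sub_cancel] at this
        exact_mod_cast this
      nlinarith
    refine k1.trans (k2.trans ?_)
    have k4 : 4 * u ≤ LL ((N:ℝ) / 4) ^ (1 / 4 : ℝ) := by
      calc 4 * u = (4 * Real.exp 2 * u) * Real.exp (-2) := by
            rw [Real.exp_neg]; field_simp
        _ ≤ Real.exp (1 / 4 * u) * Real.exp (-2) := by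
            rw [pow_one] at h1
            gcongr
        _ = Real.exp (1 / 4 * u + (-2)) := by rw [Real.exp_add]
        _ ≤ Real.exp (Real.log (LL ((N:ℝ) / 4)) * (1 / 4)) := by
            apply Real.exp_le_exp.2
            linarith
        _ = _ := by rw [Real.rpow_def_of_pos hLL0]
    linarith
  · -- s2
    have k1 : ∑ p ∈ ER y R, (1:ℝ) / p = ∑ p ∈ (y + 1).primesBelow, (1:ℝ) / p +
        ∑ p ∈ (ER y R).filter (fun p => y < p), (1:ℝ) / p := by
      rw [← sum_union (ER_disj y R), ← ER_split]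
    rw [k1]
    have k2 := sum_inv_primes_le y
    have k3 : Real.log y ≤ Real.log u := Real.log_le_log hy0 hyu
    linarith
  · -- size of W
    have k1 := hP.hW2
    rw [← hl] at k1
    refine k1.trans ?_
    calc l ^ 2 ≤ (l / 2) ^ 3 := by
          have : (l / 2) ^ 3 = l ^ 2 * (l / 8) := by ring
          rw [this]
          have : 1 ≤ l / 8 := by linarith
          nlinarith [sq_nonneg l]
      _ ≤ Real.log ((N:ℝ) / 4) ^ 3 := pow_le_pow_left₀ (by positivity) hlX2 3
  · intro p hp hpE hd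
    exact hpE (small_mem_ER hp ((dvd_WW hp).1 hd))
  · refine le_trans (le_of_eq ?_) (hbig.trans hBδ)
    apply sum_congr _ fun _ _ => rfl
    apply filter_congr
    intro p hp
    rw [dvd_WW (mem_ER_prime hp)]
    omega

end Pool.Agent.H387R2.MB
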