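import Pool.Agent.H387R2.VorA
import Pool.Agent.H732R2.VorCos

set_option autoImplicit false

open Filter Topology MeasureTheory Set

namespace Pool.Agent.H387R2.Vor

noncomputable section

/-- the left line point -/
def sl (t : ℝ) : ℂ := ((-(1 / 4) : ℝ) : ℂ) + t * Complex.I

lemma sl_re (t : ℝ) : (sl t).re = -(1 / 4) := by simp [sl]
lemma sl_im (t : ℝ) : (sl t).im = t := by simp [sl]

lemma sl_ne_zero (t : ℝ) : sl t ≠ 0 := by
  intro h
  have := sl_re t
  rw [h] at this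
  norm_num at this

lemma sl_ne_one (t : ℝ) : sl t ≠ 1 := by
  intro h
  have := sl_re t
  rw [h] at this
  norm_num at this

lemma continuous_sl : Continuous sl := by unfold sl; fun_prop

lemma continuous_wl : Continuous wl := by unfold wl; fun_prop

lemma zline (t : ℝ) : (1 / 2 - 2 * sl t : ℂ) = ((1 : ℝ) : ℂ) + ((-2 * t : ℝ) : ℂ) * Complex.I := by
  unfold sl; push_cast; ring

lemma integrable_KA_two {R δ : ℝ} (hR : 0 < R) (hδ : 0 < δ) :
    Integrable fun t : ℝ => KA R δ (1 + (2 * t : ℝ) * Complex.I) := by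
  have h := (integrable_KA_line hR hδ (c := 1) (by norm_num)).comp_mul_left' (R := 2) (by norm_num)
  refine h.congr (Eventually.of_forall fun t => ?_)
  simp

lemma continuous_KA_two {R : ℝ} (hR : 0 < R) (δ : ℝ) :
    Continuous fun t : ℝ => KA R δ (1 + (2 * t : ℝ) * Complex.I) :=
  (differentiable_KA' hR).continuous.comp (by fun_prop)

/-- the left side of the shift in terms of `ζ²/s` -/
lemma left_side {R δ : ℝ} (hR1 : 1 ≤ R) (hδ : 0 < δ) :
    ∫ t : ℝ, LL (((-(1 / 4) : ℝ) : ℂ) + t * Complex.I) * KA R δ (1 / 2 - 2 * (((-(1 / 4) : ℝ) : ℂ) + t * Complex.I)) =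
      ∫ t : ℝ, Aw (wl t) * riemannZeta (wl t) ^ 2 * KA R δ (1 + (2 * t : ℝ) * Complex.I) := by
  have hR0 : 0 < R := by linarith
  have hpol := polar_left hR1 hδ
  obtain ⟨B, hB⟩ := LK_bound hR0 hδ
  have i1 : Integrable fun t : ℝ => LL (sl t) * KA R δ (1 / 2 - 2 * sl t) :=
    Pool.Agent.H295R2.vertical_integrable (H := fun s => LL s * KA R δ (1 / 2 - 2 * s)) (B := B)
      (fun s _ => ((LL_diff s).mul (((differentiable_KA' hR0) _).comp s (by fun_prop))).continuousAt)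
      (fun s hs => hB s hs.ge (by rw [hs]; norm_num))
  set P : ℝ → ℂ := fun t => 1 / (sl t - 1) ^ 2 + (2 * (Real.eulerMascheroniConstant : ℂ) - 1) / (sl t - 1) +
    1 / (4 * sl t) with hP
  have hPc : Continuous P := by
    have c1 := continuous_sl
    have h1 : ∀ t, sl t - 1 ≠ 0 := fun t => sub_ne_zero.2 (sl_ne_one t)
    have h2 : ∀ t, (sl t - 1) ^ 2 ≠ 0 := fun t => pow_ne_zero _ (h1 t)
    have h3 : ∀ t, 4 * sl t ≠ 0 := fun t => mul_ne_zero (by norm_num) (sl_ne_zero t)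
    exact ((continuous_const.div (by fun_prop) h2).add (continuous_const.div (by fun_prop) h1)).add
      (continuous_const.div (by fun_prop) h3)
  have hPb : ∀ t, ‖P t‖ ≤ 5 := by
    intro t
    apply polar_le
    · have := Complex.abs_re_le_norm (sl t)
      rw [sl_re] at this
      norm_num at this
      linarith
    · have := Complex.abs_re_le_norm (sl t - 1)
      rw [Complex.sub_re, sl_re, Complex.one_re] at this
      norm_num at this
      linarith
  have iK : Integrable fun t : ℝ => KA R δ (1 / 2 - 2 * sl t) := by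
    have h := (integrable_KA_line hR0 hδ (c := 1) (by norm_num)).comp_mul_left' (R := -2) (by norm_num)
    refine h.congr (Eventually.of_forall fun t => ?_)
    beta_reduce
    rw [zline]
  have i2 : Integrable fun t : ℝ => P t * KA R δ (1 / 2 - 2 * sl t) :=
    iK.bdd_mul hPc.aestronglyMeasurable (Eventually.of_forall hPb)
  have e1 : ∀ t : ℝ, LL (sl t) * KA R δ (1 / 2 - 2 * sl t) + P t * KA R δ (1 / 2 - 2 * sl t) =
      riemannZeta (sl t) ^ 2 / sl t * KA R δ (1 / 2 - 2 * sl t) := by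
    intro t
    rw [LL_eq (sl_ne_zero t) (sl_ne_one t), hP]
    ring
  have e2 : ∫ t : ℝ, P t * KA R δ (1 / 2 - 2 * sl t) = 0 := by
    have h1 : ∀ t : ℝ, mellin hL (-(((-(1 / 4) : ℝ) : ℂ) + t * Complex.I)) *
        KA R δ (1 / 2 - 2 * (((-(1 / 4) : ℝ) : ℂ) + t * Complex.I)) = -(P t * KA R δ (1 / 2 - 2 * sl t)) := by
      intro t
      have h2 := (hasMellin_hL (s := sl t) (by rw [sl_re]; norm_num)).2
      change mellin hL (-(sl t)) * KA R δ (1 / 2 - 2 * sl t) = _
      rw [h2, hP]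
      ring
    simp_rw [h1] at hpol
    rw [integral_neg, neg_eq_zero] at hpol
    exact hpol
  have e3 : ∫ t : ℝ, LL (sl t) * KA R δ (1 / 2 - 2 * sl t) =
      ∫ t : ℝ, riemannZeta (sl t) ^ 2 / sl t * KA R δ (1 / 2 - 2 * sl t) := by
    simp_rw [← e1]
    rw [integral_add i1 i2, e2, add_zero]
  change ∫ t : ℝ, LL (sl t) * KA R δ (1 / 2 - 2 * sl t) = _
  rw [e3, ← integral_neg_eq_self]
  refine integral_congr_ae (Eventually.of_forall fun t => ?_)
  beta_reduce
  have h5 := zeta_sq_left (-t)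
  rw [neg_neg] at h5
  have e4 : sl (-t) = -1 / 4 + ((-t : ℝ) : ℂ) * Complex.I := by
    unfold sl; push_cast; ring
  have e5 : (1 / 2 - 2 * sl (-t) : ℂ) = 1 + ((2 * t : ℝ) : ℂ) * Complex.I := by
    rw [zline]; push_cast; ring
  rw [e5, e4, h5]

lemma norm_nat_cpow_wl (m : ℕ) (t : ℝ) : ‖(m : ℂ) ^ (-(wl t))‖ = if m = 0 then 0 else (m : ℝ) ^ (-(5 / 4) : ℝ) := by
  rcases eq_or_ne m 0 with rfl | hm
  · rw [if_pos rfl, Nat.cast_zero, Complex.zero_cpow, norm_zero]
    intro h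
    have := congrArg Complex.re h
    rw [Complex.neg_re, wl_re] at this
    norm_num at this
  · rw [if_neg hm]
    have hm0 : (0:ℝ) < m := by exact_mod_cast Nat.pos_of_ne_zero hm
    have e : ((m : ℕ) : ℂ) = ((m : ℝ) : ℂ) := by norm_cast
    rw [e, Complex.norm_cpow_eq_rpow_re_of_pos hm0, Complex.neg_re, wl_re]

lemma continuous_Qw : Continuous fun t : ℝ => Qw (wl t) := by
  unfold Qw
  have hw := continuous_wl
  have hpi := Real.pi_pos
  have h1 : Continuous fun t : ℝ => (4 * Real.pi : ℂ) ^ (-(2 * wl t)) := by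
    refine Continuous.const_cpow (by fun_prop) (Or.inl ?_)
    have : (4 * Real.pi : ℂ) = ((4 * Real.pi : ℝ) : ℂ) := by push_cast; ring
    rw [this]
    exact_mod_cast (by positivity : (4 * Real.pi : ℝ) ≠ 0)
  have h2 : Continuous fun t : ℝ => Complex.Gamma (2 * wl t - 3 / 2) := by
    rw [continuous_iff_continuousAt]
    intro t
    have h3 : ContinuousAt Complex.Gamma (2 * wl t - 3 / 2) := by
      refine (Complex.differentiableAt_Gamma _ fun m h => ?_).continuousAt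
      have := congrArg Complex.re h
      have e : (2 * wl t - 3 / 2).re = 1 := by
        unfold wl; simp; norm_num
      rw [e] at this
      simp at this
      have h4 : (0:ℝ) ≤ m := Nat.cast_nonneg m
      linarith
    exact ContinuousAt.comp (f := fun t : ℝ => 2 * wl t - 3 / 2) h3 (by fun_prop)
  have h4 : Continuous fun t : ℝ => Complex.cos (Real.pi * wl t) :=
    Complex.continuous_cos.comp (by fun_prop)
  fun_prop

/-- the model integral is the Voronoi series -/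
lemma model_side {R δ : ℝ} (hR1 : 1 ≤ R) (hδ : 0 < δ) :
    HasSum (fun m : ℕ => 2 * Real.pi * (vt R δ m : ℂ))
      (∫ t : ℝ, -2 * Qw (wl t) * riemannZeta (wl t) ^ 2 * KA R δ (1 + (2 * t : ℝ) * Complex.I)) := by
  have hR0 : 0 < R := by linarith
  obtain ⟨B, hB, hK⟩ := KA_bound hR0 hδ
  set G : ℝ → ℂ := fun t => -2 * Qw (wl t) * KA R δ (1 + (2 * t : ℝ) * Complex.I) with hG
  have hGc : Continuous G := (continuous_const.mul continuous_Qw).mul (continuous_KA_two hR0 δ)
  have hGi : Integrable G := by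
    have h1 : Integrable fun t : ℝ => (128 * B) * (1 + ‖t‖) ^ (-(3 / 2 : ℝ)) :=
      (integrable_one_add_norm (by simp; norm_num)).const_mul _
    refine h1.mono' hGc.aestronglyMeasurable (Eventually.of_forall fun t => ?_)
    rw [hG]
    beta_reduce
    have h2 := Qw_le t
    have h3 := hK (1 + (2 * t : ℝ) * Complex.I) (by simp)
    have him : ((1 : ℂ) + ((2 * t : ℝ) : ℂ) * Complex.I).im = 2 * t := by simp
    rw [him] at h3
    have ht := abs_nonneg t
    have h4 : B / (1 + |2 * t|) ^ 2 ≤ B / (1 + |t|) ^ 2 := by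
      rw [abs_mul, abs_two]
      gcongr
      linarith
    rw [norm_mul, norm_mul, norm_neg, Real.norm_eq_abs]
    have h5 : ‖(2:ℂ)‖ = 2 := by norm_num
    rw [h5]
    calc 2 * ‖Qw (wl t)‖ * ‖KA R δ (1 + (2 * t : ℝ) * Complex.I)‖ ≤
          2 * (64 * (1 + |t|) ^ (1 / 2 : ℝ)) * (B / (1 + |t|) ^ 2) := by
          gcongr
          exact h3.trans h4
      _ = 128 * B * ((1 + |t|) ^ (1 / 2 : ℝ) * (1 + |t|) ^ (-(2:ℝ))) := by
          rw [Real.rpow_neg (by positivity), Real.rpow_two]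
          ring
      _ = 128 * B * (1 + |t|) ^ (-(3 / 2) : ℝ) := by
          rw [← Real.rpow_add (by positivity)]; norm_num
  set F : ℕ → ℝ → ℂ := fun m t => G t * ((dv m : ℂ) * (m : ℂ) ^ (-(wl t))) with hF
  have hFn : ∀ m t, ‖F m t‖ = ‖G t‖ * (dv m * (m : ℝ) ^ (-(5 / 4) : ℝ)) := by
    intro m t
    rw [hF]
    beta_reduce
    rw [norm_mul (G t), norm_mul (dv m : ℂ), norm_nat_cpow_wl, Complex.norm_real,
      Real.norm_of_nonneg (dv_nonneg' m)]
    rcases eq_or_ne m 0 with rfl | hm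
    · simp [dv_zero]
    · rw [if_neg hm]
  have hFm : ∀ m, Continuous (F m) := by
    intro m
    rcases eq_or_ne m 0 with rfl | hm
    · have : F 0 = fun _ => 0 := by
        funext t
        simp [hF, dv_zero]
      rw [this]
      exact continuous_const
    · refine hGc.mul (continuous_const.mul (Continuous.const_cpow (by have := continuous_wl; fun_prop) (Or.inl ?_)))
      exact_mod_cast hm
  have hFint : ∀ m, Integrable (F m) := by
    intro m
    refine (hGi.norm.mul_const (dv m * (m : ℝ) ^ (-(5 / 4) : ℝ))).mono' (hFm m).aestronglyMeasurable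
      (Eventually.of_forall fun t => ?_)
    rw [hFn]
  have hFsum : Summable fun m => ∫ t, ‖F m t‖ := by
    have : (fun m => ∫ t, ‖F m t‖) = fun m : ℕ => (∫ t, ‖G t‖) * (dv m * (m : ℝ) ^ (-(5 / 4) : ℝ)) := by
      funext m
      rw [← integral_mul_const]
      refine integral_congr_ae (Eventually.of_forall fun t => ?_)
      exact hFn m t
    rw [this]
    exact summable_dv.mul_left _
  have h := hasSum_integral_of_summable_integral_norm hFint hFsum
  have e1 : ∀ t, ∑' m, F m t = -2 * Qw (wl t) * riemannZeta (wl t) ^ 2 * KA R δ (1 + (2 * t : ℝ) * Complex.I) := by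
    intro t
    rw [hF]
    beta_reduce
    rw [tsum_mul_left, (hasSum_dv (s := wl t) (by rw [wl_re]; norm_num)).tsum_eq, hG]
    ring
  simp_rw [e1] at h
  have e2 : ∀ m, ∫ t, F m t = 2 * Real.pi * (vt R δ m : ℂ) := by
    intro m
    rcases eq_or_ne m 0 with rfl | hm
    · simp [hF, dv_zero, vt]
    · rw [← cos_term hR1 hδ m (Nat.pos_of_ne_zero hm), ← integral_const_mul]
      refine integral_congr_ae (Eventually.of_forall fun t => ?_)
      rw [hF, hG]
      beta_reduce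
      ring
  simp_rw [e2] at h
  exact h

/-- interpolation of the two kernel bounds -/
lemma KA_interp {R δ : ℝ} (hR : 1 ≤ R) (hδ : 0 < δ) (hδ2 : δ ≤ 1 / 2) (t : ℝ) :
    ‖KA R δ (1 + (2 * t : ℝ) * Complex.I)‖ ≤
      4 * (R ^ (-(12 / 25) : ℝ) * δ ^ (-(13 / 25) : ℝ)) * (1 + |t|) ^ (-(13 / 25) : ℝ) := by
  have hR0 : 0 < R := by linarith
  obtain ⟨h1, h2⟩ := KA_one_line hR hδ hδ2 (2 * t)
  set N := ‖KA R δ (1 + (2 * t : ℝ) * Complex.I)‖ with hN
  have hN0 : 0 ≤ N := norm_nonneg _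
  have ht := abs_nonneg t
  have h3 : N ≤ 64 * R / (δ ^ 2 * (1 + |t|) ^ 2) := by
    refine h2.trans ?_
    rw [abs_mul, abs_two]
    gcongr
    linarith
  have h4 : N = N ^ (37 / 50 : ℝ) * N ^ (13 / 50 : ℝ) := by
    rw [← Real.rpow_add_of_nonneg hN0 (by norm_num) (by norm_num)]; norm_num
  rw [h4]
  have h5 : N ^ (37 / 50 : ℝ) ≤ (1 / R) ^ (37 / 50 : ℝ) := Real.rpow_le_rpow hN0 h1 (by norm_num)
  have h6 : N ^ (13 / 50 : ℝ) ≤ (64 * R / (δ ^ 2 * (1 + |t|) ^ 2)) ^ (13 / 50 : ℝ) :=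
    Real.rpow_le_rpow hN0 h3 (by norm_num)
  calc N ^ (37 / 50 : ℝ) * N ^ (13 / 50 : ℝ) ≤
        (1 / R) ^ (37 / 50 : ℝ) * (64 * R / (δ ^ 2 * (1 + |t|) ^ 2)) ^ (13 / 50 : ℝ) := by gcongr
    _ = 64 ^ (13 / 50 : ℝ) * (R ^ (-(12 / 25) : ℝ) * δ ^ (-(13 / 25) : ℝ)) * (1 + |t|) ^ (-(13 / 25) : ℝ) := by
        have hx : 0 < 1 + |t| := by positivity
        have a1 : (1 / R) ^ (37 / 50 : ℝ) = R ^ (-(37 / 50) : ℝ) := by
          rw [one_div, Real.inv_rpow hR0.le, Real.rpow_neg hR0.le]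
        have e1 : ((2:ℕ):ℝ) * (13 / 50) = 13 / 25 := by norm_num
        have a2 : (64 * R / (δ ^ 2 * (1 + |t|) ^ 2)) ^ (13 / 50 : ℝ) =
            64 ^ (13 / 50 : ℝ) * R ^ (13 / 50 : ℝ) / (δ ^ (13 / 25 : ℝ) * (1 + |t|) ^ (13 / 25 : ℝ)) := by
          rw [Real.div_rpow (by positivity) (by positivity), Real.mul_rpow (by norm_num) hR0.le,
            Real.mul_rpow (by positivity) (by positivity),
            ← Real.rpow_natCast δ 2, ← Real.rpow_natCast (1 + |t|) 2, ← Real.rpow_mul hδ.le,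
            ← Real.rpow_mul hx.le, e1]
        rw [a1, a2, Real.rpow_neg hδ.le, Real.rpow_neg hx.le]
        have e2 : R ^ (-(12 / 25) : ℝ) = R ^ (-(37 / 50) : ℝ) * R ^ (13 / 50 : ℝ) := by
          rw [← Real.rpow_add hR0]; norm_num
        rw [e2]
        field_simp
    _ ≤ _ := by
        have : (64:ℝ) ^ (13 / 50 : ℝ) ≤ 4 := by
          calc (64:ℝ) ^ (13 / 50 : ℝ) ≤ 64 ^ (1 / 3 : ℝ) :=
                Real.rpow_le_rpow_of_exponent_le (by norm_num) (by norm_num)
            _ = 4 := by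
                rw [show (64:ℝ) = 4 ^ (3:ℝ) by norm_num, ← Real.rpow_mul (by norm_num)]; norm_num
        gcongr

/-- the smoothed Voronoi formula of the divisor problem -/
theorem voronoi_div : ∃ C : ℝ, 0 < C ∧ ∀ R δ : ℝ, 1 ≤ R → 0 < δ → δ ≤ 1 / 2 →
    |(1 / δ ^ 2) * (∫ u in (0:ℝ)..δ, ∫ v in (0:ℝ)..δ, Ed (R + u + v)) - ∑' m : ℕ, vt R δ m| ≤
      C * (R ^ (-(12 / 25) : ℝ) * δ ^ (-(13 / 25) : ℝ)) := by
  obtain ⟨CA, hCA, hA⟩ := Aw_sub
  obtain ⟨Z1, hZ1, hz1⟩ := zeta_bdd_line (σ := 5 / 4) (by norm_num)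
  have hz1' : ∀ t : ℝ, ‖riemannZeta (wl t)‖ ≤ Z1 := by
    intro t
    have := hz1 t
    have e : (((5 / 4 : ℝ) : ℂ) + (t : ℂ) * Complex.I) = wl t := by unfold wl; push_cast; ring
    rwa [e] at this
  have hJi : Integrable (fun t : ℝ => (1 + |t|) ^ (-(51 / 50) : ℝ)) := by
    have := integrable_one_add_norm (E := ℝ) (μ := volume) (r := 51 / 50) (by simp; norm_num)
    simpa using this
  set J : ℝ := ∫ t : ℝ, (1 + |t|) ^ (-(51 / 50) : ℝ) with hJ
  have hJ0 : 0 ≤ J := integral_nonneg fun t => by positivity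
  refine ⟨CA * Z1 ^ 2 * 4 * J + 1, by positivity, fun R δ hR hδ hδ2 => ?_⟩
  have hR0 : 0 < R := by linarith
  have hpi := Real.pi_pos
  have hpi3 := Real.pi_gt_three
  set X : ℝ := R ^ (-(12 / 25) : ℝ) * δ ^ (-(13 / 25) : ℝ) with hX
  set V : ℝ := (1 / δ ^ 2) * (∫ u in (0:ℝ)..δ, ∫ v in (0:ℝ)..δ, Ed (R + u + v)) with hV
  have hshift := shift hR0 hδ
  rw [right_side hR hδ, left_side hR hδ, ← hV] at hshift
  have hmod := model_side hR hδ
  -- the error integral
  set Er : ℝ → ℂ := fun t => (Aw (wl t) - (-2 * Qw (wl t))) * riemannZeta (wl t) ^ 2 *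
    KA R δ (1 + (2 * t : ℝ) * Complex.I) with hEr
  have hErb : ∀ t, ‖Er t‖ ≤ (CA * Z1 ^ 2 * 4 * X) * (1 + |t|) ^ (-(51 / 50) : ℝ) := by
    intro t
    rw [hEr]
    beta_reduce
    rw [norm_mul, norm_mul, norm_pow]
    have h1 := hA t
    have h2 := hz1' t
    have h3 := KA_interp hR hδ hδ2 t
    rw [← hX] at h3
    have hx : 0 < 1 + |t| := by positivity
    calc ‖Aw (wl t) - (-2 * Qw (wl t))‖ * ‖riemannZeta (wl t)‖ ^ 2 * ‖KA R δ (1 + (2 * t : ℝ) * Complex.I)‖ ≤
          (CA * (1 + |t|) ^ (-(1 / 2) : ℝ)) * Z1 ^ 2 * (4 * X * (1 + |t|) ^ (-(13 / 25) : ℝ)) := by gcongr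
      _ = (CA * Z1 ^ 2 * 4 * X) * ((1 + |t|) ^ (-(1 / 2) : ℝ) * (1 + |t|) ^ (-(13 / 25) : ℝ)) := by ring
      _ = _ := by rw [← Real.rpow_add hx]; norm_num
  have hErI : ‖∫ t : ℝ, Er t‖ ≤ CA * Z1 ^ 2 * 4 * J * X := by
    refine (norm_integral_le_of_norm_le (hJi.const_mul (CA * Z1 ^ 2 * 4 * X))
      (Eventually.of_forall hErb)).trans (le_of_eq ?_)
    rw [integral_const_mul, ← hJ]
    ring
  -- continuity of the integrands
  have hzc : Continuous fun t : ℝ => riemannZeta (wl t) := by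
    rw [continuous_iff_continuousAt]
    intro t
    have h1 : ContinuousAt riemannZeta (wl t) := (differentiableAt_riemannZeta (by
      intro h
      have := congrArg Complex.re h
      rw [wl_re] at this
      norm_num at this)).continuousAt
    exact ContinuousAt.comp (f := wl) h1 continuous_wl.continuousAt
  have hAc : Continuous fun t : ℝ => Aw (wl t) := by
    unfold Aw
    have hw := continuous_wl
    have h1 : Continuous fun t : ℝ => (2 * Real.pi : ℂ) ^ (-(2 * wl t)) := by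
      refine Continuous.const_cpow (by fun_prop) (Or.inl ?_)
      have : (2 * Real.pi : ℂ) = ((2 * Real.pi : ℝ) : ℂ) := by push_cast; ring
      rw [this]
      exact_mod_cast (by positivity : (2 * Real.pi : ℝ) ≠ 0)
    have h2 : Continuous fun t : ℝ => Complex.Gamma (wl t) := by
      rw [continuous_iff_continuousAt]
      intro t
      have h3 : ContinuousAt Complex.Gamma (wl t) := by
        refine (Complex.differentiableAt_Gamma _ fun m h => ?_).continuousAt
        have := congrArg Complex.re h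
        rw [wl_re] at this
        simp at this
        have h4 : (0:ℝ) ≤ m := Nat.cast_nonneg m
        linarith
      exact ContinuousAt.comp (f := wl) h3 hw.continuousAt
    have h4 : Continuous fun t : ℝ => Complex.cos (Real.pi * wl t / 2) :=
      Complex.continuous_cos.comp (by fun_prop)
    have h5 : ∀ t, 1 - wl t ≠ 0 := one_sub_wl_ne
    exact ((((continuous_const.mul h1).mul (h2.pow 2)).mul (h4.pow 2))).div (by fun_prop) h5
  have iEr : Integrable Er := by
    refine (hJi.const_mul (CA * Z1 ^ 2 * 4 * X)).mono' ?_ (Eventually.of_forall hErb)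
    exact (((hAc.sub (continuous_const.mul continuous_Qw)).mul (hzc.pow 2)).mul
      (continuous_KA_two hR0 δ)).aestronglyMeasurable
  have iM : Integrable fun t : ℝ => -2 * Qw (wl t) * riemannZeta (wl t) ^ 2 * KA R δ (1 + (2 * t : ℝ) * Complex.I) := by
    obtain ⟨B, hB, hK⟩ := KA_bound hR0 hδ
    have h1 : Integrable fun t : ℝ => (128 * Z1 ^ 2 * B) * (1 + ‖t‖) ^ (-(3 / 2 : ℝ)) :=
      (integrable_one_add_norm (by simp; norm_num)).const_mul _
    refine h1.mono' (((continuous_const.mul continuous_Qw).mul (hzc.pow 2)).mul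
      (continuous_KA_two hR0 δ)).aestronglyMeasurable (Eventually.of_forall fun t => ?_)
    have h2 := Qw_le t
    have h3 := hK (1 + (2 * t : ℝ) * Complex.I) (by simp)
    have him : ((1 : ℂ) + ((2 * t : ℝ) : ℂ) * Complex.I).im = 2 * t := by simp
    rw [him] at h3
    have ht := abs_nonneg t
    have h4 : B / (1 + |2 * t|) ^ 2 ≤ B / (1 + |t|) ^ 2 := by
      rw [abs_mul, abs_two]
      gcongr
      linarith
    have h6 := hz1' t
    rw [norm_mul, norm_mul, norm_mul, norm_neg, norm_pow, Real.norm_eq_abs]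
    have h5 : ‖(2:ℂ)‖ = 2 := by norm_num
    rw [h5]
    calc 2 * ‖Qw (wl t)‖ * ‖riemannZeta (wl t)‖ ^ 2 * ‖KA R δ (1 + (2 * t : ℝ) * Complex.I)‖ ≤
          2 * (64 * (1 + |t|) ^ (1 / 2 : ℝ)) * Z1 ^ 2 * (B / (1 + |t|) ^ 2) := by
          gcongr
          exact h3.trans h4
      _ = 128 * Z1 ^ 2 * B * ((1 + |t|) ^ (1 / 2 : ℝ) * (1 + |t|) ^ (-(2:ℝ))) := by
          rw [Real.rpow_neg (by positivity), Real.rpow_two]
          ring
      _ = 128 * Z1 ^ 2 * B * (1 + |t|) ^ (-(3 / 2) : ℝ) := by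
          rw [← Real.rpow_add (by positivity)]; norm_num
  have hsplit : ∫ t : ℝ, Aw (wl t) * riemannZeta (wl t) ^ 2 * KA R δ (1 + (2 * t : ℝ) * Complex.I) =
      2 * Real.pi * ((∑' m, vt R δ m : ℝ) : ℂ) + ∫ t : ℝ, Er t := by
    have e1 : ∀ t : ℝ, Aw (wl t) * riemannZeta (wl t) ^ 2 * KA R δ (1 + (2 * t : ℝ) * Complex.I) =
        -2 * Qw (wl t) * riemannZeta (wl t) ^ 2 * KA R δ (1 + (2 * t : ℝ) * Complex.I) + Er t := by
      intro t
      rw [hEr]
      ring
    simp_rw [e1]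
    rw [integral_add iM iEr, ← hmod.tsum_eq, tsum_mul_left, Complex.ofReal_tsum]
  rw [hsplit] at hshift
  -- conclusion
  have hKhalf : ‖KA R δ (1 / 2)‖ ≤ 1 := by
    apply KA_sup hR0 hδ
    intro x hx
    apply Real.rpow_le_one_of_one_le_of_nonpos
    · linarith [hx.1]
    · norm_num
  have hKhalf2 : ‖KA R δ (1 / 2)‖ ≤ X := by
    have h1 : ‖KA R δ (1 / 2)‖ ≤ R ^ (-(1 / 2) : ℝ) := by
      apply KA_sup hR0 hδ
      intro x hx
      have e : ((1 / 2 : ℂ)).re = 1 / 2 := by norm_num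
      rw [e]
      exact Real.rpow_le_rpow_of_nonpos hR0 hx.1 (by norm_num)
    have h2 : R ^ (-(1 / 2) : ℝ) ≤ R ^ (-(12 / 25) : ℝ) := Real.rpow_le_rpow_of_exponent_le hR (by norm_num)
    have h3 : 1 ≤ δ ^ (-(13 / 25) : ℝ) := Real.one_le_rpow_of_pos_of_le_one_of_nonpos hδ (by linarith) (by norm_num)
    have h4 : 0 ≤ R ^ (-(12 / 25) : ℝ) := by positivity
    rw [hX]
    nlinarith
  have hfin : ((V - ∑' m, vt R δ m : ℝ) : ℂ) = (1 / 4 : ℂ) * KA R δ (1 / 2) + (1 / (2 * Real.pi) : ℂ) * ∫ t : ℝ, Er t := by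
    have hne : (2 * Real.pi : ℂ) ≠ 0 := by
      have : (2 * Real.pi : ℂ) = ((2 * Real.pi : ℝ) : ℂ) := by push_cast; ring
      rw [this]
      exact_mod_cast (by positivity : (2 * Real.pi : ℝ) ≠ 0)
    push_cast
    push_cast at hshift
    field_simp
    field_simp at hshift
    linear_combination (-1 : ℂ) * hshift
  have h7 : |V - ∑' m, vt R δ m| = ‖((V - ∑' m, vt R δ m : ℝ) : ℂ)‖ := by
    rw [Complex.norm_real, Real.norm_eq_abs]
  rw [h7, hfin]
  refine (norm_add_le _ _).trans ?_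
  rw [norm_mul, norm_mul]
  have e3 : ‖(1 / 4 : ℂ)‖ = 1 / 4 := by norm_num
  have e4 : ‖(1 / (2 * Real.pi) : ℂ)‖ ≤ 1 := by
    have : (1 / (2 * Real.pi) : ℂ) = ((1 / (2 * Real.pi) : ℝ) : ℂ) := by push_cast; ring
    rw [this, Complex.norm_real, Real.norm_of_nonneg (by positivity), div_le_one (by positivity)]
    linarith
  rw [e3]
  have hX0 : 0 ≤ X := by positivity
  calc 1 / 4 * ‖KA R δ (1 / 2)‖ + ‖(1 / (2 * Real.pi) : ℂ)‖ * ‖∫ t : ℝ, Er t‖ ≤
        1 / 4 * X + 1 * (CA * Z1 ^ 2 * 4 * J * X) := by gcongr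
    _ ≤ _ := by nlinarith

end

end Pool.Agent.H387R2.Vor
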