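import Pool.Agent.H383.OM.Defs
import Pool.Agent.H732R2.VorCos

set_option autoImplicit false

open MeasureTheory Filter Topology Set
open Pool.Agent.H387R2.Vor Pool.Agent.H383.OM

namespace Pool.Agent.H387R2.OmC3

/-- dominating function -/
noncomputable def HH (z : ℝ) : ℝ :=
  (|Real.log z| + Real.eulerMascheroniConstant) * z ^ (-(1/2) : ℝ) * min 1 (1 / z)

lemma gam_pos : 0 < Real.eulerMascheroniConstant := by
  have := Real.one_half_lt_eulerMascheroniConstant
  linarith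

lemma HH_nonneg {z : ℝ} (hz : 0 < z) : 0 ≤ HH z := by
  unfold HH
  have := gam_pos
  have : 0 ≤ min 1 (1 / z) := le_min zero_le_one (by positivity)
  positivity

lemma HH_meas : Measurable HH := by
  unfold HH
  fun_prop

lemma HH_int : IntegrableOn HH (Ioi 0) := by
  have hg := gam_pos
  have hu : Ioi (0:ℝ) = Ioc 0 1 ∪ Ioi 1 := (Ioc_union_Ioi_eq_Ioi zero_le_one).symm
  rw [hu]
  refine IntegrableOn.union ?_ ?_
  · have h1 : IntegrableOn (fun z : ℝ => (4 + Real.eulerMascheroniConstant) * z ^ (-(3/4) : ℝ)) (Ioc 0 1) := by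
      have := (intervalIntegral.intervalIntegrable_rpow' (a := 0) (b := 1) (r := -(3/4)) (by norm_num))
      rw [intervalIntegrable_iff_integrableOn_Ioc_of_le zero_le_one] at this
      exact this.const_mul _
    refine Integrable.mono' h1 HH_meas.aestronglyMeasurable ?_
    refine (ae_restrict_iff' measurableSet_Ioc).2 (Eventually.of_forall fun z hz => ?_)
    have hz0 : 0 < z := hz.1
    have hz1 : z ≤ 1 := hz.2
    rw [Real.norm_of_nonneg (HH_nonneg hz0)]
    unfold HH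
    have e1 : |Real.log z| ≤ 4 * z ^ (-(1/4) : ℝ) := by
      rw [abs_of_nonpos (Real.log_nonpos hz0.le hz1), ← Real.log_inv]
      have := Real.log_le_rpow_div (x := z⁻¹) (ε := 1/4) (by positivity) (by norm_num)
      rw [Real.inv_rpow hz0.le, ← Real.rpow_neg hz0.le] at this
      linarith
    have e2 : 1 ≤ z ^ (-(1/4) : ℝ) := Real.one_le_rpow_of_pos_of_le_one_of_nonpos hz0 hz1 (by norm_num)
    have e3 : z ^ (-(3/4) : ℝ) = z ^ (-(1/4) : ℝ) * z ^ (-(1/2) : ℝ) := by
      rw [← Real.rpow_add hz0]; norm_num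
    have e4 : 0 < z ^ (-(1/2) : ℝ) := Real.rpow_pos_of_pos hz0 _
    have e5 : |Real.log z| + Real.eulerMascheroniConstant ≤ (4 + Real.eulerMascheroniConstant) * z ^ (-(1/4) : ℝ) := by
      nlinarith
    have e6 : (|Real.log z| + Real.eulerMascheroniConstant) * z ^ (-(1/2) : ℝ) * min 1 (1 / z) ≤
        (|Real.log z| + Real.eulerMascheroniConstant) * z ^ (-(1/2) : ℝ) * 1 :=
      mul_le_mul_of_nonneg_left (min_le_left _ _) (by positivity)
    refine e6.trans ?_
    rw [mul_one, e3, ← mul_assoc]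
    exact mul_le_mul_of_nonneg_right e5 e4.le
  · have h1 : IntegrableOn (fun z : ℝ => (4 + Real.eulerMascheroniConstant) * z ^ (-(5/4) : ℝ)) (Ioi 1) :=
      (integrableOn_Ioi_rpow_of_lt (by norm_num) zero_lt_one).const_mul _
    refine Integrable.mono' h1 HH_meas.aestronglyMeasurable ?_
    refine (ae_restrict_iff' measurableSet_Ioi).2 (Eventually.of_forall fun z hz => ?_)
    have hz1 : 1 < z := hz
    have hz0 : 0 < z := by linarith
    rw [Real.norm_of_nonneg (HH_nonneg hz0)]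
    unfold HH
    have e1 : |Real.log z| ≤ 4 * z ^ ((1/4) : ℝ) := by
      rw [abs_of_nonneg (Real.log_nonneg hz1.le)]
      have := Real.log_le_rpow_div (x := z) (ε := 1/4) hz0.le (by norm_num)
      linarith
    have e2 : 1 ≤ z ^ ((1/4) : ℝ) := Real.one_le_rpow hz1.le (by norm_num)
    have e3 : z ^ (-(5/4) : ℝ) = z ^ ((1/4) : ℝ) * z ^ (-(1/2) : ℝ) * (1 / z) := by
      rw [← Real.rpow_add hz0, one_div z, ← Real.rpow_neg_one z, ← Real.rpow_add hz0]; norm_num
    have e4 : 0 < z ^ (-(1/2) : ℝ) := Real.rpow_pos_of_pos hz0 _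
    have e5 : |Real.log z| + Real.eulerMascheroniConstant ≤ (4 + Real.eulerMascheroniConstant) * z ^ ((1/4) : ℝ) := by
      nlinarith
    have e6 : (|Real.log z| + Real.eulerMascheroniConstant) * z ^ (-(1/2) : ℝ) * min 1 (1 / z) ≤
        (|Real.log z| + Real.eulerMascheroniConstant) * z ^ (-(1/2) : ℝ) * (1 / z) :=
      mul_le_mul_of_nonneg_left (min_le_right _ _) (by positivity)
    refine e6.trans ?_
    rw [e3]
    have : (4 + Real.eulerMascheroniConstant) * (z ^ ((1/4) : ℝ) * z ^ (-(1/2) : ℝ) * (1 / z)) =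
        ((4 + Real.eulerMascheroniConstant) * z ^ ((1/4) : ℝ)) * z ^ (-(1/2) : ℝ) * (1 / z) := by ring
    rw [this]
    gcongr

lemma norm_ex (y : ℝ) : ‖ex y‖ = 1 := by
  unfold ex
  exact Complex.norm_exp_ofReal_mul_I _

lemma norm_om : ‖om‖ = 1 := by
  unfold om
  rw [← Complex.ofReal_neg]
  exact Complex.norm_exp_ofReal_mul_I _

lemma cf_le_one (y : ℝ) : ‖cf y‖ ≤ 1 := by
  unfold cf ex
  rw [norm_div]
  apply div_le_one_of_le₀ _ (norm_nonneg _)
  rw [mul_comm]
  refine (Real.norm_exp_I_mul_ofReal_sub_one_le).trans ?_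
  rw [norm_mul Complex.I, Complex.norm_I, one_mul, Complex.norm_real]

lemma cf_le {y : ℝ} (hy : 0 < y) : ‖cf y‖ ≤ 1 / y := by
  have hpi := Real.pi_gt_three
  unfold cf ex
  rw [norm_div, norm_mul, Complex.norm_I, mul_one, Complex.norm_real, Real.norm_eq_abs, abs_of_pos (by positivity)]
  have h1 : ‖Complex.exp (((2 * Real.pi * y : ℝ) : ℂ) * Complex.I) - 1‖ ≤ 2 := by
    refine (norm_sub_le _ _).trans ?_
    rw [Complex.norm_exp_ofReal_mul_I, norm_one]; norm_num
  rw [div_le_div_iff₀ (by positivity) hy]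
  nlinarith

lemma Cn_le_one (δ : ℝ) (n : ℕ) (z v : ℝ) : |Cn δ n z v| ≤ 1 := by
  unfold Cn
  refine (Complex.abs_re_le_norm _).trans ?_
  rw [norm_mul, norm_mul, norm_om, norm_ex, norm_pow, one_mul, one_mul]
  exact pow_le_one₀ (norm_nonneg _) (cf_le_one _)

lemma Cn_le {δ : ℝ} (hδ : 0 < δ) {n : ℕ} (hn : 1 ≤ n) {z : ℝ} (hz : 0 < z) (v : ℝ) :
    |Cn δ n z v| ≤ 1 / (2 * z * δ) := by
  unfold Cn
  refine (Complex.abs_re_le_norm _).trans ?_
  rw [norm_mul, norm_mul, norm_om, norm_ex, norm_pow, one_mul, one_mul]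
  calc ‖cf (2 * z * δ)‖ ^ n ≤ ‖cf (2 * z * δ)‖ ^ 1 := pow_le_pow_of_le_one (norm_nonneg _) (cf_le_one _) hn
    _ ≤ _ := by rw [pow_one]; exact cf_le (by positivity)

lemma Cn_meas (δ : ℝ) (n : ℕ) : Measurable (fun p : ℝ × ℝ => Cn δ n p.1 p.2) := by
  unfold Cn ex cf ex
  fun_prop

/-- the weight -/
noncomputable def gs (σ z : ℝ) : ℝ :=
  4 * (Real.log z + Real.eulerMascheroniConstant) * z ^ (-(1/2) : ℝ) * Real.exp (-(σ * z))

lemma gs_meas (σ : ℝ) : Measurable (gs σ) := by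
  unfold gs
  fun_prop

lemma Qn_eq (δ : ℝ) (n : ℕ) (σ v : ℝ) : Qn δ n σ v = ∫ z in Ioi (0:ℝ), gs σ z * Cn δ n z v := rfl

lemma gs_abs {σ z : ℝ} (hσ : 0 ≤ σ) (hz : 0 < z) :
    |gs σ z| ≤ 4 * ((|Real.log z| + Real.eulerMascheroniConstant) * z ^ (-(1/2) : ℝ)) * Real.exp (-(σ * z)) := by
  unfold gs
  have hg := gam_pos
  rw [abs_mul, abs_mul, abs_mul, abs_of_pos (by norm_num : (0:ℝ) < 4), abs_of_pos (Real.exp_pos _),
    abs_of_pos (Real.rpow_pos_of_pos hz _)]
  have h1 : |Real.log z + Real.eulerMascheroniConstant| ≤ |Real.log z| + Real.eulerMascheroniConstant := by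
    refine (abs_add_le _ _).trans ?_
    rw [abs_of_pos hg]
  have h2 : 0 < z ^ (-(1/2) : ℝ) := Real.rpow_pos_of_pos hz _
  have h3 := Real.exp_pos (-(σ * z))
  calc 4 * |Real.log z + Real.eulerMascheroniConstant| * z ^ (-(1/2) : ℝ) * Real.exp (-(σ * z)) ≤
      4 * (|Real.log z| + Real.eulerMascheroniConstant) * z ^ (-(1/2) : ℝ) * Real.exp (-(σ * z)) := by gcongr
    _ = _ := by ring

lemma gs_int {σ : ℝ} (hσ : 0 < σ) : IntegrableOn (gs σ) (Ioi 0) := by
  refine Integrable.mono' (HH_int.const_mul (4 * (1 + 1 / σ))) (gs_meas σ).aestronglyMeasurable ?_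
  refine (ae_restrict_iff' measurableSet_Ioi).2 (Eventually.of_forall fun z hz => ?_)
  have hz0 : 0 < z := hz
  rw [Real.norm_eq_abs]
  refine (gs_abs hσ.le hz0).trans ?_
  unfold HH
  have hg := gam_pos
  have h1 : Real.exp (-(σ * z)) ≤ (1 + 1 / σ) * min 1 (1 / z) := by
    rcases le_total 1 (1 / z) with h | h
    · rw [min_eq_left h, mul_one]
      have : Real.exp (-(σ * z)) ≤ 1 := Real.exp_le_one_iff.2 (by nlinarith)
      have : 0 < 1 / σ := by positivity
      linarith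
    · rw [min_eq_right h]
      have h2 : Real.exp (-(σ * z)) ≤ 1 / (σ * z) := by
        rw [Real.exp_neg, ← one_div]
        apply one_div_le_one_div_of_le (by positivity)
        have := Real.add_one_le_exp (σ * z)
        linarith
      refine h2.trans ?_
      have : 1 / (σ * z) = 1 / σ * (1 / z) := by field_simp
      rw [this]
      have h3 : 0 < 1 / z := by positivity
      nlinarith
  have h2 : 0 ≤ (|Real.log z| + Real.eulerMascheroniConstant) * z ^ (-(1/2) : ℝ) := by positivity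
  calc _ ≤ 4 * ((|Real.log z| + Real.eulerMascheroniConstant) * z ^ (-(1/2) : ℝ)) * ((1 + 1 / σ) * min 1 (1 / z)) :=
        mul_le_mul_of_nonneg_left h1 (by positivity)
    _ = _ := by ring

/-- the complex frequency -/
noncomputable def ww (σ v : ℝ) : ℂ := (σ : ℂ) + ((4 * Real.pi * v : ℝ) : ℂ) * Complex.I

lemma ww_re (σ v : ℝ) : (ww σ v).re = σ := by
  unfold ww
  simp

lemma ww_ne {σ v : ℝ} (h : 0 < σ) : ww σ v ≠ 0 := by
  intro h0
  have := ww_re σ v
  rw [h0] at this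
  simp at this
  linarith

/-- the Mellin transform with the logarithm -/
lemma mellin_log {σ v : ℝ} (hσ : 0 < σ) :
    MellinConvergent (fun t : ℝ => Real.log t • Complex.exp (-(ww σ v * t))) (1 / 2 : ℂ) ∧
    mellin (fun t : ℝ => Real.log t • Complex.exp (-(ww σ v * t))) (1 / 2 : ℂ) =
      (1 / ww σ v) ^ (1 / 2 : ℂ) * Complex.log (1 / ww σ v) * (√Real.pi : ℂ) +
      (1 / ww σ v) ^ (1 / 2 : ℂ) * (-√Real.pi * (Real.eulerMascheroniConstant + 2 * Complex.log 2)) := by
  set w := ww σ v with hw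
  have hwre : w.re = σ := ww_re σ v
  have hw0 : w ≠ 0 := ww_ne hσ
  have hcont : Continuous (fun t : ℝ => Complex.exp (-(w * t))) := by fun_prop
  have hn : ∀ t : ℝ, ‖Complex.exp (-(w * t))‖ = Real.exp (-(σ * t)) := by
    intro t
    rw [Complex.norm_exp]
    congr 1
    simp [hwre]
  have h1 : (fun t : ℝ => Complex.exp (-(w * t))) =O[atTop] (fun x : ℝ => x ^ (-(1:ℝ))) := by
    have h2 : (fun t : ℝ => Real.exp (-σ * t)) =o[atTop] (fun x : ℝ => x ^ (-(1:ℝ))) :=
      isLittleO_exp_neg_mul_rpow_atTop hσ _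
    refine Asymptotics.IsBigO.trans ?_ h2.isBigO
    refine Asymptotics.IsBigO.of_bound 1 (Eventually.of_forall fun t => ?_)
    rw [hn, one_mul, Real.norm_of_nonneg (Real.exp_pos _).le]
    apply le_of_eq
    ring_nf
  have h2 : (fun t : ℝ => Complex.exp (-(w * t))) =O[𝓝[>] 0] (fun x : ℝ => x ^ (-(0:ℝ))) := by
    refine Asymptotics.IsBigO.of_bound 1 ?_
    filter_upwards [self_mem_nhdsWithin] with t ht
    have ht0 : 0 < t := ht
    rw [hn, neg_zero, Real.rpow_zero, norm_one, mul_one]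
    exact Real.exp_le_one_iff.2 (by nlinarith)
  obtain ⟨h3, h4⟩ := mellin_hasDerivAt_of_isBigO_rpow (a := 1) (b := 0) (s := (1 / 2 : ℂ))
    (hcont.locallyIntegrable.locallyIntegrableOn _) h1 (by norm_num) h2 (by norm_num)
  refine ⟨h3, ?_⟩
  have h5 : HasDerivAt (fun s : ℂ => (1 / w) ^ s * Complex.Gamma s)
      ((1 / w) ^ (1 / 2 : ℂ) * Complex.log (1 / w) * Complex.Gamma (1 / 2) +
        (1 / w) ^ (1 / 2 : ℂ) * (-√Real.pi * (Real.eulerMascheroniConstant + 2 * Complex.log 2))) (1 / 2) := by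
    apply HasDerivAt.mul _ Complex.hasDerivAt_Gamma_one_half
    have := (hasDerivAt_id (1 / 2 : ℂ)).const_cpow (c := 1 / w) (Or.inl (one_div_ne_zero hw0))
    simpa using this
  have h6 : (mellin fun t : ℝ => Complex.exp (-(w * t))) =ᶠ[𝓝 (1 / 2 : ℂ)] (fun s : ℂ => (1 / w) ^ s * Complex.Gamma s) := by
    have : {s : ℂ | 0 < s.re} ∈ 𝓝 (1 / 2 : ℂ) :=
      (isOpen_lt continuous_const Complex.continuous_re).mem_nhds (by norm_num)
    filter_upwards [this] with s hs
    exact mellin_exp (by rw [hwre]; exact hσ) hs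
  have h7 := (h5.congr_of_eventuallyEq h6).unique h4
  rw [← h7, Complex.Gamma_one_half_eq]
  congr 2
  rw [Real.sqrt_eq_rpow, Complex.ofReal_cpow Real.pi_pos.le]
  norm_num

/-- the Mellin transform without the logarithm -/
lemma mellin_plain {σ v : ℝ} (hσ : 0 < σ) :
    MellinConvergent (fun t : ℝ => Complex.exp (-(ww σ v * t))) (1 / 2 : ℂ) ∧
    mellin (fun t : ℝ => Complex.exp (-(ww σ v * t))) (1 / 2 : ℂ) = (1 / ww σ v) ^ (1 / 2 : ℂ) * (√Real.pi : ℂ) := by
  set w := ww σ v with hw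
  have hwre : w.re = σ := ww_re σ v
  have hcont : Continuous (fun t : ℝ => Complex.exp (-(w * t))) := by fun_prop
  have hn : ∀ t : ℝ, ‖Complex.exp (-(w * t))‖ = Real.exp (-(σ * t)) := by
    intro t
    rw [Complex.norm_exp]
    congr 1
    simp [hwre]
  have h1 : (fun t : ℝ => Complex.exp (-(w * t))) =O[atTop] (fun x : ℝ => x ^ (-(1:ℝ))) := by
    have h2 : (fun t : ℝ => Real.exp (-σ * t)) =o[atTop] (fun x : ℝ => x ^ (-(1:ℝ))) :=
      isLittleO_exp_neg_mul_rpow_atTop hσ _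
    refine Asymptotics.IsBigO.trans ?_ h2.isBigO
    refine Asymptotics.IsBigO.of_bound 1 (Eventually.of_forall fun t => ?_)
    rw [hn, one_mul, Real.norm_of_nonneg (Real.exp_pos _).le]
    apply le_of_eq
    ring_nf
  have h2 : (fun t : ℝ => Complex.exp (-(w * t))) =O[𝓝[>] 0] (fun x : ℝ => x ^ (-(0:ℝ))) := by
    refine Asymptotics.IsBigO.of_bound 1 ?_
    filter_upwards [self_mem_nhdsWithin] with t ht
    have ht0 : 0 < t := ht
    rw [hn, neg_zero, Real.rpow_zero, norm_one, mul_one]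
    exact Real.exp_le_one_iff.2 (by nlinarith)
  refine ⟨mellinConvergent_of_isBigO_rpow (a := 1) (b := 0) (hcont.locallyIntegrable.locallyIntegrableOn _) h1
    (by norm_num) h2 (by norm_num), ?_⟩
  rw [mellin_exp (by rw [hwre]; exact hσ) (by norm_num), Complex.Gamma_one_half_eq]
  congr 1
  rw [Real.sqrt_eq_rpow, Complex.ofReal_cpow Real.pi_pos.le]
  norm_num

/-- closed form -/
noncomputable def Gf (σ v : ℝ) : ℝ :=
  (om * (4 * ((√Real.pi : ℂ) * ((1 / ww σ v) ^ (1 / 2 : ℂ) * (Complex.log (1 / ww σ v) - 2 * Complex.log 2))))).re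

lemma Q0 {σ : ℝ} (hσ : 0 < σ) (δ v : ℝ) : Qn δ 0 σ v = Gf σ v := by
  obtain ⟨a1, a2⟩ := mellin_log (v := v) hσ
  obtain ⟨b1, b2⟩ := mellin_plain (v := v) hσ
  set w := ww σ v with hw
  unfold MellinConvergent at a1 b1
  unfold mellin at a2 b2
  have hpt : ∀ z ∈ Ioi (0:ℝ), gs σ z * Cn δ 0 z v = Complex.reCLM (om * (4 * (((z : ℂ) ^ ((1 / 2 : ℂ) - 1) •
      (Real.log z • Complex.exp (-(w * z)))) + (Real.eulerMascheroniConstant : ℂ) *
      ((z : ℂ) ^ ((1 / 2 : ℂ) - 1) • Complex.exp (-(w * z)))))) := by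
    intro z hz
    have hz0 : 0 < z := hz
    have e1 : (z : ℂ) ^ ((1 / 2 : ℂ) - 1) = ((z ^ (-(1/2) : ℝ) : ℝ) : ℂ) := by
      rw [Complex.ofReal_cpow hz0.le]
      congr 1
      push_cast
      norm_num
    have e2 : Complex.exp (-(w * z)) = (Real.exp (-(σ * z)) : ℂ) * ex (-(2 * z * v)) := by
      unfold ex
      rw [Complex.ofReal_exp, ← Complex.exp_add]
      congr 1
      rw [hw]
      unfold ww
      push_cast
      ring
    rw [e1, e2]
    unfold gs Cn
    rw [pow_zero, mul_one]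
    have e3 : om * (4 * (((z ^ (-(1/2) : ℝ) : ℝ) : ℂ) • (Real.log z • ((Real.exp (-(σ * z)) : ℂ) * ex (-(2 * z * v)))) +
        (Real.eulerMascheroniConstant : ℂ) * (((z ^ (-(1/2) : ℝ) : ℝ) : ℂ) • ((Real.exp (-(σ * z)) : ℂ) * ex (-(2 * z * v)))))) =
        ((4 * (Real.log z + Real.eulerMascheroniConstant) * z ^ (-(1/2) : ℝ) * Real.exp (-(σ * z)) : ℝ) : ℂ) *
          (om * ex (-(2 * z * v))) := by
      rw [smul_eq_mul, smul_eq_mul, Complex.real_smul]
      push_cast
      ring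
    rw [e3, Complex.reCLM_apply, Complex.re_ofReal_mul]
  rw [Qn_eq, setIntegral_congr_fun measurableSet_Ioi hpt]
  have hint : IntegrableOn (fun z : ℝ => om * (4 * (((z : ℂ) ^ ((1 / 2 : ℂ) - 1) •
      (Real.log z • Complex.exp (-(w * z)))) + (Real.eulerMascheroniConstant : ℂ) *
      ((z : ℂ) ^ ((1 / 2 : ℂ) - 1) • Complex.exp (-(w * z)))))) (Ioi 0) :=
    ((a1.add (b1.const_mul _)).const_mul _).const_mul _
  rw [Complex.reCLM.integral_comp_comm hint, integral_const_mul, integral_const_mul, integral_add a1 (b1.const_mul _),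
    integral_const_mul, a2, b2, Complex.reCLM_apply]
  unfold Gf
  congr 1
  rw [← hw]
  ring

lemma re_aux (a b : ℝ) : ((a : ℂ) + (b : ℂ) * Complex.I).re = a := by simp

lemma Gf_zero {v : ℝ} (hv : 0 < v) : Gf 0 v = -Real.pi * v ^ (-(1/2) : ℝ) := by
  have hpi := Real.pi_pos
  have h4 : 0 < 4 * Real.pi * v := by positivity
  have hlog : Complex.log (1 / ww 0 v) = ((-Real.log (4 * Real.pi * v) : ℝ) : ℂ) + ((-(Real.pi / 2) : ℝ) : ℂ) * Complex.I := by
    have e1 : 1 / ww 0 v = Complex.exp (((-Real.log (4 * Real.pi * v) : ℝ) : ℂ) + ((-(Real.pi / 2) : ℝ) : ℂ) * Complex.I) := by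
      rw [Complex.exp_add, ← Complex.ofReal_exp, Real.exp_neg, Real.exp_log h4]
      have e2 : Complex.exp (((-(Real.pi / 2) : ℝ) : ℂ) * Complex.I) = -Complex.I := by
        rw [Complex.exp_mul_I, ← Complex.ofReal_cos, ← Complex.ofReal_sin, Real.cos_neg, Real.sin_neg,
          Real.cos_pi_div_two, Real.sin_pi_div_two]
        simp
      rw [e2]
      unfold ww
      rw [Complex.ofReal_zero, zero_add]
      have : ((4 * Real.pi * v : ℝ) : ℂ) ≠ 0 := by exact_mod_cast h4.ne'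
      rw [Complex.ofReal_inv, div_eq_iff (mul_ne_zero this Complex.I_ne_zero)]
      field_simp
      rw [Complex.I_sq]; ring
    rw [e1, Complex.log_exp]
    · simp
      linarith
    · simp
      linarith
  set L := Real.log (4 * Real.pi * v) with hL
  have hne : 1 / ww 0 v ≠ 0 := by
    unfold ww
    rw [Complex.ofReal_zero, zero_add]
    have : ((4 * Real.pi * v : ℝ) : ℂ) ≠ 0 := by exact_mod_cast h4.ne'
    exact one_div_ne_zero (mul_ne_zero this Complex.I_ne_zero)
  have e1 : om * (1 / ww 0 v) ^ (1 / 2 : ℂ) = ((Real.exp (-L / 2) : ℝ) : ℂ) * (-Complex.I) := by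
    rw [Complex.cpow_def_of_ne_zero hne, hlog]
    unfold om
    rw [← Complex.exp_add]
    have e2 : Complex.exp (((-(Real.pi / 2) : ℝ) : ℂ) * Complex.I) = -Complex.I := by
      rw [Complex.exp_mul_I, ← Complex.ofReal_cos, ← Complex.ofReal_sin, Real.cos_neg, Real.sin_neg,
        Real.cos_pi_div_two, Real.sin_pi_div_two]
      simp
    rw [← e2, Complex.ofReal_exp, ← Complex.exp_add]
    congr 1
    push_cast
    ring
  have hlog2 : Complex.log 2 = ((Real.log 2 : ℝ) : ℂ) := by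
    rw [Complex.ofReal_log (by norm_num)]; norm_num
  have e3 : om * (4 * ((√Real.pi : ℂ) * ((1 / ww 0 v) ^ (1 / 2 : ℂ) * (Complex.log (1 / ww 0 v) - 2 * Complex.log 2)))) =
      ((4 * √Real.pi * Real.exp (-L / 2) : ℝ) : ℂ) * (((-(Real.pi / 2) : ℝ) : ℂ) +
        ((L + 2 * Real.log 2 : ℝ) : ℂ) * Complex.I) := by
    calc _ = (om * (1 / ww 0 v) ^ (1 / 2 : ℂ)) * (4 * (√Real.pi : ℂ) * (Complex.log (1 / ww 0 v) - 2 * Complex.log 2)) := by ring
      _ = _ := by
        rw [e1, hlog, hlog2]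
        push_cast
        linear_combination (4 * (√Real.pi : ℂ) * Complex.exp (-L / 2) * (Real.pi / 2)) * Complex.I_sq
  unfold Gf
  rw [e3, Complex.re_ofReal_mul]
  have e4 : (((-(Real.pi / 2) : ℝ) : ℂ) + ((L + 2 * Real.log 2 : ℝ) : ℂ) * Complex.I).re = -(Real.pi / 2) := re_aux _ _
  rw [e4]
  have e5 : Real.exp (-L / 2) = (1 / 2) * (1 / √Real.pi) * v ^ (-(1/2) : ℝ) := by
    have h1 : Real.exp (-L / 2) = (4 * Real.pi * v) ^ (-(1/2) : ℝ) := by
      rw [Real.rpow_def_of_pos h4, ← hL]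
      congr 1
      ring
    rw [h1, Real.mul_rpow (by positivity) hv.le, Real.mul_rpow (by norm_num) hpi.le]
    congr 2
    · rw [Real.rpow_neg (by norm_num), ← Real.sqrt_eq_rpow, show (4:ℝ) = 2 ^ 2 by norm_num,
        Real.sqrt_sq (by norm_num)]
      norm_num
    · rw [Real.rpow_neg hpi.le, ← Real.sqrt_eq_rpow, one_div]
  rw [e5]
  have : √Real.pi ≠ 0 := (Real.sqrt_pos.2 hpi).ne'
  field_simp
  ring

lemma Gf_cont {v : ℝ} (hv : 0 < v) : ContinuousAt (fun p : ℝ × ℝ => Gf p.1 p.2) (0, v) := by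
  have hpi := Real.pi_pos
  have h4 : 0 < 4 * Real.pi * v := by positivity
  have hne : ww 0 v ≠ 0 := by
    unfold ww
    rw [Complex.ofReal_zero, zero_add]
    have : ((4 * Real.pi * v : ℝ) : ℂ) ≠ 0 := by exact_mod_cast h4.ne'
    exact mul_ne_zero this Complex.I_ne_zero
  have hw : ContinuousAt (fun p : ℝ × ℝ => ww p.1 p.2) (0, v) := by
    unfold ww
    fun_prop
  have hinv : ContinuousAt (fun p : ℝ × ℝ => 1 / ww p.1 p.2) (0, v) := continuousAt_const.div hw hne
  have hsl : 1 / ww 0 v ∈ Complex.slitPlane := by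
    right
    unfold ww
    rw [Complex.ofReal_zero, zero_add, one_div, Complex.inv_im]
    have h1 : (((4 * Real.pi * v : ℝ) : ℂ) * Complex.I).im = 4 * Real.pi * v := by simp
    have h2 : 0 < Complex.normSq (((4 * Real.pi * v : ℝ) : ℂ) * Complex.I) := by
      apply Complex.normSq_pos.2
      have : ((4 * Real.pi * v : ℝ) : ℂ) ≠ 0 := by exact_mod_cast h4.ne'
      exact mul_ne_zero this Complex.I_ne_zero
    rw [h1]
    exact div_ne_zero (neg_ne_zero.2 h4.ne') h2.ne'
  unfold Gf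
  apply Complex.continuous_re.continuousAt.comp
  apply continuousAt_const.mul
  apply continuousAt_const.mul
  apply continuousAt_const.mul
  apply ContinuousAt.mul
  · exact hinv.cpow continuousAt_const hsl
  · exact (hinv.clog hsl).sub continuousAt_const

lemma ex_add (x y : ℝ) : ex (x + y) = ex x * ex y := by
  unfold ex
  rw [← Complex.exp_add]
  congr 1
  push_cast
  ring

lemma ex_int {z δ : ℝ} (hz : 0 < z) (hδ : 0 < δ) : ∫ u in (0:ℝ)..δ, ex (2 * z * u) = (δ : ℂ) * cf (2 * z * δ) := by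
  have hpi := Real.pi_pos
  have hc : ((2 * Real.pi * (2 * z) : ℝ) : ℂ) * Complex.I ≠ 0 := by
    apply mul_ne_zero _ Complex.I_ne_zero
    have : 2 * Real.pi * (2 * z) ≠ 0 := by positivity
    exact_mod_cast this
  have h1 : ∀ u : ℝ, ex (2 * z * u) = Complex.exp ((((2 * Real.pi * (2 * z) : ℝ) : ℂ) * Complex.I) * u) := by
    intro u
    unfold ex
    congr 1
    push_cast
    ring
  simp_rw [h1]
  rw [integral_exp_mul_complex hc]
  unfold cf ex
  have h2 : ((δ : ℝ) : ℂ) ≠ 0 := by exact_mod_cast hδ.ne'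
  have h3 : ((z : ℝ) : ℂ) ≠ 0 := by exact_mod_cast hz.ne'
  have h4 : ((Real.pi : ℝ) : ℂ) ≠ 0 := by exact_mod_cast hpi.ne'
  rw [Complex.ofReal_zero, mul_zero, Complex.exp_zero]
  have h5 : Complex.exp ((((2 * Real.pi * (2 * z) : ℝ) : ℂ) * Complex.I) * δ) =
      Complex.exp (((2 * Real.pi * (2 * z * δ) : ℝ) : ℂ) * Complex.I) := by
    congr 1
    push_cast
    ring
  rw [h5]
  push_cast
  field_simp

lemma Cn_succ {δ z : ℝ} (hδ : 0 < δ) (hz : 0 < z) (n : ℕ) (v : ℝ) :
    Cn δ (n + 1) z v = (1 / δ) * ∫ u in (0:ℝ)..δ, Cn δ n z (v - u) := by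
  have h1 : ∀ u : ℝ, Cn δ n z (v - u) = Complex.reCLM ((om * ex (-(2 * z * v)) * cf (2 * z * δ) ^ n) * ex (2 * z * u)) := by
    intro u
    unfold Cn
    rw [Complex.reCLM_apply]
    congr 1
    have : -(2 * z * (v - u)) = -(2 * z * v) + 2 * z * u := by ring
    rw [this, ex_add]
    ring
  simp_rw [h1]
  have hc : Continuous (fun u : ℝ => (om * ex (-(2 * z * v)) * cf (2 * z * δ) ^ n) * ex (2 * z * u)) := by
    unfold ex
    fun_prop
  have h2 := Complex.reCLM.intervalIntegral_comp_comm (hc.intervalIntegrable 0 δ (μ := volume))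
  rw [h2, intervalIntegral.integral_const_mul, ex_int hz hδ, Complex.reCLM_apply]
  have h3 : (om * ex (-(2 * z * v)) * cf (2 * z * δ) ^ n * ((δ : ℂ) * cf (2 * z * δ))) =
      (δ : ℂ) * (om * ex (-(2 * z * v)) * cf (2 * z * δ) ^ (n + 1)) := by ring
  rw [h3, Complex.re_ofReal_mul]
  unfold Cn
  field_simp

attribute [local irreducible] Pool.Agent.H383.OM.Cn gs

lemma Cn_meas2 (δ v : ℝ) (n : ℕ) : Measurable (fun p : ℝ × ℝ => Cn δ n p.1 (v - p.2)) := by
  have h2 : Measurable (fun p : ℝ × ℝ => (p.1, v - p.2)) := measurable_fst.prodMk (measurable_const.sub measurable_snd)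
  have h3 := (Cn_meas δ n).comp h2
  simpa only [Function.comp_def] using h3

lemma Cn_meas3 (δ v : ℝ) (n : ℕ) : Measurable (fun z : ℝ => Cn δ n z v) := by
  have h2 : Measurable (fun z : ℝ => (z, v)) := measurable_id.prodMk measurable_const
  have h3 := (Cn_meas δ n).comp h2
  simpa only [Function.comp_def] using h3

lemma gs_meas2 (σ : ℝ) : Measurable (fun p : ℝ × ℝ => gs σ p.1) := by
  have h3 := (gs_meas σ).comp (measurable_fst : Measurable (fun p : ℝ × ℝ => p.1))
  simpa only [Function.comp_def] using h3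

lemma prod_meas (δ σ v : ℝ) (n : ℕ) : Measurable (fun p : ℝ × ℝ => gs σ p.1 * Cn δ n p.1 (v - p.2)) := by
  exact (gs_meas2 σ).mul (Cn_meas2 δ v n)

lemma prod_int {δ σ : ℝ} (hσ : 0 < σ) (n : ℕ) (v : ℝ) :
    Integrable (fun p : ℝ × ℝ => gs σ p.1 * Cn δ n p.1 (v - p.2))
      ((volume.restrict (Ioi 0)).prod (volume.restrict (Ioc 0 δ))) := by
  have h1 : Integrable (fun p : ℝ × ℝ => gs σ p.1 * (1:ℝ)) ((volume.restrict (Ioi 0)).prod (volume.restrict (Ioc 0 δ))) :=
    Integrable.mul_prod (gs_int hσ) (integrable_const (1:ℝ))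
  refine Integrable.mono h1 (prod_meas δ σ v n).aestronglyMeasurable (Eventually.of_forall fun p => ?_)
  rw [norm_mul, norm_mul]
  apply mul_le_mul_of_nonneg_left _ (norm_nonneg _)
  rw [norm_one, Real.norm_eq_abs]
  exact Cn_le_one _ _ _ _

lemma Qn_succ {δ σ : ℝ} (hδ : 0 < δ) (hσ : 0 < σ) (n : ℕ) (v : ℝ) :
    IntegrableOn (fun u : ℝ => Qn δ n σ (v - u)) (Ioc 0 δ) ∧
    Qn δ (n + 1) σ v = (1 / δ) * ∫ u in Ioc 0 δ, Qn δ n σ (v - u) := by
  have hint := prod_int (δ := δ) hσ n v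
  constructor
  · have h := hint.integral_prod_right
    have e : (fun u : ℝ => Qn δ n σ (v - u)) = fun u => ∫ z in Ioi (0:ℝ), gs σ z * Cn δ n z (v - u) := by
      funext u
      exact Qn_eq _ _ _ _
    rw [e]
    exact h
  · have h1 : ∀ z ∈ Ioi (0:ℝ), gs σ z * Cn δ (n + 1) z v = (1 / δ) * ∫ u in Ioc 0 δ, gs σ z * Cn δ n z (v - u) := by
      intro z hz
      rw [Cn_succ hδ hz, intervalIntegral.integral_of_le hδ.le, integral_const_mul]
      ring
    rw [Qn_eq, setIntegral_congr_fun measurableSet_Ioi h1, integral_const_mul]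
    congr 1
    have e : ∀ u : ℝ, Qn δ n σ (v - u) = ∫ z in Ioi (0:ℝ), gs σ z * Cn δ n z (v - u) := fun u => Qn_eq _ _ _ _
    simp_rw [e]
    exact integral_integral_swap (f := fun z u => gs σ z * Cn δ n z (v - u)) hint

lemma Qn_bound {δ σ B : ℝ} (hδ : 0 < δ) (hσ : 0 < σ) (n : ℕ) : ∀ v : ℝ,
    (∀ v' ∈ Icc (v - n * δ) v, Qn δ 0 σ v' ≤ B) → Qn δ n σ v ≤ B := by
  induction n with
  | zero =>
    intro v h
    exact h v ⟨by simp, le_rfl⟩
  | succ n ih =>
    intro v h
    obtain ⟨h1, h2⟩ := Qn_succ hδ hσ n v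
    rw [h2]
    have h3 : ∫ u in Ioc 0 δ, Qn δ n σ (v - u) ≤ ∫ _u in Ioc 0 δ, B := by
      apply setIntegral_mono_on h1 (integrable_const B) measurableSet_Ioc
      intro u hu
      apply ih
      intro v' hv'
      apply h
      have hu0 : 0 < u := hu.1
      have hu1 : u ≤ δ := hu.2
      refine ⟨?_, ?_⟩
      · have := hv'.1
        push_cast
        linarith
      · have := hv'.2
        linarith
    rw [setIntegral_const, smul_eq_mul] at h3
    have h4 : (volume.real (Ioc 0 δ)) = δ := by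
      rw [Real.volume_real_Ioc_of_le hδ.le]; ring
    rw [h4] at h3
    calc (1 / δ) * ∫ u in Ioc 0 δ, Qn δ n σ (v - u) ≤ (1 / δ) * (δ * B) := mul_le_mul_of_nonneg_left h3 (by positivity)
      _ = B := by field_simp

lemma Qn_tendsto {δ : ℝ} (hδ : 0 < δ) {n : ℕ} (hn : 1 ≤ n) (v : ℝ) :
    Tendsto (fun σ => Qn δ n σ v) (𝓝[>] 0) (𝓝 (Qn δ n 0 v)) := by
  simp_rw [Qn_eq]
  apply tendsto_integral_filter_of_dominated_convergence (fun z => 4 * (1 + 1 / (2 * δ)) * HH z)
  · apply Eventually.of_forall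
    intro σ
    apply Measurable.aestronglyMeasurable
    exact (gs_meas σ).mul (Cn_meas3 δ v n)
  · filter_upwards [self_mem_nhdsWithin] with σ hσ
    have hσ0 : 0 < σ := hσ
    refine (ae_restrict_iff' measurableSet_Ioi).2 (Eventually.of_forall fun z hz => ?_)
    have hz0 : 0 < z := hz
    rw [norm_mul, Real.norm_eq_abs, Real.norm_eq_abs]
    have h1 := gs_abs hσ0.le hz0
    have h2 : |Cn δ n z v| ≤ (1 + 1 / (2 * δ)) * min 1 (1 / z) := by
      rcases le_total 1 (1 / z) with h | h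
      · rw [min_eq_left h, mul_one]
        have := Cn_le_one δ n z v
        have : 0 < 1 / (2 * δ) := by positivity
        linarith
      · rw [min_eq_right h]
        refine (Cn_le hδ hn hz0 v).trans ?_
        have : 1 / (2 * z * δ) = 1 / (2 * δ) * (1 / z) := by field_simp
        rw [this]
        have h3 : 0 < 1 / z := by positivity
        nlinarith
    have hg := gam_pos
    have h4 : 0 ≤ (|Real.log z| + Real.eulerMascheroniConstant) * z ^ (-(1/2) : ℝ) := by positivity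
    have h5 : Real.exp (-(σ * z)) ≤ 1 := Real.exp_le_one_iff.2 (by nlinarith)
    have h6 : |gs σ z| ≤ 4 * ((|Real.log z| + Real.eulerMascheroniConstant) * z ^ (-(1/2) : ℝ)) := by
      refine h1.trans ?_
      calc _ ≤ 4 * ((|Real.log z| + Real.eulerMascheroniConstant) * z ^ (-(1/2) : ℝ)) * 1 :=
            mul_le_mul_of_nonneg_left h5 (by positivity)
        _ = _ := mul_one _
    unfold HH
    calc |gs σ z| * |Cn δ n z v| ≤ (4 * ((|Real.log z| + Real.eulerMascheroniConstant) * z ^ (-(1/2) : ℝ))) *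
          ((1 + 1 / (2 * δ)) * min 1 (1 / z)) := mul_le_mul h6 h2 (abs_nonneg _) (by positivity)
      _ = _ := by ring
  · exact HH_int.const_mul _
  · refine (ae_restrict_iff' measurableSet_Ioi).2 (Eventually.of_forall fun z _ => ?_)
    apply Tendsto.mul_const
    have hc : Continuous (fun σ : ℝ => gs σ z) := by
      unfold gs
      fun_prop
    exact (hc.tendsto 0).mono_left nhdsWithin_le_nhds

theorem Qn_le {n : ℕ} (hn : 1 ≤ n) {δ v : ℝ} (hδ : 0 < δ) (hv : n * δ < v) :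
    Qn δ n 0 v ≤ -Real.pi * v ^ (-(1/2) : ℝ) := by
  have hpi := Real.pi_pos
  have hv0 : 0 < v := by
    have : 0 ≤ (n:ℝ) * δ := by positivity
    linarith
  apply le_of_forall_pos_le_add
  intro ε hε
  apply le_of_tendsto (Qn_tendsto hδ hn v)
  have hK : IsCompact (Icc (v - n * δ) v) := isCompact_Icc
  have h1 : ∀ᶠ σ : ℝ in 𝓝 0, ∀ v' ∈ Icc (v - n * δ) v, Gf σ v' < -Real.pi * v ^ (-(1/2) : ℝ) + ε := by
    apply hK.eventually_forall_of_forall_eventually
    intro v' hv'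
    have hv'0 : 0 < v' := by
      have := hv'.1
      linarith
    have h2 := Gf_cont hv'0
    have h3 : Gf 0 v' < -Real.pi * v ^ (-(1/2) : ℝ) + ε := by
      rw [Gf_zero hv'0]
      have h4 : v ^ (-(1/2) : ℝ) ≤ v' ^ (-(1/2) : ℝ) :=
        Real.rpow_le_rpow_of_nonpos hv'0 hv'.2 (by norm_num)
      nlinarith
    exact h2.eventually (gt_mem_nhds h3)
  filter_upwards [h1.filter_mono nhdsWithin_le_nhds, self_mem_nhdsWithin] with σ h2 hσ
  have hσ0 : 0 < σ := hσ
  apply Qn_bound hδ hσ0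
  intro v' hv'
  rw [Q0 hσ0]
  exact (h2 v' hv').le

end Pool.Agent.H387R2.OmC3
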