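import Pool.Agent.H387R2.VorG

set_option autoImplicit false

open Filter Topology

namespace Pool.Agent.H387R2.Vor

noncomputable section

/-- the gamma factor of the divisor problem -/
def Aw (w : ℂ) : ℂ :=
  4 * (2 * Real.pi : ℂ) ^ (-(2 * w)) * Complex.Gamma w ^ 2 * Complex.cos (Real.pi * w / 2) ^ 2 / (1 - w)

/-- the model gamma factor (up to the constant `-2`) -/
def Qw (w : ℂ) : ℂ :=
  (2 : ℂ) ^ (5 / 2 : ℂ) * (√Real.pi : ℝ) * (4 * Real.pi : ℂ) ^ (-(2 * w)) * Complex.cos (Real.pi * w) *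
    Complex.Gamma (2 * w - 3 / 2)

lemma norm_cos_le (z : ℂ) : ‖Complex.cos z‖ ≤ Real.exp |z.im| := by
  unfold Complex.cos
  rw [norm_div]
  have h2 : ‖(2 : ℂ)‖ = 2 := by norm_num
  rw [h2, div_le_iff₀ (by norm_num)]
  refine (norm_add_le _ _).trans ?_
  rw [Complex.norm_exp, Complex.norm_exp]
  have e1 : (z * Complex.I).re = -z.im := by simp
  have e2 : (-z * Complex.I).re = z.im := by simp
  rw [e1, e2]
  have h3 : Real.exp (-z.im) ≤ Real.exp |z.im| := Real.exp_le_exp.2 (neg_le_abs _)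
  have h4 : Real.exp z.im ≤ Real.exp |z.im| := Real.exp_le_exp.2 (le_abs_self _)
  linarith

lemma norm_Gamma_re {w : ℂ} (hw : 0 < w.re) : ‖Complex.Gamma w‖ ≤ Real.Gamma w.re := by
  rw [Complex.Gamma_eq_integral hw, Real.Gamma_eq_integral hw, Complex.GammaIntegral]
  refine (MeasureTheory.norm_integral_le_integral_norm _).trans (le_of_eq ?_)
  refine MeasureTheory.setIntegral_congr_fun measurableSet_Ioi fun x hx => ?_
  have hx0 : (0 : ℝ) < x := hx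
  rw [norm_mul, Complex.norm_cpow_eq_rpow_re_of_pos hx0, Complex.norm_real, Real.norm_of_nonneg (Real.exp_pos _).le]
  simp

/-- `w = 5/4 + i t` -/
def wl (t : ℝ) : ℂ := 5 / 4 + t * Complex.I

lemma wl_re (t : ℝ) : (wl t).re = 5 / 4 := by simp [wl]
lemma wl_im (t : ℝ) : (wl t).im = t := by simp [wl]

lemma one_add_abs_le (t : ℝ) : 1 + |t| ≤ 5 * ‖1 - wl t‖ := by
  have h1 : |(1 - wl t).re| ≤ ‖1 - wl t‖ := Complex.abs_re_le_norm _
  have h2 : |(1 - wl t).im| ≤ ‖1 - wl t‖ := Complex.abs_im_le_norm _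
  rw [Complex.sub_re, wl_re] at h1
  rw [Complex.sub_im, wl_im] at h2
  norm_num at h1 h2
  linarith

lemma one_sub_wl_ne (t : ℝ) : 1 - wl t ≠ 0 := by
  intro h
  have := one_add_abs_le t
  rw [h, norm_zero, mul_zero] at this
  have := abs_nonneg t
  linarith

lemma cosGamma_le (t : ℝ) :
    ‖Complex.cos (Real.pi * wl t) * Complex.Gamma (2 * wl t - 3 / 2)‖ ≤ 4 * (1 + |t|) ^ (1 / 2 : ℝ) := by
  have hpi := Real.pi_pos
  have hpi4 := Real.pi_le_four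
  have ht := abs_nonneg t
  have e1 : 2 * wl t - 3 / 2 = 1 + ((2 * t : ℝ) : ℂ) * Complex.I := by
    unfold wl; push_cast; ring
  have h1 := norm_Gamma_one (2 * t)
  have h2 := norm_cos_le (Real.pi * wl t)
  have e2 : ((Real.pi : ℂ) * wl t).im = Real.pi * t := by
    rw [Complex.im_ofReal_mul, wl_im]
  rw [e2, abs_mul, abs_of_pos hpi] at h2
  rw [abs_mul, abs_two] at h1
  have h3 : ‖Complex.cos (Real.pi * wl t) * Complex.Gamma (2 * wl t - 3 / 2)‖ ^ 2 ≤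
      (4 * (1 + |t|) ^ (1 / 2 : ℝ)) ^ 2 := by
    rw [norm_mul, mul_pow, e1]
    have h4 : ‖Complex.cos (Real.pi * wl t)‖ ^ 2 ≤ Real.exp (Real.pi * |t|) ^ 2 :=
      pow_le_pow_left₀ (norm_nonneg _) h2 2
    have h5 : Real.exp (Real.pi * |t|) ^ 2 * Real.exp (-(Real.pi * (2 * |t|))) = 1 := by
      rw [← Real.exp_nat_mul, ← Real.exp_add]
      have : ((2 : ℕ) : ℝ) * (Real.pi * |t|) + -(Real.pi * (2 * |t|)) = 0 := by push_cast; ring
      rw [this, Real.exp_zero]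
    calc ‖Complex.cos (Real.pi * wl t)‖ ^ 2 * ‖Complex.Gamma (1 + ((2 * t : ℝ) : ℂ) * Complex.I)‖ ^ 2
        ≤ Real.exp (Real.pi * |t|) ^ 2 *
          ((1 + 2 * Real.pi * (2 * |t|)) * Real.exp (-(Real.pi * (2 * |t|)))) := by gcongr
      _ = (1 + 2 * Real.pi * (2 * |t|)) *
          (Real.exp (Real.pi * |t|) ^ 2 * Real.exp (-(Real.pi * (2 * |t|)))) := by ring
      _ = 1 + 4 * Real.pi * |t| := by rw [h5]; ring
      _ ≤ 16 * (1 + |t|) := by nlinarith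
      _ = _ := by
          rw [mul_pow, ← Real.rpow_natCast ((1 + |t|) ^ (1 / 2 : ℝ)), ← Real.rpow_mul (by positivity)]
          norm_num
  exact le_of_sq_le_sq h3 (by positivity)

lemma norm_cpow_wl {a : ℝ} (ha : 1 ≤ a) (t : ℝ) : ‖((a : ℝ) : ℂ) ^ (-(2 * wl t))‖ ≤ 1 := by
  rw [Complex.norm_cpow_eq_rpow_re_of_pos (by linarith)]
  apply Real.rpow_le_one_of_one_le_of_nonpos ha
  simp [wl]
  norm_num

lemma Qw_le (t : ℝ) : ‖Qw (wl t)‖ ≤ 64 * (1 + |t|) ^ (1 / 2 : ℝ) := by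
  have hpi := Real.pi_pos
  have hpi3 := Real.pi_gt_three
  have hpi4 := Real.pi_le_four
  have e1 : Qw (wl t) = (2 : ℂ) ^ (5 / 2 : ℂ) * (√Real.pi : ℝ) * (4 * Real.pi : ℂ) ^ (-(2 * wl t)) *
      (Complex.cos (Real.pi * wl t) * Complex.Gamma (2 * wl t - 3 / 2)) := by
    unfold Qw; ring
  have h1 : ‖(2 : ℂ) ^ (5 / 2 : ℂ)‖ ≤ 8 := by
    have : (2 : ℂ) = ((2 : ℝ) : ℂ) := by norm_num
    rw [this, Complex.norm_cpow_eq_rpow_re_of_pos (by norm_num)]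
    have e : (((5 : ℂ) / ((2 : ℝ) : ℂ))).re = 5 / 2 := by norm_num
    rw [e]
    calc (2 : ℝ) ^ (5 / 2 : ℝ) ≤ 2 ^ (3 : ℝ) := Real.rpow_le_rpow_of_exponent_le (by norm_num) (by norm_num)
      _ = 8 := by norm_num
  have h2 : ‖((√Real.pi : ℝ) : ℂ)‖ ≤ 2 := by
    rw [Complex.norm_real, Real.norm_of_nonneg (Real.sqrt_nonneg _), Real.sqrt_le_left (by norm_num)]
    linarith
  have h3 : ‖(4 * Real.pi : ℂ) ^ (-(2 * wl t))‖ ≤ 1 := by
    have : (4 * Real.pi : ℂ) = ((4 * Real.pi : ℝ) : ℂ) := by push_cast; ring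
    rw [this]
    exact norm_cpow_wl (by linarith) t
  have h4 := cosGamma_le t
  rw [e1, norm_mul, norm_mul, norm_mul]
  calc _ ≤ 8 * 2 * 1 * (4 * (1 + |t|) ^ (1 / 2 : ℝ)) := by gcongr
    _ = _ := by ring

lemma Q_identity (t : ℝ) :
    2 * (2 * Real.pi : ℂ) ^ (-(2 * wl t)) * Complex.cos (Real.pi * wl t) *
      (Complex.Gamma (wl t - 1 / 4) * Complex.Gamma (wl t + 1 / 4)) =
      Qw (wl t) * (2 * wl t - 3 / 2) := by
  have hpi := Real.pi_pos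
  set w := wl t with hw
  have hne : 2 * w - 3 / 2 ≠ 0 := by
    intro h
    have := congrArg Complex.re h
    rw [hw] at this
    simp [wl] at this
    norm_num at this
  have h1 : Complex.Gamma (w - 1 / 4) * Complex.Gamma (w + 1 / 4) =
      Complex.Gamma (2 * w - 1 / 2) * (2 : ℂ) ^ (3 / 2 - 2 * w) * (√Real.pi : ℝ) := by
    have := Complex.Gamma_mul_Gamma_add_half (w - 1 / 4)
    have e1 : w - 1 / 4 + 1 / 2 = w + 1 / 4 := by ring
    have e2 : 2 * (w - 1 / 4) = 2 * w - 1 / 2 := by ring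
    have e3 : 1 - (2 * w - 1 / 2) = 3 / 2 - 2 * w := by ring
    rw [e1, e2, e3] at this
    exact this
  have h2 : Complex.Gamma (2 * w - 1 / 2) = (2 * w - 3 / 2) * Complex.Gamma (2 * w - 3 / 2) := by
    rw [← Complex.Gamma_add_one _ hne]
    congr 1; ring
  have h3 : (2 * Real.pi : ℂ) ^ (-(2 * w)) * (2 : ℂ) ^ (3 / 2 - 2 * w) =
      (2 : ℂ) ^ (3 / 2 : ℂ) * (4 * Real.pi : ℂ) ^ (-(2 * w)) := by
    have e1 : (4 * Real.pi : ℂ) = ((2 : ℝ) : ℂ) * ((2 * Real.pi : ℝ) : ℂ) := by push_cast; ring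
    have e2 : (2 * Real.pi : ℂ) = ((2 * Real.pi : ℝ) : ℂ) := by push_cast; ring
    rw [e1, Complex.mul_cpow_ofReal_nonneg (by norm_num) (by positivity), e2]
    have e3 : (2 : ℂ) ^ (3 / 2 - 2 * w) = (2 : ℂ) ^ (3 / 2 : ℂ) * (2 : ℂ) ^ (-(2 * w)) := by
      rw [← Complex.cpow_add _ _ (by norm_num)]; congr 1
    rw [e3]
    push_cast
    ring
  have h4 : (2 : ℂ) * (2 : ℂ) ^ (3 / 2 : ℂ) = (2 : ℂ) ^ (5 / 2 : ℂ) := by
    nth_rewrite 1 [← Complex.cpow_one (2 : ℂ)]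
    rw [← Complex.cpow_add _ _ (by norm_num)]
    norm_num
  rw [h1, h2]
  unfold Qw
  rw [← h4]
  linear_combination (2 * Complex.cos (Real.pi * w) * ((2 * w - 3 / 2) * Complex.Gamma (2 * w - 3 / 2)) *
    (√Real.pi : ℝ)) * h3

/-- the gamma factor is its model up to a relative error `O(1/|w|)` -/
theorem Aw_sub : ∃ C : ℝ, 0 < C ∧ ∀ t : ℝ,
    ‖Aw (wl t) - (-2 * Qw (wl t))‖ ≤ C * (1 + |t|) ^ (-(1 / 2) : ℝ) := by
  have hpi := Real.pi_pos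
  have hpi3 := Real.pi_gt_three
  refine ⟨2 * Real.Gamma (5 / 4) ^ 2 * 5 + 640 + 160, by positivity, fun t => ?_⟩
  set w := wl t with hw
  have ht := abs_nonneg t
  have hne := one_sub_wl_ne t
  rw [← hw] at hne
  have h1 := one_add_abs_le t
  rw [← hw] at h1
  have hwn : 0 < ‖1 - w‖ := norm_pos_iff.2 hne
  have hre : 1 ≤ w.re := by rw [hw, wl_re]; norm_num
  have hw54 : 5 / 4 ≤ ‖w‖ := by
    have : |w.re| ≤ ‖w‖ := Complex.abs_re_le_norm w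
    rw [hw, wl_re, abs_of_pos (by norm_num), ← hw] at this
    exact this
  have hinv : 1 / ‖1 - w‖ ≤ 5 * (1 + |t|) ^ (-1 : ℝ) := by
    rw [Real.rpow_neg_one, div_le_iff₀ hwn, mul_assoc, ← div_eq_inv_mul]
    rw [mul_div_assoc', le_div_iff₀ (by positivity)]
    linarith
  set G := Complex.Gamma (w - 1 / 4) * Complex.Gamma (w + 1 / 4) with hG
  set c2 := (2 * Real.pi : ℂ) ^ (-(2 * w)) with hc2
  have hc2n : ‖c2‖ ≤ 1 := by
    rw [hc2]
    have : (2 * Real.pi : ℂ) = ((2 * Real.pi : ℝ) : ℂ) := by push_cast; ring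
    rw [this, hw]
    exact norm_cpow_wl (by linarith) t
  have hQ := Q_identity t
  rw [← hw, ← hG, ← hc2] at hQ
  have hQn := Qw_le t
  rw [← hw] at hQn
  -- decomposition
  have hdec : Aw w - (-2 * Qw w) = 2 * c2 * Complex.Gamma w ^ 2 / (1 - w) +
      2 * c2 * Complex.cos (Real.pi * w) * (Complex.Gamma w ^ 2 - G) / (1 - w) +
      Qw w * (1 / 2) / (1 - w) := by
    have hcos : Complex.cos (Real.pi * w / 2) ^ 2 = 1 / 2 + Complex.cos (Real.pi * w) / 2 := by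
      rw [Complex.cos_sq]
      congr 2
      congr 1
      ring
    unfold Aw
    rw [hcos, ← hc2]
    field_simp
    linear_combination (2 : ℂ) * hQ
  rw [hdec]
  have hp1 : (1 + |t|) ^ (-1 : ℝ) ≤ (1 + |t|) ^ (-(1 / 2) : ℝ) :=
    Real.rpow_le_rpow_of_exponent_le (by linarith) (by norm_num)
  have hp2 : (1 + |t|) ^ (1 / 2 : ℝ) * (1 + |t|) ^ (-1 : ℝ) = (1 + |t|) ^ (-(1 / 2) : ℝ) := by
    rw [← Real.rpow_add (by positivity)]; norm_num
  -- first term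
  have t1 : ‖2 * c2 * Complex.Gamma w ^ 2 / (1 - w)‖ ≤
      2 * Real.Gamma (5 / 4) ^ 2 * 5 * (1 + |t|) ^ (-(1 / 2) : ℝ) := by
    have hg := norm_Gamma_re (w := w) (by linarith)
    have hwre : w.re = 5 / 4 := by rw [hw, wl_re]
    rw [hwre] at hg
    rw [norm_div, norm_mul, norm_mul, norm_pow, div_eq_mul_one_div]
    have h2 : ‖(2 : ℂ)‖ = 2 := by norm_num
    rw [h2]
    calc 2 * ‖c2‖ * ‖Complex.Gamma w‖ ^ 2 * (1 / ‖1 - w‖) ≤
          2 * 1 * Real.Gamma (5 / 4) ^ 2 * (5 * (1 + |t|) ^ (-1 : ℝ)) := by gcongr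
      _ ≤ 2 * 1 * Real.Gamma (5 / 4) ^ 2 * (5 * (1 + |t|) ^ (-(1 / 2) : ℝ)) := by gcongr
      _ = _ := by ring
  -- second term
  have t2 : ‖2 * c2 * Complex.cos (Real.pi * w) * (Complex.Gamma w ^ 2 - G) / (1 - w)‖ ≤
      640 * (1 + |t|) ^ (-(1 / 2) : ℝ) := by
    have h2 := gamma_ratio hre
    rw [← hG] at h2
    have h3 : ‖2 * c2 * Complex.cos (Real.pi * w) * (Complex.Gamma w ^ 2 - G)‖ ≤
        1 / (2 * ‖w‖) * (‖Qw w‖ * ‖2 * w - 3 / 2‖) := by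
      rw [← norm_mul (Qw w), ← hQ, norm_mul _ (Complex.Gamma w ^ 2 - G), norm_mul _ G]
      calc ‖2 * c2 * Complex.cos (Real.pi * w)‖ * ‖Complex.Gamma w ^ 2 - G‖ ≤
            ‖2 * c2 * Complex.cos (Real.pi * w)‖ * (1 / (2 * ‖w‖) * ‖G‖) := by gcongr
        _ = _ := by ring
    have h4 : ‖2 * w - 3 / 2‖ ≤ 4 * ‖w‖ := by
      refine (norm_sub_le _ _).trans ?_
      rw [norm_mul]
      have e1 : ‖(2 : ℂ)‖ = 2 := by norm_num
      have e2 : ‖(3 / 2 : ℂ)‖ = 3 / 2 := by norm_num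
      rw [e1, e2]
      linarith
    have hw0 : 0 < ‖w‖ := by linarith
    rw [norm_div, div_eq_mul_one_div]
    calc ‖2 * c2 * Complex.cos (Real.pi * w) * (Complex.Gamma w ^ 2 - G)‖ * (1 / ‖1 - w‖) ≤
          (1 / (2 * ‖w‖) * ((64 * (1 + |t|) ^ (1 / 2 : ℝ)) * (4 * ‖w‖))) *
            (5 * (1 + |t|) ^ (-1 : ℝ)) := by
          gcongr
          exact h3.trans (by gcongr)
      _ = 640 * ((1 + |t|) ^ (1 / 2 : ℝ) * (1 + |t|) ^ (-1 : ℝ)) := by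
          field_simp
          ring
      _ = _ := by rw [hp2]
  -- third term
  have t3 : ‖Qw w * (1 / 2) / (1 - w)‖ ≤ 160 * (1 + |t|) ^ (-(1 / 2) : ℝ) := by
    rw [norm_div, norm_mul, div_eq_mul_one_div]
    have e2 : ‖(1 / 2 : ℂ)‖ = 1 / 2 := by norm_num
    rw [e2]
    calc ‖Qw w‖ * (1 / 2) * (1 / ‖1 - w‖) ≤
          (64 * (1 + |t|) ^ (1 / 2 : ℝ)) * (1 / 2) * (5 * (1 + |t|) ^ (-1 : ℝ)) := by gcongr
      _ = 160 * ((1 + |t|) ^ (1 / 2 : ℝ) * (1 + |t|) ^ (-1 : ℝ)) := by ring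
      _ = _ := by rw [hp2]
  refine (norm_add₃_le).trans ?_
  calc _ ≤ 2 * Real.Gamma (5 / 4) ^ 2 * 5 * (1 + |t|) ^ (-(1 / 2) : ℝ) +
        640 * (1 + |t|) ^ (-(1 / 2) : ℝ) + 160 * (1 + |t|) ^ (-(1 / 2) : ℝ) := by gcongr
    _ = _ := by ring

lemma Aw_le : ∃ C : ℝ, 0 < C ∧ ∀ t : ℝ, ‖Aw (wl t)‖ ≤ C * (1 + |t|) ^ (1 / 2 : ℝ) := by
  obtain ⟨C, hC, h⟩ := Aw_sub
  refine ⟨C + 128, by positivity, fun t => ?_⟩
  have h1 := h t
  have h2 := Qw_le t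
  have ht := abs_nonneg t
  have h3 : ‖Aw (wl t)‖ ≤ ‖Aw (wl t) - (-2 * Qw (wl t))‖ + ‖(-2 : ℂ) * Qw (wl t)‖ := by
    have := norm_add_le (Aw (wl t) - (-2 * Qw (wl t))) (-2 * Qw (wl t))
    rwa [sub_add_cancel] at this
  have h4 : ‖(-2 : ℂ) * Qw (wl t)‖ = 2 * ‖Qw (wl t)‖ := by
    rw [norm_mul]; norm_num
  have h5 : (1 + |t|) ^ (-(1 / 2) : ℝ) ≤ (1 + |t|) ^ (1 / 2 : ℝ) :=
    Real.rpow_le_rpow_of_exponent_le (by linarith) (by norm_num)
  rw [h4] at h3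
  nlinarith

/-- functional equation of `ζ²` -/
lemma fe_sq {w : ℂ} (hw : 1 < w.re) :
    riemannZeta (1 - w) ^ 2 / (1 - w) = Aw w * riemannZeta w ^ 2 := by
  have h1 := riemannZeta_one_sub (s := w) (fun n h => by
    rw [h] at hw
    simp at hw
    have : (0 : ℝ) ≤ n := Nat.cast_nonneg n
    linarith) (fun h => by rw [h] at hw; simp at hw)
  have h2 : (2 * Real.pi : ℂ) ^ (-(2 * w)) = ((2 * Real.pi : ℂ) ^ (-w)) ^ 2 := by
    rw [← Complex.cpow_nat_mul]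
    congr 1
    push_cast; ring
  rw [h1]
  unfold Aw
  rw [h2]
  ring

end

end Pool.Agent.H387R2.Vor
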