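import Pool.Agent.H378R2.M5

set_option autoImplicit false

open Finset Filter Topology MeasureTheory
open scoped ContDiff

namespace Pool.Agent.H387R2.MB

open Pool.Agent.H378R2 Pool.Agent.H378R2.M5

/-- upper bound of the sieve sum by Fourier data -/
theorem sieve_bound (J : ℕ) : ∃ c1 : ℝ, 0 ≤ c1 ∧ ∀ (F G : Fin J → ℝ → ℝ) (η η' : Fin J → ℝ → ℂ)
    (_ : ∀ j, Continuous (F j)) (_ : ∀ j, Continuous (G j))
    (_ : ∀ j, Continuous (η j)) (_ : ∀ j, Continuous (η' j))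
    (_ : ∀ j, Integrable (η j)) (_ : ∀ j, Integrable (η' j))
    (_ : ∀ j, Integrable (fun v => ‖ss v‖ ^ 3 * ‖η j v‖))
    (_ : ∀ j, Integrable (fun v => ‖ss v‖ ^ 2 * ‖η' j v‖))
    (_ : ∀ j, ∀ t : ℝ, (F j t : ℂ) = ∫ v, η j v * Complex.exp (-(ss v) * t))
    (_ : ∀ j, ∀ t : ℝ, (G j t : ℂ) = ∫ v, η' j v * Complex.exp (-(ss v) * t))
    (L : ℝ) (E : Fin J → Finset ℕ) (w : ℕ → Fin J → ℝ) (R : ℕ),
      2 ≤ L →
      (∀ j x, Real.log R / L < x → F j x = 0 ∧ G j x = 0) →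
      (∀ j, ∀ p ∈ E j, p.Prime) →
      (∀ j, ∀ p : ℕ, p.Prime → p ≤ 32 * J + 2 → p ∈ E j) →
      (∀ j, ∑ p ∈ E j, Real.log p / p ≤ L ^ (1 / 4 : ℝ)) →
      (∀ j, ∑ p ∈ E j, (1 : ℝ) / p ≤ Real.log L / 32) →
      (∀ j, ∀ p : ℕ, p.Prime → p ∉ E j → |w p j - 1 / p| ≤ 2 / (p : ℝ) ^ 2) →
      |(∏ j, (L * ∏ p ∈ E j, (1 - 1 / (p : ℝ)))) * sieveSum J F G L E w R| ≤
        c1 * ∏ j, ((∫ v, ‖ss v‖ ^ 3 * ‖η j v‖) * (∫ v, ‖ss v‖ ^ 2 * ‖η' j v‖)) := by
  classical
  obtain ⟨C, hC1, hC⟩ := zf_bound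
  set c0 : ℝ := Real.exp 16 * (2 * C) with hc0
  have hc00 : 0 ≤ c0 := by positivity
  refine ⟨Real.exp (CJ J) * c0 ^ J, by positivity, ?_⟩
  intro F G η η' hFc hGc hηc hηc' hηint hηint' hη3 hη2 hηF hηG L E w R hL2 hFG hEp hEs hE1 hE2 hw
  have hL0 : 0 < L := by linarith
  obtain ⟨Y0, hY0⟩ := exists_tail hL0 1 one_pos
  set Y1 : ℕ := Finset.univ.sup (fun j => (E j).sup id) with hY1
  set Y : ℕ := max Y0 (max R Y1) with hY
  have hRY : R ≤ Y := (le_max_left _ _).trans (le_max_right _ _)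
  have hEY : ∀ j, E j ⊆ PY Y := by
    intro j p hp
    rw [PY, Finset.mem_filter, Finset.mem_Icc]
    refine ⟨⟨(hEp j p hp).one_lt.le, ?_⟩, hEp j p hp⟩
    have h1 : p ≤ (E j).sup id := Finset.le_sup (f := id) hp
    have h2 : (E j).sup id ≤ Y1 := Finset.le_sup (f := fun j => (E j).sup id) (Finset.mem_univ j)
    exact (h1.trans h2).trans ((le_max_right _ _).trans (le_max_right _ _))
  have hYt := hY0 Y (le_max_left _ _)
  have hfact : ∀ (z : Fin J → ℝ × ℝ), ∃ (ρ : ℂ) (τ : Fin J → ℂ),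
      ‖ρ - 1‖ ≤ Real.exp (CJ J / ((32 * J + 2 : ℕ) : ℝ)) - 1 ∧ (∀ j, ‖τ j - 1‖ ≤ 1) ∧
      (∏ j, ((L : ℂ) * ∏ p ∈ E j, (1 - 1 / (p : ℂ)))) * ∏ p ∈ PY Y, kk L E w z p =
        ρ * ∏ j, (TTT L (z j).1 (z j).2 (E j) * (τ j * zf L (z j).1 (z j).2)) := by
    intro z
    exact factorization hL0 E w (32 * J + 2) Y (by omega) (by omega) 1 hEs hw hEY hYt z
  choose ρ τ hρ hτ hfac using hfact
  set V : ℂ := ∏ j, ((L : ℂ) * ∏ p ∈ E j, (1 - 1 / (p : ℂ))) with hV
  set Φ : (Fin J → ℝ × ℝ) → ℂ := fun z =>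
    (∏ j, (η j (z j).1 * η' j (z j).2)) * (V * ∏ p ∈ PY Y, kk L E w z p) with hΦ
  set bnd : (Fin J → ℝ × ℝ) → ℝ := fun z => Real.exp (CJ J) *
    ∏ j, (c0 * ((‖ss (z j).1‖ ^ 3 * ‖η j (z j).1‖) * (‖ss (z j).2‖ ^ 2 * ‖η' j (z j).2‖))) with hbnd
  have hCJ : 0 ≤ CJ J := by rw [CJ]; positivity
  have hbint : Integrable bnd := by
    apply Integrable.const_mul
    apply Integrable.fintype_prod (f := fun j (z : ℝ × ℝ) =>
      c0 * ((‖ss z.1‖ ^ 3 * ‖η j z.1‖) * (‖ss z.2‖ ^ 2 * ‖η' j z.2‖)))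
    intro j
    exact ((hη3 j).mul_prod (hη2 j)).const_mul c0
  have hbound : ∀ z, ‖Φ z‖ ≤ bnd z := by
    intro z
    simp only [hΦ, hbnd]
    rw [hfac z, norm_mul, norm_mul, norm_prod, norm_prod]
    have hρn : ‖ρ z‖ ≤ Real.exp (CJ J) := by
      have h1 : ‖ρ z‖ ≤ ‖ρ z - 1‖ + 1 := by
        have := norm_add_le (ρ z - 1) 1
        rwa [sub_add_cancel, norm_one] at this
      have h2 := hρ z
      have h3 : Real.exp (CJ J / ((32 * J + 2 : ℕ) : ℝ)) ≤ Real.exp (CJ J) := by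
        apply Real.exp_le_exp.mpr
        apply div_le_self hCJ
        push_cast
        have : (0:ℝ) ≤ J := Nat.cast_nonneg J
        linarith
      linarith
    have hfacj : ∀ j, ‖TTT L (z j).1 (z j).2 (E j) * (τ z j * zf L (z j).1 (z j).2)‖ ≤
        c0 * (‖ss (z j).1‖ ^ 3 * ‖ss (z j).2‖ ^ 2) := by
      intro j
      rw [norm_mul, norm_mul]
      have h1 := norm_TTT_le (L := L) (by linarith) (z j).1 (z j).2 (E j) (hEp j)
        (hE1 j) (hE2 j)
      have h2 : ‖τ z j‖ ≤ 2 := by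
        have h3 : ‖τ z j‖ ≤ ‖τ z j - 1‖ + 1 := by
          have := norm_add_le (τ z j - 1) 1
          rwa [sub_add_cancel, norm_one] at this
        have h4 := hτ z j
        linarith
      have h3 := hC L hL2 (z j).1 (z j).2
      calc ‖TTT L (z j).1 (z j).2 (E j)‖ * (‖τ z j‖ * ‖zf L (z j).1 (z j).2‖) ≤
          (Real.exp 16 * ‖ss (z j).1‖) * (2 * (C * ‖ss (z j).1‖ ^ 2 * ‖ss (z j).2‖ ^ 2)) := by
            apply mul_le_mul h1 _ (by positivity) (by positivity)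
            exact mul_le_mul h2 h3 (norm_nonneg _) (by norm_num)
        _ = c0 * (‖ss (z j).1‖ ^ 3 * ‖ss (z j).2‖ ^ 2) := by rw [hc0]; ring
    calc (∏ j, ‖η j (z j).1 * η' j (z j).2‖) * (‖ρ z‖ *
          ∏ j, ‖TTT L (z j).1 (z j).2 (E j) * (τ z j * zf L (z j).1 (z j).2)‖) ≤
        (∏ j, ‖η j (z j).1 * η' j (z j).2‖) * (Real.exp (CJ J) *
          ∏ j, (c0 * (‖ss (z j).1‖ ^ 3 * ‖ss (z j).2‖ ^ 2))) := by
          apply mul_le_mul_of_nonneg_left _ (Finset.prod_nonneg (fun _ _ => norm_nonneg _))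
          apply mul_le_mul hρn _ (Finset.prod_nonneg (fun _ _ => norm_nonneg _)) (Real.exp_pos _).le
          exact Finset.prod_le_prod (fun _ _ => norm_nonneg _) (fun j _ => hfacj j)
      _ = Real.exp (CJ J) * ∏ j, (c0 * ((‖ss (z j).1‖ ^ 3 * ‖η j (z j).1‖) *
          (‖ss (z j).2‖ ^ 2 * ‖η' j (z j).2‖))) := by
          rw [mul_left_comm, ← Finset.prod_mul_distrib]
          congr 1
          refine Finset.prod_congr rfl (fun j _ => ?_)
          rw [norm_mul]; ring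
  have hIn : ∫ z, Φ z = (((∏ j, (L * ∏ p ∈ E j, (1 - 1 / (p : ℝ)))) *
      sieveSum J F G L E w R : ℝ) : ℂ) := by
    have h1 := representation F G hL0 E w R Y hRY hFc hGc hFG η η' hηc hηc' hηint hηint' hηF hηG
    have h2 : ∀ z, Φ z = V * ((∏ j, (η j (z j).1 * η' j (z j).2)) *
        ∏ p ∈ PY Y, kk L E w z p) := by
      intro z; simp only [hΦ]; ring
    simp_rw [h2]
    rw [integral_const_mul, ← h1, hV]
    push_cast
    ring
  have hle : ‖∫ z, Φ z‖ ≤ ∫ z, bnd z :=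
    norm_integral_le_of_norm_le hbint (Filter.Eventually.of_forall hbound)
  have hbv : ∫ z, bnd z = Real.exp (CJ J) * c0 ^ J *
      ∏ j, ((∫ v, ‖ss v‖ ^ 3 * ‖η j v‖) * (∫ v, ‖ss v‖ ^ 2 * ‖η' j v‖)) := by
    simp only [hbnd]
    rw [integral_const_mul]
    rw [integral_fintype_prod_volume_eq_prod (fun j (z : ℝ × ℝ) =>
      c0 * ((‖ss z.1‖ ^ 3 * ‖η j z.1‖) * (‖ss z.2‖ ^ 2 * ‖η' j z.2‖)))]
    have h1 : ∀ j : Fin J, ∫ z : ℝ × ℝ, c0 * ((‖ss z.1‖ ^ 3 * ‖η j z.1‖) * (‖ss z.2‖ ^ 2 * ‖η' j z.2‖)) =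
        c0 * ((∫ v, ‖ss v‖ ^ 3 * ‖η j v‖) * (∫ v, ‖ss v‖ ^ 2 * ‖η' j v‖)) := by
      intro j
      rw [integral_const_mul]
      congr 1
      exact integral_prod_mul (fun v => ‖ss v‖ ^ 3 * ‖η j v‖) (fun v => ‖ss v‖ ^ 2 * ‖η' j v‖)
    rw [Finset.prod_congr rfl (fun j _ => h1 j), Finset.prod_mul_distrib, Finset.prod_const,
      Finset.card_univ, Fintype.card_fin]
    ring
  rw [hbv, hIn, Complex.norm_real, Real.norm_eq_abs] at hle
  exact hle

lemma norm_one_sub_exp_neg {z : ℂ} (hz : 0 ≤ z.re) : ‖1 - Complex.exp (-z)‖ ≤ 2 * ‖z‖ := by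
  rcases le_or_gt ‖z‖ 1 with h | h
  · have := Complex.norm_exp_sub_one_le (x := -z) (by rwa [norm_neg])
    rw [norm_neg] at this
    rw [← norm_neg]
    simpa using this
  · have h1 : ‖1 - Complex.exp (-z)‖ ≤ 1 + ‖Complex.exp (-z)‖ := by
      have := norm_sub_le (1 : ℂ) (Complex.exp (-z))
      rwa [norm_one] at this
    have h2 : ‖Complex.exp (-z)‖ ≤ 1 := by
      rw [Complex.norm_exp, Complex.neg_re]
      exact Real.exp_le_one_iff.2 (by linarith)
    linarith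

/-- the difference function -/
noncomputable def shf {J : ℕ} (f : Fin J → ℝ → ℝ) (i0 : Fin J) (u : ℝ) (j : Fin J) (x : ℝ) : ℝ :=
  if j = i0 then f j x - f j (x + u) else f j x

/-- uniform upper bound for the sieve sum of shifted differences -/
theorem shift_sieve_bound (J : ℕ) (f g : Fin J → ℝ → ℝ) (hf : ∀ j, ContDiff ℝ ∞ (f j))
    (hg : ∀ j, ContDiff ℝ ∞ (g j))
    (hc : ∀ j, HasCompactSupport (f j)) (hcg : ∀ j, HasCompactSupport (g j)) (i0 : Fin J) :
    ∃ C : ℝ, 0 ≤ C ∧ ∀ u : ℝ, 0 ≤ u →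
    ∀ (L : ℝ) (E : Fin J → Finset ℕ) (w : ℕ → Fin J → ℝ) (R : ℕ),
      2 ≤ L →
      (∀ j x, Real.log R / L < x → f j x = 0 ∧ g j x = 0) →
      (∀ j, ∀ p ∈ E j, p.Prime) →
      (∀ j, ∀ p : ℕ, p.Prime → p ≤ 32 * J + 2 → p ∈ E j) →
      (∀ j, ∑ p ∈ E j, Real.log p / p ≤ L ^ (1 / 4 : ℝ)) →
      (∀ j, ∑ p ∈ E j, (1 : ℝ) / p ≤ Real.log L / 32) →
      (∀ j, ∀ p : ℕ, p.Prime → p ∉ E j → |w p j - 1 / p| ≤ 2 / (p : ℝ) ^ 2) →
      |(∏ j, (L * ∏ p ∈ E j, (1 - 1 / (p : ℝ)))) * sieveSum J (shf f i0 u) (shf g i0 u) L E w R| ≤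
        C * u ^ 2 := by
  classical
  obtain ⟨c1, hc1, hb⟩ := sieve_bound J
  choose η hηc hηi hηF hηF' using fun j => fourier_data (f j) (hf j) (hc j)
  choose η' hηc' hηi' hηG hηG' using fun j => fourier_data (g j) (hg j) (hcg j)
  have hηint : ∀ j, Integrable (η j) := by
    intro j
    have h1 := hηi j 0
    simp only [pow_zero, one_mul] at h1
    exact (integrable_norm_iff (hηc j).aestronglyMeasurable).mp h1
  have hηint' : ∀ j, Integrable (η' j) := by
    intro j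
    have h1 := hηi' j 0
    simp only [pow_zero, one_mul] at h1
    exact (integrable_norm_iff (hηc' j).aestronglyMeasurable).mp h1
  have hsc : Continuous ss := by unfold ss; fun_prop
  -- general facts on the multiplier
  have hmul : ∀ (θ : ℝ → ℂ) (u : ℝ) (hu : 0 ≤ u) (m : ℕ), Continuous θ →
      Integrable (fun v => ‖ss v‖ ^ (m + 1) * ‖θ v‖) →
      Integrable (fun v => ‖ss v‖ ^ m * ‖θ v * (1 - Complex.exp (-(ss v) * u))‖) ∧
      ∫ v, ‖ss v‖ ^ m * ‖θ v * (1 - Complex.exp (-(ss v) * u))‖ ≤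
        2 * u * ∫ v, ‖ss v‖ ^ (m + 1) * ‖θ v‖ := by
    intro θ u hu m hθ hint
    have hpt : ∀ v, ‖ss v‖ ^ m * ‖θ v * (1 - Complex.exp (-(ss v) * u))‖ ≤
        2 * u * (‖ss v‖ ^ (m + 1) * ‖θ v‖) := by
      intro v
      have h1 := norm_one_sub_exp_neg (z := ss v * u) (by
        rw [Complex.re_mul_ofReal, ss_re]; linarith)
      rw [norm_mul, Complex.norm_real, Real.norm_of_nonneg hu, ← neg_mul] at h1
      rw [norm_mul]
      calc ‖ss v‖ ^ m * (‖θ v‖ * ‖1 - Complex.exp (-(ss v) * u)‖) ≤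
          ‖ss v‖ ^ m * (‖θ v‖ * (2 * (‖ss v‖ * u))) := by gcongr
        _ = _ := by ring
    have hint2 := hint.const_mul (2 * u)
    have hmeas : AEStronglyMeasurable (fun v => ‖ss v‖ ^ m * ‖θ v * (1 - Complex.exp (-(ss v) * u))‖) volume := by
      apply Continuous.aestronglyMeasurable
      fun_prop
    have hI : Integrable (fun v => ‖ss v‖ ^ m * ‖θ v * (1 - Complex.exp (-(ss v) * u))‖) := by
      apply hint2.mono' hmeas
      refine Filter.Eventually.of_forall fun v => ?_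
      rw [Real.norm_of_nonneg (by positivity)]
      exact hpt v
    refine ⟨hI, ?_⟩
    rw [← integral_const_mul]
    exact integral_mono hI hint2 hpt
  have hrep : ∀ (θ : ℝ → ℂ) (φ : ℝ → ℝ) (u : ℝ), Continuous θ → 0 ≤ u → Integrable θ →
      (∀ t : ℝ, (φ t : ℂ) = ∫ v, θ v * Complex.exp (-(ss v) * t)) →
      ∀ t : ℝ, ((φ t - φ (t + u) : ℝ) : ℂ) =
        ∫ v, (θ v * (1 - Complex.exp (-(ss v) * u))) * Complex.exp (-(ss v) * t) := by
    intro θ φ u hθ hu hint hφ t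
    rw [Complex.ofReal_sub, hφ t, hφ (t + u), ← integral_sub]
    · apply integral_congr_ae
      refine Filter.Eventually.of_forall fun v => ?_
      have : Complex.exp (-(ss v) * ((t + u : ℝ) : ℂ)) = Complex.exp (-(ss v) * u) * Complex.exp (-(ss v) * t) := by
        rw [← Complex.exp_add]
        congr 1
        push_cast
        ring
      simp only
      rw [this]
      ring
    · have hb1 : ∀ s : ℝ, Integrable (fun v => θ v * Complex.exp (-(ss v) * s)) := by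
        intro s
        have hn : ∀ v, ‖θ v * Complex.exp (-(ss v) * s)‖ ≤ Real.exp (-s) * ‖θ v‖ := by
          intro v
          rw [norm_mul, Complex.norm_exp, Complex.re_mul_ofReal, Complex.neg_re, ss_re, mul_comm]
          apply le_of_eq
          congr 1
          ring_nf
        have hm : AEStronglyMeasurable (fun v => θ v * Complex.exp (-(ss v) * s)) volume := by
          apply Continuous.aestronglyMeasurable
          fun_prop
        exact (hint.norm.const_mul (Real.exp (-s))).mono' hm (Filter.Eventually.of_forall hn)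
      exact hb1 t
    · have hb1 : ∀ s : ℝ, Integrable (fun v => θ v * Complex.exp (-(ss v) * s)) := by
        intro s
        have hn : ∀ v, ‖θ v * Complex.exp (-(ss v) * s)‖ ≤ Real.exp (-s) * ‖θ v‖ := by
          intro v
          rw [norm_mul, Complex.norm_exp, Complex.re_mul_ofReal, Complex.neg_re, ss_re, mul_comm]
          apply le_of_eq
          congr 1
          ring_nf
        have hm : AEStronglyMeasurable (fun v => θ v * Complex.exp (-(ss v) * s)) volume := by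
          apply Continuous.aestronglyMeasurable
          fun_prop
        exact (hint.norm.const_mul (Real.exp (-s))).mono' hm (Filter.Eventually.of_forall hn)
      exact hb1 (t + u)
  -- constants
  set a3 : Fin J → ℝ := fun j => ∫ v, ‖ss v‖ ^ 3 * ‖η j v‖ with ha3
  set a4 : Fin J → ℝ := fun j => ∫ v, ‖ss v‖ ^ 4 * ‖η j v‖ with ha4
  set b2 : Fin J → ℝ := fun j => ∫ v, ‖ss v‖ ^ 2 * ‖η' j v‖ with hb2
  set b3 : Fin J → ℝ := fun j => ∫ v, ‖ss v‖ ^ 3 * ‖η' j v‖ with hb3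
  have ha3' : ∀ j, 0 ≤ a3 j := fun j => integral_nonneg fun v => by positivity
  have ha4' : ∀ j, 0 ≤ a4 j := fun j => integral_nonneg fun v => by positivity
  have hb2' : ∀ j, 0 ≤ b2 j := fun j => integral_nonneg fun v => by positivity
  have hb3' : ∀ j, 0 ≤ b3 j := fun j => integral_nonneg fun v => by positivity
  refine ⟨c1 * ((4 * a4 i0 * b3 i0) * ∏ j ∈ univ.erase i0, (a3 j * b2 j)), ?_, ?_⟩
  · apply mul_nonneg hc1
    apply mul_nonneg
    · have := ha4' i0; have := hb3' i0; positivity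
    · exact prod_nonneg fun j _ => mul_nonneg (ha3' j) (hb2' j)
  intro u hu L E w R hL2 hFG hEp hEs hE1 hE2 hw
  set θ : Fin J → ℝ → ℂ := fun j v => if j = i0 then η j v * (1 - Complex.exp (-(ss v) * u)) else η j v with hθ
  set θ' : Fin J → ℝ → ℂ := fun j v => if j = i0 then η' j v * (1 - Complex.exp (-(ss v) * u)) else η' j v with hθ'
  have hcont : ∀ (g : Fin J → ℝ → ℝ), (∀ j, Continuous (g j)) → ∀ j, Continuous (shf g i0 u j) := by
    intro g hg j
    unfold shf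
    by_cases h : j = i0
    · simp only [if_pos h]
      exact (hg j).sub ((hg j).comp (continuous_id.add continuous_const))
    · simp only [if_neg h]
      exact hg j
  have hθc : ∀ j, Continuous (θ j) := by
    intro j
    simp only [hθ]
    by_cases h : j = i0
    · simp only [if_pos h]
      have := hηc j
      fun_prop
    · simp only [if_neg h]
      exact hηc j
  have hθc' : ∀ j, Continuous (θ' j) := by
    intro j
    simp only [hθ']
    by_cases h : j = i0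
    · simp only [if_pos h]
      have := hηc' j
      fun_prop
    · simp only [if_neg h]
      exact hηc' j
  have hθi : ∀ j, Integrable (θ j) := by
    intro j
    simp only [hθ]
    by_cases h : j = i0
    · simp only [if_pos h]
      have h1 := (hmul (η j) u hu 0 (hηc j) (by simpa using hηi j 1)).1
      simp only [pow_zero, one_mul] at h1
      refine (integrable_norm_iff ?_).mp h1
      apply Continuous.aestronglyMeasurable
      have := hηc j
      fun_prop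
    · simp only [if_neg h]
      exact hηint j
  have hθi' : ∀ j, Integrable (θ' j) := by
    intro j
    simp only [hθ']
    by_cases h : j = i0
    · simp only [if_pos h]
      have h1 := (hmul (η' j) u hu 0 (hηc' j) (by simpa using hηi' j 1)).1
      simp only [pow_zero, one_mul] at h1
      refine (integrable_norm_iff ?_).mp h1
      apply Continuous.aestronglyMeasurable
      have := hηc' j
      fun_prop
    · simp only [if_neg h]
      exact hηint' j
  have hθ3 : ∀ j, Integrable (fun v => ‖ss v‖ ^ 3 * ‖θ j v‖) := by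
    intro j
    simp only [hθ]
    by_cases h : j = i0
    · simp only [if_pos h]
      exact (hmul (η j) u hu 3 (hηc j) (hηi j 4)).1
    · simp only [if_neg h]
      exact hηi j 3
  have hθ2 : ∀ j, Integrable (fun v => ‖ss v‖ ^ 2 * ‖θ' j v‖) := by
    intro j
    simp only [hθ']
    by_cases h : j = i0
    · simp only [if_pos h]
      exact (hmul (η' j) u hu 2 (hηc' j) (hηi' j 3)).1
    · simp only [if_neg h]
      exact hηi' j 2
  have hθF : ∀ j, ∀ t : ℝ, (shf f i0 u j t : ℂ) = ∫ v, θ j v * Complex.exp (-(ss v) * t) := by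
    intro j t
    unfold shf
    simp only [hθ]
    by_cases h : j = i0
    · simp only [if_pos h]
      exact hrep (η j) (f j) u (hηc j) hu (hηint j) (hηF j) t
    · simp only [if_neg h]
      exact hηF j t
  have hθG : ∀ j, ∀ t : ℝ, (shf g i0 u j t : ℂ) = ∫ v, θ' j v * Complex.exp (-(ss v) * t) := by
    intro j t
    unfold shf
    simp only [hθ']
    by_cases h : j = i0
    · simp only [if_pos h]
      exact hrep (η' j) (g j) u (hηc' j) hu (hηint' j) (hηG j) t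
    · simp only [if_neg h]
      exact hηG j t
  have hvan : ∀ j x, Real.log R / L < x → shf f i0 u j x = 0 ∧ shf g i0 u j x = 0 := by
    intro j x hx
    unfold shf
    have h1 := hFG j x hx
    have h2 := hFG j (x + u) (by linarith)
    by_cases h : j = i0
    · simp only [if_pos h]
      rw [h1.1, h1.2, h2.1, h2.2, sub_zero]
      exact ⟨rfl, rfl⟩
    · simp only [if_neg h]
      exact h1
  have hmain := hb (shf f i0 u) (shf g i0 u) θ θ' (hcont f fun j => (hf j).continuous)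
    (hcont g fun j => (hg j).continuous) hθc hθc' hθi hθi' hθ3 hθ2 hθF hθG L E w R hL2 hvan hEp hEs hE1 hE2 hw
  refine hmain.trans ?_
  rw [← Finset.mul_prod_erase univ _ (Finset.mem_univ i0)]
  have h1 : (∫ v, ‖ss v‖ ^ 3 * ‖θ i0 v‖) ≤ 2 * u * a4 i0 := by
    simp only [hθ, if_pos rfl]
    exact (hmul (η i0) u hu 3 (hηc i0) (hηi i0 4)).2
  have h2 : (∫ v, ‖ss v‖ ^ 2 * ‖θ' i0 v‖) ≤ 2 * u * b3 i0 := by
    simp only [hθ', if_pos rfl]
    exact (hmul (η' i0) u hu 2 (hηc' i0) (hηi' i0 3)).2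
  have h3 : ∀ j ∈ univ.erase i0, (∫ v, ‖ss v‖ ^ 3 * ‖θ j v‖) * (∫ v, ‖ss v‖ ^ 2 * ‖θ' j v‖) = a3 j * b2 j := by
    intro j hj
    have h : j ≠ i0 := (Finset.mem_erase.1 hj).1
    simp only [hθ, hθ', if_neg h]
    rfl
  rw [Finset.prod_congr rfl h3]
  have h4 : 0 ≤ ∏ j ∈ univ.erase i0, (a3 j * b2 j) := prod_nonneg fun j _ => mul_nonneg (ha3' j) (hb2' j)
  have h5 : 0 ≤ (∫ v, ‖ss v‖ ^ 2 * ‖θ' i0 v‖) := integral_nonneg fun v => by positivity
  have h6 : (∫ v, ‖ss v‖ ^ 3 * ‖θ i0 v‖) * (∫ v, ‖ss v‖ ^ 2 * ‖θ' i0 v‖) ≤ (2 * u * a4 i0) * (2 * u * b3 i0) := by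
    apply mul_le_mul h1 h2 h5
    have := ha4' i0
    positivity
  calc c1 * ((∫ v, ‖ss v‖ ^ 3 * ‖θ i0 v‖) * (∫ v, ‖ss v‖ ^ 2 * ‖θ' i0 v‖) * ∏ j ∈ univ.erase i0, (a3 j * b2 j))
      ≤ c1 * ((2 * u * a4 i0) * (2 * u * b3 i0) * ∏ j ∈ univ.erase i0, (a3 j * b2 j)) := by
        gcongr
    _ = _ := by ring

end Pool.Agent.H387R2.MB
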