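import Pool.Agent.H387R2.MB10

set_option autoImplicit false

open Finset Filter Topology

namespace Pool.Agent.H387R2.MB

open Pool.Agent.H378R2

/-- normalised main quantity -/
noncomputable def UU (J : ℕ) (X : ℝ) (y : ℕ) : ℝ :=
  (MPhi X * (1 / (Uni.WW y : ℝ))) * (1 / (LL X * rho y) ^ J)

lemma UU_nonneg (J : ℕ) {X : ℝ} (hL : 0 ≤ LL X) (y : ℕ) : 0 ≤ UU J X y := by
  unfold UU
  have := MPhi_nonneg X
  have := rho_pos y
  positivity

lemma UU_le_QQ {J : ℕ} {X : ℝ} (hL : 0 < LL X) {y : ℕ} {E : Finset ℕ} (hE : 0 < BE E) (h : BE E ≤ rho y) :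
    UU J X y ≤ QQ J X (Uni.WW y) E := by
  unfold UU QQ
  have h1 := MPhi_nonneg X
  have h2 := rho_pos y
  apply mul_le_mul_of_nonneg_left _ (by positivity)
  apply one_div_le_one_div_of_le (by positivity)
  apply pow_le_pow_left₀ (by positivity)
  exact mul_le_mul_of_nonneg_left h hL.le

lemma QQ_le_UU {J : ℕ} {X : ℝ} (hL : 0 < LL X) {y : ℕ} {E : Finset ℕ} (h : rho y / 2 ≤ BE E) :
    QQ J X (Uni.WW y) E ≤ 2 ^ J * UU J X y := by
  unfold UU QQ
  have h1 := MPhi_nonneg X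
  have h2 := rho_pos y
  have h3 : 1 / (LL X * BE E) ^ J ≤ 2 ^ J * (1 / (LL X * rho y) ^ J) := by
    have e : 2 ^ J * (1 / (LL X * rho y) ^ J) = 1 / (LL X * (rho y / 2)) ^ J := by
      have e2 : (LL X * (rho y / 2)) ^ J = (LL X * rho y) ^ J / 2 ^ J := by
        rw [← div_pow]; congr 1; ring
      rw [e2, one_div_div, mul_one_div]
    rw [e]
    apply one_div_le_one_div_of_le (by positivity)
    apply pow_le_pow_left₀ (by positivity)
    exact mul_le_mul_of_nonneg_left h hL.le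
  calc _ ≤ (MPhi X * (1 / (Uni.WW y : ℝ))) * (2 ^ J * (1 / (LL X * rho y) ^ J)) :=
        mul_le_mul_of_nonneg_left h3 (by positivity)
    _ = _ := by ring

lemma filter_en {K : ℕ} {R : Finset ℕ} (hR : R.card = K) (P : ℕ → Prop) [DecidablePred P] :
    (univ.filter (fun j : Fin K => P (R.orderEmbOfFin hR j))).card = (R.filter P).card := by
  rw [← card_image_of_injective _ (R.orderEmbOfFin hR).injective]
  congr 1
  ext a
  rw [mem_image, mem_filter]
  constructor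
  · rintro ⟨j, hj, rfl⟩
    rw [mem_filter] at hj
    exact ⟨orderEmbOfFin_mem R hR j, hj.2⟩
  · rintro ⟨ha, hP⟩
    have : a ∈ Set.range (R.orderEmbOfFin hR) := by
      rw [range_orderEmbOfFin]; exact ha
    obtain ⟨j, rfl⟩ := this
    exact ⟨j, mem_filter.2 ⟨mem_univ _, hP⟩, rfl⟩

lemma all_en {K : ℕ} {R : Finset ℕ} (hR : R.card = K) (P : ℕ → Prop) :
    (∀ j : Fin K, P (R.orderEmbOfFin hR j)) ↔ ∀ a ∈ R, P a := by
  constructor
  · intro h a ha
    have : a ∈ Set.range (R.orderEmbOfFin hR) := by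
      rw [range_orderEmbOfFin]; exact ha
    obtain ⟨j, rfl⟩ := this
    exact h j
  · intro h j
    exact h _ (orderEmbOfFin_mem R hR j)

open Classical in
/-- the lower bound for sets of shifts -/
def Low (k K : ℕ) (δ c0 : ℝ) (N M y : ℕ) : Prop :=
  ∀ (b : ℕ) (R : Finset ℕ), R.card = K → (∀ a ∈ R, a ≤ M) → (∀ a ∈ R, Nat.Coprime (Uni.WW y) (b + a)) →
    c0 * UU K ((N:ℝ) / 4) y ≤ ∑ n ∈ Icc 1 ⌊3 * ((N:ℝ) / 4)⌋₊, nu ((N:ℝ) / 4) (Uni.WW y) b n *
      (if k + 1 ≤ (R.filter (fun a => (n + a).Prime)).card ∧ ∀ a ∈ R, Rg δ ((N:ℝ) / 4) (n + a) then 1 else 0)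

open Classical in
/-- the upper bound for sets of shifts -/
def Upp (J : ℕ) (δ C1 : ℝ) (N M y : ℕ) : Prop :=
  ∀ (b : ℕ) (R : Finset ℕ), R.card = J → (∀ a ∈ R, a ≤ M) →
    ∑ n ∈ Icc 1 ⌊3 * ((N:ℝ) / 4)⌋₊, nu ((N:ℝ) / 4) (Uni.WW y) b n *
      (if ∀ a ∈ R, Rg δ ((N:ℝ) / 4) (n + a) then 1 else 0) ≤ C1 * UU J ((N:ℝ) / 4) y

lemma M_le_sqrt (C : ℝ) : ∀ᶠ N : ℕ in atTop, ((⌊Real.log N ^ C⌋₊ : ℕ) : ℝ) ≤ Real.sqrt ((N:ℝ) / 4) := by
  have tN : Tendsto (fun N : ℕ => (N : ℝ)) atTop atTop := tendsto_natCast_atTop_atTop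
  have tL : Tendsto (fun N : ℕ => Real.log (N : ℝ)) atTop atTop := Real.tendsto_log_atTop.comp tN
  have h := tN.eventually (Uni.log_pow_small (2 * C) (η := 1 / 4) (by norm_num))
  filter_upwards [h, tL.eventually_ge_atTop 1] with N h1 h2
  apply Real.le_sqrt_of_sq_le
  have h3 : ((⌊Real.log N ^ C⌋₊ : ℕ) : ℝ) ≤ Real.log N ^ C := Nat.floor_le (Real.rpow_nonneg (by linarith) _)
  calc ((⌊Real.log N ^ C⌋₊ : ℕ) : ℝ) ^ 2 ≤ (Real.log N ^ C) ^ 2 := pow_le_pow_left₀ (Nat.cast_nonneg _) h3 2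
    _ = Real.log N ^ (2 * C) := by
        rw [← Real.rpow_natCast, ← Real.rpow_mul (by linarith)]
        congr 1
        push_cast
        ring
    _ ≤ 1 / 4 * N := h1
    _ = _ := by ring

theorem low_eventually (k : ℕ) : ∃ K : ℕ, 1 ≤ K ∧ ∃ δ : ℝ, 0 < δ ∧ ∃ c0 : ℝ, 0 < c0 ∧ ∀ C : ℝ,
    ∀ᶠ N : ℕ in atTop, Low k K δ c0 N ⌊Real.log N ^ C⌋₊ ⌊Real.log (Real.log N)⌋₊ := by
  classical
  obtain ⟨K, hK, δ, hδ, _, c0, hc0, z, h⟩ := pos1 k
  refine ⟨K, hK, δ, hδ, c0, hc0, fun C => ?_⟩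
  have tN : Tendsto (fun N : ℕ => (N : ℝ)) atTop atTop := tendsto_natCast_atTop_atTop
  have tX : Tendsto (fun N : ℕ => (N : ℝ) / 4) atTop atTop := tN.atTop_div_const (by norm_num)
  filter_upwards [tX.eventually h, ec_eventually K z C hδ, M_le_sqrt C, (LL_tendsto.comp tX).eventually_ge_atTop 1]
    with N h1 h2 h3 h4
  set X := (N:ℝ) / 4 with hX
  set y := ⌊Real.log (Real.log (N:ℝ))⌋₊ with hy
  have hL0 : 0 < LL X := by
    have : 1 ≤ LL X := h4
    linarith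
  intro b R hRK hRM hRc
  obtain ⟨hCS, hs, hB1, hB2⟩ := h2 R hRK.le hRM
  set t : Fin K → ℕ := fun j => R.orderEmbOfFin hRK j with ht
  have htR : ∀ j, t j ∈ R := fun j => orderEmbOfFin_mem R hRK j
  have hBE : 0 < BE (ER y R) := BE_pos hCS.gs.pr
  have k1 := h1 (Uni.WW y) (ER y R) b t hCS (WW_sqf y) (DT_ER t htR (R.orderEmbOfFin hRK).injective)
    (fun j => (hRc _ (htR j)).symm) (fun j => by
      refine le_trans ?_ h3
      exact_mod_cast hRM _ (htR j)) hs (by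
      have e : ((Uni.WW y).totient : ℝ) = Uni.WW y * rho y := by
        unfold rho
        have : (Uni.WW y : ℝ) ≠ 0 := by exact_mod_cast (Uni.WW_pos y).ne'
        field_simp
      rw [e]
      have : (0:ℝ) < Uni.WW y := by exact_mod_cast Uni.WW_pos y
      nlinarith)
  have k2 := mul_le_mul_of_nonneg_left (UU_le_QQ (J := K) hL0 hBE hB1) hc0.le
  refine (k2.trans k1).trans (le_of_eq ?_)
  apply sum_congr rfl
  intro n _
  congr 1
  have e1 := filter_en hRK (fun a => (n + a).Prime)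
  have e2 := all_en hRK (fun a => Rg δ X (n + a))
  have e3 : ((k + 1 ≤ (univ.filter (fun j => (n + t j).Prime)).card) ∧ (∀ j, Rg δ X (n + t j))) ↔
      (k + 1 ≤ (R.filter (fun a => (n + a).Prime)).card ∧ ∀ a ∈ R, Rg δ X (n + a)) := by
    rw [← e2, ← e1]
  simp only [e3]
  rfl

theorem upp_eventually (J : ℕ) {δ : ℝ} (hδ : 0 < δ) : ∃ C1 : ℝ, 0 < C1 ∧ ∀ C : ℝ,
    ∀ᶠ N : ℕ in atTop, Upp J δ C1 N ⌊Real.log N ^ C⌋₊ ⌊Real.log (Real.log N)⌋₊ := by
  classical
  obtain ⟨C1, hC1, z, h⟩ := rough_up J hδ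
  refine ⟨C1 * 2 ^ J, by positivity, fun C => ?_⟩
  have tN : Tendsto (fun N : ℕ => (N : ℝ)) atTop atTop := tendsto_natCast_atTop_atTop
  have tX : Tendsto (fun N : ℕ => (N : ℝ) / 4) atTop atTop := tN.atTop_div_const (by norm_num)
  filter_upwards [tX.eventually h, ec_eventually J z C hδ, (LL_tendsto.comp tX).eventually_ge_atTop 1]
    with N h1 h2 h4
  set X := (N:ℝ) / 4 with hX
  set y := ⌊Real.log (Real.log (N:ℝ))⌋₊ with hy
  have hL0 : 0 < LL X := by
    have : 1 ≤ LL X := h4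
    linarith
  intro b R hRK hRM
  obtain ⟨hCS, hs, hB1, hB2⟩ := h2 R hRK.le hRM
  set t : Fin J → ℕ := fun j => R.orderEmbOfFin hRK j with ht
  have htR : ∀ j, t j ∈ R := fun j => orderEmbOfFin_mem R hRK j
  have k1 := h1 (Uni.WW y) (ER y R) b t hCS (DT_ER t htR (R.orderEmbOfFin hRK).injective)
  have k2 := mul_le_mul_of_nonneg_left (QQ_le_UU (J := J) hL0 hB2) hC1.le
  have e0 : ∑ n ∈ Icc 1 ⌊3 * X⌋₊, nu X (Uni.WW y) b n * (if ∀ a ∈ R, Rg δ X (n + a) then 1 else 0) =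
      ∑ n ∈ Icc 1 ⌊3 * X⌋₊, nu X (Uni.WW y) b n * (if ∀ j, Rg δ X (n + t j) then 1 else 0) := by
    apply sum_congr rfl
    intro n _
    congr 1
    have e2 := all_en hRK (fun a => Rg δ X (n + a))
    simp only [← e2]
    rfl
  rw [e0]
  refine (k1.trans k2).trans (le_of_eq ?_)
  ring

/-- elementary inequality for binomial coefficients -/
lemma choose_sq_le (K : ℕ) (Z : ℕ) :
    ((Z.choose K : ℕ) : ℝ) ^ 2 ≤ ((4 * K : ℝ) ^ (2 * K) + 2 ^ (2 * K) * (2 * K).factorial) * (1 + ((Z.choose (2 * K) : ℕ) : ℝ)) := by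
  have h1 : ((Z.choose K : ℕ) : ℝ) ≤ (Z:ℝ) ^ K := by exact_mod_cast Nat.choose_le_pow Z K
  have h2 : ((Z.choose K : ℕ) : ℝ) ^ 2 ≤ (Z:ℝ) ^ (2 * K) := by
    calc _ ≤ ((Z:ℝ) ^ K) ^ 2 := pow_le_pow_left₀ (Nat.cast_nonneg _) h1 2
      _ = _ := by rw [← pow_mul]; ring_nf
  refine h2.trans ?_
  have hc : (0:ℝ) ≤ ((Z.choose (2 * K) : ℕ) : ℝ) := Nat.cast_nonneg _
  rcases le_or_gt Z (4 * K) with h | h
  · have h3 : (Z:ℝ) ^ (2 * K) ≤ (4 * K : ℝ) ^ (2 * K) := by
      apply pow_le_pow_left₀ (Nat.cast_nonneg _)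
      exact_mod_cast h
    have h4 : (0:ℝ) ≤ 2 ^ (2 * K) * (2 * K).factorial := by positivity
    have h5 : (0:ℝ) ≤ (4 * K : ℝ) ^ (2 * K) := by positivity
    nlinarith [mul_nonneg (add_nonneg h5 h4) hc]
  · have h3 := Nat.pow_le_choose (α := ℝ) (2 * K) Z
    have hf : (0:ℝ) < (2 * K).factorial := by exact_mod_cast Nat.factorial_pos _
    rw [div_le_iff₀ hf] at h3
    have h4 : (Z:ℝ) / 2 ≤ ((Z + 1 - 2 * K : ℕ) : ℝ) := by
      rw [Nat.cast_sub (by omega)]
      push_cast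
      have : (4 * K : ℝ) < Z := by exact_mod_cast h
      linarith
    have h5 : ((Z:ℝ) / 2) ^ (2 * K) ≤ (((Z + 1 - 2 * K : ℕ)) : ℝ) ^ (2 * K) := pow_le_pow_left₀ (by positivity) h4 _
    have h6 : (Z:ℝ) ^ (2 * K) = 2 ^ (2 * K) * ((Z:ℝ) / 2) ^ (2 * K) := by
      rw [← mul_pow]; congr 1; ring
    rw [h6]
    have h7 : (0:ℝ) ≤ (4 * K : ℝ) ^ (2 * K) := by positivity
    have h8 : ((Z:ℝ) / 2) ^ (2 * K) ≤ ((Z.choose (2 * K) : ℕ) : ℝ) * (2 * K).factorial := h5.trans h3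
    calc 2 ^ (2 * K) * ((Z:ℝ) / 2) ^ (2 * K) ≤ 2 ^ (2 * K) * (((Z.choose (2 * K) : ℕ) : ℝ) * (2 * K).factorial) := by gcongr
      _ = (2 ^ (2 * K) * (2 * K).factorial) * ((Z.choose (2 * K) : ℕ) : ℝ) := by ring
      _ ≤ ((4 * K : ℝ) ^ (2 * K) + 2 ^ (2 * K) * (2 * K).factorial) * (1 + ((Z.choose (2 * K) : ℕ) : ℝ)) := by
          apply mul_le_mul (by linarith) (by linarith) hc (by positivity)

/-- sums over subsets -/
lemma sum_powerset_choose (S : Finset ℕ) (r : ℕ) (P : ℕ → Prop) [DecidablePred P] :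
    ∑ R ∈ S.powersetCard r, (if ∀ a ∈ R, P a then (1:ℝ) else 0) = (((S.filter P).card.choose r : ℕ) : ℝ) := by
  classical
  rw [← sum_filter, sum_const, nsmul_eq_mul, mul_one, ← card_powersetCard]
  congr 2
  ext R
  rw [mem_filter, mem_powersetCard, mem_powersetCard]
  constructor
  · rintro ⟨⟨h1, h2⟩, h3⟩
    exact ⟨fun a ha => mem_filter.2 ⟨h1 ha, h3 a ha⟩, h2⟩
  · rintro ⟨h1, h2⟩
    exact ⟨⟨fun a ha => (mem_filter.1 (h1 ha)).1, h2⟩, fun a ha => (mem_filter.1 (h1 ha)).2⟩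

lemma alg2 {l p w : ℝ} (hl : 0 < l) : l / 2 * p + 1 / (2 * l) * w ^ 2 = (l ^ 2 * p + w ^ 2) / (2 * l) := by
  field_simp

lemma alg3 {c C U : ℝ} (hc : 0 < c) (hC : 0 < C) : c ^ 2 / C * U = (c * U) / (C / c) := by
  field_simp

lemma alg4 {c C U : ℝ} (hc : 0 < c) (hC : 0 < C) : 1 / (2 * (C / c)) * (C * U) = c / 2 * U := by
  field_simp

open Classical in
/-- second moment argument -/
theorem second_moment {k K : ℕ} {δ c0 C0 C2 : ℝ} {N M y : ℕ} (hK : 1 ≤ K) (hc0 : 0 < c0) (hC0 : 0 < C0) (hC2 : 0 < C2)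
    (hlow : Low k K δ c0 N M y) (hupp0 : Upp 0 δ C0 N M y) (hupp2 : Upp (2 * K) δ C2 N M y)
    (hL : 1 ≤ LL ((N:ℝ) / 4)) {η : ℝ} (hη : 0 < η) (hX4 : 4 ≤ (N:ℝ) / 4)
    (b : ℕ) (S : Finset ℕ) (hSM : ∀ a ∈ S, a ≤ M) (hSc : ∀ a ∈ S, Nat.Coprime (Uni.WW y) (b + a))
    (hS1 : η * rho y * Real.log N ≤ S.card) (hS2 : S.card ≤ 2 * (η * rho y * Real.log N)) (hS3 : 2 * K ≤ S.card) :
    ((c0 * (100 * η) ^ K / K.factorial) ^ 2 /
      (((4 * K : ℝ) ^ (2 * K) + 2 ^ (2 * K) * (2 * K).factorial) * (C0 + C2 * (800 * η) ^ (2 * K)))) * UU 0 ((N:ℝ) / 4) y ≤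
      ∑ n ∈ Icc 1 ⌊3 * ((N:ℝ) / 4)⌋₊, nu ((N:ℝ) / 4) (Uni.WW y) b n * (if k + 1 ≤ (S.filter (fun a => (n + a).Prime)).card then 1 else 0) := by
  set X := (N:ℝ) / 4 with hX
  set W := Uni.WW y with hW
  set D : ℝ := (4 * K : ℝ) ^ (2 * K) + 2 ^ (2 * K) * (2 * K).factorial with hD
  have hD0 : 0 < D := by rw [hD]; positivity
  have hL0 : 0 < LL X := by linarith
  have hρ := rho_pos y
  set U0 := UU 0 X y with hU0
  have hU00 : 0 ≤ U0 := UU_nonneg 0 hL0.le y
  have hUJ : ∀ J, UU J X y = U0 * (1 / (LL X * rho y) ^ J) := by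
    intro J
    rw [hU0]; unfold UU
    rw [pow_zero]
    ring
  have hlogN : Real.log N ≤ 400 * LL X := by
    have := log4X hX4
    rw [hX] at this
    rw [show 4 * ((N:ℝ) / 4) = N by ring] at this
    exact this
  have hlogN2 : 200 * LL X ≤ Real.log N := by
    unfold LL
    rw [show 200 * (Real.log X / 200) = Real.log X by ring]
    apply Real.log_le_log (by linarith)
    rw [hX]
    have : (0:ℝ) ≤ N := Nat.cast_nonneg N
    linarith
  set x : ℝ := (S.card : ℝ) / (LL X * rho y) with hx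
  have hx1 : 200 * η ≤ x := by
    rw [hx, le_div_iff₀ (by positivity)]
    refine le_trans ?_ hS1
    have := mul_le_mul_of_nonneg_left hlogN2 (by positivity : 0 ≤ η * rho y)
    linarith
  have hx2 : x ≤ 800 * η := by
    rw [hx, div_le_iff₀ (by positivity)]
    refine hS2.trans ?_
    have := mul_le_mul_of_nonneg_left hlogN (by positivity : 0 ≤ η * rho y)
    linarith
  have hx0 : 0 ≤ x := by linarith
  set Z : ℕ → ℕ := fun n => (S.filter (fun a => Rg δ X (n + a))).card with hZ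
  set P : ℕ → ℝ := fun n => if k + 1 ≤ (S.filter (fun a => (n + a).Prime)).card then 1 else 0 with hP
  set I := Icc 1 ⌊3 * X⌋₊ with hI
  set ν : ℕ → ℝ := fun n => nu X W b n with hν
  have hν0 : ∀ n, 0 ≤ ν n := fun n => nu_nonneg _ _ _ _
  -- lower bound
  have l1 : (((S.card).choose K : ℕ) : ℝ) * (c0 * UU K X y) ≤ ∑ n ∈ I, ν n * (P n * (((Z n).choose K : ℕ) : ℝ)) := by
    calc (((S.card).choose K : ℕ) : ℝ) * (c0 * UU K X y) = ∑ _R ∈ S.powersetCard K, c0 * UU K X y := by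
          rw [sum_const, nsmul_eq_mul, card_powersetCard]
      _ ≤ ∑ R ∈ S.powersetCard K, ∑ n ∈ I, ν n *
          (if k + 1 ≤ (R.filter (fun a => (n + a).Prime)).card ∧ ∀ a ∈ R, Rg δ X (n + a) then 1 else 0) := by
          apply sum_le_sum
          intro R hR
          rw [mem_powersetCard] at hR
          exact hlow b R hR.2 (fun a ha => hSM a (hR.1 ha)) (fun a ha => hSc a (hR.1 ha))
      _ ≤ ∑ R ∈ S.powersetCard K, ∑ n ∈ I, ν n * (P n * (if ∀ a ∈ R, Rg δ X (n + a) then 1 else 0)) := by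
          apply sum_le_sum
          intro R hR
          rw [mem_powersetCard] at hR
          apply sum_le_sum
          intro n _
          apply mul_le_mul_of_nonneg_left _ (hν0 n)
          split_ifs with h1 h2 h2
          · rw [mul_one]
            simp only [hP]
            rw [if_pos (h1.1.trans (card_le_card (filter_subset_filter _ hR.1)))]
          · exact absurd h1.2 h2
          · rw [mul_one]
            simp only [hP]
            split_ifs <;> norm_num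
          · rw [mul_zero]
      _ = ∑ n ∈ I, ν n * (P n * (((Z n).choose K : ℕ) : ℝ)) := by
          rw [sum_comm]
          apply sum_congr rfl
          intro n _
          rw [← mul_sum, ← mul_sum, sum_powerset_choose S K (fun a => Rg δ X (n + a))]
  -- second moment
  have u1 : ∑ n ∈ I, ν n * (((Z n).choose (2 * K) : ℕ) : ℝ) ≤ (((S.card).choose (2 * K) : ℕ) : ℝ) * (C2 * UU (2 * K) X y) := by
    calc ∑ n ∈ I, ν n * (((Z n).choose (2 * K) : ℕ) : ℝ) =
          ∑ R ∈ S.powersetCard (2 * K), ∑ n ∈ I, ν n * (if ∀ a ∈ R, Rg δ X (n + a) then 1 else 0) := by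
          rw [sum_comm]
          apply sum_congr rfl
          intro n _
          rw [← mul_sum, sum_powerset_choose S (2 * K) (fun a => Rg δ X (n + a))]
      _ ≤ ∑ _R ∈ S.powersetCard (2 * K), C2 * UU (2 * K) X y := by
          apply sum_le_sum
          intro R hR
          rw [mem_powersetCard] at hR
          exact hupp2 b R hR.2 (fun a ha => hSM a (hR.1 ha))
      _ = _ := by rw [sum_const, nsmul_eq_mul, card_powersetCard]
  have u0 : ∑ n ∈ I, ν n ≤ C0 * U0 := by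
    have := hupp0 b ∅ rfl (fun a ha => absurd ha (notMem_empty a))
    refine le_trans (le_of_eq ?_) this
    apply sum_congr rfl
    intro n _
    rw [if_pos (fun a ha => absurd ha (notMem_empty a)), mul_one]
  have u2 : ∑ n ∈ I, ν n * (((Z n).choose K : ℕ) : ℝ) ^ 2 ≤ D * (C0 + C2 * (800 * η) ^ (2 * K)) * U0 := by
    calc ∑ n ∈ I, ν n * (((Z n).choose K : ℕ) : ℝ) ^ 2 ≤ ∑ n ∈ I, ν n * (D * (1 + (((Z n).choose (2 * K) : ℕ) : ℝ))) :=
          sum_le_sum fun n _ => mul_le_mul_of_nonneg_left (choose_sq_le K (Z n)) (hν0 n)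
      _ = D * (∑ n ∈ I, ν n + ∑ n ∈ I, ν n * (((Z n).choose (2 * K) : ℕ) : ℝ)) := by
          rw [← sum_add_distrib, mul_sum]
          apply sum_congr rfl
          intro n _
          ring
      _ ≤ D * (C0 * U0 + (((S.card).choose (2 * K) : ℕ) : ℝ) * (C2 * UU (2 * K) X y)) := by
          apply mul_le_mul_of_nonneg_left _ hD0.le
          linarith
      _ ≤ D * (C0 * U0 + C2 * (800 * η) ^ (2 * K) * U0) := by
          apply mul_le_mul_of_nonneg_left _ hD0.le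
          have h1 : (((S.card).choose (2 * K) : ℕ) : ℝ) ≤ (S.card : ℝ) ^ (2 * K) := by
            exact_mod_cast Nat.choose_le_pow S.card (2 * K)
          have h2 : (((S.card).choose (2 * K) : ℕ) : ℝ) * (C2 * UU (2 * K) X y) ≤ C2 * (800 * η) ^ (2 * K) * U0 := by
            rw [hUJ]
            calc (((S.card).choose (2 * K) : ℕ) : ℝ) * (C2 * (U0 * (1 / (LL X * rho y) ^ (2 * K)))) ≤
                (S.card : ℝ) ^ (2 * K) * (C2 * (U0 * (1 / (LL X * rho y) ^ (2 * K)))) :=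
                  mul_le_mul_of_nonneg_right h1 (by positivity)
              _ = C2 * x ^ (2 * K) * U0 := by rw [hx, div_pow]; ring
              _ ≤ C2 * (800 * η) ^ (2 * K) * U0 := by
                  have h9 : x ^ (2 * K) ≤ (800 * η) ^ (2 * K) := pow_le_pow_left₀ hx0 hx2 _
                  exact mul_le_mul_of_nonneg_right (mul_le_mul_of_nonneg_left h9 hC2.le) hU00
          linarith
      _ = _ := by ring
  -- lower bound for the first moment
  have l2 : c0 * (100 * η) ^ K / K.factorial * U0 ≤ ∑ n ∈ I, ν n * (P n * (((Z n).choose K : ℕ) : ℝ)) := by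
    refine le_trans ?_ l1
    have hf : (0:ℝ) < K.factorial := by exact_mod_cast Nat.factorial_pos _
    have h3 := Nat.pow_le_choose (α := ℝ) K S.card
    have h4 : (S.card : ℝ) / 2 ≤ ((S.card + 1 - K : ℕ) : ℝ) := by
      rw [Nat.cast_sub (by omega)]
      push_cast
      have : (2 * K : ℝ) ≤ S.card := by exact_mod_cast hS3
      linarith
    have h5 : ((S.card : ℝ) / 2) ^ K ≤ ((S.card + 1 - K : ℕ) : ℝ) ^ K :=
      pow_le_pow_left₀ (div_nonneg (Nat.cast_nonneg _) (by norm_num)) h4 _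
    have h6 : ((S.card : ℝ) / 2) ^ K / K.factorial ≤ (((S.card).choose K : ℕ) : ℝ) :=
      (div_le_div_of_nonneg_right h5 hf.le).trans h3
    rw [hUJ]
    calc c0 * (100 * η) ^ K / K.factorial * U0 ≤ c0 * (x / 2) ^ K / K.factorial * U0 := by
          gcongr
          linarith
      _ = ((S.card : ℝ) / 2) ^ K / K.factorial * (c0 * (U0 * (1 / (LL X * rho y) ^ K))) := by
          rw [hx, div_pow, div_pow, div_pow]; ring
      _ ≤ _ := mul_le_mul_of_nonneg_right h6 (by positivity)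
  -- conclusion
  set c' := c0 * (100 * η) ^ K / K.factorial with hc'
  have hc'0 : 0 < c' := by rw [hc']; positivity
  set C' := D * (C0 + C2 * (800 * η) ^ (2 * K)) with hC'
  have hC'0 : 0 < C' := by rw [hC']; positivity
  set lam := C' / c' with hlam
  have hlam0 : 0 < lam := by positivity
  have hPn : ∀ n, P n = 0 ∨ P n = 1 := by
    intro n
    simp only [hP]
    split_ifs
    · right; rfl
    · left; rfl
  have m1 : ∑ n ∈ I, ν n * (P n * (((Z n).choose K : ℕ) : ℝ)) ≤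
      lam / 2 * ∑ n ∈ I, ν n * P n + 1 / (2 * lam) * ∑ n ∈ I, ν n * (((Z n).choose K : ℕ) : ℝ) ^ 2 := by
    rw [mul_sum, mul_sum, ← sum_add_distrib]
    apply sum_le_sum
    intro n _
    set w := (((Z n).choose K : ℕ) : ℝ)
    have h1 : P n * w ≤ lam / 2 * P n + 1 / (2 * lam) * w ^ 2 := by
      have h2 : 0 ≤ (lam * P n - w) ^ 2 := sq_nonneg _
      have h3 : P n ^ 2 = P n := by rcases hPn n with h | h <;> rw [h] <;> norm_num
      have h4 : 2 * lam * (P n * w) ≤ lam ^ 2 * P n + w ^ 2 := by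
        have : (lam * P n - w) ^ 2 = lam ^ 2 * P n ^ 2 - 2 * lam * (P n * w) + w ^ 2 := by ring
        rw [this, h3] at h2
        linarith
      have h5 : lam / 2 * P n + 1 / (2 * lam) * w ^ 2 = (lam ^ 2 * P n + w ^ 2) / (2 * lam) := alg2 hlam0
      rw [h5, le_div_iff₀ (by positivity)]
      linarith
    calc ν n * (P n * w) ≤ ν n * (lam / 2 * P n + 1 / (2 * lam) * w ^ 2) := mul_le_mul_of_nonneg_left h1 (hν0 n)
      _ = _ := by ring
  have m2 : 1 / (2 * lam) * ∑ n ∈ I, ν n * (((Z n).choose K : ℕ) : ℝ) ^ 2 ≤ c' / 2 * U0 := by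
    calc _ ≤ 1 / (2 * lam) * (C' * U0) := mul_le_mul_of_nonneg_left u2 (by positivity)
      _ = c' / 2 * U0 := alg4 hc'0 hC'0
  have m3 : c' / 2 * U0 ≤ lam / 2 * ∑ n ∈ I, ν n * P n := by linarith
  have m4 : c' ^ 2 / C' * U0 ≤ ∑ n ∈ I, ν n * P n := by
    have h1 : c' * U0 ≤ lam * ∑ n ∈ I, ν n * P n := by linarith
    have h2 : c' ^ 2 / C' * U0 = (c' * U0) / lam := alg3 hc'0 hC'0
    rw [h2, div_le_iff₀ hlam0]
    linarith
  exact m4

end Pool.Agent.H387R2.MB
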