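import Pool.Agent.H387R2.U7

set_option autoImplicit false

open Finset Filter Topology

namespace Pool.Agent.H387R2.Uni

/-- upper bound for the logarithmic integral -/
lemma li_upper (m : ℕ) {η : ℝ} (hη : 0 < η) :
    ∀ᶠ N : ℕ in atTop, (∫ t in (2:ℝ)..N, 1 / Real.log t ^ m) ≤ (1 + η) * (N / Real.log N ^ m) := by
  set ε := η / 2 with hε
  have hε0 : 0 < ε := by positivity
  set t0 := Real.exp (m * (1 + ε) / ε + 1) with ht0
  have ht0e : Real.exp 1 ≤ t0 := Real.exp_le_exp.2 (by
    have : 0 ≤ m * (1 + ε) / ε := by positivity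
    linarith)
  have ht02 : 2 ≤ t0 := by
    have := Real.exp_one_gt_d9
    linarith
  have hcont : ContinuousOn (fun t : ℝ => 1 / Real.log t ^ m) (Set.Ici 2) := by
    apply ContinuousOn.div continuousOn_const
    · apply ContinuousOn.pow
      apply Real.continuousOn_log.mono
      intro x hx
      have : (2:ℝ) ≤ x := hx
      simp only [Set.mem_compl_iff, Set.mem_singleton_iff]
      linarith
    · intro x hx
      have : (2:ℝ) ≤ x := hx
      exact pow_ne_zero _ (Real.log_pos (by linarith)).ne'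
  have hderiv : ∀ t : ℝ, 2 ≤ t → HasDerivAt (fun t : ℝ => t / Real.log t ^ m)
      ((1 * Real.log t ^ m - t * (m * Real.log t ^ (m - 1) * t⁻¹)) / (Real.log t ^ m) ^ 2) t := by
    intro t ht
    have hlog : 0 < Real.log t := Real.log_pos (by linarith)
    exact (hasDerivAt_id t).div ((Real.hasDerivAt_log (by linarith)).pow m) (pow_ne_zero _ hlog.ne')
  have hdc : ContinuousOn (fun t : ℝ => (1 * Real.log t ^ m - t * (m * Real.log t ^ (m - 1) * t⁻¹)) /
      (Real.log t ^ m) ^ 2) (Set.Ici 2) := by
    have hl : ContinuousOn Real.log (Set.Ici 2) := by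
      apply Real.continuousOn_log.mono
      intro x hx
      have : (2:ℝ) ≤ x := hx
      simp only [Set.mem_compl_iff, Set.mem_singleton_iff]
      linarith
    apply ContinuousOn.div
    · apply ContinuousOn.sub
      · exact continuousOn_const.mul (hl.pow _)
      · apply continuousOn_id.mul
        apply ContinuousOn.mul (continuousOn_const.mul (hl.pow _))
        apply ContinuousOn.inv₀ continuousOn_id
        intro x hx
        have : (2:ℝ) ≤ x := hx
        simp only [id]
        linarith
    · exact (hl.pow _).pow _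
    · intro x hx
      have : (2:ℝ) ≤ x := hx
      exact pow_ne_zero _ (pow_ne_zero _ (Real.log_pos (by linarith)).ne')
  have hpt : ∀ t : ℝ, t0 ≤ t → 1 / Real.log t ^ m ≤
      (1 + ε) * ((1 * Real.log t ^ m - t * (m * Real.log t ^ (m - 1) * t⁻¹)) / (Real.log t ^ m) ^ 2) := by
    intro t ht
    have hlogt : m * (1 + ε) / ε + 1 ≤ Real.log t := by
      have := Real.log_le_log (Real.exp_pos _) ht
      rwa [Real.log_exp] at this
    have hA : 0 ≤ m * (1 + ε) / ε := by positivity
    have hlog : 0 < Real.log t := by linarith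
    have htpos : 0 < t := by linarith
    rcases Nat.eq_zero_or_pos m with rfl | hm
    · simp
      linarith
    · have e1 : t * (m * Real.log t ^ (m - 1) * t⁻¹) = m * Real.log t ^ (m - 1) := by field_simp
      have e2 : Real.log t ^ m = Real.log t ^ (m - 1) * Real.log t := by
        rw [← pow_succ]; congr 1; omega
      have hp : 0 < Real.log t ^ (m - 1) := pow_pos hlog _
      rw [e1, e2, mul_div_assoc', div_le_div_iff₀ (by positivity) (by positivity)]
      have h3 : m * (1 + ε) ≤ ε * Real.log t := by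
        have : m * (1 + ε) / ε ≤ Real.log t := by linarith
        rw [div_le_iff₀ hε0] at this
        linarith
      have h4 : Real.log t ≤ (1 + ε) * (Real.log t - m) := by linarith
      have h5 : 0 < Real.log t ^ (m - 1) * Real.log t := by positivity
      calc 1 * (Real.log t ^ (m - 1) * Real.log t) ^ 2 =
          (Real.log t ^ (m - 1) * (Real.log t ^ (m - 1) * Real.log t)) * Real.log t := by ring
        _ ≤ (Real.log t ^ (m - 1) * (Real.log t ^ (m - 1) * Real.log t)) * ((1 + ε) * (Real.log t - m)) :=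
            mul_le_mul_of_nonneg_left h4 (by positivity)
        _ = (1 + ε) * (1 * (Real.log t ^ (m - 1) * Real.log t) - m * Real.log t ^ (m - 1)) *
            (Real.log t ^ (m - 1) * Real.log t) := by ring
  -- the constant part
  have hsmall : ∀ᶠ N : ℕ in atTop, (∫ t in (2:ℝ)..t0, 1 / Real.log t ^ m) ≤ ε * (N / Real.log N ^ m) := by
    have h := (tendsto_natCast_atTop_atTop (R := ℝ)).eventually
      (log_pow_small m (η := ε / (|∫ t in (2:ℝ)..t0, 1 / Real.log t ^ m| + 1)) (by positivity))
    filter_upwards [h, eventually_ge_atTop 3] with N h1 h2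
    set D := ∫ t in (2:ℝ)..t0, 1 / Real.log t ^ m with hD
    have hL : 0 < Real.log N := Real.log_pos (by exact_mod_cast (by omega : 1 < N))
    rw [Real.rpow_natCast] at h1
    have hD1 : 0 < |D| + 1 := by positivity
    rw [mul_div_assoc', le_div_iff₀ (by positivity)]
    calc D * Real.log N ^ m ≤ (|D| + 1) * Real.log N ^ m := by
          apply mul_le_mul_of_nonneg_right _ (by positivity)
          linarith [le_abs_self D]
      _ ≤ (|D| + 1) * (ε / (|D| + 1) * N) := by gcongr
      _ = ε * N := by field_simp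
  filter_upwards [hsmall, eventually_ge_atTop ⌈t0⌉₊] with N h1 h2
  have hN : t0 ≤ N := Nat.ceil_le.1 h2
  have i1 : IntervalIntegrable (fun t : ℝ => 1 / Real.log t ^ m) MeasureTheory.volume 2 t0 :=
    (hcont.mono (by rw [Set.uIcc_of_le ht02]; exact fun x hx => hx.1)).intervalIntegrable
  have i2 : IntervalIntegrable (fun t : ℝ => 1 / Real.log t ^ m) MeasureTheory.volume t0 N :=
    (hcont.mono (by rw [Set.uIcc_of_le hN]; exact fun x hx => ht02.trans hx.1)).intervalIntegrable
  have i3 : IntervalIntegrable (fun t : ℝ => (1 * Real.log t ^ m - t * (m * Real.log t ^ (m - 1) * t⁻¹)) /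
      (Real.log t ^ m) ^ 2) MeasureTheory.volume t0 N :=
    (hdc.mono (by rw [Set.uIcc_of_le hN]; exact fun x hx => ht02.trans hx.1)).intervalIntegrable
  have h3 : (∫ t in t0..N, 1 / Real.log t ^ m) ≤ (1 + ε) * (N / Real.log N ^ m) := by
    calc (∫ t in t0..N, 1 / Real.log t ^ m) ≤ ∫ t in t0..N, (1 + ε) *
          ((1 * Real.log t ^ m - t * (m * Real.log t ^ (m - 1) * t⁻¹)) / (Real.log t ^ m) ^ 2) :=
          intervalIntegral.integral_mono_on hN i2 (i3.const_mul _) fun t ht => hpt t ht.1
      _ = (1 + ε) * (N / Real.log N ^ m - t0 / Real.log t0 ^ m) := by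
          rw [intervalIntegral.integral_const_mul]
          congr 1
          exact intervalIntegral.integral_eq_sub_of_hasDerivAt (f := fun t : ℝ => t / Real.log t ^ m)
            (fun t ht => hderiv t (ht02.trans (by rw [Set.uIcc_of_le hN] at ht; exact ht.1))) i3
      _ ≤ (1 + ε) * (N / Real.log N ^ m) := by
          apply mul_le_mul_of_nonneg_left _ (by linarith)
          have : 0 ≤ t0 / Real.log t0 ^ m := by
            have : 0 < Real.log t0 := Real.log_pos (by linarith)
            positivity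
          linarith
  rw [← intervalIntegral.integral_add_adjacent_intervals i1 i2]
  calc _ ≤ ε * (N / Real.log N ^ m) + (1 + ε) * (N / Real.log N ^ m) := add_le_add h1 h3
    _ = (1 + η) * (N / Real.log N ^ m) := by rw [hε]; ring

/-- **Universal lower bound** -/
theorem universal (k q : ℕ) (hq : 1 ≤ q) (lam θ C : ℝ) (hlam : (k : ℝ) < lam)
    (hθ0 : 0 < θ) (hθ : θ < ∏ i ∈ range k, (1 - (i + 1 : ℝ) / lam)) :
    ∃ N₀ : ℕ, ∀ N : ℕ, N₀ ≤ N → ∀ (c : ℕ) (A : Finset ℕ), (∀ a ∈ A, a ≡ c [MOD q]) →
      (∀ a ∈ A, (a : ℝ) ≤ Real.log N ^ C) → lam * ((Nat.totient q : ℝ) / q) * Real.log N ≤ A.card →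
      θ * (∑ T ∈ A.powersetCard (k + 1), CT T) * (∫ t in (2:ℝ)..N, 1 / Real.log t ^ (k + 1)) ≤
        ∑ T ∈ A.powersetCard (k + 1), (piT T N : ℝ) := by
  have hlam0 : 0 < lam := lt_of_le_of_lt (Nat.cast_nonneg k) hlam
  rw [← ph_eq k hlam] at hθ
  obtain ⟨θ', h1, h2⟩ := exists_between hθ
  have h3 := (FF_tendsto k hlam0).eventually (lt_mem_nhds h2)
  obtain ⟨r, hr, h4⟩ := Metric.eventually_nhds_iff.1 h3
  set δ := min (r / 2) (1 / 4) with hδdef
  have hδ : 0 < δ := lt_min (by positivity) (by norm_num)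
  have hδ1 : δ ≤ 1 / 4 := min_le_right _ _
  have hδr : δ < r := lt_of_le_of_lt (min_le_left _ _) (by linarith)
  have h5 : θ' < FF k lam δ := h4 (by
    rw [Real.dist_eq, sub_zero, abs_of_pos hδ]; exact hδr)
  have hη : 0 < (θ' - θ) / θ := div_pos (by linarith) hθ0
  obtain ⟨N₀, hN₀⟩ := eventually_atTop.1 ((par_eventually k C hδ (by linarith) q).and (li_upper (k + 1) hη))
  refine ⟨N₀, fun N hN c A hAc hA hcard => ?_⟩
  obtain ⟨hP, hli⟩ := hN₀ N hN
  have hL : 0 < Real.log N := by linarith [hP.hL]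
  have h6 := par_bound hP hδ hδ1 hlam0 hq c (A := A) (fun a ha => Nat.le_floor (hA a ha)) hAc hcard
  refine le_trans ?_ h6
  have hS : 0 ≤ ∑ T ∈ A.powersetCard (k + 1), CT T := sum_nonneg fun T _ => CT_nonneg T
  have hX : (0:ℝ) ≤ N / Real.log N ^ (k + 1) := by positivity
  calc θ * (∑ T ∈ A.powersetCard (k + 1), CT T) * (∫ t in (2:ℝ)..N, 1 / Real.log t ^ (k + 1))
      ≤ θ * (∑ T ∈ A.powersetCard (k + 1), CT T) * ((1 + (θ' - θ) / θ) * (N / Real.log N ^ (k + 1))) :=
        mul_le_mul_of_nonneg_left hli (mul_nonneg hθ0.le hS)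
    _ = θ' * (N / Real.log N ^ (k + 1)) * ∑ T ∈ A.powersetCard (k + 1), CT T := by
        field_simp
        ring
    _ ≤ FF k lam δ * (N / Real.log N ^ (k + 1)) * ∑ T ∈ A.powersetCard (k + 1), CT T := by
        gcongr

end Pool.Agent.H387R2.Uni
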