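import Pool.Agent.H387R2.MB11
import Pool.Agent.H387R2.U8

set_option autoImplicit false

open Finset Filter Topology

namespace Pool.Agent.H387R2.MB

open Pool.Agent.H378R2

/-- number of supersets -/
lemma card_supersets (S0 T : Finset ℕ) (m : ℕ) (hT : T ⊆ S0) :
    ((S0.powersetCard m).filter (fun S => T ⊆ S)).card ≤ (S0.card - T.card).choose (m - T.card) := by
  classical
  rw [← card_sdiff_of_subset hT, ← card_powersetCard]
  apply card_le_card_of_injOn (fun S => S \ T)
  · intro S hS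
    rw [mem_coe, mem_filter, mem_powersetCard] at hS
    rw [mem_coe, mem_powersetCard]
    refine ⟨sdiff_subset_sdiff hS.1.1 (subset_refl T), ?_⟩
    rw [card_sdiff_of_subset hS.2, hS.1.2]
  · intro S hS S' hS' h
    rw [mem_coe, mem_filter, mem_powersetCard] at hS hS'
    beta_reduce at h
    rw [← sdiff_union_of_subset hS.2, h, sdiff_union_of_subset hS'.2]

/-- averaging over subsets of size `m` -/
lemma avg_subsets (S0 : Finset ℕ) (m r : ℕ) (P : ℕ → Prop) [DecidablePred P] :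
    ∑ S ∈ S0.powersetCard m, (((S.filter P).card.choose r : ℕ) : ℝ) ≤
      (((S0.filter P).card.choose r : ℕ) : ℝ) * (((S0.card - r).choose (m - r) : ℕ) : ℝ) := by
  classical
  have h1 : ∀ S : Finset ℕ, (((S.filter P).card.choose r : ℕ) : ℝ) =
      ∑ T ∈ S.powersetCard r, (if ∀ a ∈ T, P a then (1:ℝ) else 0) := fun S => (sum_powerset_choose S r P).symm
  rw [sum_congr rfl fun S _ => h1 S, h1 S0]
  have h2 : ∀ S ∈ S0.powersetCard m, ∑ T ∈ S.powersetCard r, (if ∀ a ∈ T, P a then (1:ℝ) else 0) =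
      ∑ T ∈ S0.powersetCard r, (if T ⊆ S then (if ∀ a ∈ T, P a then (1:ℝ) else 0) else 0) := by
    intro S hS
    rw [mem_powersetCard] at hS
    rw [← sum_filter (s := S0.powersetCard r) (p := fun T => T ⊆ S)]
    apply sum_congr _ fun _ _ => rfl
    ext T
    rw [mem_powersetCard, mem_filter, mem_powersetCard]
    constructor
    · rintro ⟨h3, h4⟩
      exact ⟨⟨h3.trans hS.1, h4⟩, h3⟩
    · rintro ⟨⟨_, h4⟩, h5⟩
      exact ⟨h5, h4⟩
  rw [sum_congr rfl h2, sum_comm, sum_mul]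
  apply sum_le_sum
  intro T hT
  rw [mem_powersetCard] at hT
  rw [← sum_filter, sum_const, nsmul_eq_mul, mul_comm]
  apply mul_le_mul_of_nonneg_left
  · have := card_supersets S0 T m hT.1
    rw [hT.2] at this
    exact_mod_cast this
  · split_ifs <;> norm_num

open Classical in
/-- the conclusion for one class -/
theorem class_low {k : ℕ} {N y : ℕ} {c : ℝ} (b m : ℕ) (hkm : k + 1 ≤ m) (S0 : Finset ℕ) (hm : m ≤ S0.card)
    (h : ∀ S ∈ S0.powersetCard m, c ≤ ∑ n ∈ Icc 1 ⌊3 * ((N:ℝ) / 4)⌋₊, nu ((N:ℝ) / 4) (Uni.WW y) b n *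
      (if k + 1 ≤ (S.filter (fun a => (n + a).Prime)).card then 1 else 0)) :
    c * (((S0.card.choose (k + 1) : ℕ) : ℝ) / ((m.choose (k + 1) : ℕ) : ℝ)) ≤
      ∑ n ∈ Icc 1 ⌊3 * ((N:ℝ) / 4)⌋₊, nu ((N:ℝ) / 4) (Uni.WW y) b n *
        (((S0.filter (fun a => (n + a).Prime)).card.choose (k + 1) : ℕ) : ℝ) := by
  set I := Icc 1 ⌊3 * ((N:ℝ) / 4)⌋₊ with hI
  set ν : ℕ → ℝ := fun n => nu ((N:ℝ) / 4) (Uni.WW y) b n with hν
  have hν0 : ∀ n, 0 ≤ ν n := fun n => nu_nonneg _ _ _ _
  have h1 : ((S0.card.choose m : ℕ) : ℝ) * c ≤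
      (((S0.card - (k + 1)).choose (m - (k + 1)) : ℕ) : ℝ) * ∑ n ∈ I, ν n * (((S0.filter (fun a => (n + a).Prime)).card.choose (k + 1) : ℕ) : ℝ) := by
    calc ((S0.card.choose m : ℕ) : ℝ) * c = ∑ _S ∈ S0.powersetCard m, c := by
          rw [sum_const, nsmul_eq_mul, card_powersetCard]
      _ ≤ ∑ S ∈ S0.powersetCard m, ∑ n ∈ I, ν n * (if k + 1 ≤ (S.filter (fun a => (n + a).Prime)).card then 1 else 0) :=
          sum_le_sum h
      _ ≤ ∑ S ∈ S0.powersetCard m, ∑ n ∈ I, ν n * (((S.filter (fun a => (n + a).Prime)).card.choose (k + 1) : ℕ) : ℝ) := by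
          apply sum_le_sum; intro S _
          apply sum_le_sum; intro n _
          apply mul_le_mul_of_nonneg_left _ (hν0 n)
          split_ifs with h2
          · exact_mod_cast Nat.choose_pos h2
          · exact Nat.cast_nonneg _
      _ = ∑ n ∈ I, ν n * ∑ S ∈ S0.powersetCard m, (((S.filter (fun a => (n + a).Prime)).card.choose (k + 1) : ℕ) : ℝ) := by
          rw [sum_comm]
          apply sum_congr rfl
          intro n _
          rw [mul_sum]
      _ ≤ ∑ n ∈ I, ν n * ((((S0.filter (fun a => (n + a).Prime)).card.choose (k + 1) : ℕ) : ℝ) *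
            (((S0.card - (k + 1)).choose (m - (k + 1)) : ℕ) : ℝ)) := by
          apply sum_le_sum; intro n _
          exact mul_le_mul_of_nonneg_left (avg_subsets S0 m (k + 1) (fun a => (n + a).Prime)) (hν0 n)
      _ = _ := by
          rw [mul_sum]
          apply sum_congr rfl
          intro n _
          ring
  have h2 : ((S0.card.choose m : ℕ) : ℝ) * ((m.choose (k + 1) : ℕ) : ℝ) =
      ((S0.card.choose (k + 1) : ℕ) : ℝ) * (((S0.card - (k + 1)).choose (m - (k + 1)) : ℕ) : ℝ) := by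
    exact_mod_cast Nat.choose_mul (n := S0.card) (k := m) (s := k + 1) hkm
  have h3 : (0:ℝ) < ((m.choose (k + 1) : ℕ) : ℝ) := by exact_mod_cast Nat.choose_pos hkm
  have h4 : (0:ℝ) < (((S0.card - (k + 1)).choose (m - (k + 1)) : ℕ) : ℝ) := by
    exact_mod_cast Nat.choose_pos (by omega)
  rw [mul_div_assoc', div_le_iff₀ h3]
  refine le_of_mul_le_mul_left ?_ h4
  set G := ∑ n ∈ I, ν n * (((S0.filter (fun a => (n + a).Prime)).card.choose (k + 1) : ℕ) : ℝ)
  calc (((S0.card - (k + 1)).choose (m - (k + 1)) : ℕ) : ℝ) * (c * ((S0.card.choose (k + 1) : ℕ) : ℝ)) =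
      (((S0.card.choose m : ℕ) : ℝ) * c) * ((m.choose (k + 1) : ℕ) : ℝ) := by
        linear_combination -c * h2
    _ ≤ ((((S0.card - (k + 1)).choose (m - (k + 1)) : ℕ) : ℝ) * G) * ((m.choose (k + 1) : ℕ) : ℝ) :=
        mul_le_mul_of_nonneg_right h1 h3.le
    _ = _ := by ring

/-- the smoothed count of `n` with `n + T` prime -/
noncomputable def ST (N : ℕ) (T : Finset ℕ) : ℝ :=
  ∑ n ∈ Icc 1 ⌊3 * ((N:ℝ) / 4)⌋₊, Phi ((n:ℝ) / ((N:ℝ) / 4)) * (if ∀ t ∈ T, (n + t).Prime then 1 else 0)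

lemma ST_nonneg (N : ℕ) (T : Finset ℕ) : 0 ≤ ST N T :=
  sum_nonneg fun n _ => mul_nonneg (Phi_nonneg _) (by split_ifs <;> norm_num)

/-- the smoothed count is at most the sharp one -/
lemma ST_le_cnt {k N M : ℕ} (T : Finset ℕ) (hk : (k + 1 : ℝ) ≤ (N:ℝ) / 4) (hM : (M:ℝ) ≤ (N:ℝ) / 4) :
    ST N T ≤ Uni.cnt k (N - M) T := by
  classical
  unfold ST Uni.cnt
  rw [card_filter]
  push_cast
  have hMN : M ≤ N := by
    have : (M:ℝ) ≤ N := by
      have : (0:ℝ) ≤ N := Nat.cast_nonneg N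
      linarith
    exact_mod_cast this
  have h1 : ∑ n ∈ Icc 1 ⌊3 * ((N:ℝ) / 4)⌋₊, Phi ((n:ℝ) / ((N:ℝ) / 4)) * (if ∀ t ∈ T, (n + t).Prime then 1 else 0) =
      ∑ n ∈ (Icc 1 ⌊3 * ((N:ℝ) / 4)⌋₊).filter (fun n => n ∈ Ioc (k + 1) (N - M)),
        Phi ((n:ℝ) / ((N:ℝ) / 4)) * (if ∀ t ∈ T, (n + t).Prime then (1:ℝ) else 0) := by
    rw [sum_filter]
    apply sum_congr rfl
    intro n hn
    rw [mem_Icc] at hn
    by_cases h : n ∈ Ioc (k + 1) (N - M)
    · rw [if_pos h]
    · rw [if_neg h]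
      rw [mem_Ioc, not_and_or, not_lt, not_le] at h
      have hX : (0:ℝ) < (N:ℝ) / 4 := by
        have : (0:ℝ) ≤ k := Nat.cast_nonneg k
        linarith
      have hn3 : (n:ℝ) ≤ 3 * ((N:ℝ) / 4) := (Nat.le_floor_iff (by linarith)).1 hn.2
      rcases h with h | h
      · rw [Phi_eq_zero_of_le (by positivity), zero_mul]
        rw [div_le_one hX]
        have : (n:ℝ) ≤ k + 1 := by exact_mod_cast h
        linarith
      · exfalso
        have h2 : ((N - M : ℕ) : ℝ) < n := by exact_mod_cast h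
        rw [Nat.cast_sub hMN] at h2
        linarith
  rw [h1]
  calc _ ≤ ∑ n ∈ (Icc 1 ⌊3 * ((N:ℝ) / 4)⌋₊).filter (fun n => n ∈ Ioc (k + 1) (N - M)),
        (if ∀ t ∈ T, (n + t).Prime then (1:ℝ) else 0) := by
        apply sum_le_sum
        intro n _
        split_ifs
        · rw [mul_one]; exact Phi_le_one _
        · rw [mul_zero]
    _ ≤ _ := by
        apply sum_le_sum_of_subset_of_nonneg
        · intro n hn
          exact (mem_filter.1 hn).2
        · intro n _ _
          split_ifs <;> norm_num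

/-- summation over the classes -/
lemma sum_classes (N y k : ℕ) (A : Finset ℕ) :
    ∑ b ∈ range (Uni.WW y), ∑ n ∈ Icc 1 ⌊3 * ((N:ℝ) / 4)⌋₊, nu ((N:ℝ) / 4) (Uni.WW y) b n *
        ((((Uni.Ab (Uni.WW y) A b).filter (fun a => (n + a).Prime)).card.choose (k + 1) : ℕ) : ℝ) ≤
      ∑ T ∈ A.powersetCard (k + 1), ST N T := by
  classical
  have h1 : ∑ T ∈ A.powersetCard (k + 1), ST N T = ∑ n ∈ Icc 1 ⌊3 * ((N:ℝ) / 4)⌋₊, Phi ((n:ℝ) / ((N:ℝ) / 4)) *
      (((A.filter (fun a => (n + a).Prime)).card.choose (k + 1) : ℕ) : ℝ) := by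
    unfold ST
    rw [sum_comm]
    apply sum_congr rfl
    intro n _
    rw [← mul_sum, sum_powerset_choose A (k + 1) (fun a => (n + a).Prime)]
  rw [h1, sum_comm]
  apply sum_le_sum
  intro n _
  have hW := Uni.WW_pos y
  have h2 : ∑ b ∈ range (Uni.WW y), nu ((N:ℝ) / 4) (Uni.WW y) b n *
        ((((Uni.Ab (Uni.WW y) A b).filter (fun a => (n + a).Prime)).card.choose (k + 1) : ℕ) : ℝ) =
      nu ((N:ℝ) / 4) (Uni.WW y) (n % Uni.WW y) n *
        ((((Uni.Ab (Uni.WW y) A (n % Uni.WW y)).filter (fun a => (n + a).Prime)).card.choose (k + 1) : ℕ) : ℝ) := by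
    apply sum_eq_single
    · intro b hb hne
      unfold nu
      rw [if_neg, zero_mul]
      intro h
      apply hne
      rw [Nat.ModEq, Nat.mod_eq_of_lt (mem_range.1 hb)] at h
      exact h.symm
    · intro h
      exact absurd (mem_range.2 (Nat.mod_lt _ hW)) h
  rw [h2]
  unfold nu
  rw [if_pos (Nat.mod_modEq n _).symm]
  apply mul_le_mul_of_nonneg_left _ (Phi_nonneg _)
  have h3 : ((Uni.Ab (Uni.WW y) A (n % Uni.WW y)).filter (fun a => (n + a).Prime)).card ≤
      (A.filter (fun a => (n + a).Prime)).card := by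
    apply card_le_card
    apply filter_subset_filter
    exact filter_subset _ _
  exact_mod_cast Nat.choose_le_choose _ h3

/-- upper bound for each pattern -/
lemma ST_le {k : ℕ} {δ C1 : ℝ} {N M y : ℕ} (h : Upp (k + 1) δ C1 N M y) (hC1 : 0 ≤ C1) (T : Finset ℕ) (hT : T.card = k + 1)
    (hTM : ∀ a ∈ T, a ≤ M) (hL : 0 ≤ LL ((N:ℝ) / 4)) (hy : (y:ℝ) ≤ (N:ℝ) / 4) (hX : 0 < (N:ℝ) / 4)
    (hδ : Real.exp (δ * LL ((N:ℝ) / 4)) ≤ (N:ℝ) / 4) :
    ST N T ≤ Uni.gT (Uni.WW y) T * (C1 * UU (k + 1) ((N:ℝ) / 4) y) := by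
  classical
  set X := (N:ℝ) / 4 with hXd
  set W := Uni.WW y with hW
  have hWpos : 0 < W := Uni.WW_pos y
  have h1 : ST N T = ∑ b ∈ range W, ∑ n ∈ Icc 1 ⌊3 * X⌋₊, nu X W b n * (if ∀ t ∈ T, (n + t).Prime then 1 else 0) := by
    unfold ST
    rw [sum_comm]
    apply sum_congr rfl
    intro n _
    rw [sum_eq_single (n % W)]
    · unfold nu
      rw [if_pos (Nat.mod_modEq n _).symm]
    · intro b hb hne
      unfold nu
      rw [if_neg, zero_mul]
      intro h
      apply hne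
      rw [Nat.ModEq, Nat.mod_eq_of_lt (mem_range.1 hb)] at h
      exact h.symm
    · intro h
      exact absurd (mem_range.2 (Nat.mod_lt _ hWpos)) h
  have hpt : ∀ b n : ℕ, nu X W b n * (if ∀ t ∈ T, (n + t).Prime then (1:ℝ) else 0) ≤
      if (∀ t ∈ T, Nat.Coprime W (b + t)) then nu X W b n * (if ∀ a ∈ T, Rg δ X (n + a) then (1:ℝ) else 0) else 0 := by
    intro b n
    have hnu := nu_nonneg X W b n
    by_cases hz : nu X W b n = 0
    · rw [hz, zero_mul, zero_mul, ite_self]
    · by_cases hp : ∀ t ∈ T, (n + t).Prime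
      · have hmod : n ≡ b [MOD W] := by
          by_contra hc
          apply hz
          unfold nu
          rw [if_neg hc]
        have hnX : X < n := by
          by_contra hle
          push Not at hle
          apply hz
          unfold nu
          rw [Phi_eq_zero_of_le (by positivity) (by rw [div_le_one hX]; exact hle), ite_self]
        have hc : ∀ t ∈ T, Nat.Coprime W (b + t) := by
          intro t ht
          have h3 : Nat.Coprime W (n + t) := by
            rw [Nat.coprime_comm, Nat.Prime.coprime_iff_not_dvd (hp t ht)]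
            intro hd
            rw [dvd_WW (hp t ht)] at hd
            have : ((n + t : ℕ) : ℝ) ≤ y := by exact_mod_cast hd
            push_cast at this
            have h0 : (0:ℝ) ≤ t := Nat.cast_nonneg t
            linarith
          have h4 : Nat.gcd W (b + t) = Nat.gcd W (n + t) := by
            rw [Nat.gcd_comm W, Nat.gcd_comm W]
            exact (Nat.ModEq.add_right t hmod).symm.gcd_eq
          rw [Nat.Coprime, h4]
          exact h3
        have hr : ∀ a ∈ T, Rg δ X (n + a) := by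
          intro a ha p hp' hd
          rw [mem_PS] at hp'
          have h5 : p = n + a := (Nat.prime_dvd_prime_iff_eq hp'.1 (hp a ha)).1 hd
          have h6 := hp'.2
          rw [h5] at h6
          push_cast at h6
          have h0 : (0:ℝ) ≤ a := Nat.cast_nonneg a
          linarith
        rw [if_pos hp, if_pos hc, if_pos hr]
      · rw [if_neg hp, mul_zero]
        split_ifs
        · rw [mul_one]; exact hnu
        · rw [mul_zero]
        · exact le_rfl
  rw [h1]
  calc _ ≤ ∑ b ∈ range W, ∑ n ∈ Icc 1 ⌊3 * X⌋₊,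
        (if (∀ t ∈ T, Nat.Coprime W (b + t)) then nu X W b n * (if ∀ a ∈ T, Rg δ X (n + a) then (1:ℝ) else 0) else 0) :=
        sum_le_sum fun b _ => sum_le_sum fun n _ => hpt b n
    _ = ∑ b ∈ (range W).filter (fun b => ∀ t ∈ T, Nat.Coprime W (b + t)), ∑ n ∈ Icc 1 ⌊3 * X⌋₊,
        nu X W b n * (if ∀ a ∈ T, Rg δ X (n + a) then (1:ℝ) else 0) := by
        rw [sum_filter]
        apply sum_congr rfl
        intro b _
        split_ifs
        · rfl
        · exact sum_const_zero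
    _ ≤ ∑ _b ∈ (range W).filter (fun b => ∀ t ∈ T, Nat.Coprime W (b + t)), C1 * UU (k + 1) X y := by
        apply sum_le_sum
        intro b _
        exact h b T hT hTM
    _ = _ := by
        rw [sum_const, nsmul_eq_mul]
        rfl

end Pool.Agent.H387R2.MB
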