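import Pool.Agent.H387R2.MB12

set_option autoImplicit false

open Finset Filter Topology

namespace Pool.Agent.H387R2.MB

open Pool.Agent.H378R2

lemma rho_ge {y : ℕ} (hy : 1 ≤ y) : 1 / (y:ℝ) ≤ rho y := by
  rw [rho_eq]
  have h1 : ∀ n : ℕ, 1 ≤ n → ∏ i ∈ Icc 2 n, (1 - 1 / (i:ℝ)) = 1 / n := by
    intro n hn
    induction n, hn using Nat.le_induction with
    | base => simp
    | succ n hn ih =>
      rw [prod_Icc_succ_top (by omega), ih]
      have h1 : (n:ℝ) ≠ 0 := by exact_mod_cast (by omega : n ≠ 0)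
      have h2 : ((n:ℝ) + 1) ≠ 0 := by positivity
      push_cast
      field_simp
      ring
  rw [← h1 y hy]
  have hsub : (y + 1).primesBelow ⊆ Icc 2 y := by
    intro p hp
    rw [Nat.mem_primesBelow] at hp
    rw [mem_Icc]
    exact ⟨hp.2.two_le, by omega⟩
  rw [← prod_sdiff hsub]
  have h2 : ∏ i ∈ Icc 2 y \ (y + 1).primesBelow, (1 - 1 / (i:ℝ)) ≤ 1 := by
    apply prod_le_one
    · intro i hi
      rw [Finset.mem_sdiff, mem_Icc] at hi
      have : (2:ℝ) ≤ i := by exact_mod_cast hi.1.1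
      rw [sub_nonneg, div_le_one (by linarith)]
      linarith
    · intro i _
      have : (0:ℝ) ≤ 1 / (i:ℝ) := by positivity
      linarith
  have h3 : 0 ≤ ∏ p ∈ (y + 1).primesBelow, (1 - 1 / (p:ℝ)) := by
    rw [← rho_eq]; exact (rho_pos y).le
  calc _ ≤ 1 * ∏ p ∈ (y + 1).primesBelow, (1 - 1 / (p:ℝ)) := mul_le_mul_of_nonneg_right h2 h3
    _ = _ := one_mul _

/-- small classes contribute at most half -/
lemma half {I : Finset ℕ} (x : ℕ → ℕ) (k m : ℕ) {μ : ℝ} (hμ : (k:ℝ) ≤ μ) (hsum : μ * I.card ≤ ∑ b ∈ I, (x b : ℝ))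
    (hm : (m:ℝ) ≤ (μ - k) / 2) :
    ∑ b ∈ I, (((x b).choose (k + 1) : ℕ) : ℝ) ≤ 2 * ∑ b ∈ I.filter (fun b => m ≤ x b), (((x b).choose (k + 1) : ℕ) : ℝ) := by
  have hf : (0:ℝ) < (k + 1).factorial := by exact_mod_cast Nat.factorial_pos _
  have h1 : ∑ b ∈ I.filter (fun b => ¬ m ≤ x b), (((x b).choose (k + 1) : ℕ) : ℝ) ≤ I.card * ((m:ℝ) ^ (k + 1) / (k + 1).factorial) := by
    calc _ ≤ ∑ _b ∈ I.filter (fun b => ¬ m ≤ x b), ((m:ℝ) ^ (k + 1) / (k + 1).factorial) := by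
          apply sum_le_sum
          intro b hb
          have h2 := (mem_filter.1 hb).2
          have h3 : (x b).choose (k + 1) ≤ m.choose (k + 1) := Nat.choose_le_choose _ (by omega)
          have h4 := Nat.choose_le_pow_div (α := ℝ) (k + 1) m
          exact (by exact_mod_cast h3 : (((x b).choose (k + 1) : ℕ) : ℝ) ≤ ((m.choose (k + 1) : ℕ) : ℝ)).trans h4
      _ = ((I.filter (fun b => ¬ m ≤ x b)).card : ℝ) * ((m:ℝ) ^ (k + 1) / (k + 1).factorial) := by
          rw [sum_const, nsmul_eq_mul]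
      _ ≤ _ := by
          apply mul_le_mul_of_nonneg_right _ (by positivity)
          exact_mod_cast card_filter_le _ _
  have h2 : (I.card : ℝ) * ((μ - k) ^ (k + 1) / (k + 1).factorial) ≤ ∑ b ∈ I, (((x b).choose (k + 1) : ℕ) : ℝ) := by
    have h3 : ∀ b ∈ I, (max ((x b : ℝ) - k) 0) ^ (k + 1) / (k + 1).factorial ≤ (((x b).choose (k + 1) : ℕ) : ℝ) := by
      intro b _
      have h4 := Nat.pow_le_choose (α := ℝ) (k + 1) (x b)
      have h5 : ((x b + 1 - (k + 1) : ℕ) : ℝ) = max ((x b : ℝ) - k) 0 := by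
        rcases le_or_gt k (x b) with h | h
        · rw [show x b + 1 - (k + 1) = x b - k by omega, Nat.cast_sub h, max_eq_left]
          have : (k:ℝ) ≤ x b := by exact_mod_cast h
          linarith
        · rw [show x b + 1 - (k + 1) = 0 by omega, Nat.cast_zero, max_eq_right]
          have : (x b:ℝ) ≤ k := by exact_mod_cast h.le
          linarith
      rw [h5] at h4
      exact h4
    refine le_trans ?_ (sum_le_sum h3)
    rw [← sum_div, mul_div_assoc']
    apply div_le_div_of_nonneg_right _ hf.le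
    rcases Nat.eq_zero_or_pos I.card with h0 | h0
    · rw [h0, Nat.cast_zero, zero_mul]
      exact sum_nonneg fun b _ => by positivity
    · have hI : (0:ℝ) < I.card := by exact_mod_cast h0
      have h4 := pow_sum_div_card_le_sum_pow (s := I) (f := fun b => max ((x b : ℝ) - k) 0)
        (fun b _ => le_max_right _ _) k
      refine le_trans ?_ h4
      have h5 : (μ - k) * I.card ≤ ∑ b ∈ I, max ((x b : ℝ) - k) 0 := by
        calc (μ - k) * I.card = μ * I.card - ∑ _b ∈ I, (k:ℝ) := by rw [sum_const, nsmul_eq_mul]; ring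
          _ ≤ ∑ b ∈ I, (x b : ℝ) - ∑ _b ∈ I, (k:ℝ) := by linarith
          _ = ∑ b ∈ I, ((x b : ℝ) - k) := by rw [sum_sub_distrib]
          _ ≤ _ := sum_le_sum fun b _ => le_max_left _ _
      rw [le_div_iff₀ (by positivity)]
      calc (I.card : ℝ) * (μ - k) ^ (k + 1) * (I.card : ℝ) ^ k = ((μ - k) * I.card) ^ (k + 1) := by
            rw [mul_pow, pow_succ (I.card : ℝ)]; ring
        _ ≤ _ := pow_le_pow_left₀ (mul_nonneg (by linarith) hI.le) h5 _
  have h3 : (I.card : ℝ) * ((m:ℝ) ^ (k + 1) / (k + 1).factorial) ≤ (I.card : ℝ) * ((μ - k) ^ (k + 1) / (k + 1).factorial) / 2 := by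
    have h4 : (m:ℝ) ^ (k + 1) ≤ ((μ - k) / 2) ^ (k + 1) := pow_le_pow_left₀ (Nat.cast_nonneg _) hm _
    have h5 : ((μ - k) / 2) ^ (k + 1) ≤ (μ - k) ^ (k + 1) / 2 := by
      rw [div_pow]
      apply div_le_div_of_nonneg_left (pow_nonneg (by linarith) _) (by norm_num)
      calc (2:ℝ) = 2 ^ 1 := by norm_num
        _ ≤ 2 ^ (k + 1) := pow_le_pow_right₀ (by norm_num) (by omega)
    have h6 := h4.trans h5
    calc (I.card : ℝ) * ((m:ℝ) ^ (k + 1) / (k + 1).factorial) ≤ I.card * (((μ - k) ^ (k + 1) / 2) / (k + 1).factorial) := by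
          gcongr
      _ = _ := by ring
  have h4 := sum_filter_add_sum_filter_not I (fun b => m ≤ x b) (fun b => (((x b).choose (k + 1) : ℕ) : ℝ))
  linarith

/-- **main lower bound** -/
theorem main_low (k : ℕ) {lam : ℝ} (hlam : 0 < lam) : ∃ c : ℝ, 0 < c ∧ ∀ (q : ℕ) (_ : 1 ≤ q) (C : ℝ), ∀ᶠ N : ℕ in atTop,
    ∀ (r : ℕ) (A : Finset ℕ), (∀ a ∈ A, a ≡ r [MOD q]) → (∀ a ∈ A, a ≤ ⌊Real.log N ^ C⌋₊) →
      lam * ((Nat.totient q : ℝ) / q) * Real.log N ≤ A.card →
      c * UU (k + 1) ((N:ℝ) / 4) ⌊Real.log (Real.log N)⌋₊ *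
        ∑ T ∈ A.powersetCard (k + 1), (Uni.gT (Uni.WW ⌊Real.log (Real.log N)⌋₊) T : ℝ) ≤
        ∑ T ∈ A.powersetCard (k + 1), ST N T := by
  classical
  obtain ⟨K, hK, δ, hδ, c0, hc0, hlow⟩ := low_eventually k
  obtain ⟨C0, hC0, hupp0⟩ := upp_eventually 0 hδ
  obtain ⟨C2, hC2, hupp2⟩ := upp_eventually (2 * K) hδ
  set η : ℝ := lam / 8 with hη
  have hη0 : 0 < η := by positivity
  set c2 : ℝ := ((c0 * (100 * η) ^ K / K.factorial) ^ 2 /
      (((4 * K : ℝ) ^ (2 * K) + 2 ^ (2 * K) * (2 * K).factorial) * (C0 + C2 * (800 * η) ^ (2 * K)))) with hc2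
  have hc20 : 0 < c2 := by rw [hc2]; positivity
  refine ⟨c2 / (800 * η) ^ (k + 1) / 2, by positivity, fun q hq C => ?_⟩
  have tN : Tendsto (fun N : ℕ => (N : ℝ)) atTop atTop := tendsto_natCast_atTop_atTop
  have tL : Tendsto (fun N : ℕ => Real.log (N : ℝ)) atTop atTop := Real.tendsto_log_atTop.comp tN
  have tu : Tendsto (fun N : ℕ => Real.log (Real.log (N : ℝ))) atTop atTop := Real.tendsto_log_atTop.comp tL
  have ty : Tendsto (fun N : ℕ => ⌊Real.log (Real.log (N : ℝ))⌋₊) atTop atTop :=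
    tendsto_nat_floor_atTop.comp tu
  have tX : Tendsto (fun N : ℕ => (N : ℝ) / 4) atTop atTop := tN.atTop_div_const (by norm_num)
  have e1 := tu.eventually (ev_pow_exp 1 1 ((2 * K + k + 1 : ℝ) / η) (by norm_num))
  filter_upwards [hlow C, hupp0 C, hupp2 C, Uni.par_eventually k C (by norm_num : (0:ℝ) < 1 / 2) (by norm_num) q,
    (LL_tendsto.comp tX).eventually_ge_atTop 1, tX.eventually_ge_atTop 4, ty.eventually_ge_atTop 1,
    e1, tu.eventually_ge_atTop 1] with N h1 h2 h3 hP h4 h5 h6 h7 h8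
  intro r A hAr hAM hcard
  set X := (N:ℝ) / 4 with hX
  set y := ⌊Real.log (Real.log (N:ℝ))⌋₊ with hy
  set W := Uni.WW y with hW
  have hL1 : 1 ≤ LL X := h4
  have hL0 : 0 < LL X := by linarith
  have hρ := rho_pos y
  have hlogN : 0 < Real.log N := by linarith [hP.hL]
  have hWpos : 0 < W := Uni.WW_pos y
  have hW0 : (0:ℝ) < W := by exact_mod_cast hWpos
  -- `r0 = η ρ log N` is large
  set r0 : ℝ := η * rho y * Real.log N with hr0
  have hr0K : (2 * K + k + 1 : ℝ) ≤ r0 := by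
    set u := Real.log (Real.log (N:ℝ)) with hu
    have hu0 : 0 < u := by linarith
    have hyu : (y:ℝ) ≤ u := Nat.floor_le hu0.le
    have hy0 : (0:ℝ) < y := by exact_mod_cast h6
    have k1 : 1 / u ≤ rho y := le_trans (one_div_le_one_div_of_le hy0 hyu) (rho_ge h6)
    have k2 : Real.log N = Real.exp u := by rw [hu, Real.exp_log hlogN]
    rw [pow_one, one_mul] at h7
    have k3 : (2 * K + k + 1 : ℝ) ≤ η * (1 / u) * Real.exp u := by
      have : (2 * K + k + 1 : ℝ) / η * u * (η / u) ≤ Real.exp u * (η / u) :=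
        mul_le_mul_of_nonneg_right h7 (by positivity)
      have e : (2 * K + k + 1 : ℝ) / η * u * (η / u) = (2 * K + k + 1 : ℝ) := by field_simp
      rw [e] at this
      calc _ ≤ _ := this
        _ = _ := by ring
    rw [hr0, k2]
    refine k3.trans ?_
    gcongr
  have hK0 : (0:ℝ) ≤ K := Nat.cast_nonneg K
  have hk0 : (0:ℝ) ≤ k := Nat.cast_nonneg k
  have hr01 : 1 ≤ r0 := by linarith
  set m : ℕ := ⌈r0⌉₊ with hm
  have hm1 : r0 ≤ m := Nat.le_ceil r0
  have hm2 : (m:ℝ) ≤ 2 * r0 := by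
    have := Nat.ceil_lt_add_one (by linarith : 0 ≤ r0)
    linarith
  have hm3 : 2 * K ≤ m := by
    have : (2 * K : ℝ) ≤ m := by linarith
    exact_mod_cast this
  have hm4 : k + 1 ≤ m := by
    have : (k + 1 : ℝ) ≤ m := by linarith
    exact_mod_cast this
  -- one class
  set U0 := UU 0 X y with hU0
  have hU00 : 0 ≤ U0 := UU_nonneg 0 hL0.le y
  have hUk : UU (k + 1) X y = U0 * (1 / (LL X * rho y) ^ (k + 1)) := by
    rw [hU0]; unfold UU
    rw [pow_zero]
    ring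
  have hlogN2 : Real.log N ≤ 400 * LL X := by
    have := log4X h5
    rw [hX] at this
    rw [show 4 * ((N:ℝ) / 4) = N by ring] at this
    exact this
  have hcls : ∀ b : ℕ, m ≤ (Uni.Ab W A b).card →
      c2 / (800 * η) ^ (k + 1) * UU (k + 1) X y * (((Uni.Ab W A b).card.choose (k + 1) : ℕ) : ℝ) ≤
      ∑ n ∈ Icc 1 ⌊3 * X⌋₊, nu X W b n * ((((Uni.Ab W A b).filter (fun a => (n + a).Prime)).card.choose (k + 1) : ℕ) : ℝ) := by
    intro b hb
    have hAb : ∀ a ∈ Uni.Ab W A b, a ≤ ⌊Real.log N ^ C⌋₊ ∧ Nat.Coprime W (b + a) := by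
      intro a ha
      unfold Uni.Ab at ha
      rw [mem_filter] at ha
      exact ⟨hAM a ha.1, ha.2⟩
    have k1 := class_low (N := N) (y := y) (c := c2 * U0) b m hm4 (Uni.Ab W A b) hb (by
      intro S hS
      rw [mem_powersetCard] at hS
      have k2 := second_moment hK hc0 hC0 hC2 h1 h2 h3 hL1 hη0 h5 b S
        (fun a ha => (hAb a (hS.1 ha)).1) (fun a ha => (hAb a (hS.1 ha)).2)
        (by rw [hS.2]; exact hm1) (by rw [hS.2]; exact hm2) (by rw [hS.2]; exact hm3)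
      exact k2)
    refine le_trans ?_ k1
    have hmc : (0:ℝ) < ((m.choose (k + 1) : ℕ) : ℝ) := by exact_mod_cast Nat.choose_pos hm4
    have k3 : ((m.choose (k + 1) : ℕ) : ℝ) ≤ (800 * η * (LL X * rho y)) ^ (k + 1) := by
      have k4 : ((m.choose (k + 1) : ℕ) : ℝ) ≤ (m:ℝ) ^ (k + 1) := by exact_mod_cast Nat.choose_le_pow m (k + 1)
      refine k4.trans (pow_le_pow_left₀ (Nat.cast_nonneg _) ?_ _)
      refine hm2.trans ?_
      rw [hr0]
      have := mul_le_mul_of_nonneg_left hlogN2 (by positivity : 0 ≤ η * rho y)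
      linarith
    rw [hUk]
    have k5 : c2 / (800 * η) ^ (k + 1) * (U0 * (1 / (LL X * rho y) ^ (k + 1))) * (((Uni.Ab W A b).card.choose (k + 1) : ℕ) : ℝ) =
        c2 * U0 * ((((Uni.Ab W A b).card.choose (k + 1) : ℕ) : ℝ) / (800 * η * (LL X * rho y)) ^ (k + 1)) := by
      rw [mul_pow (800 * η)]
      field_simp
    rw [k5]
    apply mul_le_mul_of_nonneg_left _ (by positivity)
    exact div_le_div_of_nonneg_left (Nat.cast_nonneg _) hmc k3
  -- sum over the classes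
  have hsumc := sum_classes N y k A
  set cc := c2 / (800 * η) ^ (k + 1) * UU (k + 1) X y with hcc
  have hcc0 : 0 ≤ cc := mul_nonneg (by positivity) (UU_nonneg _ hL0.le y)
  have hz : ∀ b ∈ range W, b ∉ Uni.gd W q r → Uni.Ab W A b = ∅ := by
    intro b hb hb'
    apply Uni.Ab_empty hW hP.hqy hq hAr
    intro h
    exact hb' (mem_filter.2 ⟨hb, h⟩)
  have hgd : Uni.gd W q r ⊆ range W := filter_subset _ _
  have s1 : cc * ∑ b ∈ (Uni.gd W q r).filter (fun b => m ≤ (Uni.Ab W A b).card), (((Uni.Ab W A b).card.choose (k + 1) : ℕ) : ℝ) ≤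
      ∑ T ∈ A.powersetCard (k + 1), ST N T := by
    refine le_trans ?_ hsumc
    rw [mul_sum]
    calc _ ≤ ∑ b ∈ (Uni.gd W q r).filter (fun b => m ≤ (Uni.Ab W A b).card), ∑ n ∈ Icc 1 ⌊3 * X⌋₊, nu X W b n *
          ((((Uni.Ab W A b).filter (fun a => (n + a).Prime)).card.choose (k + 1) : ℕ) : ℝ) := by
          apply sum_le_sum
          intro b hb
          exact hcls b (mem_filter.1 hb).2
      _ ≤ _ := by
          apply sum_le_sum_of_subset_of_nonneg ((filter_subset _ _).trans hgd)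
          intro b _ _
          exact sum_nonneg fun n _ => mul_nonneg (nu_nonneg _ _ _ _) (Nat.cast_nonneg _)
  -- mean over the good classes
  have hq0 : (0:ℝ) < q := by exact_mod_cast hq
  have hφq : (0:ℝ) < Nat.totient q := by exact_mod_cast Nat.totient_pos.2 hq
  have s2 : (16 / 3 * r0) * ((Uni.gd W q r).card : ℝ) ≤ ∑ b ∈ Uni.gd W q r, ((Uni.Ab W A b).card : ℝ) := by
    have g1 : ∑ b ∈ Uni.gd W q r, ((Uni.Ab W A b).card : ℝ) = ∑ b ∈ range W, ((Uni.Ab W A b).card : ℝ) :=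
      sum_subset hgd fun b hb hb' => by rw [hz b hb hb']; simp
    have g2 : ∑ b ∈ range W, ((Uni.Ab W A b).card : ℝ) = A.card * Nat.totient W := by
      exact_mod_cast Uni.sum_card_Ab W A
    have g3 : (Nat.totient W : ℝ) = rho y * W := by
      unfold rho
      rw [← hW]
      field_simp
    have g4 : ((Uni.gd W q r).card : ℝ) ≤ (3 / 2) * (Nat.totient q / q * W) := by
      have h7 : ((Uni.gd W q r).card : ℝ) ≤ Nat.totient q * ((W / q : ℕ) + 1) := by exact_mod_cast Uni.card_gd W q r hq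
      have h8 : ((W / q : ℕ) : ℝ) ≤ W / q := Nat.cast_div_le
      have h9 : (1:ℝ) ≤ (1 / 2) * (W / q) := by
        rw [mul_div_assoc', le_div_iff₀ hq0, one_mul]; exact hP.hW4
      calc ((Uni.gd W q r).card : ℝ) ≤ Nat.totient q * ((W / q : ℕ) + 1) := h7
        _ ≤ Nat.totient q * (W / q + (1 / 2) * (W / q)) := by gcongr
        _ = _ := by field_simp; ring
    rw [g1, g2, g3]
    calc (16 / 3 * r0) * ((Uni.gd W q r).card : ℝ) ≤ (16 / 3 * r0) * ((3 / 2) * (Nat.totient q / q * W)) :=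
          mul_le_mul_of_nonneg_left g4 (by positivity)
      _ = (lam * ((Nat.totient q : ℝ) / q) * Real.log N) * (rho y * W) := by rw [hr0, hη]; ring
      _ ≤ A.card * (rho y * W) := mul_le_mul_of_nonneg_right hcard (by positivity)
  have s3 := half (I := Uni.gd W q r) (fun b => (Uni.Ab W A b).card) k m (μ := 16 / 3 * r0)
    (by linarith) s2 (by linarith)
  have s4 : ∑ T ∈ A.powersetCard (k + 1), (Uni.gT W T : ℝ) = ∑ b ∈ Uni.gd W q r, (((Uni.Ab W A b).card.choose (k + 1) : ℕ) : ℝ) := by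
    have g1 : ∑ b ∈ Uni.gd W q r, (((Uni.Ab W A b).card.choose (k + 1) : ℕ) : ℝ) =
        ∑ b ∈ range W, (((Uni.Ab W A b).card.choose (k + 1) : ℕ) : ℝ) :=
      sum_subset hgd fun b hb hb' => by rw [hz b hb hb']; simp
    rw [g1]
    have g2 := Uni.sum_choose (range W) A (k + 1) (fun b a => Nat.Coprime W (b + a))
    unfold Uni.gT Uni.Ab
    exact_mod_cast g2.symm
  rw [s4]
  have s5 := mul_le_mul_of_nonneg_left s3 hcc0
  calc c2 / (800 * η) ^ (k + 1) / 2 * UU (k + 1) X y * ∑ b ∈ Uni.gd W q r, (((Uni.Ab W A b).card.choose (k + 1) : ℕ) : ℝ) =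
        (cc * ∑ b ∈ Uni.gd W q r, (((Uni.Ab W A b).card.choose (k + 1) : ℕ) : ℝ)) / 2 := by rw [hcc]; ring
    _ ≤ (cc * (2 * ∑ b ∈ (Uni.gd W q r).filter (fun b => m ≤ (Uni.Ab W A b).card),
        (((Uni.Ab W A b).card.choose (k + 1) : ℕ) : ℝ))) / 2 := by linarith
    _ = cc * ∑ b ∈ (Uni.gd W q r).filter (fun b => m ≤ (Uni.Ab W A b).card), (((Uni.Ab W A b).card.choose (k + 1) : ℕ) : ℝ) := by
        ring
    _ ≤ _ := s1

end Pool.Agent.H387R2.MB
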