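import Pool.Agent.H378R2.M7n
import Pool.Agent.H378R2.M5
import Pool.Agent.H387R2.MB1

set_option autoImplicit false

open Finset Filter Topology
open scoped ContDiff

namespace Pool.Agent.H387R2.MB

open Pool.Agent.H378R2

/-- good excluded set of primes -/
structure GE (X : ℝ) (z : ℕ) (E : Finset ℕ) : Prop where
  pr : ∀ p ∈ E, p.Prime
  sm : ∀ p : ℕ, p.Prime → p ≤ z → p ∈ E
  s1 : ∑ p ∈ E, Real.log p / p ≤ (LL X) ^ (1 / 4 : ℝ)
  s2 : ∑ p ∈ E, (1 : ℝ) / p ≤ Real.log (LL X) / 32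

lemma GE.mono {X : ℝ} {z z' : ℕ} {E : Finset ℕ} (h : GE X z E) (hz : z' ≤ z) : GE X z' E :=
  ⟨h.pr, fun p hp hpz => h.sm p hp (hpz.trans hz), h.s1, h.s2⟩

lemma supp_aux {X x : ℝ} (h2 : 2 ≤ LL X) (hx : Real.log (RR X) / LL X < x) : 1 / 2 < x := by
  refine lt_of_le_of_lt ?_ hx
  rw [le_div_iff₀ (by linarith)]
  have := RR_ge (LL X) h2
  unfold RR
  linarith

theorem asympE (J : ℕ) (F G : Fin J → ℝ → ℝ)
    (hF : ∀ j, ContDiff ℝ ∞ (F j)) (hG : ∀ j, ContDiff ℝ ∞ (G j))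
    (hFc : ∀ j, HasCompactSupport (F j)) (hGc : ∀ j, HasCompactSupport (G j))
    (hF0 : ∀ j x, 1 / 2 < x → F j x = 0) (hG0 : ∀ j x, 1 / 2 < x → G j x = 0)
    (ε : ℝ) (hε : 0 < ε) :
    ∃ z : ℕ, ∀ᶠ X : ℝ in atTop, ∀ (E : Fin J → Finset ℕ) (w : ℕ → Fin J → ℝ),
      (∀ j, GE X z (E j)) →
      (∀ j, ∀ p : ℕ, p.Prime → |w p j - 1 / p| ≤ 2 / (p : ℝ) ^ 2) →
      |(∏ j, (LL X * BE (E j))) * sieveSum J F G (LL X) E w (RR X) - ∏ j, DD (F j) (G j)| ≤ ε := by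
  obtain ⟨δ, hδ, h⟩ := sieve_asymp J F G hF hG hFc hGc ε hε
  refine ⟨⌈1 / δ⌉₊, ?_⟩
  have e1 := LL_tendsto.eventually_ge_atTop (1 / δ)
  have e2 := LL_tendsto.eventually_ge_atTop 2
  filter_upwards [e1, e2] with X h1 h2
  intro E w hE hw
  apply h (LL X) E w (RR X) h1
  · intro j x hx
    have h6 := supp_aux h2 hx
    exact ⟨hF0 j x h6, hG0 j x h6⟩
  · intro j p hp
    exact (hE j).pr p hp
  · intro j p hp hpl
    apply (hE j).sm p hp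
    exact_mod_cast hpl.trans (Nat.le_ceil (1 / δ))
  · intro j; exact (hE j).s1
  · intro j; exact (hE j).s2
  · intro j p hp _
    exact hw j p hp

/-- conditions on the modulus -/
structure CW (X : ℝ) (z W : ℕ) (E : Finset ℕ) : Prop where
  ge : GE X z E
  pos : 0 < W
  le : (W : ℝ) ≤ Real.exp (Real.log X / 700)
  dv : ∀ p : ℕ, p.Prime → p ∉ E → ¬ p ∣ W

/-- primes outside `E` do not divide differences -/
def DT (E : Finset ℕ) {K : ℕ} (t : Fin K → ℕ) : Prop :=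
  ∀ i j, i ≠ j → ∀ p : ℕ, p.Prime → p ∉ E → ¬ (p : ℤ) ∣ (t i : ℤ) - t j

lemma size_aux' {X : ℝ} (hX : 1 ≤ X) {W : ℕ} (hW : (W : ℝ) ≤ Real.exp (Real.log X / 700)) {v : ℝ} (hv : v ≤ 4) :
    (W : ℝ) * Real.exp (LL X * v) ≤ X := by
  have hl : 0 ≤ Real.log X := Real.log_nonneg hX
  have h2 : Real.exp (LL X * v) ≤ Real.exp (Real.log X / 50) := by
    apply Real.exp_le_exp.2
    unfold LL
    nlinarith
  calc (W : ℝ) * Real.exp (LL X * v) ≤ Real.exp (Real.log X / 700) * Real.exp (Real.log X / 50) := by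
        gcongr
    _ = Real.exp (Real.log X / 700 + Real.log X / 50) := by rw [Real.exp_add]
    _ ≤ Real.exp (Real.log X) := by
        apply Real.exp_le_exp.2
        linarith
    _ = X := Real.exp_log (by linarith)

lemma MPhi_nonneg (X : ℝ) : 0 ≤ MPhi X := Finset.sum_nonneg fun n _ => Phi_nonneg _

/-- product form of the first sum, functions `F`, `G` -/
theorem S1prod {K : ℕ} (F G : Fin K → ℝ → ℝ) (cF cG : Fin K → ℝ) (Cf : ℝ) (hCf : 0 ≤ Cf)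
    (hF : ∀ j x, |F j x| ≤ Cf) (hG : ∀ j x, |G j x| ≤ Cf)
    (hF0 : ∀ j x, cF j < x → F j x = 0) (hG0 : ∀ j x, cG j < x → G j x = 0)
    (hs : ∑ j, cF j + ∑ j, cG j ≤ 2) {X : ℝ} (hX : 4 ≤ X) (hL : 1 ≤ LL X)
    {z W : ℕ} {E : Finset ℕ} (hC : CW X z W E) (a0 : ℕ) {t : Fin K → ℕ} (ht : DT E t) :
    |∑ n ∈ Icc 1 ⌊3 * X⌋₊, nu X W a0 n *
        ∏ j, (VVm E (RR X) (LL X) (F j) ((n : ℤ) + t j) * VVm E (RR X) (LL X) (G j) ((n : ℤ) + t j)) -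
      (MPhi X * (1 / W)) * sieveSum K F G (LL X) (fun _ => E) (fun p _ => 1 / (p : ℝ)) (RR X)| ≤
    5 * Cf ^ (2 * K) * Real.exp (2 * LL X) := by
  have k1 := sum1 X hX W a0 hC.pos F G (LL X) Cf (by linarith) hCf cF cG hF hG hF0 hG0
    (fun _ => E) (RR X) (fun _ => 1)
    (fun j => (t j : ℤ)) (fun _ p hp h => hC.dv p hp h)
    (fun _ p hp _ h => hp.one_lt.ne' (Nat.dvd_one.1 h))
    (by
      intro i j hij p hp hpE _ n hh
      apply ht i j hij p hp hpE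
      have := dvd_sub hh.1 hh.2
      have h7 : ((1 : ℕ) : ℤ) * n + t i - (((1 : ℕ) : ℤ) * n + t j) = t i - t j := by ring
      rwa [h7] at this)
    (size_aux' (by linarith) hC.le (by linarith))
  have k9 : ∑ n ∈ Icc 1 ⌊3 * X⌋₊, nu X W a0 n *
      ∏ j, (VVm E (RR X) (LL X) (F j) ((n : ℤ) + t j) * VVm E (RR X) (LL X) (G j) ((n : ℤ) + t j)) =
      ∑ n ∈ Icc 1 ⌊3 * X⌋₊, (if n ≡ a0 [MOD W] then Phi (n / X) else 0) *
        ∏ j, (VVm E (RR X) (LL X) (F j) (((1 : ℕ) : ℤ) * n + t j) *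
          VVm E (RR X) (LL X) (G j) (((1 : ℕ) : ℤ) * n + t j)) := by
    refine Finset.sum_congr rfl fun n _ => ?_
    unfold nu
    simp only [Nat.cast_one, one_mul]
  rw [k9]
  refine k1.trans ?_
  apply mul_le_mul_of_nonneg_left _ (by positivity)
  apply Real.exp_le_exp.2
  nlinarith

/-- upper bound of the first sum -/
theorem S1up {K B : ℕ} (f : Fin B → ℝ → ℝ) (c : Fin B → ℝ) (A : Finset (Fin K → Fin B))
    (hsm : ∀ l, ContDiff ℝ ∞ (f l)) (hcs : ∀ l, HasCompactSupport (f l)) (hf0 : ∀ l x, c l < x → f l x = 0)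
    (hc : ∀ l, 0 ≤ c l ∧ c l ≤ 1 / 2) (hA : ∀ a ∈ A, ∑ j, c (a j) ≤ 1) (hf1 : ∀ l x, |f l x| ≤ 1)
    (ε1 : ℝ) (hε1 : 0 < ε1) :
    ∃ z : ℕ, ∀ᶠ X : ℝ in atTop, ∀ (W : ℕ) (E : Finset ℕ) (a0 : ℕ) (t : Fin K → ℕ), CW X z W E → DT E t →
      ∑ n ∈ Icc 1 ⌊3 * X⌋₊, nu X W a0 n * sqw E X f A (fun j => (n : ℤ) + t j) ^ 2 ≤
        (MPhi X * (1 / (W : ℝ))) * (1 / (LL X * BE E) ^ K) * (II f A + ε1) +
          (A.card : ℝ) ^ 2 * (5 * Real.exp (2 * LL X)) := by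
  classical
  have hz : ∀ ab : (Fin K → Fin B) × (Fin K → Fin B), ∃ z : ℕ, ∀ᶠ X : ℝ in atTop,
      ∀ (E : Fin K → Finset ℕ) (w : ℕ → Fin K → ℝ),
      (∀ j, GE X z (E j)) →
      (∀ j, ∀ p : ℕ, p.Prime → |w p j - 1 / p| ≤ 2 / (p : ℝ) ^ 2) →
      |(∏ j, (LL X * BE (E j))) * sieveSum K (fun j => f (ab.1 j)) (fun j => f (ab.2 j)) (LL X) E w (RR X) -
        ∏ j, DD (f (ab.1 j)) (f (ab.2 j))| ≤ ε1 / ((A.card : ℝ) ^ 2 + 1) := by
    intro ab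
    exact asympE K (fun j => f (ab.1 j)) (fun j => f (ab.2 j)) (fun j => hsm _) (fun j => hsm _)
      (fun j => hcs _) (fun j => hcs _) (fun j x hx => hf0 _ x ((hc _).2.trans_lt hx))
      (fun j x hx => hf0 _ x ((hc _).2.trans_lt hx)) _ (by positivity)
  choose z hz using hz
  refine ⟨(A ×ˢ A).sup z, ?_⟩
  have hev : ∀ᶠ X : ℝ in atTop, ∀ ab ∈ A ×ˢ A, ∀ (E : Fin K → Finset ℕ) (w : ℕ → Fin K → ℝ),
      (∀ j, GE X (z ab) (E j)) →
      (∀ j, ∀ p : ℕ, p.Prime → |w p j - 1 / p| ≤ 2 / (p : ℝ) ^ 2) →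
      |(∏ j, (LL X * BE (E j))) * sieveSum K (fun j => f (ab.1 j)) (fun j => f (ab.2 j)) (LL X) E w (RR X) -
        ∏ j, DD (f (ab.1 j)) (f (ab.2 j))| ≤ ε1 / ((A.card : ℝ) ^ 2 + 1) := by
    rw [Filter.eventually_all_finset]
    intro ab _
    exact hz ab
  filter_upwards [hev, eventually_ge_atTop 4, LL_tendsto.eventually_ge_atTop 1] with X h1 h4 h6
  intro W E a0 t hC ht
  have hWpos : 0 < W := hC.pos
  have hWr : (0 : ℝ) < W := by exact_mod_cast hWpos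
  have hBE : 0 < BE E := BE_pos hC.ge.pr
  have hLB : 0 < LL X * BE E := by positivity
  have hMnn : 0 ≤ MPhi X := MPhi_nonneg X
  have hone : ∀ a ∈ A, ∀ b ∈ A, ∑ n ∈ Icc 1 ⌊3 * X⌋₊, nu X W a0 n *
      ∏ j, (VVm E (RR X) (LL X) (f (a j)) ((n : ℤ) + t j) * VVm E (RR X) (LL X) (f (b j)) ((n : ℤ) + t j)) ≤
      (MPhi X * (1 / (W : ℝ))) * (1 / (LL X * BE E) ^ K) *
        (∏ j, DD (f (a j)) (f (b j)) + ε1 / ((A.card : ℝ) ^ 2 + 1)) + 5 * Real.exp (2 * LL X) := by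
    intro a ha b hb
    have hsum : ∑ j, c (a j) + ∑ j, c (b j) ≤ 2 := by
      have := hA a ha
      have := hA b hb
      linarith
    have k1 := S1prod (fun j => f (a j)) (fun j => f (b j)) (fun j => c (a j)) (fun j => c (b j)) 1 zero_le_one
      (fun j x => hf1 _ x) (fun j x => hf1 _ x)
      (fun j x hx => hf0 _ x hx) (fun j x hx => hf0 _ x hx) hsum h4 h6 hC a0 ht
    rw [one_pow, mul_one] at k1
    have hab : (a, b) ∈ A ×ˢ A := Finset.mem_product.2 ⟨ha, hb⟩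
    have k2 := h1 (a, b) hab (fun _ => E) (fun p _ => 1 / (p : ℝ))
      (fun _ => hC.ge.mono (Finset.le_sup (f := z) hab)) (fun _ p _ => w_one p)
    have k3 : ∏ j : Fin K, (LL X * BE E) = (LL X * BE E) ^ K := by
      rw [Finset.prod_const, Finset.card_univ, Fintype.card_fin]
    rw [k3] at k2
    have k4 := (abs_le.1 k1).2
    have k5 := (abs_le.1 k2).2
    simp only at k5
    set SS := sieveSum K (fun j => f (a j)) (fun j => f (b j)) (LL X) (fun _ => E) (fun p _ => 1 / (p : ℝ)) (RR X)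
    have k6 : SS ≤ (1 / (LL X * BE E) ^ K) * (∏ j, DD (f (a j)) (f (b j)) + ε1 / ((A.card : ℝ) ^ 2 + 1)) := by
      rw [one_div, ← div_eq_inv_mul, le_div_iff₀ (by positivity)]
      linarith
    have k7 : MPhi X * (1 / (W : ℝ)) * SS ≤ (MPhi X * (1 / (W : ℝ))) * ((1 / (LL X * BE E) ^ K) *
        (∏ j, DD (f (a j)) (f (b j)) + ε1 / ((A.card : ℝ) ^ 2 + 1))) :=
      mul_le_mul_of_nonneg_left k6 (by positivity)
    linarith
  simp_rw [sqw_sq, Finset.mul_sum]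
  rw [Finset.sum_comm]
  have hswap : ∀ a ∈ A, ∑ n ∈ Icc 1 ⌊3 * X⌋₊, ∑ b ∈ A, nu X W a0 n *
      ∏ j, (VVm E (RR X) (LL X) (f (a j)) ((n : ℤ) + t j) * VVm E (RR X) (LL X) (f (b j)) ((n : ℤ) + t j)) ≤
      ∑ b ∈ A, ((MPhi X * (1 / (W : ℝ))) * (1 / (LL X * BE E) ^ K) *
        (∏ j, DD (f (a j)) (f (b j)) + ε1 / ((A.card : ℝ) ^ 2 + 1)) + 5 * Real.exp (2 * LL X)) := by
    intro a ha
    rw [Finset.sum_comm]
    exact Finset.sum_le_sum fun b hb => hone a ha b hb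
  refine (Finset.sum_le_sum hswap).trans ?_
  simp_rw [Finset.sum_add_distrib, ← Finset.mul_sum, Finset.sum_add_distrib, Finset.sum_const, nsmul_eq_mul]
  have hfin : ((A.card : ℝ) * ((A.card : ℝ) * (ε1 / ((A.card : ℝ) ^ 2 + 1)))) ≤ ε1 := by
    have : (A.card : ℝ) * ((A.card : ℝ) * (ε1 / ((A.card : ℝ) ^ 2 + 1))) =
        ((A.card : ℝ) ^ 2 / ((A.card : ℝ) ^ 2 + 1)) * ε1 := by ring
    rw [this]
    have h7 : (A.card : ℝ) ^ 2 / ((A.card : ℝ) ^ 2 + 1) ≤ 1 := by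
      rw [div_le_one (by positivity)]; linarith
    nlinarith
  have hcoef : 0 ≤ (MPhi X * (1 / (W : ℝ))) * (1 / (LL X * BE E) ^ K) := by positivity
  have : (MPhi X * (1 / (W : ℝ))) * (1 / (LL X * BE E) ^ K) *
      (∑ a ∈ A, ∑ b ∈ A, ∏ j, DD (f (a j)) (f (b j)) +
        (A.card : ℝ) * ((A.card : ℝ) * (ε1 / ((A.card : ℝ) ^ 2 + 1)))) ≤
      (MPhi X * (1 / (W : ℝ))) * (1 / (LL X * BE E) ^ K) * (II f A + ε1) := by
    apply mul_le_mul_of_nonneg_left _ hcoef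
    unfold II
    linarith
  calc _ = (MPhi X * (1 / (W : ℝ))) * (1 / (LL X * BE E) ^ K) *
      (∑ a ∈ A, ∑ b ∈ A, ∏ j, DD (f (a j)) (f (b j)) +
        (A.card : ℝ) * ((A.card : ℝ) * (ε1 / ((A.card : ℝ) ^ 2 + 1)))) +
          (A.card : ℝ) ^ 2 * (5 * Real.exp (2 * LL X)) := by ring
    _ ≤ _ := by linarith

end Pool.Agent.H387R2.MB
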