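import Pool.Agent.H387R2.MB2

set_option autoImplicit false

open Finset Filter Topology
open scoped ContDiff

namespace Pool.Agent.H387R2.MB

open Pool.Agent.H378R2

open Classical in
/-- the divisor sum at a multiple of `p` -/
lemma VV_shift (E : Finset ℕ) (R : ℕ) (L : ℝ) (hL : 0 < L) (f : ℝ → ℝ) (p : ℕ) (hp : p.Prime) (hpE : p ∉ E)
    (hR : ∀ x, Real.log R / L < x → f x = 0) (m : ℤ) (hpm : (p : ℤ) ∣ m) :
    VVm E R L f m = VVm (insert p E) R L (fun x => f x - f (x + Real.log p / L)) m := by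
  have hp0 : (0:ℝ) < p := by exact_mod_cast hp.pos
  unfold VVm
  set g : ℕ → ℝ := fun d => if (d : ℤ) ∣ m then ((ArithmeticFunction.moebius d : ℤ) : ℝ) * f (Real.log d / L) else 0 with hg
  set h : ℕ → ℝ := fun d => if (d : ℤ) ∣ m then ((ArithmeticFunction.moebius d : ℤ) : ℝ) * f (Real.log d / L + Real.log p / L) else 0 with hh
  have e0 : ∑ d ∈ adm (insert p E) R, (if (d : ℤ) ∣ m then ((ArithmeticFunction.moebius d : ℤ) : ℝ) *
      (f (Real.log d / L) - f (Real.log d / L + Real.log p / L)) else 0) =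
      ∑ d ∈ adm (insert p E) R, g d - ∑ d ∈ adm (insert p E) R, h d := by
    rw [← sum_sub_distrib]
    apply sum_congr rfl
    intro d _
    simp only [hg, hh]
    split_ifs
    · ring
    · ring
  rw [e0]
  have e1 : (adm E R).filter (fun d => ¬ p ∣ d) = adm (insert p E) R := by
    ext d
    rw [mem_filter, mem_adm, mem_adm]
    constructor
    · rintro ⟨⟨h1, h2, h3⟩, h4⟩
      refine ⟨h1, h2, fun r hr hrp => ?_⟩
      rcases mem_insert.1 hr with rfl | hr
      · exact h4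
      · exact h3 r hr hrp
    · rintro ⟨h1, h2, h3⟩
      exact ⟨⟨h1, h2, fun r hr hrp => h3 r (mem_insert_of_mem hr) hrp⟩, h3 p (mem_insert_self _ _) hp⟩
  have e2 : (adm E R).filter (fun d => p ∣ d) = ((adm (insert p E) R).filter (fun d => p * d ≤ R)).image (fun d => p * d) := by
    ext d
    rw [mem_filter, mem_image, mem_adm]
    constructor
    · rintro ⟨⟨h1, h2, h3⟩, ⟨e, rfl⟩⟩
      have he0 : 0 < e := by
        rcases Nat.eq_zero_or_pos e with rfl | h
        · simp at h1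
        · exact h
      have hcop : Nat.Coprime p e := by
        have := Nat.squarefree_mul_iff.1 h2
        exact this.1
      refine ⟨e, ?_, rfl⟩
      rw [mem_filter, mem_adm]
      refine ⟨⟨⟨he0, ?_⟩, ?_, fun r hr hrp => ?_⟩, h1.2⟩
      · have : e ≤ p * e := Nat.le_mul_of_pos_left e hp.pos
        exact this.trans h1.2
      · exact (Nat.squarefree_mul_iff.1 h2).2.2
      · rcases mem_insert.1 hr with rfl | hr
        · intro hd
          exact hp.one_lt.ne' (Nat.Coprime.eq_one_of_dvd hcop hd)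
        · intro hd
          exact h3 r hr hrp (hd.mul_left p)
    · rintro ⟨e, he, rfl⟩
      rw [mem_filter, mem_adm] at he
      obtain ⟨⟨h1, h2, h3⟩, h4⟩ := he
      have hpe : ¬ p ∣ e := h3 p (mem_insert_self _ _) hp
      have hcop : Nat.Coprime p e := (Nat.Prime.coprime_iff_not_dvd hp).2 hpe
      refine ⟨⟨⟨Nat.mul_pos hp.pos h1.1, h4⟩, ?_, fun r hr hrp hd => ?_⟩, Dvd.intro _ rfl⟩
      · exact Nat.squarefree_mul_iff.2 ⟨hcop, hp.squarefree, h2⟩
      · rcases (Nat.Prime.dvd_mul hrp).1 hd with hd | hd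
        · have : r = p := (Nat.prime_dvd_prime_iff_eq hrp hp).1 hd
          exact hpE (this ▸ hr)
        · exact h3 r (mem_insert_of_mem hr) hrp hd
  rw [← sum_filter_add_sum_filter_not (adm E R) (fun d => p ∣ d) g, e1, e2, add_comm]
  rw [sub_eq_add_neg]
  congr 1
  rw [sum_image (fun a _ b _ hab => Nat.eq_of_mul_eq_mul_left hp.pos hab)]
  rw [← sum_neg_distrib]
  rw [← sum_filter_add_sum_filter_not (adm (insert p E) R) (fun d => p * d ≤ R) (fun d => - h d)]
  have e3 : ∑ d ∈ (adm (insert p E) R).filter (fun d => ¬ p * d ≤ R), (- h d) = 0 := by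
    apply sum_eq_zero
    intro d hd
    rw [mem_filter, mem_adm, not_le] at hd
    obtain ⟨⟨h1, _, _⟩, h4⟩ := hd
    have hd0 : (0:ℝ) < d := by exact_mod_cast h1.1
    simp only [hh]
    split_ifs
    · rw [hR, mul_zero, neg_zero]
      rw [← add_div, div_lt_div_iff_of_pos_right hL, ← Real.log_mul hd0.ne' hp0.ne']
      apply Real.log_lt_log
      · have : 1 ≤ R := h1.1.trans h1.2
        exact_mod_cast this
      · have : (R:ℝ) < ((p * d : ℕ) : ℝ) := by exact_mod_cast h4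
        push_cast at this
        linarith
    · rw [neg_zero]
  rw [e3, add_zero]
  apply sum_congr rfl
  intro d hd
  rw [mem_filter, mem_adm] at hd
  obtain ⟨⟨h1, h2, h3⟩, h4⟩ := hd
  have hpe : ¬ p ∣ d := h3 p (mem_insert_self _ _) hp
  have hcop : Nat.Coprime p d := (Nat.Prime.coprime_iff_not_dvd hp).2 hpe
  have hd0 : (0:ℝ) < d := by exact_mod_cast h1.1
  have hdv : ((p * d : ℕ) : ℤ) ∣ m ↔ (d : ℤ) ∣ m := by
    constructor
    · intro hx
      refine dvd_trans ?_ hx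
      push_cast
      exact Dvd.intro_left _ rfl
    · intro hx
      push_cast
      exact IsCoprime.mul_dvd (Nat.isCoprime_iff_coprime.2 hcop) hpm hx
  simp only [hg, hh]
  by_cases hx : (d : ℤ) ∣ m
  · rw [if_pos (hdv.2 hx), if_pos hx]
    have e4 : ArithmeticFunction.moebius (p * d) = - ArithmeticFunction.moebius d := by
      rw [ArithmeticFunction.isMultiplicative_moebius.map_mul_of_coprime hcop,
        ArithmeticFunction.moebius_apply_prime hp]
      ring
    rw [e4]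
    have e5 : Real.log ((p * d : ℕ) : ℝ) / L = Real.log d / L + Real.log p / L := by
      push_cast
      rw [Real.log_mul hp0.ne' hd0.ne', add_div]
      ring
    rw [e5]
    push_cast
    ring
  · rw [if_neg (fun h => hx (hdv.1 h)), if_neg hx, neg_zero]

open Classical in
/-- the divisor sum at a non-multiple of `p` -/
lemma VV_same (E : Finset ℕ) (R : ℕ) (L : ℝ) (f : ℝ → ℝ) (p : ℕ) (hp : p.Prime) (m : ℤ) (hpm : ¬ (p : ℤ) ∣ m) :
    VVm E R L f m = VVm (insert p E) R L f m := by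
  unfold VVm
  symm
  apply sum_subset
  · intro d hd
    rw [mem_adm] at hd ⊢
    exact ⟨hd.1, hd.2.1, fun r hr hrp => hd.2.2 r (mem_insert_of_mem hr) hrp⟩
  · intro d hd hd'
    rw [mem_adm] at hd hd'
    rw [if_neg]
    intro hdm
    apply hd'
    refine ⟨hd.1, hd.2.1, fun r hr hrp hrd => ?_⟩
    rcases mem_insert.1 hr with rfl | hr
    · exact hpm ((Int.natCast_dvd_natCast.2 hrd).trans hdm)
    · exact hd.2.2 r hr hrp hrd

/-- strong form of good excluded set -/
structure GS (X : ℝ) (z : ℕ) (E : Finset ℕ) : Prop where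
  pr : ∀ p ∈ E, p.Prime
  sm : ∀ p : ℕ, p.Prime → p ≤ z → p ∈ E
  s1 : ∑ p ∈ E, Real.log p / p ≤ (LL X) ^ (1 / 4 : ℝ) / 2
  s2 : ∑ p ∈ E, (1 : ℝ) / p ≤ Real.log (LL X) / 64

lemma GS.mono {X : ℝ} {z z' : ℕ} {E : Finset ℕ} (h : GS X z E) (hz : z' ≤ z) : GS X z' E :=
  ⟨h.pr, fun p hp hpz => h.sm p hp (hpz.trans hz), h.s1, h.s2⟩

lemma GS.toGE {X : ℝ} (hX : 1 ≤ LL X) {z : ℕ} {E : Finset ℕ} (h : GS X z E) : GE X z E := by
  have h1 : 0 ≤ LL X ^ (1 / 4 : ℝ) := Real.rpow_nonneg (by linarith) _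
  have h2 : 0 ≤ Real.log (LL X) := Real.log_nonneg hX
  exact ⟨h.pr, h.sm, h.s1.trans (by linarith), h.s2.trans (by linarith)⟩

lemma log_div_le_one {p : ℕ} (hp : p.Prime) : Real.log p / p ≤ 1 := by
  have hp0 : (0 : ℝ) < p := by exact_mod_cast hp.pos
  rw [div_le_one hp0]
  have := Real.log_le_sub_one_of_pos hp0
  linarith

lemma GS.insert {X : ℝ} (hX1 : 2 ≤ (LL X) ^ (1 / 4 : ℝ)) (hX2 : 64 ≤ Real.log (LL X)) {z : ℕ} {E : Finset ℕ}
    (h : GS X z E) {p : ℕ} (hp : p.Prime) (hpE : p ∉ E) : GE X z (insert p E) := by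
  refine ⟨fun r hr => ?_, fun r hr hrz => mem_insert_of_mem (h.sm r hr hrz), ?_, ?_⟩
  · rcases mem_insert.1 hr with rfl | hr
    · exact hp
    · exact h.pr r hr
  · rw [sum_insert hpE]
    have := log_div_le_one hp
    have := h.s1
    linarith
  · rw [sum_insert hpE]
    have h1 : (1:ℝ) / p ≤ 1 := by
      rw [div_le_one (by exact_mod_cast hp.pos)]; exact_mod_cast hp.one_lt.le
    have := h.s2
    linarith

/-- strong conditions on the modulus -/
structure CS (X : ℝ) (z W : ℕ) (E : Finset ℕ) : Prop where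
  gs : GS X z E
  pos : 0 < W
  le : (W : ℝ) ≤ Real.log X ^ 3
  dv : ∀ p : ℕ, p.Prime → p ∉ E → ¬ p ∣ W

/-- `sqw` squared against products -/
lemma sqw_sq_le_sum {K B : ℕ} (E : Finset ℕ) (X : ℝ) (f : Fin B → ℝ → ℝ) (A : Finset (Fin K → Fin B))
    (x : Fin K → ℤ) : sqw E X f A x ^ 2 ≤ A.card *
      ∑ a ∈ A, ∏ j, (VVm E (RR X) (LL X) (f (a j)) (x j) * VVm E (RR X) (LL X) (f (a j)) (x j)) := by
  unfold sqw
  refine (sq_sum_le_card_mul_sum_sq).trans (le_of_eq ?_)
  congr 1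
  apply sum_congr rfl
  intro a _
  rw [← prod_pow]
  apply prod_congr rfl
  intro j _
  ring

lemma BE_insert {E : Finset ℕ} {p : ℕ} (hpE : p ∉ E) : BE (insert p E) = (1 - 1 / (p : ℝ)) * BE E := by
  unfold BE
  rw [prod_insert hpE]

/-- the class `n ≡ a0 (W)`, `p ∣ n + t` -/
lemma class_p {W a0 p t : ℕ} (hW : 0 < W) (hp : p.Prime) (hpW : ¬ p ∣ W) :
    ∃ b : ℕ, ∀ n : ℕ, (n ≡ a0 [MOD W] ∧ (p : ℤ) ∣ (n : ℤ) + t) ↔ n ≡ b [MOD (W * p)] := by
  have hcop : Nat.Coprime W p := ((Nat.Prime.coprime_iff_not_dvd hp).2 hpW).symm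
  obtain ⟨b, hb1, hb2⟩ := Nat.chineseRemainder hcop a0 ((p - 1) * t)
  refine ⟨b, fun n => ?_⟩
  have key : (p : ℤ) ∣ (n : ℤ) + t ↔ n ≡ (p - 1) * t [MOD p] := by
    have e : ((n + t : ℕ) : ℤ) = (n : ℤ) + t := by push_cast; ring
    rw [← e, Int.natCast_dvd_natCast, ← Nat.modEq_zero_iff_dvd]
    have h2 : (p - 1) * t + t ≡ 0 [MOD p] := by
      rw [Nat.modEq_zero_iff_dvd]
      have : (p - 1) * t + t = p * t := by
        have := hp.one_lt
        obtain ⟨r, rfl⟩ : ∃ r, p = r + 1 := ⟨p - 1, by omega⟩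
        simp only [Nat.add_sub_cancel]
        ring
      rw [this]
      exact Dvd.intro _ rfl
    constructor
    · intro h
      exact Nat.ModEq.add_right_cancel' t (h.trans h2.symm)
    · intro h
      exact (Nat.ModEq.add_right t h).trans h2
  rw [key, ← Nat.modEq_and_modEq_iff_modEq_mul hcop]
  constructor
  · rintro ⟨h1, h2⟩
    exact ⟨h1.trans hb1.symm, h2.trans hb2.symm⟩
  · rintro ⟨h1, h2⟩
    exact ⟨h1.trans hb1, h2.trans hb2⟩

end Pool.Agent.H387R2.MB
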