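import Pool.Agent.H387R2.MB3

set_option autoImplicit false

open Finset Filter Topology
open scoped ContDiff

namespace Pool.Agent.H387R2.MB

open Pool.Agent.H378R2

/-- small primes -/
noncomputable def PS (δ X : ℝ) : Finset ℕ := (Icc 1 ⌊Real.exp (δ * LL X)⌋₊).filter Nat.Prime

lemma mem_PS {δ X : ℝ} {p : ℕ} : p ∈ PS δ X ↔ p.Prime ∧ (p : ℝ) ≤ Real.exp (δ * LL X) := by
  unfold PS
  rw [mem_filter, mem_Icc]
  constructor
  · rintro ⟨⟨_, h2⟩, h3⟩
    exact ⟨h3, (Nat.le_floor_iff (Real.exp_pos _).le).1 h2⟩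
  · rintro ⟨h1, h2⟩
    exact ⟨⟨h1.one_lt.le, Nat.le_floor h2⟩, h1⟩

lemma card_PS (δ X : ℝ) : ((PS δ X).card : ℝ) ≤ Real.exp (δ * LL X) := by
  unfold PS
  have h1 := card_filter_le (Icc 1 ⌊Real.exp (δ * LL X)⌋₊) Nat.Prime
  rw [Nat.card_Icc, Nat.add_sub_cancel] at h1
  calc ((((Icc 1 ⌊Real.exp (δ * LL X)⌋₊).filter Nat.Prime).card : ℕ) : ℝ) ≤ (⌊Real.exp (δ * LL X)⌋₊ : ℝ) := by
        exact_mod_cast h1
    _ ≤ _ := Nat.floor_le (Real.exp_pos _).le

lemma sum_u2 {δ : ℝ} (hδ : 0 < δ) : ∀ᶠ X : ℝ in atTop,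
    ∑ p ∈ PS δ X, (Real.log p / LL X) ^ 2 / p ≤ 2 * δ ^ 2 := by
  obtain ⟨C1, hC1⟩ := Pool.Agent.Erdos456.Mert.mertens_log
  filter_upwards [LL_tendsto.eventually_ge_atTop (max 1 (|C1| / δ))] with X hX
  have hL : 1 ≤ LL X := (le_max_left _ _).trans hX
  have hL0 : 0 < LL X := by linarith
  have hLC : |C1| / δ ≤ LL X := (le_max_right _ _).trans hX
  have hN1 : 1 ≤ ⌊Real.exp (δ * LL X)⌋₊ := by
    apply Nat.le_floor
    rw [Nat.cast_one]
    exact Real.one_le_exp (by positivity)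
  have h1 := (abs_le.1 (hC1 _ hN1)).2
  have hlogN : Real.log (⌊Real.exp (δ * LL X)⌋₊ : ℝ) ≤ δ * LL X := by
    have : (⌊Real.exp (δ * LL X)⌋₊ : ℝ) ≤ Real.exp (δ * LL X) := Nat.floor_le (Real.exp_pos _).le
    have h2 := Real.log_le_log (by exact_mod_cast hN1) this
    rwa [Real.log_exp] at h2
  have h3 : ∑ p ∈ PS δ X, Real.log p / p ≤ δ * LL X + |C1| := by
    unfold PS
    have := le_abs_self C1
    linarith
  have h4 : ∑ p ∈ PS δ X, (Real.log p / LL X) ^ 2 / p ≤ (δ / LL X) * ∑ p ∈ PS δ X, Real.log p / p := by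
    rw [mul_sum]
    apply sum_le_sum
    intro p hp
    rw [mem_PS] at hp
    have hp0 : (0:ℝ) < p := by exact_mod_cast hp.1.pos
    have hlp : Real.log p ≤ δ * LL X := by
      rw [Real.log_le_iff_le_exp hp0]; exact hp.2
    have hlp0 : 0 ≤ Real.log p := Real.log_natCast_nonneg p
    calc (Real.log p / LL X) ^ 2 / p = Real.log p * (Real.log p / p) / LL X ^ 2 := by ring
      _ ≤ (δ * LL X) * (Real.log p / p) / LL X ^ 2 := by gcongr
      _ = (δ / LL X) * (Real.log p / p) := by field_simp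
  refine h4.trans ?_
  have h5 : |C1| ≤ δ * LL X := by
    rw [div_le_iff₀ hδ] at hLC
    linarith
  calc (δ / LL X) * ∑ p ∈ PS δ X, Real.log p / p ≤ (δ / LL X) * (δ * LL X + δ * LL X) := by
        apply mul_le_mul_of_nonneg_left _ (by positivity)
        linarith
    _ = 2 * δ ^ 2 := by field_simp; ring

lemma nu_p {X : ℝ} {W a0 p t b : ℕ} (hb : ∀ n : ℕ, (n ≡ a0 [MOD W] ∧ (p : ℤ) ∣ (n : ℤ) + t) ↔ n ≡ b [MOD (W * p)])
    (n : ℕ) (w : ℝ) : nu X W a0 n * (if (p : ℤ) ∣ (n : ℤ) + t then w else 0) =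
      nu X (W * p) b n * w := by
  unfold nu
  by_cases h : n ≡ b [MOD (W * p)]
  · have := (hb n).2 h
    rw [if_pos h, if_pos this.1, if_pos this.2]
  · rw [if_neg h]
    by_cases h1 : n ≡ a0 [MOD W]
    · have h2 : ¬ (p : ℤ) ∣ (n : ℤ) + t := fun h2 => h ((hb n).1 ⟨h1, h2⟩)
      rw [if_neg h2]; ring
    · rw [if_neg h1]; ring

lemma prod_LBE (K : ℕ) (X : ℝ) (E : Finset ℕ) : ∏ _j : Fin K, (LL X * BE E) = (LL X * BE E) ^ K := by
  rw [Finset.prod_const, Finset.card_univ, Fintype.card_fin]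

/-- contribution of a prime `p ∉ E` -/
theorem stepA {K : ℕ} (g : Fin K → ℝ → ℝ) (c : Fin K → ℝ)
    (hsm : ∀ l, ContDiff ℝ ∞ (g l)) (hcs : ∀ l, HasCompactSupport (g l)) (hf0 : ∀ l x, c l < x → g l x = 0)
    (hc : ∀ l, 0 ≤ c l ∧ c l ≤ 1 / 2) (hA : ∑ j, c j ≤ 1) (hf1 : ∀ l x, |g l x| ≤ 1) (j0 : Fin K) :
    ∃ C : ℝ, 0 ≤ C ∧ ∀ X : ℝ, 4 ≤ X → 2 ≤ LL X → ∀ (W : ℕ) (E : Finset ℕ) (a0 p : ℕ) (t : Fin K → ℕ),
      0 < W → (∀ r : ℕ, r.Prime → r ∉ E → ¬ r ∣ W) → p.Prime → p ∉ E → GE X (32 * K + 2) (insert p E) →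
      ((W * p : ℕ) : ℝ) ≤ Real.exp (Real.log X / 700) → DT E t →
      ∑ n ∈ Icc 1 ⌊3 * X⌋₊, nu X W a0 n * (if (p : ℤ) ∣ (n : ℤ) + t j0 then
        ∏ j, (VVm E (RR X) (LL X) (g j) ((n : ℤ) + t j) * VVm E (RR X) (LL X) (g j) ((n : ℤ) + t j)) else 0) ≤
      (MPhi X * (1 / (W : ℝ))) * (1 / (LL X * BE E) ^ K) * (2 ^ K * C * ((Real.log p / LL X) ^ 2 / p)) +
        5 * 2 ^ (2 * K) * Real.exp (2 * LL X) := by
  classical
  obtain ⟨C, hC0, hC⟩ := shift_sieve_bound K g g hsm hsm hcs hcs j0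
  refine ⟨C, hC0, ?_⟩
  intro X hX4 hL2 W E a0 p t hW hdv hp hpE hGE hWp hDT
  have hL0 : 0 < LL X := by linarith
  have hp0 : (0:ℝ) < p := by exact_mod_cast hp.pos
  have hW0 : (0:ℝ) < W := by exact_mod_cast hW
  set u := Real.log p / LL X with hu
  have hu0 : 0 ≤ u := div_nonneg (Real.log_natCast_nonneg p) hL0.le
  obtain ⟨b, hb⟩ := class_p (a0 := a0) (t := t j0) hW hp (hdv p hp hpE)
  have hvan : ∀ (l : Fin K) (x : ℝ), Real.log (RR X) / LL X < x → g l x = 0 := by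
    intro l x hx
    have := supp_aux hL2 hx
    exact hf0 l x (lt_of_le_of_lt (hc l).2 this)
  set G := shf g j0 u with hG
  have hG2 : ∀ j x, |G j x| ≤ 2 := by
    intro j x
    rw [hG]
    unfold shf
    split_ifs
    · have h1 := hf1 j x
      have h2 := hf1 j (x + u)
      have := abs_sub (g j x) (g j (x + u))
      linarith
    · have h1 := hf1 j x
      linarith
  have hG0 : ∀ j x, c j < x → G j x = 0 := by
    intro j x hx
    rw [hG]
    unfold shf
    split_ifs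
    · rw [hf0 j x hx, hf0 j (x + u) (by linarith), sub_zero]
    · exact hf0 j x hx
  have hCW : CW X (32 * K + 2) (W * p) (insert p E) := by
    refine ⟨hGE, Nat.mul_pos hW hp.pos, hWp, fun r hr hrE hrd => ?_⟩
    rcases (Nat.Prime.dvd_mul hr).1 hrd with h | h
    · exact hdv r hr (fun h' => hrE (mem_insert_of_mem h')) h
    · have : r = p := (Nat.prime_dvd_prime_iff_eq hr hp).1 h
      exact hrE (this ▸ mem_insert_self _ _)
  have hDT' : DT (insert p E) t := fun i j hij r hr hrE => hDT i j hij r hr (fun h => hrE (mem_insert_of_mem h))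
  have k1 := S1prod G G c c 2 (by norm_num) hG2 hG2 hG0 hG0 (by linarith) hX4 (by linarith) hCW b hDT'
  have k2 := hC u hu0 (LL X) (fun _ => insert p E) (fun q _ => 1 / (q : ℝ)) (RR X) hL2
    (fun j x hx => ⟨hvan j x hx, hvan j x hx⟩) (fun _ => hGE.pr) (fun _ => hGE.sm) (fun _ => hGE.s1)
    (fun _ => hGE.s2) (fun _ q _ _ => w_one q)
  have e1 : ∏ j : Fin K, (LL X * ∏ p ∈ insert p E, (1 - 1 / (p : ℝ))) = (LL X * BE (insert p E)) ^ K :=
    prod_LBE K X (insert p E)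
  rw [e1] at k2
  set SS := sieveSum K G G (LL X) (fun _ => insert p E) (fun q _ => 1 / (q : ℝ)) (RR X) with hSS
  have hBE : 0 < BE E := BE_pos fun r hr => hGE.pr r (mem_insert_of_mem hr)
  have hBE' : 0 < BE (insert p E) := BE_pos hGE.pr
  have hBE2 : BE E / 2 ≤ BE (insert p E) := by
    rw [BE_insert hpE]
    have h1 : (1:ℝ) / p ≤ 1 / 2 := one_div_le_one_div_of_le (by norm_num) (by exact_mod_cast hp.two_le)
    nlinarith
  have k3 : SS ≤ 1 / (LL X * BE E) ^ K * (2 ^ K * (C * u ^ 2)) := by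
    have h1 : (LL X * BE (insert p E)) ^ K * SS ≤ C * u ^ 2 := (le_abs_self _).trans k2
    have h2 : (LL X * BE E / 2) ^ K ≤ (LL X * BE (insert p E)) ^ K := by
      apply pow_le_pow_left₀ (by positivity)
      calc LL X * BE E / 2 = LL X * (BE E / 2) := by ring
        _ ≤ _ := mul_le_mul_of_nonneg_left hBE2 hL0.le
    have h3 : SS ≤ C * u ^ 2 / (LL X * BE (insert p E)) ^ K := by
      rw [le_div_iff₀ (by positivity)]
      linarith
    refine h3.trans ?_
    calc C * u ^ 2 / (LL X * BE (insert p E)) ^ K ≤ C * u ^ 2 / (LL X * BE E / 2) ^ K := by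
          apply div_le_div_of_nonneg_left (by positivity) (by positivity) h2
      _ = _ := by
          have e5 : (LL X * BE E / 2) ^ K = (LL X * BE E) ^ K / 2 ^ K := div_pow _ _ _
          rw [e5]
          have : (LL X * BE E) ^ K ≠ 0 := by positivity
          field_simp
  have hM := MPhi_nonneg X
  have e2 : ∀ n ∈ Icc 1 ⌊3 * X⌋₊, nu X W a0 n * (if (p : ℤ) ∣ (n : ℤ) + t j0 then
        ∏ j, (VVm E (RR X) (LL X) (g j) ((n : ℤ) + t j) * VVm E (RR X) (LL X) (g j) ((n : ℤ) + t j)) else 0) =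
      nu X (W * p) b n * ∏ j, (VVm (insert p E) (RR X) (LL X) (G j) ((n : ℤ) + t j) *
        VVm (insert p E) (RR X) (LL X) (G j) ((n : ℤ) + t j)) := by
    intro n _
    rw [← nu_p hb n]
    congr 1
    by_cases hd : (p : ℤ) ∣ (n : ℤ) + t j0
    · rw [if_pos hd, if_pos hd]
      apply prod_congr rfl
      intro j _
      have : VVm E (RR X) (LL X) (g j) ((n : ℤ) + t j) = VVm (insert p E) (RR X) (LL X) (G j) ((n : ℤ) + t j) := by
        by_cases hj : j = j0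
        · subst hj
          rw [VV_shift E (RR X) (LL X) hL0 (g j) p hp hpE (hvan j) _ hd]
          congr 1
          funext x
          rw [hG]
          unfold shf
          rw [if_pos rfl]
        · have hnd : ¬ (p : ℤ) ∣ (n : ℤ) + t j := by
            intro h
            apply hDT j j0 hj p hp hpE
            have := dvd_sub h hd
            have h7 : (n : ℤ) + t j - ((n : ℤ) + t j0) = t j - t j0 := by ring
            rwa [h7] at this
          rw [VV_same E (RR X) (LL X) (g j) p hp _ hnd]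
          congr 1
          funext x
          rw [hG]
          unfold shf
          rw [if_neg hj]
      rw [this]
    · rw [if_neg hd, if_neg hd]
  rw [sum_congr rfl e2]
  have k4 := (abs_le.1 k1).2
  have k5 : MPhi X * (1 / ((W * p : ℕ) : ℝ)) * SS ≤
      (MPhi X * (1 / (W : ℝ))) * (1 / (LL X * BE E) ^ K) * (2 ^ K * C * (u ^ 2 / p)) := by
    calc MPhi X * (1 / ((W * p : ℕ) : ℝ)) * SS ≤ MPhi X * (1 / ((W * p : ℕ) : ℝ)) *
          (1 / (LL X * BE E) ^ K * (2 ^ K * (C * u ^ 2))) := mul_le_mul_of_nonneg_left k3 (by positivity)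
      _ = _ := by push_cast; field_simp
  linarith

end Pool.Agent.H387R2.MB
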