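import Pool.Agent.H387R2.MB4
import Pool.Agent.H378R2.M7p

set_option autoImplicit false

open Finset Filter Topology
open scoped ContDiff

namespace Pool.Agent.H387R2.MB

open Pool.Agent.H378R2

lemma MPhi_big : ∀ᶠ X : ℝ in atTop, X / 20 ≤ MPhi X := by
  filter_upwards [eventually_ge_atTop 40] with X hX
  exact MPhi_ge X hX

/-- exponential errors are negligible -/
lemma exp_err (K : ℕ) (c δ : ℝ) (hδ : 0 < δ) : ∀ᶠ X : ℝ in atTop, ∀ (W : ℕ) (E : Finset ℕ), 0 < W →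
    (W : ℝ) ≤ Real.log X ^ 3 → (∀ p ∈ E, p.Prime) →
    c * Real.exp (3 * LL X) ≤ δ * ((MPhi X * (1 / (W : ℝ))) * (1 / (LL X * BE E) ^ K)) := by
  have h1 : ∀ᶠ t : ℝ in atTop, (|c| + 1) * (20 / δ) * t ^ (3 + K) ≤ Real.exp ((1 / 2) * t) :=
    ev_pow_exp (3 + K) (1 / 2) ((|c| + 1) * (20 / δ)) (by norm_num)
  have h2 := Real.tendsto_log_atTop.eventually h1
  filter_upwards [h2, MPhi_big, eventually_ge_atTop (Real.exp 200), LL_tendsto.eventually_ge_atTop 1] with X h3 h4 h5 h6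
  intro W E hW hWle hE
  have hX0 : 0 < X := lt_of_lt_of_le (Real.exp_pos _) h5
  have hlog : 200 ≤ Real.log X := by
    rw [← Real.log_exp 200]; exact Real.log_le_log (Real.exp_pos _) h5
  have hW0 : (0:ℝ) < W := by exact_mod_cast hW
  have hL0 : 0 < LL X := by linarith
  have hBE := BE_pos hE
  have hBE1 := BE_le_one hE
  have hLX : LL X ≤ Real.log X := by unfold LL; linarith
  have hM0 : 0 ≤ MPhi X := MPhi_nonneg X
  have e1 : X / 20 * (1 / Real.log X ^ 3) * (1 / Real.log X ^ K) ≤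
      (MPhi X * (1 / (W : ℝ))) * (1 / (LL X * BE E) ^ K) := by
    have a1 : 1 / Real.log X ^ 3 ≤ 1 / (W : ℝ) := one_div_le_one_div_of_le hW0 hWle
    have a2 : 1 / Real.log X ^ K ≤ 1 / (LL X * BE E) ^ K := by
      apply one_div_le_one_div_of_le (by positivity)
      apply pow_le_pow_left₀ (by positivity)
      calc LL X * BE E ≤ LL X * 1 := by gcongr
        _ ≤ Real.log X := by linarith
    have : (0:ℝ) ≤ 1 / Real.log X ^ K := by positivity
    gcongr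
  refine le_trans ?_ (mul_le_mul_of_nonneg_left e1 hδ.le)
  have e2 : Real.exp (3 * LL X) * Real.exp ((1 / 2) * Real.log X) ≤ X := by
    rw [← Real.exp_add]
    calc Real.exp (3 * LL X + (1 / 2) * Real.log X) ≤ Real.exp (Real.log X) := by
          apply Real.exp_le_exp.2
          unfold LL
          linarith
      _ = X := Real.exp_log hX0
  have hpow : 0 < Real.log X ^ (3 + K) := by positivity
  have e3 : c * Real.exp (3 * LL X) * ((20 / δ) * Real.log X ^ (3 + K)) ≤ X := by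
    calc c * Real.exp (3 * LL X) * ((20 / δ) * Real.log X ^ (3 + K)) ≤
        (|c| + 1) * Real.exp (3 * LL X) * ((20 / δ) * Real.log X ^ (3 + K)) := by
          gcongr
          linarith [le_abs_self c]
      _ = Real.exp (3 * LL X) * ((|c| + 1) * (20 / δ) * Real.log X ^ (3 + K)) := by ring
      _ ≤ Real.exp (3 * LL X) * Real.exp ((1 / 2) * Real.log X) := by gcongr
      _ ≤ X := e2
  have e4 : δ * (X / 20 * (1 / Real.log X ^ 3) * (1 / Real.log X ^ K)) =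
      X / ((20 / δ) * Real.log X ^ (3 + K)) := by
    rw [pow_add]; field_simp
  rw [e4, le_div_iff₀ (by positivity)]
  exact e3

/-- contribution of the `n` with a small prime factor -/
theorem nonrough {K B : ℕ} (f : Fin B → ℝ → ℝ) (c : Fin B → ℝ) (A : Finset (Fin K → Fin B))
    (hsm : ∀ l, ContDiff ℝ ∞ (f l)) (hcs : ∀ l, HasCompactSupport (f l)) (hf0 : ∀ l x, c l < x → f l x = 0)
    (hc : ∀ l, 0 ≤ c l ∧ c l ≤ 1 / 2) (hA : ∀ a ∈ A, ∑ j, c (a j) ≤ 1) (hf1 : ∀ l x, |f l x| ≤ 1)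
    (hII : 0 ≤ II f A) :
    ∃ C : ℝ, 0 ≤ C ∧ ∃ z : ℕ, ∀ δ : ℝ, 0 < δ → δ ≤ 1 / 10 → ∀ᶠ X : ℝ in atTop,
      ∀ (W : ℕ) (E : Finset ℕ) (a0 : ℕ) (t : Fin K → ℕ),
      CS X z W E → DT E t → (∀ j, (a0 + t j).Coprime W) →
      (∑ p ∈ E.filter (fun p => ¬ p ∣ W), (1 : ℝ) / p ≤ δ) →
      ∑ n ∈ Icc 1 ⌊3 * X⌋₊, ∑ j : Fin K, ∑ p ∈ PS δ X,
        nu X W a0 n * (if (p : ℤ) ∣ (n : ℤ) + t j then sqw E X f A (fun j => (n : ℤ) + t j) ^ 2 else 0) ≤
        C * δ * ((MPhi X * (1 / (W : ℝ))) * (1 / (LL X * BE E) ^ K)) := by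
  classical
  have hA' : ∀ (a : Fin K → Fin B) (j0 : Fin K), ∃ C : ℝ, 0 ≤ C ∧ (a ∈ A → ∀ X : ℝ, 4 ≤ X → 2 ≤ LL X →
      ∀ (W : ℕ) (E : Finset ℕ) (a0 p : ℕ) (t : Fin K → ℕ),
      0 < W → (∀ r : ℕ, r.Prime → r ∉ E → ¬ r ∣ W) → p.Prime → p ∉ E → GE X (32 * K + 2) (insert p E) →
      ((W * p : ℕ) : ℝ) ≤ Real.exp (Real.log X / 700) → DT E t →
      ∑ n ∈ Icc 1 ⌊3 * X⌋₊, nu X W a0 n * (if (p : ℤ) ∣ (n : ℤ) + t j0 then
        ∏ j, (VVm E (RR X) (LL X) (f (a j)) ((n : ℤ) + t j) * VVm E (RR X) (LL X) (f (a j)) ((n : ℤ) + t j)) else 0) ≤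
      (MPhi X * (1 / (W : ℝ))) * (1 / (LL X * BE E) ^ K) * (2 ^ K * C * ((Real.log p / LL X) ^ 2 / p)) +
        5 * 2 ^ (2 * K) * Real.exp (2 * LL X)) := by
    intro a j0
    by_cases ha : a ∈ A
    · obtain ⟨C, hC0, hC⟩ := stepA (fun j => f (a j)) (fun j => c (a j)) (fun _ => hsm _) (fun _ => hcs _)
        (fun _ x hx => hf0 _ x hx) (fun _ => hc _) (hA a ha) (fun _ x => hf1 _ x) j0
      exact ⟨C, hC0, fun _ => hC⟩
    · exact ⟨0, le_rfl, fun h => absurd h ha⟩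
  choose Ca hCa0 hCa using hA'
  obtain ⟨z1, hS1⟩ := S1up f c A hsm hcs hf0 hc hA hf1 1 one_pos
  set Csum : ℝ := ∑ j : Fin K, ∑ a ∈ A, (A.card : ℝ) * (2 ^ K * Ca a j) with hCsum
  have hCsum0 : 0 ≤ Csum := sum_nonneg fun j _ => sum_nonneg fun a _ => by
    have := hCa0 a j; positivity
  set Cerr : ℝ := K * ((A.card : ℝ) ^ 2 * 5) + K * ((A.card : ℝ) ^ 2 * (5 * 2 ^ (2 * K))) with hCerr
  refine ⟨K * (II f A + 1) + 2 * Csum + 1, by positivity, max z1 (32 * K + 2), ?_⟩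
  intro δ hδ hδ1
  have hr : Tendsto (fun X : ℝ => (LL X) ^ (1 / 4 : ℝ)) atTop atTop :=
    (tendsto_rpow_atTop (by norm_num)).comp LL_tendsto
  have hll : Tendsto (fun X : ℝ => Real.log (LL X)) atTop atTop := Real.tendsto_log_atTop.comp LL_tendsto
  have hWp : ∀ᶠ X : ℝ in atTop, Real.log X ^ 3 * Real.exp (1 / 10 * LL X) ≤ Real.exp (Real.log X / 700) := by
    have h1 : ∀ᶠ t : ℝ in atTop, 1 * t ^ 3 ≤ Real.exp ((1 / 1400) * t) :=
      ev_pow_exp 3 (1 / 1400) 1 (by norm_num)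
    filter_upwards [Real.tendsto_log_atTop.eventually h1, Real.tendsto_log_atTop.eventually_ge_atTop 0] with X h2 h3
    rw [one_mul] at h2
    calc Real.log X ^ 3 * Real.exp (1 / 10 * LL X) ≤ Real.exp ((1 / 1400) * Real.log X) * Real.exp (1 / 10 * LL X) := by
          gcongr
      _ = Real.exp ((1 / 1400) * Real.log X + 1 / 10 * LL X) := by rw [Real.exp_add]
      _ ≤ Real.exp (Real.log X / 700) := by
          apply Real.exp_le_exp.2
          unfold LL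
          linarith
  filter_upwards [hS1, sum_u2 hδ, exp_err K Cerr δ hδ, hWp, eventually_ge_atTop 4,
    LL_tendsto.eventually_ge_atTop 2, hr.eventually_ge_atTop 2, hll.eventually_ge_atTop 64,
    Real.tendsto_log_atTop.eventually_ge_atTop 1] with X h1 h2 h3 h4 h5 h6 h7 h8 h9
  intro W E a0 t hCS hDT hcop hE1
  have hL0 : 0 < LL X := by linarith
  have hW0 : (0:ℝ) < W := by exact_mod_cast hCS.pos
  have hM0 : 0 ≤ MPhi X := MPhi_nonneg X
  have hBE : 0 < BE E := BE_pos hCS.gs.pr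
  set Q : ℝ := (MPhi X * (1 / (W : ℝ))) * (1 / (LL X * BE E) ^ K) with hQ
  have hQ0 : 0 ≤ Q := by positivity
  have hpexp : ∀ p ∈ PS δ X, (p : ℝ) ≤ Real.exp (1 / 10 * LL X) := by
    intro p hp
    refine (mem_PS.1 hp).2.trans (Real.exp_le_exp.2 ?_)
    nlinarith
  have hWpX : ∀ p ∈ PS δ X, ((W * p : ℕ) : ℝ) ≤ Real.exp (Real.log X / 700) := by
    intro p hp
    push_cast
    calc (W : ℝ) * p ≤ Real.log X ^ 3 * Real.exp (1 / 10 * LL X) := by
          apply mul_le_mul hCS.le (hpexp p hp) (Nat.cast_nonneg _) (by positivity)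
      _ ≤ _ := h4
  -- primes dividing W
  have hdivW : ∀ j : Fin K, ∀ p ∈ PS δ X, p ∣ W →
      ∑ n ∈ Icc 1 ⌊3 * X⌋₊, nu X W a0 n *
        (if (p : ℤ) ∣ (n : ℤ) + t j then sqw E X f A (fun j => (n : ℤ) + t j) ^ 2 else 0) = 0 := by
    intro j p hp hpW
    apply sum_eq_zero
    intro n _
    unfold nu
    by_cases hn : n ≡ a0 [MOD W]
    · have hnd : ¬ (p : ℤ) ∣ (n : ℤ) + t j := by
        intro h
        have h' : p ∣ n + t j := by
          have e : ((n + t j : ℕ) : ℤ) = (n : ℤ) + t j := by push_cast; ring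
          rw [← e] at h
          exact Int.natCast_dvd_natCast.1 h
        have h2 : n + t j ≡ a0 + t j [MOD p] := (Nat.ModEq.add_right (t j) hn).of_dvd hpW
        have h3 : p ∣ a0 + t j := (Nat.modEq_zero_iff_dvd.1 (h2.symm.trans (Nat.modEq_zero_iff_dvd.2 h')))
        have h4 := Nat.dvd_gcd h3 hpW
        rw [(hcop j)] at h4
        exact (mem_PS.1 hp).1.one_lt.ne' (Nat.dvd_one.1 h4)
      rw [if_neg hnd, mul_zero]
    · rw [if_neg hn, zero_mul]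
  -- primes in E not dividing W
  have hinE : ∀ j : Fin K, ∀ p ∈ PS δ X, p ∈ E → ¬ p ∣ W →
      ∑ n ∈ Icc 1 ⌊3 * X⌋₊, nu X W a0 n *
        (if (p : ℤ) ∣ (n : ℤ) + t j then sqw E X f A (fun j => (n : ℤ) + t j) ^ 2 else 0) ≤
        Q * (II f A + 1) * (1 / p) + (A.card : ℝ) ^ 2 * 5 * Real.exp (2 * LL X) := by
    intro j p hp hpE hpW
    have hpp := (mem_PS.1 hp).1
    have hp0 : (0:ℝ) < p := by exact_mod_cast hpp.pos
    obtain ⟨b, hb⟩ := class_p (a0 := a0) (t := t j) hCS.pos hpp hpW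
    have hCW : CW X z1 (W * p) E := by
      refine ⟨(hCS.gs.toGE (by linarith)).mono (le_max_left _ _), Nat.mul_pos hCS.pos hpp.pos, hWpX p hp,
        fun r hr hrE hrd => ?_⟩
      rcases (Nat.Prime.dvd_mul hr).1 hrd with h | h
      · exact hCS.dv r hr hrE h
      · have : r = p := (Nat.prime_dvd_prime_iff_eq hr hpp).1 h
        exact hrE (this ▸ hpE)
    have k1 := h1 (W * p) E b t hCW hDT
    rw [sum_congr rfl (fun n _ => nu_p hb n (sqw E X f A (fun j => (n : ℤ) + t j) ^ 2))]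
    refine k1.trans (le_of_eq ?_)
    rw [hQ]
    push_cast
    field_simp
  -- primes not in E
  have hnE : ∀ j : Fin K, ∀ p ∈ PS δ X, p ∉ E →
      ∑ n ∈ Icc 1 ⌊3 * X⌋₊, nu X W a0 n *
        (if (p : ℤ) ∣ (n : ℤ) + t j then sqw E X f A (fun j => (n : ℤ) + t j) ^ 2 else 0) ≤
        Q * (∑ a ∈ A, (A.card : ℝ) * (2 ^ K * Ca a j)) * ((Real.log p / LL X) ^ 2 / p) +
          (A.card : ℝ) ^ 2 * (5 * 2 ^ (2 * K)) * Real.exp (2 * LL X) := by
    intro j p hp hpE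
    have hpp := (mem_PS.1 hp).1
    have hGE : GE X (32 * K + 2) (insert p E) := (hCS.gs.insert h7 h8 hpp hpE).mono (le_max_right _ _)
    have b1 : ∑ n ∈ Icc 1 ⌊3 * X⌋₊, nu X W a0 n *
        (if (p : ℤ) ∣ (n : ℤ) + t j then sqw E X f A (fun j => (n : ℤ) + t j) ^ 2 else 0) ≤
        ∑ a ∈ A, (A.card : ℝ) * ∑ n ∈ Icc 1 ⌊3 * X⌋₊, nu X W a0 n * (if (p : ℤ) ∣ (n : ℤ) + t j then
          ∏ j, (VVm E (RR X) (LL X) (f (a j)) ((n : ℤ) + t j) * VVm E (RR X) (LL X) (f (a j)) ((n : ℤ) + t j)) else 0) := by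
      simp_rw [mul_sum]
      rw [sum_comm]
      apply sum_le_sum
      intro n _
      have hnu := nu_nonneg X W a0 n
      split_ifs with hd
      · have := sqw_sq_le_sum E X f A (fun j => (n : ℤ) + t j)
        calc nu X W a0 n * sqw E X f A (fun j => (n : ℤ) + t j) ^ 2 ≤ nu X W a0 n * (A.card *
            ∑ a ∈ A, ∏ j, (VVm E (RR X) (LL X) (f (a j)) ((n : ℤ) + t j) *
              VVm E (RR X) (LL X) (f (a j)) ((n : ℤ) + t j))) := mul_le_mul_of_nonneg_left this hnu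
          _ = _ := by
              rw [mul_sum, mul_sum]
              apply sum_congr rfl
              intro a _
              ring
      · simp
    refine b1.trans ?_
    have b2 : ∀ a ∈ A, (A.card : ℝ) * ∑ n ∈ Icc 1 ⌊3 * X⌋₊, nu X W a0 n * (if (p : ℤ) ∣ (n : ℤ) + t j then
          ∏ j, (VVm E (RR X) (LL X) (f (a j)) ((n : ℤ) + t j) * VVm E (RR X) (LL X) (f (a j)) ((n : ℤ) + t j)) else 0) ≤
        (A.card : ℝ) * (Q * (2 ^ K * Ca a j * ((Real.log p / LL X) ^ 2 / p)) + 5 * 2 ^ (2 * K) * Real.exp (2 * LL X)) := by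
      intro a ha
      apply mul_le_mul_of_nonneg_left _ (Nat.cast_nonneg _)
      exact hCa a j ha X h5 h6 W E a0 p t hCS.pos hCS.dv hpp hpE hGE (hWpX p hp) hDT
    refine (sum_le_sum b2).trans (le_of_eq ?_)
    have b3 : ∀ a ∈ A, (A.card : ℝ) * (Q * (2 ^ K * Ca a j * ((Real.log p / LL X) ^ 2 / p)) + 5 * 2 ^ (2 * K) * Real.exp (2 * LL X)) =
        Q * ((Real.log p / LL X) ^ 2 / p) * ((A.card : ℝ) * (2 ^ K * Ca a j)) +
          (A.card : ℝ) * (5 * 2 ^ (2 * K) * Real.exp (2 * LL X)) := by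
      intro a _; ring
    rw [sum_congr rfl b3, sum_add_distrib, ← mul_sum, sum_const, nsmul_eq_mul]
    ring
  -- exchange
  have hex : ∑ n ∈ Icc 1 ⌊3 * X⌋₊, ∑ j : Fin K, ∑ p ∈ PS δ X,
        nu X W a0 n * (if (p : ℤ) ∣ (n : ℤ) + t j then sqw E X f A (fun j => (n : ℤ) + t j) ^ 2 else 0) =
      ∑ j : Fin K, ∑ p ∈ PS δ X, ∑ n ∈ Icc 1 ⌊3 * X⌋₊,
        nu X W a0 n * (if (p : ℤ) ∣ (n : ℤ) + t j then sqw E X f A (fun j => (n : ℤ) + t j) ^ 2 else 0) := by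
    rw [sum_comm]
    apply sum_congr rfl
    intro j _
    rw [sum_comm]
  rw [hex]
  have hone : ∀ j : Fin K, ∀ p ∈ PS δ X, ∑ n ∈ Icc 1 ⌊3 * X⌋₊,
        nu X W a0 n * (if (p : ℤ) ∣ (n : ℤ) + t j then sqw E X f A (fun j => (n : ℤ) + t j) ^ 2 else 0) ≤
      Q * (II f A + 1) * (if p ∈ E ∧ ¬ p ∣ W then (1 / (p : ℝ)) else 0) +
      Q * (∑ a ∈ A, (A.card : ℝ) * (2 ^ K * Ca a j)) * ((Real.log p / LL X) ^ 2 / p) +
      ((A.card : ℝ) ^ 2 * 5 + (A.card : ℝ) ^ 2 * (5 * 2 ^ (2 * K))) * Real.exp (2 * LL X) := by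
    intro j p hp
    have hp0 : (0:ℝ) < p := by exact_mod_cast (mem_PS.1 hp).1.pos
    have c1 : 0 ≤ Q * (∑ a ∈ A, (A.card : ℝ) * (2 ^ K * Ca a j)) * ((Real.log p / LL X) ^ 2 / p) := by
      have : 0 ≤ ∑ a ∈ A, (A.card : ℝ) * (2 ^ K * Ca a j) := sum_nonneg fun a _ => by
        have := hCa0 a j; positivity
      positivity
    have c2 : 0 ≤ (A.card : ℝ) ^ 2 * 5 * Real.exp (2 * LL X) := by positivity
    have c3 : 0 ≤ (A.card : ℝ) ^ 2 * (5 * 2 ^ (2 * K)) * Real.exp (2 * LL X) := by positivity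
    have c4 : 0 ≤ Q * (II f A + 1) := by positivity
    by_cases hpW : p ∣ W
    · rw [hdivW j p hp hpW, if_neg (fun h => h.2 hpW), mul_zero, zero_add]
      rw [add_mul]
      linarith
    · by_cases hpE : p ∈ E
      · have := hinE j p hp hpE hpW
        rw [if_pos ⟨hpE, hpW⟩, add_mul]
        linarith
      · have := hnE j p hp hpE
        rw [if_neg (fun h => hpE h.1), mul_zero, zero_add, add_mul]
        linarith
  refine (sum_le_sum fun j _ => sum_le_sum fun p hp => hone j p hp).trans ?_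
  have hsplit : ∀ j : Fin K, ∑ p ∈ PS δ X, (Q * (II f A + 1) * (if p ∈ E ∧ ¬ p ∣ W then (1 / (p : ℝ)) else 0) +
      Q * (∑ a ∈ A, (A.card : ℝ) * (2 ^ K * Ca a j)) * ((Real.log p / LL X) ^ 2 / p) +
      ((A.card : ℝ) ^ 2 * 5 + (A.card : ℝ) ^ 2 * (5 * 2 ^ (2 * K))) * Real.exp (2 * LL X)) =
      Q * (II f A + 1) * ∑ p ∈ PS δ X, (if p ∈ E ∧ ¬ p ∣ W then (1 / (p : ℝ)) else 0) +
      Q * (∑ a ∈ A, (A.card : ℝ) * (2 ^ K * Ca a j)) * ∑ p ∈ PS δ X, (Real.log p / LL X) ^ 2 / p +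
      ((PS δ X).card : ℝ) * (((A.card : ℝ) ^ 2 * 5 + (A.card : ℝ) ^ 2 * (5 * 2 ^ (2 * K))) * Real.exp (2 * LL X)) := by
    intro j
    rw [sum_add_distrib, sum_add_distrib, ← mul_sum, ← mul_sum, sum_const, nsmul_eq_mul]
  rw [sum_congr rfl (fun j _ => hsplit j), sum_add_distrib, sum_add_distrib]
  have hsE : ∑ p ∈ PS δ X, (if p ∈ E ∧ ¬ p ∣ W then (1 / (p : ℝ)) else 0) ≤ δ := by
    refine le_trans ?_ hE1
    rw [← sum_filter]
    apply sum_le_sum_of_subset_of_nonneg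
    · intro p hp
      rw [mem_filter] at hp ⊢
      exact hp.2
    · intro p _ _; positivity
  have hcard := card_PS δ X
  have hexpδ : Real.exp (δ * LL X) ≤ Real.exp (LL X) := Real.exp_le_exp.2 (by nlinarith)
  have d1 : ∑ _j : Fin K, Q * (II f A + 1) * ∑ p ∈ PS δ X, (if p ∈ E ∧ ¬ p ∣ W then (1 / (p : ℝ)) else 0) ≤
      K * (II f A + 1) * δ * Q := by
    rw [sum_const, nsmul_eq_mul, card_univ, Fintype.card_fin]
    have : Q * (II f A + 1) * ∑ p ∈ PS δ X, (if p ∈ E ∧ ¬ p ∣ W then (1 / (p : ℝ)) else 0) ≤ Q * (II f A + 1) * δ :=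
      mul_le_mul_of_nonneg_left hsE (by positivity)
    calc (K : ℝ) * (Q * (II f A + 1) * ∑ p ∈ PS δ X, (if p ∈ E ∧ ¬ p ∣ W then (1 / (p : ℝ)) else 0)) ≤
        K * (Q * (II f A + 1) * δ) := mul_le_mul_of_nonneg_left this (Nat.cast_nonneg _)
      _ = _ := by ring
  have d2 : ∑ j : Fin K, Q * (∑ a ∈ A, (A.card : ℝ) * (2 ^ K * Ca a j)) * ∑ p ∈ PS δ X, (Real.log p / LL X) ^ 2 / p ≤
      2 * Csum * δ * Q := by
    have e1 : ∀ j : Fin K, Q * (∑ a ∈ A, (A.card : ℝ) * (2 ^ K * Ca a j)) * ∑ p ∈ PS δ X, (Real.log p / LL X) ^ 2 / p ≤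
        Q * (2 * δ) * (∑ a ∈ A, (A.card : ℝ) * (2 ^ K * Ca a j)) := by
      intro j
      have h0 : 0 ≤ ∑ a ∈ A, (A.card : ℝ) * (2 ^ K * Ca a j) := sum_nonneg fun a _ => by
        have := hCa0 a j; positivity
      have h10 : ∑ p ∈ PS δ X, (Real.log p / LL X) ^ 2 / p ≤ 2 * δ := by
        refine h2.trans ?_
        nlinarith
      calc Q * (∑ a ∈ A, (A.card : ℝ) * (2 ^ K * Ca a j)) * ∑ p ∈ PS δ X, (Real.log p / LL X) ^ 2 / p ≤
          Q * (∑ a ∈ A, (A.card : ℝ) * (2 ^ K * Ca a j)) * (2 * δ) := mul_le_mul_of_nonneg_left h10 (by positivity)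
        _ = _ := by ring
    refine (sum_le_sum fun j _ => e1 j).trans (le_of_eq ?_)
    rw [← mul_sum, hCsum]
    ring
  have d3 : ∑ _j : Fin K, ((PS δ X).card : ℝ) * (((A.card : ℝ) ^ 2 * 5 + (A.card : ℝ) ^ 2 * (5 * 2 ^ (2 * K))) * Real.exp (2 * LL X)) ≤
      δ * Q := by
    rw [sum_const, nsmul_eq_mul, card_univ, Fintype.card_fin]
    refine le_trans ?_ (h3 W E hCS.pos hCS.le hCS.gs.pr)
    have e5 : Real.exp (3 * LL X) = Real.exp (LL X) * Real.exp (2 * LL X) := by rw [← Real.exp_add]; ring_nf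
    have e6 : ((PS δ X).card : ℝ) ≤ Real.exp (LL X) := hcard.trans hexpδ
    calc (K : ℝ) * (((PS δ X).card : ℝ) * (((A.card : ℝ) ^ 2 * 5 + (A.card : ℝ) ^ 2 * (5 * 2 ^ (2 * K))) * Real.exp (2 * LL X))) ≤
        K * (Real.exp (LL X) * (((A.card : ℝ) ^ 2 * 5 + (A.card : ℝ) ^ 2 * (5 * 2 ^ (2 * K))) * Real.exp (2 * LL X))) := by
          gcongr
      _ = Cerr * Real.exp (3 * LL X) := by rw [hCerr, e5]; ring
  linarith

end Pool.Agent.H387R2.MB
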