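import Pool.Agent.H387R2.MB5
import Pool.Agent.H378R2.M7n

set_option autoImplicit false

open Finset Filter Topology
open scoped ContDiff

namespace Pool.Agent.H387R2.MB

open Pool.Agent.H378R2

/-- the error term from Bombieri-Vinogradov -/
noncomputable def BVe (K0 : ℕ) (X : ℝ) (W : ℕ) (Bc : ℕ → ℕ) : ℝ :=
  ∑ q ∈ (Icc 1 ⌊X ^ (1 / 100 : ℝ)⌋₊).filter (fun q => Squarefree q ∧ q.Coprime W),
    (q.divisors.card : ℝ) ^ (2 * K0) * |EPhi X (W * q) (Bc q)|

theorem S2pair' {K0 B : ℕ} (f : Fin B → ℝ → ℝ) (c : Fin B → ℝ)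
    (hsm : ∀ l, ContDiff ℝ ∞ (f l)) (hcs : ∀ l, HasCompactSupport (f l)) (hf0 : ∀ l x, c l < x → f l x = 0)
    (hc : ∀ l, 0 ≤ c l ∧ c l ≤ 1 / 2) (hf1 : ∀ l x, |f l x| ≤ 1)
    (ε1 : ℝ) (hε1 : 0 < ε1) (a b : Fin (K0 + 1) → Fin B) (i : Fin (K0 + 1))
    (ha : ∑ j, c (a j) ≤ 1) (hb : ∑ j, c (b j) ≤ 1) :
    ∃ z : ℕ, ∀ᶠ X : ℝ in atTop, ∀ (W : ℕ) (E : Finset ℕ) (a0 : ℕ) (t : Fin (K0 + 1) → ℕ) (T0 : ℝ),
      CW X z W E → DT E t →
      (∀ j, (t j : ℝ) ≤ T0) → T0 ≤ X / 2 → ((a0 + t i).Coprime W) →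
      ∀ Bc : ℕ → ℕ, (∀ q, 1 ≤ q → ∀ b' : ℕ, b'.Coprime (W * q) →
        |EPhi X (W * q) b'| ≤ |EPhi X (W * q) (Bc q)|) →
      |∑ n ∈ Icc 1 ⌊3 * X⌋₊, nu X W a0 n * th (n + t i) * PR E X f a b i t (n + t i) -
        (LPhi X * (1 / (W.totient : ℝ))) * (1 / (LL X * BE E) ^ K0) *
          ∏ j : Fin K0, DD (f (a (i.succAbove j))) (f (b (i.succAbove j)))| ≤
      (LPhi X * (1 / (W.totient : ℝ))) * (1 / (LL X * BE E) ^ K0) * ε1 +
        (BVe K0 X W Bc + Real.exp (2 * LL X) *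
          ((4 * T0) * Real.log (4 * X) + 4 * Real.sqrt X * Real.log (4 * X))) := by
  classical
  obtain ⟨z, hev⟩ := asympE K0 (fun j => f (a (i.succAbove j))) (fun j => f (b (i.succAbove j))) (fun j => hsm _) (fun j => hsm _)
      (fun j => hcs _) (fun j => hcs _) (fun j x hx => hf0 _ x ((hc _).2.trans_lt hx))
      (fun j x hx => hf0 _ x ((hc _).2.trans_lt hx)) ε1 hε1
  refine ⟨z, ?_⟩
  filter_upwards [hev, eventually_ge_atTop 4, LL_tendsto.eventually_ge_atTop 1] with X h1 h4 h6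
  intro W E a0 t T0 hC ht htT hT0 hcop Bc hBc
  have hWpos : 0 < W := hC.pos
  have hBE : 0 < BE E := BE_pos hC.ge.pr
  have hLB : 0 < LL X * BE E := by positivity
  have hsum : ∑ j : Fin K0, c (a (i.succAbove j)) + ∑ j : Fin K0, c (b (i.succAbove j)) ≤ 2 := by
    have := sum_succAbove_le c (fun l => (hc l).1) a i
    have := sum_succAbove_le c (fun l => (hc l).1) b i
    linarith
  -- step 1 : shift
  have s1 := shift_bound X h4 W a0 (t i) ((htT i).trans hT0) (PR E X f a b i t) (Real.exp (2 * LL X)) (fun n => by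
        unfold PR
        exact prod_VV_le E (RR X) (LL X) (by linarith) f c hf0 hf1 (fun j => a (i.succAbove j))
          (fun j => b (i.succAbove j)) hsum _)
  -- step 2 : sieve
  have s2 := sum2 X W W (a0 + t i) hWpos hcop (fun j => f (a (i.succAbove j))) (fun j => f (b (i.succAbove j)))
    (LL X) 1 (by linarith) zero_le_one (fun j => c (a (i.succAbove j))) (fun j => c (b (i.succAbove j)))
    (fun j x => hf1 _ x) (fun j x => hf1 _ x)
    (fun j x hx => hf0 _ x hx) (fun j x hx => hf0 _ x hx) (fun _ => E) (RR X)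
    (fun j => (t (i.succAbove j) : ℤ) - t i)
    (fun _ p hp h => hC.dv p hp h)
    (fun _ p hp h => hC.dv p hp h)
    (fun j p hp h => ht _ _ (Fin.succAbove_ne i j) p hp h)
    (by
      intro j k hjk p hp hpE _ n hh
      have hne : i.succAbove j ≠ i.succAbove k := fun h => hjk (Fin.succAbove_right_injective h)
      apply ht _ _ hne p hp hpE
      have := dvd_sub hh.1 hh.2
      have h8 : (n : ℤ) + ((t (i.succAbove j) : ℤ) - t i) - (n + ((t (i.succAbove k) : ℤ) - t i)) =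
        t (i.succAbove j) - t (i.succAbove k) := by ring
      rwa [h8] at this)
    Bc hBc
  have s3 : ∑ n ∈ Icc 1 ⌊3 * X⌋₊, (if n ≡ a0 + t i [MOD W] then Phi (n / X) * ArithmeticFunction.vonMangoldt n else 0) *
      PR E X f a b i t n =
      ∑ n ∈ Icc 1 ⌊3 * X⌋₊, (if n ≡ a0 + t i [MOD W] then Phi (n / X) * ArithmeticFunction.vonMangoldt n else 0) *
        ∏ j : Fin K0, (VVm E (RR X) (LL X) (f (a (i.succAbove j))) (n + ((t (i.succAbove j) : ℤ) - t i)) *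
          VVm E (RR X) (LL X) (f (b (i.succAbove j))) (n + ((t (i.succAbove j) : ℤ) - t i))) := rfl
  rw [← s3] at s2
  have s4 : (1 : ℝ) ^ (2 * K0) * ∑ q ∈ (Icc 1 ⌊Real.exp (LL X * (∑ j : Fin K0, c (a (i.succAbove j)) +
      ∑ j : Fin K0, c (b (i.succAbove j))))⌋₊).filter
      (fun q => Squarefree q ∧ q.Coprime W), (q.divisors.card : ℝ) ^ (2 * K0) * |EPhi X (W * q) (Bc q)| ≤
      BVe K0 X W Bc := by
    rw [one_pow, one_mul]
    unfold BVe
    apply Finset.sum_le_sum_of_subset_of_nonneg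
    · apply Finset.filter_subset_filter
      apply Finset.Icc_subset_Icc le_rfl
      apply Nat.floor_le_floor
      rw [← exp_two_LL X (by linarith)]
      apply Real.exp_le_exp.2
      nlinarith
    · intro q _ _
      positivity
  -- step 3 : asymptotics
  have s5 := h1 (fun _ => E) (fun p _ => 1 / ((p : ℝ) - 1)) (fun _ => hC.ge) (fun _ p hp => w_two hp)
  have k3 : ∏ j : Fin K0, (LL X * BE E) = (LL X * BE E) ^ K0 := by
    rw [Finset.prod_const, Finset.card_univ, Fintype.card_fin]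
  rw [k3] at s5
  set SS := sieveSum K0 (fun j => f (a (i.succAbove j))) (fun j => f (b (i.succAbove j))) (LL X) (fun _ => E)
    (fun p _ => 1 / ((p : ℝ) - 1)) (RR X)
  set D := ∏ j : Fin K0, DD (f (a (i.succAbove j))) (f (b (i.succAbove j))) with hD
  have hLP : 0 ≤ LPhi X * (1 / (W.totient : ℝ)) := by
    apply mul_nonneg
    · unfold LPhi
      exact Finset.sum_nonneg fun n _ => mul_nonneg (Phi_nonneg _) ArithmeticFunction.vonMangoldt_nonneg
    · positivity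
  have s6 : |(LPhi X * (1 / (W.totient : ℝ))) * SS -
      (LPhi X * (1 / (W.totient : ℝ))) * (1 / (LL X * BE E) ^ K0) * D| ≤
      (LPhi X * (1 / (W.totient : ℝ))) * (1 / (LL X * BE E) ^ K0) * ε1 := by
    have : (LPhi X * (1 / (W.totient : ℝ))) * SS -
      (LPhi X * (1 / (W.totient : ℝ))) * (1 / (LL X * BE E) ^ K0) * D =
      (LPhi X * (1 / (W.totient : ℝ))) * (1 / (LL X * BE E) ^ K0) * ((LL X * BE E) ^ K0 * SS - D) := by
      field_simp
    rw [this, abs_mul, abs_of_nonneg (by positivity)]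
    exact mul_le_mul_of_nonneg_left s5 (by positivity)
  have s7 : Real.exp (2 * LL X) * ((4 * (t i : ℝ)) * Real.log (4 * X) + 4 * Real.sqrt X * Real.log (4 * X)) ≤
      Real.exp (2 * LL X) * ((4 * T0) * Real.log (4 * X) + 4 * Real.sqrt X * Real.log (4 * X)) := by
    have hti : (t i : ℝ) ≤ T0 := htT i
    have hl : 0 ≤ Real.log (4 * X) := Real.log_nonneg (by linarith)
    gcongr
  have s8 := abs_le.1 s1
  have s9 := abs_le.1 s2
  have s10 := abs_le.1 s6
  rw [abs_le]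
  constructor <;> linarith [s8.1, s8.2, s9.1, s9.2, s10.1, s10.2, s4, s7]

/-- lower bound of the second sum -/
theorem S2low {K0 B : ℕ} (f : Fin B → ℝ → ℝ) (c : Fin B → ℝ)
    (A : Finset (Fin (K0 + 1) → Fin B))
    (hsm : ∀ l, ContDiff ℝ ∞ (f l)) (hcs : ∀ l, HasCompactSupport (f l)) (hf0 : ∀ l x, c l < x → f l x = 0)
    (hc : ∀ l, 0 ≤ c l ∧ c l ≤ 1 / 2) (hA : ∀ a ∈ A, ∑ j, c (a j) ≤ 1) (hf1 : ∀ l x, |f l x| ≤ 1)
    (ε1 : ℝ) (hε1 : 0 < ε1) :
    ∃ z : ℕ, ∀ᶠ X : ℝ in atTop, ∀ (W : ℕ) (E : Finset ℕ) (a0 : ℕ) (t : Fin (K0 + 1) → ℕ) (T0 : ℝ),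
      CW X z W E → DT E t →
      (∀ j, (t j : ℝ) ≤ T0) → T0 ≤ X / 2 → (∀ i, (a0 + t i).Coprime W) →
      ∀ Bc : ℕ → ℕ, (∀ q, 1 ≤ q → ∀ b' : ℕ, b'.Coprime (W * q) →
        |EPhi X (W * q) b'| ≤ |EPhi X (W * q) (Bc q)|) →
      ∀ i, (LPhi X * (1 / (W.totient : ℝ))) * (1 / (LL X * BE E) ^ K0) *
          (JJ f A i - ε1) -
        (A.card : ℝ) ^ 2 * (BVe K0 X W Bc + Real.exp (2 * LL X) *
          ((4 * T0) * Real.log (4 * X) + 4 * Real.sqrt X * Real.log (4 * X))) ≤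
      ∑ n ∈ Icc 1 ⌊3 * X⌋₊, nu X W a0 n * (sqw E X f A (fun j => (n : ℤ) + t j) ^ 2 * th (n + t i)) := by
  classical
  have hz : ∀ (i : Fin (K0 + 1)) (a b : Fin (K0 + 1) → Fin B), ∃ z : ℕ, a ∈ A → b ∈ A →
    ∀ᶠ X : ℝ in atTop, ∀ (W : ℕ) (E : Finset ℕ) (a0 : ℕ) (t : Fin (K0 + 1) → ℕ) (T0 : ℝ),
      CW X z W E → DT E t →
      (∀ j, (t j : ℝ) ≤ T0) → T0 ≤ X / 2 → ((a0 + t i).Coprime W) →
      ∀ Bc : ℕ → ℕ, (∀ q, 1 ≤ q → ∀ b' : ℕ, b'.Coprime (W * q) →
        |EPhi X (W * q) b'| ≤ |EPhi X (W * q) (Bc q)|) →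
      |∑ n ∈ Icc 1 ⌊3 * X⌋₊, nu X W a0 n * th (n + t i) * PR E X f a b i t (n + t i) -
        (LPhi X * (1 / (W.totient : ℝ))) * (1 / (LL X * BE E) ^ K0) *
          ∏ j : Fin K0, DD (f (a (i.succAbove j))) (f (b (i.succAbove j)))| ≤
      (LPhi X * (1 / (W.totient : ℝ))) * (1 / (LL X * BE E) ^ K0) * (ε1 / ((A.card : ℝ) ^ 2 + 1)) +
        (BVe K0 X W Bc + Real.exp (2 * LL X) *
          ((4 * T0) * Real.log (4 * X) + 4 * Real.sqrt X * Real.log (4 * X))) := by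
    intro i a b
    by_cases hab : a ∈ A ∧ b ∈ A
    · obtain ⟨z, hz⟩ := S2pair' f c hsm hcs hf0 hc hf1 (ε1 / ((A.card : ℝ) ^ 2 + 1)) (by positivity) a b i
        (hA a hab.1) (hA b hab.2)
      exact ⟨z, fun _ _ => hz⟩
    · exact ⟨0, fun h1 h2 => absurd ⟨h1, h2⟩ hab⟩
  choose z hz using hz
  set zz : ℕ := univ.sup (fun i : Fin (K0 + 1) => A.sup (fun a => A.sup (fun b => z i a b))) with hzz
  have hzle : ∀ i, ∀ a ∈ A, ∀ b ∈ A, z i a b ≤ zz := by
    intro i a ha b hb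
    have h1 : z i a b ≤ A.sup (fun b => z i a b) := Finset.le_sup (f := fun b => z i a b) hb
    have h2 : A.sup (fun b => z i a b) ≤ A.sup (fun a => A.sup (fun b => z i a b)) :=
      Finset.le_sup (f := fun a => A.sup (fun b => z i a b)) ha
    have h3 : A.sup (fun a => A.sup (fun b => z i a b)) ≤ zz :=
      Finset.le_sup (f := fun i : Fin (K0 + 1) => A.sup (fun a => A.sup (fun b => z i a b))) (Finset.mem_univ i)
    exact h1.trans (h2.trans h3)
  refine ⟨zz, ?_⟩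
  have hev : ∀ i : Fin (K0 + 1), ∀ᶠ X : ℝ in atTop, ∀ a ∈ A, ∀ b ∈ A,
    ∀ (W : ℕ) (E : Finset ℕ) (a0 : ℕ) (t : Fin (K0 + 1) → ℕ) (T0 : ℝ),
      CW X (z i a b) W E → DT E t →
      (∀ j, (t j : ℝ) ≤ T0) → T0 ≤ X / 2 → ((a0 + t i).Coprime W) →
      ∀ Bc : ℕ → ℕ, (∀ q, 1 ≤ q → ∀ b' : ℕ, b'.Coprime (W * q) →
        |EPhi X (W * q) b'| ≤ |EPhi X (W * q) (Bc q)|) →
      |∑ n ∈ Icc 1 ⌊3 * X⌋₊, nu X W a0 n * th (n + t i) * PR E X f a b i t (n + t i) -
        (LPhi X * (1 / (W.totient : ℝ))) * (1 / (LL X * BE E) ^ K0) *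
          ∏ j : Fin K0, DD (f (a (i.succAbove j))) (f (b (i.succAbove j)))| ≤
      (LPhi X * (1 / (W.totient : ℝ))) * (1 / (LL X * BE E) ^ K0) * (ε1 / ((A.card : ℝ) ^ 2 + 1)) +
        (BVe K0 X W Bc + Real.exp (2 * LL X) *
          ((4 * T0) * Real.log (4 * X) + 4 * Real.sqrt X * Real.log (4 * X))) := by
    intro i
    rw [Filter.eventually_all_finset]
    intro a ha
    rw [Filter.eventually_all_finset]
    intro b hb
    exact hz i a b ha hb
  rw [← Filter.eventually_all] at hev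
  have hR : ∀ᶠ X : ℝ in atTop, 1 ≤ RR X ∧ (RR X : ℝ) < X := by
    filter_upwards [LL_tendsto.eventually_ge_atTop 1, eventually_gt_atTop 1] with X h1 h2
    have hlog : 0 < Real.log X := Real.log_pos h2
    constructor
    · unfold RR
      apply Nat.le_floor
      rw [Nat.cast_one]
      exact Real.one_le_exp (by linarith)
    · unfold RR
      calc (⌊Real.exp (LL X)⌋₊ : ℝ) ≤ Real.exp (LL X) := Nat.floor_le (Real.exp_pos _).le
        _ < Real.exp (Real.log X) := by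
            apply Real.exp_lt_exp.2
            unfold LL
            linarith
        _ = X := Real.exp_log (by linarith)
  filter_upwards [hev, hR, eventually_ge_atTop 4] with X h1 h2 h4
  intro W E a0 t T0 hC ht htT hT0 hcop Bc hBc i
  have hterm : ∀ n ∈ Icc 1 ⌊3 * X⌋₊, nu X W a0 n * (sqw E X f A (fun j => (n : ℤ) + t j) ^ 2 * th (n + t i)) =
      ∑ a ∈ A, ∑ b ∈ A, f (a i) 0 * f (b i) 0 * (nu X W a0 n * th (n + t i) * PR E X f a b i t (n + t i)) := by
    intro n _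
    by_cases hz : nu X W a0 n * th (n + t i) = 0
    · have e1 : nu X W a0 n * (sqw E X f A (fun j => (n : ℤ) + t j) ^ 2 * th (n + t i)) =
        (nu X W a0 n * th (n + t i)) * sqw E X f A (fun j => (n : ℤ) + t j) ^ 2 := by ring
      rw [e1, hz, zero_mul]
      symm
      apply Finset.sum_eq_zero; intro a _
      apply Finset.sum_eq_zero; intro b _
      rw [zero_mul, mul_zero]
    · have hnu : nu X W a0 n ≠ 0 := fun h => hz (by rw [h, zero_mul])
      have hth : th (n + t i) ≠ 0 := fun h => hz (by rw [h, mul_zero])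
      have hp : (n + t i).Prime := by
        by_contra hnp
        apply hth
        unfold th
        rw [if_neg hnp]
      have hXn : X < n := by
        by_contra hle
        push Not at hle
        apply hnu
        unfold nu
        rw [Phi_eq_zero_of_le (by positivity) (by rw [div_le_one (by linarith)]; exact hle), ite_self]
      have hRn : RR X < n + t i := by
        have h3 : (RR X : ℝ) < n := h2.2.trans hXn
        have h5 : RR X < n := by exact_mod_cast h3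
        omega
      rw [sqw_at_prime E X f A i t n h2.1 hp hRn, Finset.sum_mul, Finset.mul_sum]
      refine Finset.sum_congr rfl fun a _ => ?_
      rw [Finset.sum_mul, Finset.mul_sum]
      refine Finset.sum_congr rfl fun b _ => ?_
      ring
  rw [Finset.sum_congr rfl hterm]
  have hexch : ∑ n ∈ Icc 1 ⌊3 * X⌋₊, ∑ a ∈ A, ∑ b ∈ A,
      f (a i) 0 * f (b i) 0 * (nu X W a0 n * th (n + t i) * PR E X f a b i t (n + t i)) =
      ∑ a ∈ A, ∑ b ∈ A, f (a i) 0 * f (b i) 0 *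
        ∑ n ∈ Icc 1 ⌊3 * X⌋₊, nu X W a0 n * th (n + t i) * PR E X f a b i t (n + t i) := by
    rw [Finset.sum_comm]
    refine Finset.sum_congr rfl fun a _ => ?_
    rw [Finset.sum_comm]
    refine Finset.sum_congr rfl fun b _ => ?_
    rw [Finset.mul_sum]
  rw [hexch]
  set M1 := (LPhi X * (1 / (W.totient : ℝ))) * (1 / (LL X * BE E) ^ K0) with hM1
  set Er := BVe K0 X W Bc + Real.exp (2 * LL X) *
          ((4 * T0) * Real.log (4 * X) + 4 * Real.sqrt X * Real.log (4 * X)) with hEr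
  have hpair : ∀ a ∈ A, ∀ b ∈ A, M1 * (f (a i) 0 * f (b i) 0 * ∏ j : Fin K0, DD (f (a (i.succAbove j))) (f (b (i.succAbove j)))) -
      (M1 * (ε1 / ((A.card : ℝ) ^ 2 + 1)) + Er) ≤ f (a i) 0 * f (b i) 0 *
        ∑ n ∈ Icc 1 ⌊3 * X⌋₊, nu X W a0 n * th (n + t i) * PR E X f a b i t (n + t i) := by
    intro a ha b hb
    have k1 := h1 i a ha b hb W E a0 t T0 ⟨hC.ge.mono (hzle i a ha b hb), hC.pos, hC.le, hC.dv⟩ ht htT hT0 (hcop i) Bc hBc
    have k2 : |f (a i) 0 * f (b i) 0| ≤ 1 := by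
      rw [abs_mul]
      calc |f (a i) 0| * |f (b i) 0| ≤ 1 * 1 := mul_le_mul (hf1 _ _) (hf1 _ _) (abs_nonneg _) zero_le_one
        _ = 1 := one_mul 1
    set U := ∑ n ∈ Icc 1 ⌊3 * X⌋₊, nu X W a0 n * th (n + t i) * PR E X f a b i t (n + t i)
    set D := ∏ j : Fin K0, DD (f (a (i.succAbove j))) (f (b (i.succAbove j)))
    have k3 : |f (a i) 0 * f (b i) 0 * (U - M1 * D)| ≤ M1 * (ε1 / ((A.card : ℝ) ^ 2 + 1)) + Er := by
      rw [abs_mul]
      calc |f (a i) 0 * f (b i) 0| * |U - M1 * D| ≤ 1 * (M1 * (ε1 / ((A.card : ℝ) ^ 2 + 1)) + Er) :=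
            mul_le_mul k2 k1 (abs_nonneg _) zero_le_one
        _ = _ := one_mul _
    have k4 := (abs_le.1 k3).1
    have k5 : f (a i) 0 * f (b i) 0 * (U - M1 * D) = f (a i) 0 * f (b i) 0 * U - M1 * (f (a i) 0 * f (b i) 0 * D) := by
      ring
    rw [k5] at k4
    linarith
  refine le_trans ?_ (Finset.sum_le_sum fun a ha => Finset.sum_le_sum fun b hb => hpair a ha b hb)
  simp_rw [Finset.sum_sub_distrib, ← Finset.mul_sum, Finset.sum_const, nsmul_eq_mul]
  have hfin : ((A.card : ℝ) * ((A.card : ℝ) * (ε1 / ((A.card : ℝ) ^ 2 + 1)))) ≤ ε1 := by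
    have : (A.card : ℝ) * ((A.card : ℝ) * (ε1 / ((A.card : ℝ) ^ 2 + 1))) =
        ((A.card : ℝ) ^ 2 / ((A.card : ℝ) ^ 2 + 1)) * ε1 := by ring
    rw [this]
    have h7 : (A.card : ℝ) ^ 2 / ((A.card : ℝ) ^ 2 + 1) ≤ 1 := by
      rw [div_le_one (by positivity)]; linarith
    nlinarith
  have hM1nn : 0 ≤ M1 := by
    rw [hM1]
    apply mul_nonneg
    · apply mul_nonneg
      · unfold LPhi
        exact Finset.sum_nonneg fun n _ => mul_nonneg (Phi_nonneg _) ArithmeticFunction.vonMangoldt_nonneg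
      · positivity
    · apply one_div_nonneg.2
      apply pow_nonneg
      apply mul_nonneg
      · unfold LL
        have := Real.log_nonneg (by linarith : (1 : ℝ) ≤ X)
        positivity
      · exact (BE_pos hC.ge.pr).le
  have hJ : JJ f A i = ∑ a ∈ A, ∑ b ∈ A, f (a i) 0 * f (b i) 0 * ∏ j : Fin K0, DD (f (a (i.succAbove j))) (f (b (i.succAbove j))) := rfl
  rw [← hJ]
  have := mul_le_mul_of_nonneg_left hfin hM1nn
  calc M1 * (JJ f A i - ε1) - (A.card : ℝ) ^ 2 * Er = M1 * JJ f A i - M1 * ε1 - (A.card : ℝ) ^ 2 * Er := by ring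
    _ ≤ M1 * JJ f A i - M1 * ((A.card : ℝ) * ((A.card : ℝ) * (ε1 / ((A.card : ℝ) ^ 2 + 1)))) - (A.card : ℝ) ^ 2 * Er := by
        linarith
    _ = _ := by ring

end Pool.Agent.H387R2.MB
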