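import Pool.Agent.H387R2.MB6
import Pool.Agent.H378R2.M7s
import Pool.Agent.H410R2.MFinal

set_option autoImplicit false

open Finset Filter Topology
open scoped ContDiff

namespace Pool.Agent.H387R2.MB

open Pool.Agent.H378R2
open Pool.Agent.H410R2 (psiLogAP psiLog1)

/-- tent as a combination of three ramps -/
lemma tent_eq (x : ℝ) : max 0 (1 / 2 - |x - 1 / 2|) = max 0 (1 - x) - 2 * max 0 (1 / 2 - x) + max 0 (-x) := by
  rcases le_total x 0 with h | h
  · rw [abs_of_nonpos (by linarith), max_eq_left (by linarith), max_eq_right (by linarith), max_eq_right (by linarith),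
      max_eq_right (by linarith)]
    ring
  · rcases le_total x (1 / 2) with h1 | h1
    · rw [abs_of_nonpos (by linarith), max_eq_right (by linarith), max_eq_right (by linarith), max_eq_right (by linarith),
        max_eq_left (by linarith)]
      ring
    · rcases le_total x 1 with h2 | h2
      · rw [abs_of_nonneg (by linarith), max_eq_right (by linarith), max_eq_right (by linarith), max_eq_left (by linarith),
          max_eq_left (by linarith)]
        ring
      · rw [abs_of_nonneg (by linarith), max_eq_left (by linarith), max_eq_left (by linarith), max_eq_left (by linarith),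
          max_eq_left (by linarith)]
        ring

lemma ramp_sum (X s : ℝ) (hX : 4 ≤ X) (hs0 : 0 ≤ s) (hs1 : s ≤ 1) (P : ℕ → Prop) [DecidablePred P] :
    ∑ n ∈ (Icc 1 ⌊3 * X⌋₊).filter P, max 0 (s - Real.log (n / X)) * ArithmeticFunction.vonMangoldt n =
    ∑ n ∈ (Icc 1 ⌊Real.exp s * X⌋₊).filter P, ArithmeticFunction.vonMangoldt n * Real.log (Real.exp s * X / n) := by
  have he : Real.exp s ≤ 3 := (Real.exp_le_exp.2 hs1).trans exp_one_lt_three'.le
  have hX0 : 0 < X := by linarith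
  symm
  have hsub : (Icc 1 ⌊Real.exp s * X⌋₊).filter P ⊆ (Icc 1 ⌊3 * X⌋₊).filter P := by
    apply filter_subset_filter
    apply Icc_subset_Icc le_rfl
    apply Nat.floor_le_floor
    nlinarith
  have hlog : ∀ n : ℕ, 1 ≤ n → Real.log (Real.exp s * X / n) = s - Real.log (n / X) := by
    intro n hn
    have hn0 : (0:ℝ) < n := by exact_mod_cast hn
    rw [Real.log_div (by positivity) hn0.ne', Real.log_mul (Real.exp_pos _).ne' hX0.ne', Real.log_exp,
      Real.log_div hn0.ne' hX0.ne']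
    ring
  rw [← sum_subset hsub]
  · apply sum_congr rfl
    intro n hn
    rw [mem_filter, mem_Icc] at hn
    rw [hlog n hn.1.1]
    have hn0 : (0:ℝ) < n := by exact_mod_cast hn.1.1
    have h1 : (n : ℝ) ≤ Real.exp s * X := by
      have := Nat.floor_le (by positivity : 0 ≤ Real.exp s * X)
      have h2 : (n : ℝ) ≤ (⌊Real.exp s * X⌋₊ : ℝ) := by exact_mod_cast hn.1.2
      linarith
    have h2 : 0 ≤ Real.log (Real.exp s * X / n) := by
      apply Real.log_nonneg
      rw [le_div_iff₀ hn0]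
      linarith
    rw [hlog n hn.1.1] at h2
    rw [max_eq_right h2]
    ring
  · intro n hn hn'
    rw [mem_filter, mem_Icc] at hn hn'
    have h1 : ¬ n ≤ ⌊Real.exp s * X⌋₊ := fun h => hn' ⟨⟨hn.1.1, h⟩, hn.2⟩
    rw [not_le, Nat.floor_lt (by positivity)] at h1
    have hn0 : (0:ℝ) < n := by exact_mod_cast hn.1.1
    have h2 : s - Real.log (n / X) ≤ 0 := by
      rw [← hlog n hn.1.1]
      apply Real.log_nonpos
      · positivity
      · rw [div_le_one hn0]
        exact h1.le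
    rw [max_eq_left h2, zero_mul]

/-- discrepancy of the log weighted sum -/
noncomputable def DAP (Y : ℝ) (Q b : ℕ) : ℝ := psiLogAP Y Q b - psiLog1 Y / (Q.totient : ℝ)

lemma EPhi_DAP (X : ℝ) (hX : 4 ≤ X) (Q b : ℕ) :
    EPhi X Q b = DAP (Real.exp 1 * X) Q b - 2 * DAP (Real.exp (1 / 2) * X) Q b + DAP (Real.exp 0 * X) Q b := by
  unfold EPhi DAP psiLogAP psiLog1
  have key : ∀ (P : ℕ → Prop) [DecidablePred P], ∑ n ∈ (Icc 1 ⌊3 * X⌋₊).filter P, Phi (n / X) * ArithmeticFunction.vonMangoldt n =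
      ∑ n ∈ (Icc 1 ⌊Real.exp 1 * X⌋₊).filter P, ArithmeticFunction.vonMangoldt n * Real.log (Real.exp 1 * X / n) -
      2 * ∑ n ∈ (Icc 1 ⌊Real.exp (1/2) * X⌋₊).filter P, ArithmeticFunction.vonMangoldt n * Real.log (Real.exp (1/2) * X / n) +
      ∑ n ∈ (Icc 1 ⌊Real.exp 0 * X⌋₊).filter P, ArithmeticFunction.vonMangoldt n * Real.log (Real.exp 0 * X / n) := by
    intro P _
    rw [← ramp_sum X 1 hX (by norm_num) le_rfl, ← ramp_sum X (1/2) hX (by norm_num) (by norm_num),
      ← ramp_sum X 0 hX le_rfl (by norm_num), mul_sum, ← sum_sub_distrib, ← sum_add_distrib]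
    apply sum_congr rfl
    intro n _
    unfold Phi
    rw [tent_eq, zero_sub]
    ring
  have k1 := key (fun n => n ≡ b [MOD Q])
  have k2 := key (fun _ => True)
  simp only [filter_true] at k2
  rw [k1, k2]
  ring

lemma card_div_sqf {q : ℕ} (hq : Squarefree q) : q.divisors.card = 2 ^ q.primeFactors.card := by
  rw [Nat.card_divisors hq.ne_zero, ← prod_const]
  apply prod_congr rfl
  intro p hp
  have hpp := Nat.prime_of_mem_primeFactors hp
  have h1 : q.factorization p ≤ 1 := hq.natFactorization_le_one p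
  have h2 : 0 < q.factorization p := hpp.factorization_pos_of_dvd hq.ne_zero (Nat.dvd_of_mem_primeFactors hp)
  omega

/-- one ramp -/
theorem DAP_sum (K0 A : ℕ) (s : ℝ) (hs0 : 0 ≤ s) : ∀ᶠ X : ℝ in atTop, ∀ W : ℕ, Squarefree W →
    (W : ℝ) ≤ (Real.log X) ^ 3 → ∀ Bc : ℕ → ℕ, (∀ q, 1 ≤ q → (Bc q).Coprime (W * q)) →
    ∑ q ∈ (Icc 1 ⌊X ^ (1 / 100 : ℝ)⌋₊).filter (fun q => Squarefree q ∧ q.Coprime W),
      (q.divisors.card : ℝ) ^ (2 * K0) * |DAP (Real.exp s * X) (W * q) (Bc q)| ≤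
      (Real.exp s * X) / (Real.log (Real.exp s * X)) ^ A := by
  obtain ⟨X0, h0⟩ := Pool.Agent.H410R2.bvap 1 le_rfl ((2 : ℝ) ^ (2 * K0)) (one_le_pow₀ (by norm_num)) (1 / 4) (by norm_num) A
  have e1 : (fun X : ℝ => Real.log X) =o[atTop] (fun X : ℝ => X ^ (1 / 300 : ℝ)) := isLittleO_log_rpow_atTop (by norm_num)
  filter_upwards [eventually_ge_atTop X0, eventually_ge_atTop 4, e1.def (by norm_num : (0 : ℝ) < 1)] with X h1 h4 hlog
  intro W hWsq hW Bc hBc
  rw [one_mul, Real.norm_of_nonneg (Real.log_nonneg (by linarith)), Real.norm_of_nonneg (Real.rpow_nonneg (by linarith) _)] at hlog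
  have hX0 : 0 < X := by linarith
  have hes : 1 ≤ Real.exp s := Real.one_le_exp hs0
  have hYX : X ≤ Real.exp s * X := by nlinarith
  have hW0 : 0 < W := Nat.pos_of_ne_zero hWsq.ne_zero
  have hW' : (W : ℝ) ≤ X ^ (1 / 100 : ℝ) := by
    calc (W : ℝ) ≤ (Real.log X) ^ 3 := hW
      _ ≤ (X ^ (1 / 300 : ℝ)) ^ 3 := pow_le_pow_left₀ (Real.log_nonneg (by linarith)) hlog 3
      _ = X ^ (1 / 100 : ℝ) := by
          rw [← Real.rpow_natCast, ← Real.rpow_mul hX0.le]
          norm_num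
  have k := h0 (Real.exp s * X) (h1.trans hYX) (fun Q => if W ∣ Q ∧ 0 < Q then Bc (Q / W) else 1)
  refine le_trans ?_ k
  refine le_trans ?_ (sum_le_sum_of_subset_of_nonneg (s := ((Icc 1 ⌊X ^ (1 / 100 : ℝ)⌋₊).filter
    (fun q => Squarefree q ∧ q.Coprime W)).image (fun q => W * q)) ?_ ?_)
  rotate_left
  · intro Q hQ
    rw [mem_image] at hQ
    obtain ⟨q, hq, rfl⟩ := hQ
    rw [mem_filter, mem_Icc] at hq
    obtain ⟨⟨hq1, hq2⟩, hq3, hq4⟩ := hq
    rw [mem_filter, mem_Icc]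
    have hWq : 0 < W * q := Nat.mul_pos hW0 hq1
    refine ⟨⟨hWq, ?_⟩, ?_, ?_⟩
    · apply Nat.le_floor
      have h5 : (q : ℝ) ≤ X ^ (1 / 100 : ℝ) := (Nat.le_floor_iff (by positivity)).1 hq2
      push_cast
      calc (W : ℝ) * q ≤ X ^ (1 / 100 : ℝ) * X ^ (1 / 100 : ℝ) := by gcongr
        _ = X ^ (1 / 50 : ℝ) := by rw [← Real.rpow_add hX0]; norm_num
        _ ≤ X ^ (1 / 2 - 1 / 4 : ℝ) := by
            apply Real.rpow_le_rpow_of_exponent_le (by linarith); norm_num
        _ ≤ (Real.exp s * X) ^ (1 / 2 - 1 / 4 : ℝ) := by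
            apply Real.rpow_le_rpow hX0.le hYX (by norm_num)
    · exact Nat.squarefree_mul_iff.2 ⟨hq4.symm, hWsq, hq3⟩
    · rw [if_pos ⟨Dvd.intro _ rfl, hWq⟩, one_mul, Nat.mul_div_cancel_left _ hW0]
      exact hBc q hq1
  · intro Q _ _
    positivity
  · rw [sum_image]
    · apply sum_le_sum
      intro q hq
      rw [mem_filter, mem_Icc] at hq
      obtain ⟨⟨hq1, hq2⟩, hq3, hq4⟩ := hq
      have hWq : 0 < W * q := Nat.mul_pos hW0 hq1
      rw [if_pos ⟨Dvd.intro _ rfl, hWq⟩, one_mul, Nat.mul_div_cancel_left _ hW0]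
      unfold DAP
      apply mul_le_mul_of_nonneg_right _ (abs_nonneg _)
      rw [card_div_sqf hq3]
      push_cast
      rw [← pow_mul, ← pow_mul]
      apply pow_le_pow_right₀ (by norm_num)
      rw [mul_comm]
      apply Nat.mul_le_mul_left
      apply card_le_card
      apply Nat.primeFactors_mono _ hWq.ne'
      exact Dvd.intro_left _ rfl
    · intro a _ b _ hab
      exact Nat.eq_of_mul_eq_mul_left hW0 hab

/-- the error term is small -/
theorem BVe_le (K0 A : ℕ) : ∀ᶠ X : ℝ in atTop, ∀ W : ℕ, Squarefree W →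
    (W : ℝ) ≤ (Real.log X) ^ 3 → ∀ Bc : ℕ → ℕ, (∀ q, 1 ≤ q → (Bc q).Coprime (W * q)) →
    BVe K0 X W Bc ≤ X / (Real.log X) ^ A := by
  filter_upwards [DAP_sum K0 (A + 1) 1 (by norm_num), DAP_sum K0 (A + 1) (1 / 2) (by norm_num),
    DAP_sum K0 (A + 1) 0 le_rfl, eventually_ge_atTop 4, Real.tendsto_log_atTop.eventually_ge_atTop 12] with X h1 h2 h3 h4 h5
  intro W hWsq hW Bc hBc
  have hX0 : 0 < X := by linarith
  have hl0 : 0 < Real.log X := by linarith
  have key : ∀ s : ℝ, 0 ≤ s → s ≤ 1 → (Real.exp s * X) / (Real.log (Real.exp s * X)) ^ (A + 1) ≤ 3 * X / (Real.log X) ^ (A + 1) := by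
    intro s hs0 hs1
    have he : Real.exp s ≤ 3 := (Real.exp_le_exp.2 hs1).trans exp_one_lt_three'.le
    have hes : 1 ≤ Real.exp s := Real.one_le_exp hs0
    apply div_le_div₀ (by positivity) (by gcongr) (by positivity)
    apply pow_le_pow_left₀ hl0.le
    apply Real.log_le_log hX0
    nlinarith
  have k1 := (h1 W hWsq hW Bc hBc).trans (key 1 (by norm_num) le_rfl)
  have k2 := (h2 W hWsq hW Bc hBc).trans (key (1/2) (by norm_num) (by norm_num))
  have k3 := (h3 W hWsq hW Bc hBc).trans (key 0 le_rfl (by norm_num))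
  have k4 : BVe K0 X W Bc ≤ ∑ q ∈ (Icc 1 ⌊X ^ (1 / 100 : ℝ)⌋₊).filter (fun q => Squarefree q ∧ q.Coprime W),
      (q.divisors.card : ℝ) ^ (2 * K0) * |DAP (Real.exp 1 * X) (W * q) (Bc q)| +
      2 * ∑ q ∈ (Icc 1 ⌊X ^ (1 / 100 : ℝ)⌋₊).filter (fun q => Squarefree q ∧ q.Coprime W),
      (q.divisors.card : ℝ) ^ (2 * K0) * |DAP (Real.exp (1 / 2) * X) (W * q) (Bc q)| +
      ∑ q ∈ (Icc 1 ⌊X ^ (1 / 100 : ℝ)⌋₊).filter (fun q => Squarefree q ∧ q.Coprime W),
      (q.divisors.card : ℝ) ^ (2 * K0) * |DAP (Real.exp 0 * X) (W * q) (Bc q)| := by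
    unfold BVe
    rw [mul_sum, ← sum_add_distrib, ← sum_add_distrib]
    apply sum_le_sum
    intro q _
    rw [EPhi_DAP X h4]
    have hτ : 0 ≤ (q.divisors.card : ℝ) ^ (2 * K0) := by positivity
    have habs : |DAP (Real.exp 1 * X) (W * q) (Bc q) - 2 * DAP (Real.exp (1 / 2) * X) (W * q) (Bc q) +
        DAP (Real.exp 0 * X) (W * q) (Bc q)| ≤ |DAP (Real.exp 1 * X) (W * q) (Bc q)| +
        2 * |DAP (Real.exp (1 / 2) * X) (W * q) (Bc q)| + |DAP (Real.exp 0 * X) (W * q) (Bc q)| := by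
      refine (abs_add_le _ _).trans ?_
      have := abs_sub (DAP (Real.exp 1 * X) (W * q) (Bc q)) (2 * DAP (Real.exp (1 / 2) * X) (W * q) (Bc q))
      rw [abs_mul, abs_of_pos (by norm_num : (0:ℝ) < 2)] at this
      linarith
    have := mul_le_mul_of_nonneg_left habs hτ
    linarith
  have k5 : 12 * X / (Real.log X) ^ (A + 1) ≤ X / (Real.log X) ^ A := by
    rw [div_le_div_iff₀ (by positivity) (by positivity), pow_succ]
    have : 0 < (Real.log X) ^ A := by positivity
    have : 12 * (X * (Real.log X) ^ A) ≤ Real.log X * (X * (Real.log X) ^ A) := by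
      apply mul_le_mul_of_nonneg_right h5 (by positivity)
    linarith
  have k6 : 12 * X / (Real.log X) ^ (A + 1) = 4 * (3 * X / (Real.log X) ^ (A + 1)) := by ring
  linarith

end Pool.Agent.H387R2.MB
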