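import Pool.Agent.H387R2.MB7
import Pool.Agent.H378R2.M7g
import Pool.Agent.H378R2.M7r

set_option autoImplicit false

open Finset Filter Topology
open scoped ContDiff

namespace Pool.Agent.H387R2.MB

open Pool.Agent.H378R2

/-- main quantity -/
noncomputable def QQ (K : ℕ) (X : ℝ) (W : ℕ) (E : Finset ℕ) : ℝ :=
  (MPhi X * (1 / (W : ℝ))) * (1 / (LL X * BE E) ^ K)

lemma QQ_ge (K : ℕ) : ∀ᶠ X : ℝ in atTop, ∀ (W : ℕ) (E : Finset ℕ), 0 < W →
    (W : ℝ) ≤ Real.log X ^ 3 → (∀ p ∈ E, p.Prime) →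
    X / (20 * Real.log X ^ (3 + K)) ≤ QQ K X W E := by
  filter_upwards [MPhi_big, LL_tendsto.eventually_ge_atTop 1, eventually_ge_atTop 4] with X h4 h6 h7
  intro W E hW hWle hE
  have hX0 : 0 < X := by linarith
  have hlog : 200 ≤ Real.log X := by
    unfold LL at h6
    linarith
  have hW0 : (0:ℝ) < W := by exact_mod_cast hW
  have hL0 : 0 < LL X := by linarith
  have hBE := BE_pos hE
  have hBE1 := BE_le_one hE
  have hLX : LL X ≤ Real.log X := by unfold LL; linarith
  have hM0 : 0 ≤ MPhi X := MPhi_nonneg X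
  have e1 : X / 20 * (1 / Real.log X ^ 3) * (1 / Real.log X ^ K) ≤
      (MPhi X * (1 / (W : ℝ))) * (1 / (LL X * BE E) ^ K) := by
    have a1 : 1 / Real.log X ^ 3 ≤ 1 / (W : ℝ) := one_div_le_one_div_of_le hW0 hWle
    have a2 : 1 / Real.log X ^ K ≤ 1 / (LL X * BE E) ^ K := by
      apply one_div_le_one_div_of_le (by positivity)
      apply pow_le_pow_left₀ (by positivity)
      calc LL X * BE E ≤ LL X * 1 := by gcongr
        _ ≤ Real.log X := by linarith
    have : (0:ℝ) ≤ 1 / Real.log X ^ K := by positivity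
    gcongr
  refine le_trans (le_of_eq ?_) e1
  rw [pow_add]
  field_simp

lemma log4X {X : ℝ} (hX : 4 ≤ X) : Real.log (4 * X) ≤ 400 * LL X := by
  rw [Real.log_mul (by norm_num) (by linarith)]
  have := Real.log_le_log (by norm_num) hX
  unfold LL
  linarith

/-- all errors together -/
lemma err_small (K : ℕ) (c η : ℝ) (hc : 0 ≤ c) (hη : 0 < η) : ∀ᶠ X : ℝ in atTop, ∀ (W : ℕ) (E : Finset ℕ) (Bv : ℝ), 0 < W →
    (W : ℝ) ≤ Real.log X ^ 3 → (∀ p ∈ E, p.Prime) → Bv ≤ X / Real.log X ^ (K + 4) →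
    c * (Bv + Real.exp (2 * LL X) * ((4 * Real.sqrt X) * Real.log (4 * X) + 4 * Real.sqrt X * Real.log (4 * X)) +
      Real.log (4 * X) * Real.exp (2 * LL X)) ≤ η * (LL X * QQ K X W E) := by
  have h1 : ∀ᶠ t : ℝ in atTop, (c * 20 * 40 / η) * t ^ (K + 4) ≤ Real.exp ((2 / 5) * t) :=
    ev_pow_exp (K + 4) (2 / 5) (c * 20 * 40 / η) (by norm_num)
  filter_upwards [Real.tendsto_log_atTop.eventually h1, QQ_ge K, LL_tendsto.eventually_ge_atTop 1, eventually_ge_atTop 4,
    Real.tendsto_log_atTop.eventually_ge_atTop (c * 40 / η)] with X h2 h3 h4 h5 h6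
  intro W E Bv hW hWle hE hBv
  have hX0 : 0 < X := by linarith
  have hlog : 200 ≤ Real.log X := by
    unfold LL at h4
    linarith
  have hl4 : Real.log (4 * X) ≤ 2 * Real.log X := by
    have := log4X h5
    unfold LL at this
    linarith
  have hl40 : 0 ≤ Real.log (4 * X) := Real.log_nonneg (by linarith)
  set l := Real.log X with hl
  have hQ := h3 W E hW hWle hE
  have hQ0 : 0 ≤ QQ K X W E := le_trans (by positivity) hQ
  have hLQ : X / (20 * l ^ (3 + K)) ≤ LL X * QQ K X W E := by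
    calc X / (20 * l ^ (3 + K)) ≤ 1 * QQ K X W E := by rw [one_mul]; exact hQ
      _ ≤ _ := mul_le_mul_of_nonneg_right h4 hQ0
  -- first error
  have a1 : c * Bv ≤ η / 2 * (LL X * QQ K X W E) := by
    calc c * Bv ≤ c * (X / l ^ (K + 4)) := mul_le_mul_of_nonneg_left hBv hc
      _ ≤ η / 2 * (X / (20 * l ^ (3 + K))) := by
          rw [show K + 4 = (3 + K) + 1 by ring, pow_succ]
          have hp : 0 < l ^ (3 + K) := by positivity
          rw [mul_div_assoc', mul_div_assoc', div_le_div_iff₀ (by positivity) (by positivity)]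
          have h7 : c * 40 ≤ η * l := by
            rw [div_le_iff₀ hη] at h6
            linarith
          have h8 : (c * 40) * (X * l ^ (3 + K)) ≤ (η * l) * (X * l ^ (3 + K)) :=
            mul_le_mul_of_nonneg_right h7 (by positivity)
          nlinarith
      _ ≤ _ := by gcongr
  have hs1 : 1 ≤ Real.sqrt X := Real.one_le_sqrt.2 (by linarith)
  have hexp : Real.exp ((2 / 5) * l) * (Real.exp (2 * LL X) * Real.sqrt X) ≤ X := by
    have e1 : Real.sqrt X = Real.exp (l / 2) := by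
      rw [Real.sqrt_eq_iff_mul_self_eq hX0.le (Real.exp_pos _).le, ← Real.exp_add]
      rw [show l / 2 + l / 2 = l by ring, hl, Real.exp_log hX0]
    rw [e1, ← Real.exp_add, ← Real.exp_add]
    calc Real.exp (2 / 5 * l + (2 * LL X + l / 2)) ≤ Real.exp l := by
          apply Real.exp_le_exp.2
          unfold LL
          rw [← hl]
          linarith
      _ = X := by rw [hl, Real.exp_log hX0]
  have a2 : c * (Real.exp (2 * LL X) * ((4 * Real.sqrt X) * Real.log (4 * X) + 4 * Real.sqrt X * Real.log (4 * X)) +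
      Real.log (4 * X) * Real.exp (2 * LL X)) ≤ η / 2 * (LL X * QQ K X W E) := by
    have e2 : Real.exp (2 * LL X) * ((4 * Real.sqrt X) * Real.log (4 * X) + 4 * Real.sqrt X * Real.log (4 * X)) +
      Real.log (4 * X) * Real.exp (2 * LL X) ≤ 20 * l * (Real.exp (2 * LL X) * Real.sqrt X) := by
      have he : 0 < Real.exp (2 * LL X) := Real.exp_pos _
      calc _ = (Real.exp (2 * LL X) * (8 * Real.sqrt X + 1)) * Real.log (4 * X) := by ring
        _ ≤ (Real.exp (2 * LL X) * (8 * Real.sqrt X + 1)) * (2 * l) := by gcongr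
        _ ≤ (Real.exp (2 * LL X) * (8 * Real.sqrt X + Real.sqrt X)) * (2 * l) := by gcongr
        _ = 18 * l * (Real.exp (2 * LL X) * Real.sqrt X) := by ring
        _ ≤ _ := by
            apply mul_le_mul_of_nonneg_right _ (by positivity)
            linarith
    refine (mul_le_mul_of_nonneg_left e2 hc).trans ?_
    refine le_trans ?_ (mul_le_mul_of_nonneg_left hLQ (by positivity))
    set s := Real.exp (2 * LL X) * Real.sqrt X with hs
    have hs0 : 0 < s := by positivity
    rw [mul_div_assoc', le_div_iff₀ (by positivity)]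
    have e3 : (c * 20 * 40 / η) * l ^ (K + 4) * s ≤ X := by
      calc _ ≤ Real.exp ((2 / 5) * l) * s := by gcongr
        _ ≤ X := hexp
    have e4 : (c * 20 * 40 / η) * l ^ (K + 4) * s * (η / 2) ≤ X * (η / 2) := by gcongr
    have e5 : (c * 20 * 40 / η) * l ^ (K + 4) * s * (η / 2) = c * 400 * l ^ (K + 4) * s := by
      field_simp
      ring
    have e6 : c * (20 * l * s) * (20 * l ^ (3 + K)) = c * 400 * l ^ (K + 4) * s := by ring
    rw [e6]
    linarith
  calc _ = c * Bv + c * (Real.exp (2 * LL X) * ((4 * Real.sqrt X) * Real.log (4 * X) + 4 * Real.sqrt X * Real.log (4 * X)) +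
      Real.log (4 * X) * Real.exp (2 * LL X)) := by ring
    _ ≤ _ := by linarith

lemma sqrt_half {X : ℝ} (h : 16 ≤ X) : Real.sqrt X ≤ X / 2 := by
  rw [Real.sqrt_le_left (by positivity)]
  nlinarith

lemma BVe_nonneg (K0 : ℕ) (X : ℝ) (W : ℕ) (Bc : ℕ → ℕ) : 0 ≤ BVe K0 X W Bc := by
  unfold BVe
  positivity

lemma alg1 {a b x y c : ℝ} (ha : 0 ≤ a) (hb : 0 ≤ b) (hx : 0 ≤ x) (hy : 0 ≤ y) (hc : c = a + b) :
    a * x + b * y ≤ c * (x + y) := by
  have h1 := mul_nonneg ha hy
  have h2 := mul_nonneg hb hx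
  calc a * x + b * y ≤ a * x + b * y + a * y + b * x := by linarith
    _ = c * (x + y) := by rw [hc]; ring

open Classical in
/-- many `n` with several primes and no small prime factor -/
theorem positivity (k : ℕ) : ∃ (K0 B : ℕ) (f : Fin B → ℝ → ℝ) (A : Finset (Fin (K0 + 1) → Fin B)),
    (∀ l x, |f l x| ≤ 1) ∧ ∃ δ : ℝ, 0 < δ ∧ δ ≤ 1 / 10 ∧ ∃ c0 : ℝ, 0 < c0 ∧ ∃ z : ℕ, ∀ᶠ X : ℝ in atTop,
    ∀ (W : ℕ) (E : Finset ℕ) (a0 : ℕ) (t : Fin (K0 + 1) → ℕ), CS X z W E → Squarefree W → DT E t →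
      (∀ j, (a0 + t j).Coprime W) → (∀ j, (t j : ℝ) ≤ Real.sqrt X) →
      (∑ p ∈ E.filter (fun p => ¬ p ∣ W), (1 : ℝ) / p ≤ δ) → (W.totient : ℝ) ≤ 2 * (W * BE E) →
      c0 * QQ (K0 + 1) X W E ≤ ∑ n ∈ Icc 1 ⌊3 * X⌋₊, nu X W a0 n *
        (if (k + 1 ≤ (univ.filter (fun j => (n + t j).Prime)).card) ∧ (∀ j, ∀ p ∈ PS δ X, ¬ p ∣ n + t j) then
          sqw E X f A (fun j => (n : ℤ) + t j) ^ 2 else 0) := by
  obtain ⟨K0, B, f, c, A, hsm, hcs, hf0, hc, hA, hf1, hI, hJ⟩ := family (801 + 640000 * k)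
  set K : ℝ := (K0 : ℝ) + 1 with hK
  have hKpos : 0 < K := by positivity
  set I := II f A with hIdef
  set ε1 := I / K with hε1
  have hε1pos : 0 < ε1 := by positivity
  obtain ⟨z1, hS1⟩ := S1up f c A hsm hcs hf0 hc hA hf1 ε1 hε1pos
  obtain ⟨z2, hS2⟩ := S2low f c A hsm hcs hf0 hc hA hf1 ε1 hε1pos
  obtain ⟨C, hC0, z3, hnr⟩ := nonrough f c A hsm hcs hf0 hc hA hf1 hI.le
  set δ : ℝ := min (1 / 10) (I / (1600 * K * (C + 1))) with hδ
  have hδ0 : 0 < δ := lt_min (by norm_num) (by positivity)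
  have hδ1 : δ ≤ 1 / 10 := min_le_left _ _
  have hδC : C * δ ≤ I / (1600 * K) := by
    have h1 : δ ≤ I / (1600 * K * (C + 1)) := min_le_right _ _
    calc C * δ ≤ (C + 1) * (I / (1600 * K * (C + 1))) := by
          apply mul_le_mul (by linarith) h1 hδ0.le (by linarith)
      _ = I / (1600 * K) := by field_simp
  refine ⟨K0, B, f, A, hf1, δ, hδ0, hδ1, I / (1600 * K), by positivity, max z1 (max z2 z3), ?_⟩
  set cE : ℝ := K * (A.card : ℝ) ^ 2 + 5 * k * (A.card : ℝ) ^ 2 with hcE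
  filter_upwards [hS1, hS2, hnr δ hδ0 hδ1, BVe_le K0 (K0 + 1 + 4), err_small (K0 + 1) cE (I / 2) (by positivity) (by positivity),
    LPhi_ge, eventually_ge_atTop 16, LL_tendsto.eventually_ge_atTop 1, ev_pow_exp 3 (1 / 700) 1 (by norm_num) |>
      (fun h => Real.tendsto_log_atTop.eventually h)] with X h1 h2 h3 h4 h5 h6 h7 h8 h9
  intro W E a0 t hCS hWsq hDT hcop ht hE1 hBW
  have hX0 : 0 < X := by linarith
  have hL0 : 0 < LL X := by linarith
  have hW0 : 0 < W := hCS.pos
  have hWr : (0:ℝ) < W := by exact_mod_cast hW0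
  have hφ : 0 < (W.totient : ℝ) := by exact_mod_cast Nat.totient_pos.2 hW0
  have hBE : 0 < BE E := BE_pos hCS.gs.pr
  have hWle : (W : ℝ) ≤ Real.exp (Real.log X / 700) := by
    refine hCS.le.trans ?_
    rw [one_mul] at h9
    calc Real.log X ^ 3 ≤ Real.exp (1 / 700 * Real.log X) := h9
      _ = _ := by ring_nf
  have hsqrt : Real.sqrt X ≤ X / 2 := sqrt_half h7
  have hCW : ∀ z', z' ≤ max z1 (max z2 z3) → CW X z' W E := fun z' hz' =>
    ⟨(hCS.gs.toGE h8).mono hz', hW0, hWle, hCS.dv⟩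
  set Q := QQ (K0 + 1) X W E with hQ
  have hMP : 0 ≤ MPhi X := MPhi_nonneg X
  have hQ0 : 0 ≤ Q := by rw [hQ]; unfold QQ; positivity
  -- first sum
  have s1 := h1 W E a0 t (hCW z1 (le_max_left _ _)) hDT
  -- second sum
  obtain ⟨Bc, hBc1, hBc2⟩ := Bc_exists X W hW0
  have s2 := h2 W E a0 t (Real.sqrt X) (hCW z2 ((le_max_left _ _).trans (le_max_right _ _))) hDT ht hsqrt hcop Bc hBc2
  have s3 := h4 W hWsq hCS.le Bc hBc1
  have s4 := h5 W E (BVe K0 X W Bc) hW0 hCS.le hCS.gs.pr s3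
  have s5 := h3 W E a0 t ⟨hCS.gs.mono ((le_max_right _ _).trans (le_max_right _ _)), hCS.pos, hCS.le, hCS.dv⟩ hDT hcop hE1
  set w : ℕ → ℝ := fun n => sqw E X f A (fun j => (n : ℤ) + t j) ^ 2 with hw
  have hw0 : ∀ n, 0 ≤ w n := fun n => sq_nonneg _
  set err2 := BVe K0 X W Bc + Real.exp (2 * LL X) *
          ((4 * Real.sqrt X) * Real.log (4 * X) + 4 * Real.sqrt X * Real.log (4 * X)) with herr2
  -- lower bound for the theta sum
  have s6 : (LL X * Q / 800) * ((801 + 640000 * k) * I - I) - K * (A.card : ℝ) ^ 2 * err2 ≤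
      ∑ i : Fin (K0 + 1), ∑ n ∈ Icc 1 ⌊3 * X⌋₊, nu X W a0 n * (w n * th (n + t i)) := by
    refine le_trans ?_ (sum_le_sum fun i _ => s2 i)
    rw [sum_sub_distrib, sum_const, card_univ, Fintype.card_fin, nsmul_eq_mul, ← mul_sum, sum_sub_distrib, sum_const,
      card_univ, Fintype.card_fin, nsmul_eq_mul]
    push_cast
    rw [← hK]
    have e1 : K * ε1 = I := by rw [hε1]; field_simp
    rw [e1]
    have e2 : LL X * Q / 800 ≤ LPhi X * (1 / (W.totient : ℝ)) * (1 / (LL X * BE E) ^ K0) := by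
      have e3 : LL X * Q = (MPhi X * (1 / (W * BE E))) * (1 / (LL X * BE E) ^ K0) := by
        rw [hQ]; unfold QQ
        rw [pow_succ]
        field_simp
      have e4 : MPhi X * (1 / (W * BE E)) ≤ 800 * (LPhi X * (1 / (W.totient : ℝ))) := by
        have e5 : 1 / (W * BE E) ≤ 2 * (1 / (W.totient : ℝ)) := by
          rw [mul_one_div, div_le_div_iff₀ (by positivity) hφ]
          linarith
        have e6 : MPhi X ≤ 400 * LPhi X := by
          have := MPhi_le X (by linarith)
          linarith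
        calc MPhi X * (1 / (W * BE E)) ≤ (400 * LPhi X) * (2 * (1 / (W.totient : ℝ))) := by
              apply mul_le_mul e6 e5 (by positivity)
              linarith
          _ = _ := by ring
      rw [e3]
      have := mul_le_mul_of_nonneg_right e4 (by positivity : 0 ≤ 1 / (LL X * BE E) ^ K0)
      linarith
    have e7 : 0 ≤ ∑ i, JJ f A i - I := by
      have : I ≤ (801 + 640000 * k) * I := by
        have h0 : (0:ℝ) ≤ k := Nat.cast_nonneg k
        have h1' : (1:ℝ) ≤ 801 + 640000 * k := by linarith only [h0]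
        exact le_mul_of_one_le_left hI.le h1'
      linarith only [this, hJ]
    have e8 : (LL X * Q / 800) * ((801 + 640000 * k) * I - I) ≤
        LPhi X * (1 / (W.totient : ℝ)) * (1 / (LL X * BE E) ^ K0) * (∑ i, JJ f A i - I) := by
      calc _ ≤ (LL X * Q / 800) * (∑ i, JJ f A i - I) := by
            apply mul_le_mul_of_nonneg_left _ (by positivity)
            linarith
        _ ≤ _ := mul_le_mul_of_nonneg_right e2 e7
    linarith
  -- upper bound
  have hpt : ∀ n ∈ Icc 1 ⌊3 * X⌋₊, nu X W a0 n * (w n * (∑ i : Fin (K0 + 1), th (n + t i) - k * Real.log (4 * X))) ≤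
      (K * Real.log (4 * X)) * (nu X W a0 n * (if k + 1 ≤ (univ.filter (fun j => (n + t j).Prime)).card then w n else 0)) := by
    intro n hn
    rw [mem_Icc] at hn
    have hnu := nu_nonneg X W a0 n
    have hl : 0 ≤ Real.log (4 * X) := Real.log_nonneg (by linarith)
    have hn3 : (n : ℝ) ≤ 3 * X := (Nat.le_floor_iff (by positivity)).1 hn.2
    have e1 : ∑ i : Fin (K0 + 1), th (n + t i) ≤ Real.log (4 * X) * ((univ.filter (fun j => (n + t j).Prime)).card : ℝ) := by
      rw [card_filter]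
      push_cast
      rw [mul_sum]
      apply sum_le_sum
      intro i _
      unfold th
      split_ifs with hp
      · rw [mul_one]
        apply Real.log_le_log (by exact_mod_cast hp.pos)
        push_cast
        have := ht i
        linarith
      · simp
    have e2 : w n * (∑ i : Fin (K0 + 1), th (n + t i) - k * Real.log (4 * X)) ≤
        (K * Real.log (4 * X)) * (if k + 1 ≤ (univ.filter (fun j => (n + t j).Prime)).card then w n else 0) := by
      split_ifs with hc
      · have e3 : ((univ.filter (fun j => (n + t j).Prime)).card : ℝ) ≤ K := by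
          rw [hK]
          have := card_filter_le (univ : Finset (Fin (K0 + 1))) (fun j => (n + t j).Prime)
          rw [card_univ, Fintype.card_fin] at this
          exact_mod_cast this
        have e4 : ∑ i : Fin (K0 + 1), th (n + t i) - k * Real.log (4 * X) ≤ K * Real.log (4 * X) := by
          have h0 : 0 ≤ (k : ℝ) * Real.log (4 * X) := mul_nonneg (Nat.cast_nonneg _) hl
          have h1' := mul_le_mul_of_nonneg_left e3 hl
          linarith only [h0, h1', e1]
        calc _ ≤ w n * (K * Real.log (4 * X)) := mul_le_mul_of_nonneg_left e4 (hw0 n)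
          _ = _ := by ring
      · rw [mul_zero]
        apply mul_nonpos_of_nonneg_of_nonpos (hw0 n)
        have e3 : ((univ.filter (fun j => (n + t j).Prime)).card : ℝ) ≤ k := by
          exact_mod_cast (by omega : (univ.filter (fun j => (n + t j).Prime)).card ≤ k)
        have h1' := mul_le_mul_of_nonneg_left e3 hl
        linarith only [h1', e1]
    calc _ ≤ nu X W a0 n * ((K * Real.log (4 * X)) * (if k + 1 ≤ (univ.filter (fun j => (n + t j).Prime)).card then w n else 0)) :=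
          mul_le_mul_of_nonneg_left e2 hnu
      _ = _ := by ring
  have s7 := sum_le_sum hpt
  rw [← mul_sum] at s7
  have s8 : ∑ n ∈ Icc 1 ⌊3 * X⌋₊, nu X W a0 n * (w n * (∑ i : Fin (K0 + 1), th (n + t i) - k * Real.log (4 * X))) =
      ∑ i : Fin (K0 + 1), ∑ n ∈ Icc 1 ⌊3 * X⌋₊, nu X W a0 n * (w n * th (n + t i)) -
        k * Real.log (4 * X) * ∑ n ∈ Icc 1 ⌊3 * X⌋₊, nu X W a0 n * w n := by
    rw [sum_comm, mul_sum, ← sum_sub_distrib]
    apply sum_congr rfl
    intro n _
    rw [← mul_sum, ← mul_sum]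
    ring
  rw [s8] at s7
  set S := ∑ n ∈ Icc 1 ⌊3 * X⌋₊, nu X W a0 n * (if k + 1 ≤ (univ.filter (fun j => (n + t j).Prime)).card then w n else 0) with hS
  have hS0 : 0 ≤ S := sum_nonneg fun n _ => mul_nonneg (nu_nonneg _ _ _ _) (by split_ifs; exacts [hw0 n, le_rfl])
  have hl4 := log4X (by linarith : 4 ≤ X)
  have hl40 : 0 ≤ Real.log (4 * X) := Real.log_nonneg (by linarith)
  have s9 : k * Real.log (4 * X) * ∑ n ∈ Icc 1 ⌊3 * X⌋₊, nu X W a0 n * w n ≤
      800 * k * (LL X * Q) * I + 5 * k * (A.card : ℝ) ^ 2 * (Real.log (4 * X) * Real.exp (2 * LL X)) := by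
    have e1 : (∑ n ∈ Icc 1 ⌊3 * X⌋₊, nu X W a0 n * w n) ≤ Q * (2 * I) + (A.card : ℝ) ^ 2 * (5 * Real.exp (2 * LL X)) := by
      refine s1.trans ?_
      rw [← hIdef]
      have : ε1 ≤ I := by
        rw [hε1, div_le_iff₀ hKpos]
        have : 1 ≤ K := by rw [hK]; have h0 : (0:ℝ) ≤ K0 := Nat.cast_nonneg _; linarith only [h0]
        exact le_mul_of_one_le_right hI.le this
      have h10 : Q * (I + ε1) ≤ Q * (2 * I) := mul_le_mul_of_nonneg_left (by linarith) hQ0
      have h11 : MPhi X * (1 / (W:ℝ)) * (1 / (LL X * BE E) ^ (K0 + 1)) * (I + ε1) = Q * (I + ε1) := rfl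
      rw [h11]
      linarith
    have hk0 : (0:ℝ) ≤ k := Nat.cast_nonneg k
    calc k * Real.log (4 * X) * ∑ n ∈ Icc 1 ⌊3 * X⌋₊, nu X W a0 n * w n ≤
        k * Real.log (4 * X) * (Q * (2 * I) + (A.card : ℝ) ^ 2 * (5 * Real.exp (2 * LL X))) :=
          mul_le_mul_of_nonneg_left e1 (by positivity)
      _ = k * Q * (2 * I) * Real.log (4 * X) + 5 * k * (A.card : ℝ) ^ 2 * (Real.log (4 * X) * Real.exp (2 * LL X)) := by ring
      _ ≤ k * Q * (2 * I) * (400 * LL X) + 5 * k * (A.card : ℝ) ^ 2 * (Real.log (4 * X) * Real.exp (2 * LL X)) := by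
          gcongr
      _ = _ := by ring
  have s10 : LL X * Q * (I / 2) ≤ K * Real.log (4 * X) * S := by
    have e1 : (LL X * Q / 800) * ((801 + 640000 * k) * I - I) = LL X * Q * I + 800 * k * (LL X * Q) * I := by ring
    have e2 : K * (A.card : ℝ) ^ 2 * err2 + 5 * k * (A.card : ℝ) ^ 2 * (Real.log (4 * X) * Real.exp (2 * LL X)) ≤
        I / 2 * (LL X * Q) := by
      refine le_trans ?_ s4
      rw [hcE]
      have hB0 : 0 ≤ BVe K0 X W Bc := BVe_nonneg _ _ _ _
      have h12 : 0 ≤ err2 := by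
        rw [herr2]
        apply add_nonneg hB0
        positivity
      exact alg1 (by positivity) (by positivity) h12 (by positivity) rfl
    rw [e1] at s6
    linarith
  have s11 : Q * (I / (800 * K)) ≤ S := by
    have e1 : LL X * Q * (I / 2) ≤ K * (400 * LL X) * S := by
      refine s10.trans ?_
      gcongr
    have e2 : Q * (I / 2) ≤ K * 400 * S := by
      have : LL X * (Q * (I / 2)) ≤ LL X * (K * 400 * S) := by linarith
      exact le_of_mul_le_mul_left this hL0
    calc Q * (I / (800 * K)) = (Q * (I / 2)) / (400 * K) := by field_simp; ring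
      _ ≤ (K * 400 * S) / (400 * K) := by gcongr
      _ = S := by field_simp
  -- remove the non rough part
  have s12 : S ≤ ∑ n ∈ Icc 1 ⌊3 * X⌋₊, nu X W a0 n *
        (if (k + 1 ≤ (univ.filter (fun j => (n + t j).Prime)).card) ∧ (∀ j, ∀ p ∈ PS δ X, ¬ p ∣ n + t j) then w n else 0) +
      ∑ n ∈ Icc 1 ⌊3 * X⌋₊, ∑ j : Fin (K0 + 1), ∑ p ∈ PS δ X,
        nu X W a0 n * (if (p : ℤ) ∣ (n : ℤ) + t j then w n else 0) := by
    rw [hS, ← sum_add_distrib]
    apply sum_le_sum
    intro n _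
    have hnu := nu_nonneg X W a0 n
    have hnn : 0 ≤ ∑ j : Fin (K0 + 1), ∑ p ∈ PS δ X, nu X W a0 n * (if (p : ℤ) ∣ (n : ℤ) + t j then w n else 0) := by
      apply sum_nonneg; intro j _
      apply sum_nonneg; intro p _
      apply mul_nonneg hnu
      split_ifs
      · exact hw0 n
      · exact le_rfl
    by_cases h10 : k + 1 ≤ (univ.filter (fun j => (n + t j).Prime)).card
    · by_cases h11 : ∀ j, ∀ p ∈ PS δ X, ¬ p ∣ n + t j
      · rw [if_pos h10, if_pos ⟨h10, h11⟩]
        linarith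
      · rw [if_pos h10, if_neg (fun h => h11 h.2), mul_zero, zero_add]
        push Not at h11
        obtain ⟨j, p, hp, hpd⟩ := h11
        have e1 : nu X W a0 n * w n = nu X W a0 n * (if (p : ℤ) ∣ (n : ℤ) + t j then w n else 0) := by
          rw [if_pos]
          have e : ((n + t j : ℕ) : ℤ) = (n : ℤ) + t j := by push_cast; ring
          rw [← e]
          exact Int.natCast_dvd_natCast.2 hpd
        rw [e1]
        have hterm : ∀ (j : Fin (K0 + 1)) (p : ℕ), 0 ≤ nu X W a0 n * (if (p : ℤ) ∣ (n : ℤ) + t j then w n else 0) := by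
          intro j p
          apply mul_nonneg hnu
          split_ifs
          · exact hw0 n
          · exact le_rfl
        refine le_trans (single_le_sum (f := fun p : ℕ => nu X W a0 n * (if (p : ℤ) ∣ (n : ℤ) + t j then w n else 0))
          (fun p _ => hterm j p) hp) ?_
        exact single_le_sum (f := fun j => ∑ p ∈ PS δ X, nu X W a0 n * (if (p : ℤ) ∣ (n : ℤ) + t j then w n else 0))
          (fun j _ => sum_nonneg fun p _ => hterm j p) (mem_univ j)
    · rw [if_neg h10, if_neg (fun h => h10 h.1), mul_zero, zero_add]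
      exact hnn
  have s13 : C * δ * Q ≤ I / (1600 * K) * Q := mul_le_mul_of_nonneg_right hδC hQ0
  have s14 : Q * (I / (800 * K)) = 2 * (I / (1600 * K) * Q) := by field_simp; ring
  have s5' : ∑ n ∈ Icc 1 ⌊3 * X⌋₊, ∑ j : Fin (K0 + 1), ∑ p ∈ PS δ X,
        nu X W a0 n * (if (p : ℤ) ∣ (n : ℤ) + t j then w n else 0) ≤ C * δ * Q := s5
  linarith

end Pool.Agent.H387R2.MB
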