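import Mathlib

set_option autoImplicit false

open Finset

namespace Pool.Agent.H387R2.Thin

noncomputable section

/-! Finite Fourier analysis of the sawtooth function modulo a prime. -/

lemma geom_weighted (z : ℂ) (n : ℕ) : (z - 1) * ∑ b ∈ range n, (b : ℂ) * z ^ b =
    n * z ^ n - ∑ b ∈ range n, z ^ (b + 1) := by
  induction n with
  | zero => simp
  | succ n ih =>
    rw [sum_range_succ, mul_add, ih, sum_range_succ]
    push_cast
    ring

lemma geom_weighted' {z : ℂ} {n : ℕ} (h1 : z ≠ 1) (hn : z ^ n = 1) :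
    ∑ b ∈ range n, (b : ℂ) * z ^ b = n / (z - 1) := by
  have h0 : z - 1 ≠ 0 := sub_ne_zero.2 h1
  have h2 : ∑ b ∈ range n, z ^ (b + 1) = 0 := by
    have h3 : ∑ b ∈ range n, z ^ (b + 1) = z * ∑ b ∈ range n, z ^ b := by
      rw [mul_sum]; exact sum_congr rfl fun b _ => by ring
    have h4 := mul_geom_sum z n
    rw [hn, sub_self] at h4
    rw [h3, (mul_eq_zero.1 h4).resolve_left h0, mul_zero]
  have h5 := geom_weighted z n
  rw [h2, hn, sub_zero, mul_one] at h5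
  rw [eq_div_iff h0, mul_comm]
  exact h5

variable {p : ℕ} [hp : Fact p.Prime]

/-- the additive character `x ↦ exp(2πi x/p)` -/
abbrev ee (x : ZMod p) : ℂ := ZMod.stdAddChar x

lemma ee_ne_one {u : ZMod p} (hu : u ≠ 0) : ee u ≠ 1 := by
  intro h
  apply hu
  have h1 : ee u = ee (0 : ZMod p) := by rw [h]; unfold ee; rw [AddChar.map_zero_eq_one]
  exact ZMod.injective_stdAddChar h1

lemma ee_pow (u : ZMod p) (n : ℕ) : ee u ^ n = ee ((n : ZMod p) * u) := by
  unfold ee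
  rw [← AddChar.map_nsmul_eq_pow, nsmul_eq_mul]

lemma sum_val_ee {u : ZMod p} (hu : u ≠ 0) :
    ∑ b : ZMod p, (b.val : ℂ) * ee (-(u * b)) = p / (ee (-u) - 1) := by
  have h1 : ee (-u) ≠ 1 := ee_ne_one (neg_ne_zero.2 hu)
  have h2 : ee (-u) ^ p = 1 := by
    rw [ee_pow, CharP.cast_eq_zero, zero_mul]
    unfold ee
    exact AddChar.map_zero_eq_one _
  rw [← geom_weighted' h1 h2]
  refine sum_bij (fun b _ => b.val) (fun b _ => mem_range.2 (ZMod.val_lt b))
    (fun a _ b _ h => ZMod.val_injective p h) (fun b hb => ⟨(b : ZMod p), mem_univ _, ?_⟩) ?_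
  · exact ZMod.val_cast_of_lt (mem_range.1 hb)
  · intro b _
    rw [ee_pow, ZMod.natCast_zmod_val]
    congr 2
    ring

lemma ee_int (v : ℤ) : ee (v : ZMod p) = Complex.exp (Complex.I * ((2 * Real.pi * v / p : ℝ) : ℂ)) := by
  unfold ee
  rw [ZMod.stdAddChar_coe]
  congr 1
  push_cast
  ring

lemma norm_ee_int_sub_one {v : ℤ} (hv : 2 * |v| ≤ p) :
    4 * |(v : ℝ)| / p ≤ ‖ee (v : ZMod p) - 1‖ := by
  have hp0 : (0 : ℝ) < p := by exact_mod_cast hp.out.pos
  rw [ee_int, Complex.norm_exp_I_mul_ofReal_sub_one, norm_mul, Real.norm_eq_abs, Real.norm_eq_abs,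
    abs_two]
  have hv' : 2 * |(v : ℝ)| ≤ p := by exact_mod_cast hv
  have h1 : |2 * Real.pi * v / p / 2| = Real.pi * |(v : ℝ)| / p := by
    have : 2 * Real.pi * v / p / 2 = Real.pi * v / p := by ring
    rw [this, abs_div, abs_mul, abs_of_pos Real.pi_pos, abs_of_pos hp0]
  have h2 : |2 * Real.pi * v / p / 2| ≤ Real.pi / 2 := by
    rw [h1, div_le_div_iff₀ hp0 two_pos]
    have := Real.pi_pos
    nlinarith
  have h3 := Real.mul_abs_le_abs_sin h2
  rw [h1] at h3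
  have h4 : 2 / Real.pi * (Real.pi * |(v : ℝ)| / p) = 2 * |(v : ℝ)| / p := by
    field_simp
  rw [h4] at h3
  have h5 : 4 * |(v : ℝ)| / p = 2 * (2 * |(v : ℝ)| / p) := by ring
  rw [h5]
  linarith

lemma two_abs_vma (u : ZMod p) : 2 * |u.valMinAbs| ≤ p := by
  have h := ZMod.valMinAbs_mem_Ioc u
  rw [Set.mem_Ioc] at h
  have h1 := h.1
  have h2 := h.2
  rcases abs_cases u.valMinAbs with ⟨h3, _⟩ | ⟨h3, _⟩ <;> rw [h3] <;> omega

/-- size of the kernel -/
lemma kernel_le {u : ZMod p} (hu : u ≠ 0) :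
    ‖(ee (-u) - 1)⁻¹‖ ≤ p / (4 * |(u.valMinAbs : ℝ)|) := by
  have hp0 : (0 : ℝ) < p := by exact_mod_cast hp.out.pos
  have hv0 : 0 < |(u.valMinAbs : ℝ)| := by
    rw [abs_pos]
    intro h
    apply hu
    have : u.valMinAbs = 0 := by exact_mod_cast h
    exact (ZMod.valMinAbs_eq_zero u).1 this
  have h1 : (-u) = ((-u.valMinAbs : ℤ) : ZMod p) := by
    push_cast
    rfl
  have h2 := norm_ee_int_sub_one (p := p) (v := -u.valMinAbs) (by rw [abs_neg]; exact two_abs_vma u)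
  rw [← h1] at h2
  rw [norm_inv]
  have h3 : |((-u.valMinAbs : ℤ) : ℝ)| = |(u.valMinAbs : ℝ)| := by push_cast; rw [abs_neg]
  rw [h3] at h2
  calc ‖ee (-u) - 1‖⁻¹ ≤ (4 * |(u.valMinAbs : ℝ)| / p)⁻¹ := inv_anti₀ (by positivity) h2
    _ = p / (4 * |(u.valMinAbs : ℝ)|) := by rw [inv_div]

lemma exp_approx {x : ℝ} (hx : 0 < x) :
    ‖Complex.exp (Complex.I * ((-x : ℝ) : ℂ)) - 1 - Complex.I * ((-x : ℝ) : ℂ)‖ ≤ 2 * x ^ 2 := by
  by_cases h1 : x ≤ 1
  · have h2 := Complex.norm_exp_sub_one_sub_id_le (x := Complex.I * ((-x : ℝ) : ℂ)) (by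
      rw [norm_mul, Complex.norm_I, one_mul, Complex.norm_real, Real.norm_eq_abs, abs_neg,
        abs_of_pos hx]; exact h1)
    refine h2.trans ?_
    rw [norm_mul, Complex.norm_I, one_mul, Complex.norm_real, Real.norm_eq_abs, abs_neg,
        abs_of_pos hx]
    nlinarith [sq_nonneg x]
  · push Not at h1
    have h2 : ‖Complex.exp (Complex.I * ((-x : ℝ) : ℂ)) - 1‖ ≤ x := by
      rw [Complex.norm_exp_I_mul_ofReal_sub_one, norm_mul, Real.norm_eq_abs, Real.norm_eq_abs,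
        abs_two]
      have h3 : |Real.sin (-x / 2)| ≤ |(-x / 2)| := Real.abs_sin_le_abs
      have h4 : |(-x / 2)| = x / 2 := by rw [abs_div, abs_neg, abs_of_pos hx, abs_two]
      rw [h4] at h3
      linarith
    have h5 : ‖Complex.I * ((-x : ℝ) : ℂ)‖ = x := by
      rw [norm_mul, Complex.norm_I, one_mul, Complex.norm_real, Real.norm_eq_abs, abs_neg,
        abs_of_pos hx]
    calc _ ≤ ‖Complex.exp (Complex.I * ((-x : ℝ) : ℂ)) - 1‖ + ‖Complex.I * ((-x : ℝ) : ℂ)‖ :=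
          norm_sub_le _ _
      _ ≤ x + x := add_le_add h2 h5.le
      _ ≤ 2 * x ^ 2 := by nlinarith

/-- asymptotics of the kernel near zero -/
lemma kernel_approx {u : ℕ} (hu : 1 ≤ u) (hu2 : 2 * u ≤ p) :
    ‖(ee (-(u : ZMod p)) - 1)⁻¹ - Complex.I * ((p / (2 * Real.pi * u) : ℝ) : ℂ)‖ ≤ 4 := by
  have hp0 : (0 : ℝ) < p := by exact_mod_cast hp.out.pos
  have hu0 : (0 : ℝ) < u := by exact_mod_cast hu
  have hpi := Real.pi_pos
  set x : ℝ := 2 * Real.pi * u / p with hx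
  have hx0 : 0 < x := by positivity
  have h1 : (-(u : ZMod p)) = ((-(u : ℤ) : ℤ) : ZMod p) := by push_cast; ring
  have h2 := norm_ee_int_sub_one (p := p) (v := -(u : ℤ)) (by
    rw [abs_neg, Nat.abs_cast]; exact_mod_cast hu2)
  have h3 : |((-(u : ℤ) : ℤ) : ℝ)| = u := by push_cast; rw [abs_neg, abs_of_pos hu0]
  have h4 : ee (-(u : ZMod p)) = Complex.exp (Complex.I * ((-x : ℝ) : ℂ)) := by
    rw [h1, ee_int]
    congr 2
    push_cast [hx]
    ring
  rw [h3, ← h1, h4] at h2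
  have h5 := exp_approx hx0
  set w : ℂ := Complex.exp (Complex.I * ((-x : ℝ) : ℂ)) with hw
  have h6 : 0 < ‖w - 1‖ := lt_of_lt_of_le (by positivity) h2
  have hw0 : w - 1 ≠ 0 := norm_pos_iff.1 h6
  have hxc : (x : ℂ) ≠ 0 := by exact_mod_cast hx0.ne'
  have h7 : ((p / (2 * Real.pi * u) : ℝ) : ℂ) = (x : ℂ)⁻¹ := by
    rw [← Complex.ofReal_inv]
    congr 1
    rw [hx, inv_div]
  rw [h4, h7]
  have h8 : (w - 1)⁻¹ - Complex.I * (x : ℂ)⁻¹ =
      -Complex.I * (w - 1 - Complex.I * ((-x : ℝ) : ℂ)) / ((w - 1) * x) := by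
    rw [eq_div_iff (mul_ne_zero hw0 hxc)]
    push_cast
    field_simp
    ring_nf
    rw [Complex.I_sq]
    ring
  rw [h8, norm_div, norm_mul, norm_mul, norm_neg, Complex.norm_I, one_mul, Complex.norm_real,
    Real.norm_eq_abs, abs_of_pos hx0, div_le_iff₀ (by positivity)]
  refine h5.trans ?_
  have h9 : 4 * (u : ℝ) / p = 2 / Real.pi * x := by
    rw [hx]; field_simp; norm_num
  rw [h9] at h2
  have h10 : 1 / 2 ≤ 2 / Real.pi := by
    rw [div_le_div_iff₀ two_pos hpi]; linarith [Real.pi_lt_four]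
  have h11 : 1 / 2 * x ≤ ‖w - 1‖ := (mul_le_mul_of_nonneg_right h10 hx0.le).trans h2
  nlinarith


/-- the discrete Fourier transform -/
def ft (f : ZMod p → ℝ) (k : ZMod p) : ℂ := ∑ a : ZMod p, (f a : ℂ) * ee (-(k * a))

lemma norm_ee (u : ZMod p) : ‖ee u‖ = 1 := by
  unfold ee
  exact AddChar.norm_apply _ _

lemma conj_ee (u : ZMod p) : (starRingEnd ℂ) (ee u) = ee (-u) := by
  unfold ee
  rw [AddChar.map_neg_eq_conj]

lemma norm_ft_le (f : ZMod p → ℝ) (k : ZMod p) : ‖ft f k‖ ≤ ∑ a : ZMod p, |f a| := by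
  unfold ft
  refine (norm_sum_le _ _).trans (le_of_eq (sum_congr rfl fun a _ => ?_))
  rw [norm_mul, norm_ee, mul_one, Complex.norm_real, Real.norm_eq_abs]

lemma parseval (f : ZMod p → ℝ) : ∑ k : ZMod p, ‖ft f k‖ ^ 2 = p * ∑ a : ZMod p, f a ^ 2 := by
  have h1 : ∀ k : ZMod p, ((‖ft f k‖ ^ 2 : ℝ) : ℂ) =
      ∑ a : ZMod p, ∑ b : ZMod p, (f a : ℂ) * (f b : ℂ) * ee (k * (b - a)) := by
    intro k
    rw [← Complex.normSq_eq_norm_sq, Complex.normSq_eq_conj_mul_self, mul_comm]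
    unfold ft
    rw [map_sum, sum_mul_sum]
    refine sum_congr rfl fun a _ => sum_congr rfl fun b _ => ?_
    rw [map_mul, conj_ee, Complex.conj_ofReal]
    have : ee (k * (b - a)) = ee (-(k * a)) * ee (k * b) := by
      unfold ee
      rw [← AddChar.map_add_eq_mul]
      congr 1
      ring
    rw [this, neg_neg]
    ring
  have h2 : ((∑ k : ZMod p, ‖ft f k‖ ^ 2 : ℝ) : ℂ) = ((p * ∑ a : ZMod p, f a ^ 2 : ℝ) : ℂ) := by
    push_cast
    have h3 : ∀ k : ZMod p, ((‖ft f k‖ : ℂ) ^ 2) =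
        ∑ a : ZMod p, ∑ b : ZMod p, (f a : ℂ) * (f b : ℂ) * ee (k * (b - a)) := by
      intro k
      rw [← h1 k]; push_cast; rfl
    rw [sum_congr rfl fun k _ => h3 k, sum_comm, mul_sum]
    refine sum_congr rfl fun a _ => ?_
    rw [sum_comm]
    have h4 : ∀ b : ZMod p, ∑ k : ZMod p, (f a : ℂ) * (f b : ℂ) * ee (k * (b - a)) =
        if b = a then (p : ℂ) * (f a : ℂ) ^ 2 else 0 := by
      intro b
      rw [← mul_sum]
      have h5 := AddChar.sum_mulShift (R := ZMod p) (R' := ℂ) (b - a)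
        (ZMod.isPrimitive_stdAddChar p)
      unfold ee
      rw [h5]
      by_cases h : b = a
      · subst h
        simp only [sub_self, if_true, ZMod.card]
        ring
      · have : b - a ≠ 0 := sub_ne_zero.2 h
        rw [if_neg this, if_neg h]
        push_cast
        ring
    rw [sum_congr rfl fun b _ => h4 b, sum_ite_eq' univ a (fun _ => (p : ℂ) * (f a : ℂ) ^ 2),
      if_pos (mem_univ _)]
  exact_mod_cast h2

/-- the sampled error function attached to a weight `m` -/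
def EE (m : ℕ → ℝ) (a : ZMod p) : ℝ :=
  -∑ d ∈ Icc 1 (p - 1), m d * (((a * (d : ZMod p)).val : ℝ) / p)

lemma cast_ne_zero {d : ℕ} (hd : d ∈ Icc 1 (p - 1)) : (d : ZMod p) ≠ 0 := by
  rw [mem_Icc] at hd
  have hpp := hp.out.two_le
  intro h
  rw [ZMod.natCast_eq_zero_iff] at h
  exact absurd (Nat.le_of_dvd hd.1 h) (by omega)

lemma ft_EE (m : ℕ → ℝ) {k : ZMod p} (hk : k ≠ 0) :
    ft (EE m) k = -∑ d ∈ Icc 1 (p - 1), (m d : ℂ) * (ee (-(k * (d : ZMod p)⁻¹)) - 1)⁻¹ := by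
  have hp0 : (p : ℂ) ≠ 0 := by exact_mod_cast hp.out.ne_zero
  unfold ft EE
  have h1 : ∀ a : ZMod p, ((-∑ d ∈ Icc 1 (p - 1), m d * (((a * (d : ZMod p)).val : ℝ) / p) : ℝ) : ℂ) *
      ee (-(k * a)) =
      -∑ d ∈ Icc 1 (p - 1), (m d : ℂ) * ((((a * (d : ZMod p)).val : ℂ) / p) * ee (-(k * a))) := by
    intro a
    push_cast
    rw [neg_mul, sum_mul]
    congr 1
    exact sum_congr rfl fun d _ => by ring
  rw [sum_congr rfl fun a _ => h1 a, sum_neg_distrib, sum_comm]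
  congr 1
  refine sum_congr rfl fun d hd => ?_
  have hd0 := cast_ne_zero hd
  rw [← mul_sum]
  congr 1
  have h2 : ∑ a : ZMod p, (((a * (d : ZMod p)).val : ℂ) / p) * ee (-(k * a)) =
      ∑ b : ZMod p, ((b.val : ℂ) / p) * ee (-((k * (d : ZMod p)⁻¹) * b)) := by
    refine Fintype.sum_equiv (Equiv.mulRight₀ (d : ZMod p) hd0) _ _ fun a => ?_
    change (((a * (d : ZMod p)).val : ℂ) / p) * ee (-(k * a)) =
      (((a * (d : ZMod p)).val : ℂ) / p) * ee (-((k * (d : ZMod p)⁻¹) * (a * (d : ZMod p))))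
    congr 3
    field_simp
  rw [h2]
  have h3 := sum_val_ee (p := p) (u := k * (d : ZMod p)⁻¹) (mul_ne_zero hk (inv_ne_zero hd0))
  have h4 : ∑ b : ZMod p, ((b.val : ℂ) / p) * ee (-((k * (d : ZMod p)⁻¹) * b)) =
      (∑ b : ZMod p, (b.val : ℂ) * ee (-((k * (d : ZMod p)⁻¹) * b))) / p := by
    rw [sum_div]
    exact sum_congr rfl fun b _ => by ring
  rw [h4, h3]
  rw [div_div, mul_comm, ← div_div, div_self hp0, one_div]

lemma sum_val : ∑ b : ZMod p, (b.val : ℝ) = p * (p - 1) / 2 := by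
  have h1 : ∑ b : ZMod p, (b.val : ℝ) = ∑ i ∈ range p, (i : ℝ) := by
    refine sum_bij (fun b _ => b.val) (fun b _ => mem_range.2 (ZMod.val_lt b))
      (fun a _ b _ h => ZMod.val_injective p h) (fun b hb => ⟨(b : ZMod p), mem_univ _, ?_⟩) ?_
    · exact ZMod.val_cast_of_lt (mem_range.1 hb)
    · intro b _; rfl
  rw [h1]
  have h2 := Finset.sum_range_id_mul_two p
  have h3 : (∑ i ∈ range p, (i : ℝ)) * 2 = p * (p - 1) := by
    have hp1 : 1 ≤ p := hp.out.one_le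
    have := congrArg (fun n : ℕ => (n : ℝ)) h2
    push_cast [Nat.cast_sub hp1] at this
    exact this
  linarith

lemma ft_EE_zero {m : ℕ → ℝ} (hm : ∑ d ∈ Icc 1 (p - 1), m d = 0) : ft (EE (p := p) m) 0 = 0 := by
  unfold ft
  simp only [zero_mul, neg_zero]
  have h0 : ee (0 : ZMod p) = 1 := by unfold ee; exact AddChar.map_zero_eq_one _
  rw [h0]
  simp only [mul_one]
  rw [← Complex.ofReal_sum]
  have h1 : ∑ a : ZMod p, EE m a = 0 := by
    unfold EE
    rw [sum_neg_distrib, sum_comm]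
    have h2 : ∀ d ∈ Icc 1 (p - 1), ∑ a : ZMod p, m d * (((a * (d : ZMod p)).val : ℝ) / p) =
        m d * ((p - 1) / 2) := by
      intro d hd
      have hd0 := cast_ne_zero hd
      have hp0 : (p : ℝ) ≠ 0 := by exact_mod_cast hp.out.ne_zero
      rw [← mul_sum]
      congr 1
      have h3 : ∑ a : ZMod p, (((a * (d : ZMod p)).val : ℝ) / p) =
          ∑ b : ZMod p, ((b.val : ℝ) / p) :=
        Fintype.sum_equiv (Equiv.mulRight₀ (d : ZMod p) hd0) _ _ fun a => rfl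
      rw [h3, ← sum_div, sum_val]
      field_simp
    rw [sum_congr rfl h2, ← sum_mul, hm, zero_mul, neg_zero]
  rw [h1, Complex.ofReal_zero]

/-- nonzero integers up to `N` in absolute value -/
def KK (N : ℕ) : Finset ℤ := (Icc (-(N : ℤ)) N).erase 0

lemma mem_KK {N : ℕ} {j : ℤ} : j ∈ KK N ↔ j ≠ 0 ∧ |j| ≤ N := by
  unfold KK
  rw [mem_erase, mem_Icc, abs_le]

lemma sum_inv_abs {N : ℕ} (hN : 1 ≤ N) : ∑ j ∈ KK N, 1 / |(j : ℝ)| ≤ 2 * (1 + Real.log N) := by
  have h1 : KK N ⊆ ((Icc 1 N).image (fun n : ℕ => (n : ℤ))) ∪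
      ((Icc 1 N).image (fun n : ℕ => -(n : ℤ))) := by
    intro j hj
    rw [mem_KK] at hj
    rw [mem_union, mem_image, mem_image]
    rcases lt_or_gt_of_ne hj.1 with h | h
    · right
      refine ⟨j.natAbs, mem_Icc.2 ⟨by omega, ?_⟩, by omega⟩
      have := abs_le.1 hj.2
      omega
    · left
      refine ⟨j.natAbs, mem_Icc.2 ⟨by omega, ?_⟩, by omega⟩
      have := abs_le.1 hj.2
      omega
  have h2 : ∀ n ∈ Icc 1 N, (0 : ℝ) ≤ 1 / (n : ℝ) := fun n _ => by positivity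
  have hH : ∑ n ∈ Icc 1 N, 1 / (n : ℝ) ≤ 1 + Real.log N := by
    have h3 := harmonic_le_one_add_log N
    rw [harmonic_eq_sum_Icc] at h3
    push_cast at h3
    simpa only [one_div] using h3
  calc ∑ j ∈ KK N, 1 / |(j : ℝ)| ≤ ∑ j ∈ ((Icc 1 N).image (fun n : ℕ => (n : ℤ))) ∪
      ((Icc 1 N).image (fun n : ℕ => -(n : ℤ))), 1 / |(j : ℝ)| :=
        sum_le_sum_of_subset_of_nonneg h1 fun _ _ _ => by positivity
    _ ≤ ∑ j ∈ ((Icc 1 N).image (fun n : ℕ => (n : ℤ))), 1 / |(j : ℝ)| +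
        ∑ j ∈ ((Icc 1 N).image (fun n : ℕ => -(n : ℤ))), 1 / |(j : ℝ)| := by
        have h4 := sum_union_inter (s₁ := (Icc 1 N).image (fun n : ℕ => (n : ℤ)))
          (s₂ := (Icc 1 N).image (fun n : ℕ => -(n : ℤ))) (f := fun j : ℤ => 1 / |(j : ℝ)|)
        have h5 : 0 ≤ ∑ j ∈ ((Icc 1 N).image (fun n : ℕ => (n : ℤ))) ∩
          ((Icc 1 N).image (fun n : ℕ => -(n : ℤ))), 1 / |(j : ℝ)| :=
          sum_nonneg fun _ _ => by positivity
        linarith
    _ = ∑ n ∈ Icc 1 N, 1 / (n : ℝ) + ∑ n ∈ Icc 1 N, 1 / (n : ℝ) := by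
        rw [sum_image (fun a _ b _ h => by exact_mod_cast h),
          sum_image (fun a _ b _ h => by simpa using h)]
        congr 1
        · refine sum_congr rfl fun n _ => ?_
          push_cast
          rw [abs_of_nonneg (by positivity)]
        · refine sum_congr rfl fun n _ => ?_
          push_cast
          rw [abs_neg, abs_of_nonneg (by positivity)]
    _ ≤ 2 * (1 + Real.log N) := by linarith

/-- total mass of the kernel -/
lemma kernel_sum : ∑ u ∈ (univ : Finset (ZMod p)).erase 0, ‖(ee (-u) - 1)⁻¹‖ ≤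
    p / 2 * (1 + Real.log p) := by
  have hp0 : (0 : ℝ) < p := by exact_mod_cast hp.out.pos
  calc ∑ u ∈ (univ : Finset (ZMod p)).erase 0, ‖(ee (-u) - 1)⁻¹‖
      ≤ ∑ u ∈ (univ : Finset (ZMod p)).erase 0, p / 4 * (1 / |((u.valMinAbs : ℤ) : ℝ)|) := by
        refine sum_le_sum fun u hu => ?_
        rw [mem_erase] at hu
        refine (kernel_le hu.1).trans (le_of_eq ?_)
        rw [div_mul_div_comm, mul_one]
    _ = p / 4 * ∑ u ∈ (univ : Finset (ZMod p)).erase 0, 1 / |((u.valMinAbs : ℤ) : ℝ)| := by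
        rw [mul_sum]
    _ ≤ p / 4 * ∑ j ∈ KK p, 1 / |(j : ℝ)| := by
        refine mul_le_mul_of_nonneg_left ?_ (by positivity)
        rw [← sum_image (s := (univ : Finset (ZMod p)).erase 0) (g := fun u : ZMod p => u.valMinAbs)
          (f := fun j : ℤ => 1 / |(j : ℝ)|)
          (fun a _ b _ h => ZMod.injective_valMinAbs h)]
        refine sum_le_sum_of_subset_of_nonneg ?_ fun _ _ _ => by positivity
        intro j hj
        rw [mem_image] at hj
        obtain ⟨u, hu, rfl⟩ := hj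
        rw [mem_erase] at hu
        rw [mem_KK]
        refine ⟨fun h => hu.1 ((ZMod.valMinAbs_eq_zero u).1 h), ?_⟩
        have := two_abs_vma u
        have h0 := abs_nonneg u.valMinAbs
        omega
    _ ≤ p / 4 * (2 * (1 + Real.log p)) :=
        mul_le_mul_of_nonneg_left (sum_inv_abs hp.out.one_le) (by positivity)
    _ = p / 2 * (1 + Real.log p) := by ring

end

end Pool.Agent.H387R2.Thin
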