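import Pool.Agent.H387R2.ThinA

set_option autoImplicit false

open Finset

namespace Pool.Agent.H387R2.Thin

noncomputable section

variable {p : ℕ} [hp : Fact p.Prime]

/-- the kernel weight -/
def ww (u : ZMod p) : ℝ := ‖(ee (-u) - 1)⁻¹‖

lemma ww_nonneg (u : ZMod p) : 0 ≤ ww u := norm_nonneg _

lemma norm_ft_EE_le (m : ℕ → ℝ) {k : ZMod p} (hk : k ≠ 0) :
    ‖ft (EE m) k‖ ≤ ∑ d ∈ Icc 1 (p - 1), |m d| * ww (k * (d : ZMod p)⁻¹) := by
  rw [ft_EE m hk, norm_neg]
  refine (norm_sum_le _ _).trans (le_of_eq (sum_congr rfl fun d _ => ?_))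
  rw [norm_mul, Complex.norm_real, Real.norm_eq_abs]
  rfl

lemma cast_injOn {a b : ℕ} (ha : a ∈ Icc 1 (p - 1)) (hb : b ∈ Icc 1 (p - 1))
    (h : (a : ZMod p) = (b : ZMod p)) : a = b := by
  rw [mem_Icc] at ha hb
  have hpp := hp.out.two_le
  have h1 := congrArg ZMod.val h
  rwa [ZMod.val_cast_of_lt (by omega), ZMod.val_cast_of_lt (by omega)] at h1

/-- `L²` upper bound by the Schur test -/
theorem upper {m : ℕ → ℝ} (hm : ∑ d ∈ Icc 1 (p - 1), m d = 0) :
    ∑ a : ZMod p, EE m a ^ 2 ≤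
      p / 4 * (1 + Real.log p) ^ 2 * ∑ d ∈ Icc 1 (p - 1), m d ^ 2 := by
  have hp0 : (0 : ℝ) < p := by exact_mod_cast hp.out.pos
  have hlog : 0 ≤ Real.log p := Real.log_nonneg (by exact_mod_cast hp.out.one_le)
  set S : ℝ := ∑ u ∈ (univ : Finset (ZMod p)).erase 0, ww u with hS
  have hS0 : 0 ≤ S := sum_nonneg fun u _ => ww_nonneg u
  have hS1 : S ≤ p / 2 * (1 + Real.log p) := kernel_sum
  have h1 : (p : ℝ) * ∑ a : ZMod p, EE m a ^ 2 = ∑ k ∈ (univ : Finset (ZMod p)).erase 0,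
      ‖ft (EE m) k‖ ^ 2 := by
    rw [← parseval, ← add_sum_erase univ _ (mem_univ (0 : ZMod p)), ft_EE_zero hm, norm_zero]
    simp
  have h2 : ∀ k ∈ (univ : Finset (ZMod p)).erase 0, ‖ft (EE m) k‖ ^ 2 ≤
      S * ∑ d ∈ Icc 1 (p - 1), m d ^ 2 * ww (k * (d : ZMod p)⁻¹) := by
    intro k hk
    rw [mem_erase] at hk
    have h3 := norm_ft_EE_le (p := p) m hk.1
    have h4 : ‖ft (EE m) k‖ ^ 2 ≤ (∑ d ∈ Icc 1 (p - 1), |m d| * ww (k * (d : ZMod p)⁻¹)) ^ 2 :=
      pow_le_pow_left₀ (norm_nonneg _) h3 2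
    have h5 := sum_sq_le_sum_mul_sum_of_sq_le_mul (Icc 1 (p - 1))
      (r := fun d => |m d| * ww (k * (d : ZMod p)⁻¹)) (f := fun d => ww (k * (d : ZMod p)⁻¹))
      (g := fun d => m d ^ 2 * ww (k * (d : ZMod p)⁻¹))
      (fun d _ => ww_nonneg _) (fun d _ => mul_nonneg (sq_nonneg _) (ww_nonneg _))
      (fun d _ => le_of_eq (by rw [mul_pow, sq_abs]; ring))
    refine h4.trans (h5.trans (mul_le_mul_of_nonneg_right ?_
      (sum_nonneg fun d _ => mul_nonneg (sq_nonneg _) (ww_nonneg _))))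
    rw [hS, ← sum_image (s := Icc 1 (p - 1)) (g := fun d : ℕ => k * (d : ZMod p)⁻¹)
      (f := fun u : ZMod p => ww u) (fun a ha b hb h => by
        have h6 : (a : ZMod p)⁻¹ = (b : ZMod p)⁻¹ := mul_left_cancel₀ hk.1 h
        exact cast_injOn ha hb (inv_injective h6))]
    refine sum_le_sum_of_subset_of_nonneg ?_ fun _ _ _ => ww_nonneg _
    intro u hu
    rw [mem_image] at hu
    obtain ⟨d, hd, rfl⟩ := hu
    rw [mem_erase]
    exact ⟨mul_ne_zero hk.1 (inv_ne_zero (cast_ne_zero hd)), mem_univ _⟩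
  have h7 : ∀ d ∈ Icc 1 (p - 1), ∑ k ∈ (univ : Finset (ZMod p)).erase 0,
      m d ^ 2 * ww (k * (d : ZMod p)⁻¹) = m d ^ 2 * S := by
    intro d hd
    have hd0 := cast_ne_zero hd
    rw [← mul_sum]
    congr 1
    rw [hS]
    refine sum_bij (fun k _ => k * (d : ZMod p)⁻¹) ?_ ?_ ?_ ?_
    · intro k hk
      rw [mem_erase] at hk ⊢
      exact ⟨mul_ne_zero hk.1 (inv_ne_zero hd0), mem_univ _⟩
    · intro a _ b _ h
      exact mul_right_cancel₀ (inv_ne_zero hd0) h
    · intro b hb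
      rw [mem_erase] at hb
      refine ⟨b * (d : ZMod p), ?_, ?_⟩
      · rw [mem_erase]; exact ⟨mul_ne_zero hb.1 hd0, mem_univ _⟩
      · rw [mul_assoc, mul_inv_cancel₀ hd0, mul_one]
    · intro k _; rfl
  have h8 : (p : ℝ) * ∑ a : ZMod p, EE m a ^ 2 ≤ S * (S * ∑ d ∈ Icc 1 (p - 1), m d ^ 2) := by
    rw [h1]
    refine (sum_le_sum h2).trans (le_of_eq ?_)
    rw [← mul_sum, sum_comm, sum_congr rfl h7, ← sum_mul]
    ring
  have hM0 : 0 ≤ ∑ d ∈ Icc 1 (p - 1), m d ^ 2 := sum_nonneg fun _ _ => sq_nonneg _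
  have h9 : S * (S * ∑ d ∈ Icc 1 (p - 1), m d ^ 2) ≤
      (p / 2 * (1 + Real.log p)) * ((p / 2 * (1 + Real.log p)) * ∑ d ∈ Icc 1 (p - 1), m d ^ 2) := by
    have : 0 ≤ p / 2 * (1 + Real.log p) := by positivity
    gcongr
  have h10 : (p : ℝ) * ∑ a : ZMod p, EE m a ^ 2 ≤
      p * (p / 4 * (1 + Real.log p) ^ 2 * ∑ d ∈ Icc 1 (p - 1), m d ^ 2) := by
    refine (h8.trans h9).trans (le_of_eq ?_)
    ring
  exact le_of_mul_le_mul_left h10 hp0

/-- Lower bound for the `L¹` norm by the `k`-th Fourier coefficient. -/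
theorem lower {m : ℕ → ℝ} {T : ℝ} (hm1 : ∀ d ∈ Icc 1 (p - 1), |m d| ≤ p / d)
    (hT : ∀ N : ℕ, 1 ≤ N → N ≤ 2 * p ^ 2 → (N.divisors.card : ℝ) ≤ T) {k : ℕ} (hk : 1 ≤ k)
    (hk2 : 2 * k ≤ p) :
    p / (2 * Real.pi * k) * |∑ d ∈ k.divisors, (d : ℝ) * m d| ≤
      ∑ a : ZMod p, |EE m a| + 4 * ∑ d ∈ k.divisors, |m d| + p * T * (1 + Real.log p) := by
  have hp0 : (0 : ℝ) < p := by exact_mod_cast hp.out.pos
  have hpp := hp.out.two_le
  have hk0 : (0 : ℝ) < k := by exact_mod_cast hk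
  have hpi := Real.pi_pos
  have hlog : 0 ≤ Real.log p := Real.log_nonneg (by exact_mod_cast hp.out.one_le)
  have hkmem : k ∈ Icc 1 (p - 1) := by rw [mem_Icc]; omega
  have hkz : (k : ZMod p) ≠ 0 := cast_ne_zero hkmem
  set κ : ℕ → ℂ := fun d => (ee (-((k : ZMod p) * (d : ZMod p)⁻¹)) - 1)⁻¹ with hκ
  have hsub : k.divisors ⊆ Icc 1 (p - 1) := by
    intro d hd
    have h1 := Nat.pos_of_mem_divisors hd
    have h2 := Nat.divisor_le hd
    rw [mem_Icc]
    omega
  have hft := norm_ft_le (EE (p := p) m) (k : ZMod p)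
  rw [ft_EE m hkz, norm_neg] at hft
  -- split the sum
  have hsplit : ∑ d ∈ Icc 1 (p - 1), (m d : ℂ) * κ d =
      ∑ d ∈ (Icc 1 (p - 1)) \ k.divisors, (m d : ℂ) * κ d + ∑ d ∈ k.divisors, (m d : ℂ) * κ d :=
    (sum_sdiff hsub).symm
  -- main part
  have hmain : ‖∑ d ∈ k.divisors, (m d : ℂ) * κ d -
      Complex.I * ((p / (2 * Real.pi * k) * ∑ d ∈ k.divisors, (d : ℝ) * m d : ℝ) : ℂ)‖ ≤
      4 * ∑ d ∈ k.divisors, |m d| := by
    have h1 : Complex.I * ((p / (2 * Real.pi * k) * ∑ d ∈ k.divisors, (d : ℝ) * m d : ℝ) : ℂ) =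
        ∑ d ∈ k.divisors, (m d : ℂ) * (Complex.I * ((p / (2 * Real.pi * ((k / d : ℕ) : ℝ)) : ℝ) : ℂ)) := by
      rw [mul_sum, Complex.ofReal_sum, mul_sum]
      refine sum_congr rfl fun d hd => ?_
      have hd1 := Nat.pos_of_mem_divisors hd
      have hdk := Nat.dvd_of_mem_divisors hd
      have hd0 : (0 : ℝ) < d := by exact_mod_cast hd1
      have h2 : ((k / d : ℕ) : ℝ) = k / d := by
        rw [Nat.cast_div hdk hd0.ne']
      rw [h2]
      have h3 : p / (2 * Real.pi * (k / d)) = p / (2 * Real.pi * k) * (d : ℝ) := by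
        field_simp
      rw [h3]
      push_cast
      ring
    rw [h1, ← sum_sub_distrib, mul_sum]
    refine (norm_sum_le _ _).trans (sum_le_sum fun d hd => ?_)
    have hd1 := Nat.pos_of_mem_divisors hd
    have hdk := Nat.dvd_of_mem_divisors hd
    have hdz : (d : ZMod p) ≠ 0 := cast_ne_zero (hsub hd)
    obtain ⟨u, hu⟩ := hdk
    have hu0 : 1 ≤ u := by
      rcases Nat.eq_zero_or_pos u with h | h
      · rw [h, mul_zero] at hu; omega
      · exact h
    have hku : k / d = u := by rw [hu]; exact Nat.mul_div_cancel_left u hd1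
    have hk' : (k : ZMod p) * (d : ZMod p)⁻¹ = (u : ZMod p) := by
      rw [hu]; push_cast
      field_simp
    have hle : u ≤ k := by rw [hu]; exact Nat.le_mul_of_pos_left u hd1
    have h4 := kernel_approx (p := p) hu0 (by omega)
    rw [← mul_sub, norm_mul, Complex.norm_real, Real.norm_eq_abs, mul_comm]
    refine mul_le_mul_of_nonneg_right ?_ (abs_nonneg _)
    simp only [hκ]
    rw [hk', hku]
    exact h4
  -- the rest
  have hrest : ‖∑ d ∈ (Icc 1 (p - 1)) \ k.divisors, (m d : ℂ) * κ d‖ ≤ p * T * (1 + Real.log p) := by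
    set v : ℕ → ℤ := fun d => ((k : ZMod p) * (d : ZMod p)⁻¹).valMinAbs with hv
    set J : ℕ → ℤ := fun d => (v d * d - k) / p with hJ
    have hkey : ∀ d ∈ (Icc 1 (p - 1)) \ k.divisors, v d * d = k + J d * p ∧ J d ≠ 0 ∧ v d ≠ 0 := by
      intro d hd
      rw [mem_sdiff] at hd
      have hdz : (d : ZMod p) ≠ 0 := cast_ne_zero hd.1
      have hd1 := (mem_Icc.1 hd.1).1
      have h1 : ((v d * d - k : ℤ) : ZMod p) = 0 := by
        push_cast
        rw [hv]
        simp only [ZMod.coe_valMinAbs]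
        field_simp
        ring
      have h2 : (p : ℤ) ∣ v d * d - k := (ZMod.intCast_zmod_eq_zero_iff_dvd _ _).1 h1
      have h3 : J d * p = v d * d - k := Int.ediv_mul_cancel h2
      have hv0 : v d ≠ 0 := by
        intro h
        rw [hv] at h
        have := (ZMod.valMinAbs_eq_zero _).1 h
        exact mul_ne_zero hkz (inv_ne_zero hdz) this
      refine ⟨by rw [h3]; ring, ?_, hv0⟩
      intro hJ0
      rw [hJ0, zero_mul] at h3
      have h4 : v d * d = k := by linarith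
      apply hd.2
      rw [Nat.mem_divisors]
      refine ⟨?_, by omega⟩
      have h5 : (d : ℤ) ∣ (k : ℤ) := ⟨v d, by rw [← h4]; ring⟩
      exact_mod_cast h5
    have hJp : ∀ d ∈ (Icc 1 (p - 1)) \ k.divisors, J d ∈ KK p := by
      intro d hd
      obtain ⟨h1, h2, h3⟩ := hkey d hd
      rw [mem_KK]
      refine ⟨h2, ?_⟩
      rw [mem_sdiff, mem_Icc] at hd
      have h4 := two_abs_vma (p := p) ((k : ZMod p) * (d : ZMod p)⁻¹)
      have h5 : |v d * d| ≤ p * p := by
        rw [abs_mul, Nat.abs_cast]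
        have h6 : |v d| ≤ p := by
          have h0 := abs_nonneg (v d)
          have : 2 * |v d| ≤ p := h4
          linarith
        have h7 : (d : ℤ) ≤ p := by have := hd.1.2; omega
        exact mul_le_mul h6 h7 (by positivity) (by positivity)
      by_contra hcon
      push Not at hcon
      have h8 : (p : ℤ) + 1 ≤ |J d| := hcon
      have h9 : |J d * p| ≤ |v d * d| + k := by
        have : J d * p = v d * d - k := by rw [h1]; ring
        rw [this]
        refine (abs_sub _ _).trans ?_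
        rw [Nat.abs_cast]
      rw [abs_mul, Nat.abs_cast] at h9
      have h10 : ((p : ℤ) + 1) * p ≤ |J d| * p := mul_le_mul_of_nonneg_right h8 (by positivity)
      have h11 : (2 : ℤ) * k ≤ p := by exact_mod_cast hk2
      have h12 : (1 : ℤ) ≤ k := by exact_mod_cast hk
      nlinarith
    have habs : ∀ j ∈ KK p, |(j : ℝ)| * p / 2 ≤ |(k : ℝ) + j * p| := by
      intro j hj
      rw [mem_KK] at hj
      have h1 : (1 : ℝ) ≤ |(j : ℝ)| := by exact_mod_cast Int.one_le_abs hj.1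
      have h2 : |(j : ℝ)| * p ≤ |(k : ℝ) + j * p| + k := by
        have h3 : (j : ℝ) * p = (k + j * p) - k := by ring
        calc |(j : ℝ)| * p = |(j : ℝ) * p| := by rw [abs_mul, Nat.abs_cast]
          _ = |(k + j * p) - (k : ℝ)| := by rw [← h3]
          _ ≤ |(k : ℝ) + j * p| + |(k : ℝ)| := abs_sub _ _
          _ = _ := by rw [Nat.abs_cast]
      have h4 : (2 : ℝ) * k ≤ p := by exact_mod_cast hk2
      nlinarith
    have hterm : ∀ d ∈ (Icc 1 (p - 1)) \ k.divisors, ‖(m d : ℂ) * κ d‖ ≤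
        p / 2 * (1 / |(J d : ℝ)|) := by
      intro d hd
      obtain ⟨h1, h2, h3⟩ := hkey d hd
      have hd' := (mem_sdiff.1 hd).1
      have hdz : (d : ZMod p) ≠ 0 := cast_ne_zero hd'
      have hd0 : (0 : ℝ) < d := by exact_mod_cast (mem_Icc.1 hd').1
      have h4 : ‖κ d‖ ≤ p / (4 * |(v d : ℝ)|) :=
        kernel_le (mul_ne_zero hkz (inv_ne_zero hdz))
      have hv0 : 0 < |(v d : ℝ)| := abs_pos.2 (by exact_mod_cast h3)
      have hJ0 : 0 < |(J d : ℝ)| := abs_pos.2 (by exact_mod_cast h2)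
      have h5 : |(v d : ℝ)| * d = |(k : ℝ) + J d * p| := by
        have : (v d : ℝ) * d = (k : ℝ) + J d * p := by exact_mod_cast h1
        rw [← this, abs_mul, Nat.abs_cast]
      have h6 := habs (J d) (hJp d hd)
      rw [← h5] at h6
      rw [norm_mul, Complex.norm_real, Real.norm_eq_abs]
      calc |m d| * ‖κ d‖ ≤ (p / d) * (p / (4 * |(v d : ℝ)|)) :=
            mul_le_mul (hm1 d hd') h4 (norm_nonneg _) (by positivity)
        _ = p ^ 2 / 4 / (|(v d : ℝ)| * d) := by field_simp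
        _ ≤ p ^ 2 / 4 / (|(J d : ℝ)| * p / 2) :=
            div_le_div_of_nonneg_left (by positivity) (by positivity) h6
        _ = p / 2 * (1 / |(J d : ℝ)|) := by field_simp; norm_num
    calc ‖∑ d ∈ (Icc 1 (p - 1)) \ k.divisors, (m d : ℂ) * κ d‖
        ≤ ∑ d ∈ (Icc 1 (p - 1)) \ k.divisors, p / 2 * (1 / |(J d : ℝ)|) :=
          (norm_sum_le _ _).trans (sum_le_sum hterm)
      _ = ∑ j ∈ KK p, ∑ d ∈ ((Icc 1 (p - 1)) \ k.divisors) with J d = j, p / 2 * (1 / |(J d : ℝ)|) :=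
          (sum_fiberwise_of_maps_to hJp _).symm
      _ ≤ ∑ j ∈ KK p, T * (p / 2 * (1 / |(j : ℝ)|)) := by
          refine sum_le_sum fun j hj => ?_
          have h1 : ∑ d ∈ ((Icc 1 (p - 1)) \ k.divisors) with J d = j, p / 2 * (1 / |(J d : ℝ)|) =
              ∑ d ∈ ((Icc 1 (p - 1)) \ k.divisors) with J d = j, p / 2 * (1 / |(j : ℝ)|) :=
            sum_congr rfl fun d hd => by rw [(mem_filter.1 hd).2]
          rw [h1, sum_const, nsmul_eq_mul]
          refine mul_le_mul_of_nonneg_right ?_ (by positivity)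
          have h2 : (((Icc 1 (p - 1)) \ k.divisors).filter (fun d => J d = j)) ⊆
              (k + j * p : ℤ).natAbs.divisors := by
            intro d hd
            rw [mem_filter] at hd
            obtain ⟨h3, _, h4⟩ := hkey d hd.1
            rw [hd.2] at h3
            have hd1 := (mem_Icc.1 (mem_sdiff.1 hd.1).1).1
            rw [Nat.mem_divisors]
            constructor
            · rw [← Int.natCast_dvd]
              exact ⟨v d, by rw [← h3]; ring⟩
            · rw [Int.natAbs_ne_zero, ← h3]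
              exact mul_ne_zero h4 (by exact_mod_cast (by omega : d ≠ 0))
          have h5 : 1 ≤ (k + j * p : ℤ).natAbs := by
            rw [Nat.one_le_iff_ne_zero, Int.natAbs_ne_zero]
            intro h0
            have h6 := habs j hj
            have h7 : (k : ℝ) + j * p = 0 := by exact_mod_cast h0
            rw [h7, abs_zero] at h6
            have h8 : (1 : ℝ) ≤ |(j : ℝ)| := by exact_mod_cast Int.one_le_abs (mem_KK.1 hj).1
            nlinarith
          have h6 : (k + j * p : ℤ).natAbs ≤ 2 * p ^ 2 := by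
            have h7 : |(k + j * p : ℤ)| ≤ 2 * p ^ 2 := by
              refine (abs_add_le _ _).trans ?_
              rw [abs_mul, Nat.abs_cast, Nat.abs_cast]
              have h8 := (mem_KK.1 hj).2
              have h9 : (2 : ℤ) * k ≤ p := by exact_mod_cast hk2
              have h10 : (2 : ℤ) ≤ p := by exact_mod_cast hpp
              nlinarith
            have h11 : (((k + j * p : ℤ).natAbs : ℕ) : ℤ) = |(k + j * p : ℤ)| := Int.natCast_natAbs _
            have h12 : (((k + j * p : ℤ).natAbs : ℕ) : ℤ) ≤ ((2 * p ^ 2 : ℕ) : ℤ) := by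
              rw [h11]; push_cast; exact h7
            exact_mod_cast h12
          refine le_trans ?_ (hT _ h5 h6)
          exact_mod_cast card_le_card h2
      _ = T * (p / 2) * ∑ j ∈ KK p, 1 / |(j : ℝ)| := by
          rw [mul_sum]; exact sum_congr rfl fun j _ => by ring
      _ ≤ T * (p / 2) * (2 * (1 + Real.log p)) := by
          have hT0 : 0 ≤ T := le_trans (by positivity) (hT 1 le_rfl (by nlinarith))
          exact mul_le_mul_of_nonneg_left (sum_inv_abs hp.out.one_le) (by positivity)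
      _ = p * T * (1 + Real.log p) := by ring
  -- combine
  set X : ℝ := p / (2 * Real.pi * k) * ∑ d ∈ k.divisors, (d : ℝ) * m d with hX
  have h1 : p / (2 * Real.pi * k) * |∑ d ∈ k.divisors, (d : ℝ) * m d| = |X| := by
    have hc : 0 < p / (2 * Real.pi * k) := by positivity
    rw [hX, abs_mul, abs_of_pos hc]
  have h2 : |X| = ‖Complex.I * (X : ℂ)‖ := by
    rw [norm_mul, Complex.norm_I, one_mul, Complex.norm_real, Real.norm_eq_abs]
  rw [h1, h2]
  set A := ∑ d ∈ k.divisors, (m d : ℂ) * κ d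
  set B := ∑ d ∈ (Icc 1 (p - 1)) \ k.divisors, (m d : ℂ) * κ d
  have h3 : Complex.I * (X : ℂ) = (B + A) - B - (A - Complex.I * (X : ℂ)) := by ring
  rw [h3]
  have h4 : ‖B + A‖ ≤ ∑ a : ZMod p, |EE m a| := by
    rw [← hsplit]; exact hft
  calc ‖(B + A) - B - (A - Complex.I * (X : ℂ))‖ ≤ ‖B + A‖ + ‖B‖ + ‖A - Complex.I * (X : ℂ)‖ :=
        (norm_sub_le _ _).trans (add_le_add (norm_sub_le _ _) le_rfl)
    _ ≤ ∑ a : ZMod p, |EE m a| + p * T * (1 + Real.log p) + 4 * ∑ d ∈ k.divisors, |m d| :=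
        add_le_add (add_le_add h4 hrest) hmain
    _ = _ := by ring

end

end Pool.Agent.H387R2.Thin
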