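import Pool.Agent.H295R2.G
import Pool.Agent.H387R2.ThinB
import Pool.Agent.H510R2.Div

set_option autoImplicit false

open Finset

namespace Pool.Agent.H387R2.Thin

open Pool.Agent.H295R2 (farey fareyNth disp Mx mu Ef mem_farey)

noncomputable section

/-- the part of the Franel-Landau sum over the fractions with denominator exactly `n` -/
def thinSum (n : ℕ) : ℝ :=
  ∑ j ∈ (univ : Finset (Fin (farey n).card)).filter
    (fun j => ((farey n).orderEmbOfFin rfl j : ℚ).den = n), disp n j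

lemma Mx_one : Mx 1 = 1 := by
  unfold Mx mu
  simp

lemma mm_sum {p : ℕ} (hp : 2 ≤ p) : ∑ d ∈ Icc 1 (p - 1), Mx ((p : ℝ) / d) = 0 := by
  have h1 := Pool.Agent.H295R2.t1_sum_one (n := p) (by omega)
  obtain ⟨q, rfl⟩ : ∃ q, p = q + 1 := ⟨p - 1, by omega⟩
  rw [Finset.sum_Icc_succ_top (by omega), div_self (by positivity), Mx_one] at h1
  simp only [Nat.add_sub_cancel]
  linarith

variable {p : ℕ} [hp : Fact p.Prime]

lemma Ef_at (a : ℕ) : Ef p ((a : ℝ) / p) = EE (fun d => Mx ((p : ℝ) / d)) (a : ZMod p) := by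
  have hp2 := hp.out.two_le
  have hp0 : (p : ℝ) ≠ 0 := by exact_mod_cast hp.out.ne_zero
  unfold Ef EE
  have hs := mm_sum hp2
  have h1 : ∑ d ∈ Icc 1 p, Mx ((p : ℝ) / d) * H332.FL.sw ((d : ℝ) * (a / p)) =
      ∑ d ∈ Icc 1 (p - 1), Mx ((p : ℝ) / d) * (((((a : ZMod p) * (d : ZMod p)).val : ℝ) / p)) - 1 / 2 := by
    have h2 : Icc 1 p = insert p (Icc 1 (p - 1)) := by
      ext x; simp only [mem_insert, mem_Icc]; omega
    rw [h2, sum_insert (by rw [mem_Icc]; omega)]
    have h3 : Mx ((p : ℝ) / p) * H332.FL.sw ((p : ℝ) * (a / p)) = -(1 / 2) := by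
      rw [div_self hp0, Mx_one, one_mul, mul_div_cancel₀ _ hp0]
      unfold H332.FL.sw
      rw [Int.fract_natCast]; ring
    have h4 : ∀ d ∈ Icc 1 (p - 1), Mx ((p : ℝ) / d) * H332.FL.sw ((d : ℝ) * (a / p)) =
        Mx ((p : ℝ) / d) * (((((a : ZMod p) * (d : ZMod p)).val : ℝ) / p)) - Mx ((p : ℝ) / d) * (1 / 2) := by
      intro d _
      unfold H332.FL.sw
      have h5 : (d : ℝ) * (a / p) = ((a * d : ℕ) : ℝ) / p := by push_cast; ring
      rw [h5, Int.fract_div_natCast_eq_div_natCast_mod, ← Nat.cast_mul, ZMod.val_natCast]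
      ring
    rw [h3, sum_congr rfl h4, sum_sub_distrib, ← sum_mul, hs]
    ring
  rw [h1]
  ring

lemma thin_eq : thinSum p =
    (∑ a : ZMod p, |EE (fun d => Mx ((p : ℝ) / d)) a|) / (farey p).card := by
  have hp2 := hp.out.two_le
  have hp0 : (p : ℝ) ≠ 0 := by exact_mod_cast hp.out.ne_zero
  have h1 : thinSum p = ∑ x ∈ farey p, if x.den = p then |Ef p (x : ℝ)| / (farey p).card else 0 := by
    rw [Pool.Agent.H295R2.t1_sum_eq p (fun x => if x.den = p then |Ef p (x : ℝ)| / (farey p).card else 0)]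
    unfold thinSum
    rw [sum_filter]
    refine sum_congr rfl fun j _ => ?_
    split_ifs with h
    · exact Pool.Agent.H295R2.disp_eq (by omega) j
    · rfl
  rw [h1, Pool.Agent.H295R2.sum_farey_eq]
  have hden : ∀ k ∈ Icc 1 p, ∀ h ∈ (Icc 1 k).filter (fun h => Nat.Coprime h k),
      ((h : ℚ) / (k : ℚ)).den = k := by
    intro k hk h hh
    rw [mem_filter, mem_Icc] at hh
    rw [mem_Icc] at hk
    have := Rat.den_div_eq_of_coprime (a := (h : ℤ)) (b := (k : ℤ)) (by exact_mod_cast hk.1)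
      (by simpa using hh.2)
    rw [Int.cast_natCast, Int.cast_natCast] at this
    exact_mod_cast this
  have h2 : ∀ k ∈ Icc 1 p, (∑ h ∈ (Icc 1 k).filter (fun h => Nat.Coprime h k),
      if ((h : ℚ) / (k : ℚ)).den = p then |Ef p (((h : ℚ) / (k : ℚ) : ℚ) : ℝ)| / (farey p).card else 0) =
      if k = p then (∑ h ∈ (Icc 1 p).filter (fun h => Nat.Coprime h p), |Ef p ((h : ℝ) / p)| / (farey p).card)
        else 0 := by
    intro k hk
    split_ifs with hkp
    · subst hkp
      refine sum_congr rfl fun h hh => ?_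
      rw [if_pos (hden k hk h hh)]
      push_cast
      rfl
    · refine sum_eq_zero fun h hh => ?_
      rw [hden k hk h hh, if_neg hkp]
  rw [sum_congr rfl h2, sum_ite_eq' (Icc 1 p), if_pos (by rw [mem_Icc]; omega), ← sum_div]
  congr 1
  have h3 : (Icc 1 p).filter (fun h => Nat.Coprime h p) = Icc 1 (p - 1) := by
    ext h
    rw [mem_filter, mem_Icc, mem_Icc]
    constructor
    · rintro ⟨⟨a, b⟩, c⟩
      refine ⟨a, ?_⟩
      rcases Nat.lt_or_ge h p with h4 | h4
      · omega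
      · have : h = p := le_antisymm b h4
        subst this
        rw [Nat.coprime_self] at c
        omega
    · rintro ⟨a, b⟩
      refine ⟨⟨a, by omega⟩, ?_⟩
      rw [Nat.coprime_comm, hp.out.coprime_iff_not_dvd]
      intro hd
      exact absurd (Nat.le_of_dvd a hd) (by omega)
  rw [h3, ← add_sum_erase univ _ (mem_univ (0 : ZMod p))]
  have h4 : EE (p := p) (fun d => Mx ((p : ℝ) / d)) 0 = 0 := by
    unfold EE
    simp
  rw [h4, abs_zero, zero_add]
  refine sum_bij (fun a _ => (a : ZMod p)) ?_ ?_ ?_ ?_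
  · intro a ha
    rw [mem_erase]
    exact ⟨cast_ne_zero ha, mem_univ _⟩
  · intro a ha b hb h
    exact cast_injOn ha hb h
  · intro b hb
    rw [mem_erase] at hb
    refine ⟨b.val, ?_, ZMod.natCast_zmod_val b⟩
    rw [mem_Icc]
    have h5 : b.val ≠ 0 := by rw [Ne, ZMod.val_eq_zero]; exact hb.1
    have h6 := ZMod.val_lt b
    omega
  · intro a _
    rw [Ef_at]

end

end Pool.Agent.H387R2.Thin
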