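import Pool.Agent.H295R2.T4
import Pool.Agent.H295R2.T5
import Pool.Agent.H295R2.R4
import Pool.Agent.H295R2.G

set_option autoImplicit false

open Finset Filter Topology

namespace Pool.Agent.H387R2.Thin

open Pool.Agent.H295R2 (farey Mx mu Bump Zs bb rho krho mOm Nice avg)

noncomputable section

lemma ev_pow {a b : ℝ} (hab : a < b) (K : ℝ) : ∀ᶠ x : ℝ in atTop, K * x ^ a ≤ x ^ b := by
  have h3 : Tendsto (fun x : ℝ => x ^ (b - a)) atTop atTop := tendsto_rpow_atTop (by linarith)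
  filter_upwards [h3.eventually_ge_atTop K, eventually_gt_atTop 0] with x hx hx0
  have h5 : x ^ b = x ^ (b - a) * x ^ a := by
    rw [← Real.rpow_add hx0]; ring_nf
  rw [h5]
  exact mul_le_mul_of_nonneg_right hx (by positivity)

lemma ev_log {ε : ℝ} (hε : 0 < ε) (K : ℝ) : ∀ᶠ x : ℝ in atTop, K * (1 + Real.log x) ≤ x ^ ε := by
  have h1 := ev_pow (a := ε / 2) (b := ε) (by linarith) (|K| * (1 + 2 / ε))
  filter_upwards [h1, eventually_ge_atTop 1] with x hx hx1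
  have hx0 : 0 < x := by linarith
  have h2 : 1 ≤ x ^ (ε / 2) := Real.one_le_rpow hx1 (by linarith)
  have h3 : Real.log x ≤ x ^ (ε / 2) / (ε / 2) := Real.log_le_rpow_div hx0.le (by linarith)
  have h4 : 1 + Real.log x ≤ (1 + 2 / ε) * x ^ (ε / 2) := by
    have : x ^ (ε / 2) / (ε / 2) = 2 / ε * x ^ (ε / 2) := by field_simp
    rw [this] at h3
    linarith
  have h5 : 0 ≤ 1 + Real.log x := by
    have := Real.log_nonneg hx1
    linarith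
  calc K * (1 + Real.log x) ≤ |K| * (1 + Real.log x) := by gcongr; exact le_abs_self K
    _ ≤ |K| * ((1 + 2 / ε) * x ^ (ε / 2)) := by gcongr
    _ = |K| * (1 + 2 / ε) * x ^ (ε / 2) := by ring
    _ ≤ _ := hx

/-- error term: `|∑ μ(e) ρ(n/e)| ≤ C n^(σ+λ) D^(1/2-σ) + C` -/
lemma rho_sum_bound {φ : ℝ → ℝ} (hφ : Bump φ) {Θ σ l : ℝ} (h1 : 1 / 2 ≤ Θ)
    (hfree : ∀ s : ℂ, Θ < s.re → Zs s ≠ 0) (hσ : Θ < σ) (hσ2 : σ ≤ 2) (hl : 0 < l) (hl1 : l ≤ 3 / 4) :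
    ∃ C > 0, ∀ n : ℕ, 1 ≤ n → ∀ D : ℝ, 4 ≤ D → D ≤ n →
      |∑ e ∈ Icc 1 n, mu e * rho φ 0 1 D ((n : ℝ) / e)| ≤
        C * ((n : ℝ) ^ (σ + l) * D ^ (1 / 2 - σ)) + C := by
  obtain ⟨B₁, hB₁0, hB₁⟩ := Pool.Agent.H295R2.krho_nice hφ (p := 0) (q := 1) (by norm_num) (by norm_num)
  obtain ⟨B₂, hB₂0, hB₂⟩ := Pool.Agent.H295R2.krho_trans hφ (p := 0) (q := 1) (by norm_num)
    (by norm_num) (σ := σ) (by linarith)
  set B := max B₁ B₂ with hB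
  have hB0 : 0 < B := lt_max_of_lt_left hB₁0
  obtain ⟨C₅, hC₅0, hC₅⟩ := Pool.Agent.H295R2.T5 (θ := Θ) (σ := σ) (ε := l / 3) (B := B)
    (by linarith) hfree hσ hσ2 (by linarith) (by linarith) hB0
  obtain ⟨C₆, hC₆0, hC₆⟩ := Pool.Agent.H295R2.perron_side hφ (p := 0) (q := 1) (by norm_num)
    (by norm_num)
  refine ⟨C₅ * 4 ^ l + C₆, by positivity, fun n hn D hD hDn => ?_⟩
  have hn0 : (0 : ℝ) < n := by exact_mod_cast hn
  have hD0 : 0 < D := by linarith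
  have h5 := hC₅ (krho φ 0 1 D) D (by linarith) (hB₁ B (le_max_left _ _) D (by linarith))
    (fun h h0 h1 => hB₂ B (le_max_right _ _) D (by linarith) h h0 h1) (1 / (4 * n)) (Real.log n)
    (by positivity) (by
      rw [one_div, inv_mul_le_iff₀ (by positivity)]; linarith)
  have h6 := hC₆ n hn D (by simpa using hD)
  have h7 : |∑ e ∈ Icc 1 n, mu e * rho φ 0 1 D ((n : ℝ) / e)| =
      ‖((∑ e ∈ Icc 1 n, mu e * rho φ 0 1 D ((n : ℝ) / e) : ℝ) : ℂ)‖ := by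
    rw [Complex.norm_real, Real.norm_eq_abs]
  rw [h7]
  have h8 : Real.exp (σ * Real.log n) = (n : ℝ) ^ σ := by
    rw [Real.rpow_def_of_pos hn0]; ring_nf
  have h9 : (1 / (4 * (n : ℝ))) ^ (-(3 * (l / 3))) = 4 ^ l * (n : ℝ) ^ l := by
    have e1 : -(3 * (l / 3)) = -l := by ring
    rw [e1, one_div, Real.inv_rpow (by positivity), Real.rpow_neg (by positivity), inv_inv,
      Real.mul_rpow (by norm_num) hn0.le]
  rw [h8, h9] at h5
  have h10 : C₅ * (n : ℝ) ^ σ * (4 ^ l * (n : ℝ) ^ l) * D ^ (1 / 2 - σ) =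
      C₅ * 4 ^ l * ((n : ℝ) ^ (σ + l) * D ^ (1 / 2 - σ)) := by
    rw [Real.rpow_add hn0]; ring
  rw [h10] at h5
  have h11 : 0 ≤ (n : ℝ) ^ (σ + l) * D ^ (1 / 2 - σ) := by positivity
  set Z : ℂ := ((∑ e ∈ Icc 1 n, mu e * rho φ 0 1 D ((n : ℝ) / e) : ℝ) : ℂ) with hZ
  set Q : ℂ := (∑' m : ℕ, ((ArithmeticFunction.moebius m : ℤ) : ℂ) *
    avg (1 / (4 * n)) (avg (1 / (4 * n)) (krho φ 0 1 D)) (Real.log n - Real.log m)) with hQ
  have h12 : ‖Z‖ ≤ ‖Q‖ + ‖Q - Z‖ := by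
    have := norm_sub_norm_le Z Q
    rw [norm_sub_rev] at this
    linarith
  have h13 : 0 ≤ C₆ * ((n : ℝ) ^ (σ + l) * D ^ (1 / 2 - σ)) := by positivity
  have h14 : 0 ≤ C₅ * 4 ^ l := by positivity
  linarith

/-- the weighted sum over the values `Mx (n/d)` is large for every `n` -/
theorem weighted {Θ : ℝ} (h1 : 1 / 2 ≤ Θ) (h2 : Θ ≤ 1) (hfree : ∀ s : ℂ, Θ < s.re → Zs s ≠ 0)
    (hsup : ∀ κ > 0, ∃ s : ℂ, Θ - κ < s.re ∧ Zs s = 0) {l : ℝ} (hl : 0 < l) (hl1 : l ≤ 1 / 2) :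
    ∃ φ : ℝ → ℝ, Bump φ ∧ ∀ᶠ n : ℕ in atTop, ∃ D : ℝ, 4 ≤ D ∧
      D * (n : ℝ) ^ (Θ - 2 * l) ≤ |∑ d ∈ Icc 1 n, Mx ((n : ℝ) / d) * bb φ 0 1 D d| := by
  obtain ⟨φ, hφ1, hφ2, Y₀, hY₀⟩ := Pool.Agent.H295R2.T4 h1 h2 hfree hsup (δ := l / 12) (by linarith)
    (by linarith)
  have hφ : Bump φ := ⟨hφ1, hφ2⟩
  obtain ⟨C, hC0, hC⟩ := rho_sum_bound hφ (Θ := Θ) (σ := Θ + l / 16) (l := l / 16) h1 hfree
    (by linarith) (by linarith) (by linarith) (by linarith)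
  refine ⟨φ, hφ, ?_⟩
  have hcast := tendsto_natCast_atTop_atTop (R := ℝ)
  have e1 : ∀ᶠ x : ℝ in atTop, Y₀ ≤ x ^ (1 - l) := (tendsto_rpow_atTop (by linarith)).eventually_ge_atTop _
  have e2 : ∀ᶠ x : ℝ in atTop, 4 ≤ x ^ l := (tendsto_rpow_atTop hl).eventually_ge_atTop _
  have e3 := ev_pow (a := 0) (b := l / 4) (by linarith) (4 * C)
  have e4 := ev_pow (a := 0) (b := l / 16) (by linarith) (4 * C)
  filter_upwards [hcast.eventually e1, hcast.eventually e2, hcast.eventually e3,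
    hcast.eventually e4, hcast.eventually (ev_pow (a := 0) (b := l / 2) (by linarith) 2),
    eventually_ge_atTop 1] with n g1 g2 g3 g4 g5 hn
  rw [Real.rpow_zero, mul_one] at g3 g4 g5
  have hn0 : (0 : ℝ) < n := by exact_mod_cast hn
  have hn1 : (1 : ℝ) ≤ n := by exact_mod_cast hn
  obtain ⟨X, hX1, hX2, hX3⟩ := hY₀ _ g1
  have hX0 : 0 < X := lt_of_lt_of_le (by positivity) hX1
  have hX1' : 1 ≤ X := by
    refine le_trans ?_ hX1
    rw [← Real.rpow_mul hn0.le]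
    exact Real.one_le_rpow hn1 (by nlinarith)
  set D : ℝ := n / X with hD
  have hD1 : (n : ℝ) ^ l ≤ D := by
    rw [hD, le_div_iff₀ hX0]
    calc (n : ℝ) ^ l * X ≤ (n : ℝ) ^ l * (n : ℝ) ^ (1 - l) := by gcongr
      _ = n := by rw [← Real.rpow_add hn0]; simp
  have hD4 : 4 ≤ D := g2.trans hD1
  have hD0 : 0 < D := by linarith
  have hDn : D ≤ n := by
    rw [hD]; exact div_le_self hn0.le hX1'
  refine ⟨D, hD4, ?_⟩
  have hnD : (n : ℝ) / D = X := by rw [hD]; field_simp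
  have hS : ∑ d ∈ Icc 1 n, Mx ((n : ℝ) / d) * bb φ 0 1 D d =
      ∑ e ∈ Icc 1 n, mu e * rho φ 0 1 D ((n : ℝ) / e) + D * mOm φ X := by
    have a1 := Pool.Agent.H295R2.farey_local_sum hφ (p := 0) (q := 1) (by norm_num) (D := D)
      (by simp; linarith) n
    rw [Pool.Agent.H295R2.sum_farey_mertens n (fun x : ℚ => deriv φ (D * ((x : ℝ) - ((0 : ℕ) : ℝ) / ((1 : ℕ) : ℝ))))] at a1
    have a2 : ∑ d ∈ Icc 1 n, Mx ((n : ℝ) / d) * bb φ 0 1 D d = ∑ d ∈ Icc 1 n, Mx ((n : ℝ) / d) *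
        ∑ h ∈ Icc 1 d, deriv φ (D * ((((h : ℚ) / (d : ℚ) : ℚ) : ℝ) - ((0 : ℕ) : ℝ) / ((1 : ℕ) : ℝ))) := by
      refine sum_congr rfl fun d hd => ?_
      rw [mem_Icc] at hd
      rw [Pool.Agent.H295R2.bb_eq_sum hφ (p := 0) (q := 1) (by norm_num) (by simp; linarith)
        (by omega : 0 < d)]
    rw [a2, a1]
    simp only [Nat.cast_one, one_pow, div_one, one_mul]
    rw [hnD]
  rw [hS]
  have h5 := hC n hn D hD4 hDn
  -- main term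
  have h6 : D * ((n : ℝ) ^ (1 - l)) ^ (Θ - 3 * (l / 12)) ≤ |D * mOm φ X| := by
    rw [abs_mul, abs_of_pos hD0]
    gcongr
  rw [← Real.rpow_mul hn0.le] at h6
  have h7 : (n : ℝ) ^ (Θ - 3 / 2 * l) ≤ (n : ℝ) ^ ((1 - l) * (Θ - 3 * (l / 12))) := by
    apply Real.rpow_le_rpow_of_exponent_le hn1
    nlinarith
  -- error term
  have h8 : C * ((n : ℝ) ^ (Θ + l / 16 + l / 16) * D ^ (1 / 2 - (Θ + l / 16))) ≤
      1 / 4 * (D * (n : ℝ) ^ ((1 - l) * (Θ - 3 * (l / 12)))) := by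
    have b1 : D ^ (1 / 2 - (Θ + l / 16)) ≤ D * (n : ℝ) ^ (-(l * (1 / 2 + Θ))) := by
      have b2 : D ^ (1 / 2 - (Θ + l / 16)) = D * D ^ (-(1 / 2 + Θ + l / 16)) := by
        nth_rewrite 2 [← Real.rpow_one D]
        rw [← Real.rpow_add hD0]; ring_nf
      rw [b2]
      gcongr
      calc D ^ (-(1 / 2 + Θ + l / 16)) ≤ D ^ (-(1 / 2 + Θ)) :=
            Real.rpow_le_rpow_of_exponent_le (by linarith) (by linarith)
        _ ≤ ((n : ℝ) ^ l) ^ (-(1 / 2 + Θ)) :=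
            Real.rpow_le_rpow_of_nonpos (by positivity) hD1 (by linarith)
        _ = _ := by rw [← Real.rpow_mul hn0.le]; ring_nf
    calc C * ((n : ℝ) ^ (Θ + l / 16 + l / 16) * D ^ (1 / 2 - (Θ + l / 16)))
        ≤ C * ((n : ℝ) ^ (Θ + l / 16 + l / 16) * (D * (n : ℝ) ^ (-(l * (1 / 2 + Θ))))) := by gcongr
      _ = D * (C * ((n : ℝ) ^ (Θ + l / 16 + l / 16) * (n : ℝ) ^ (-(l * (1 / 2 + Θ))))) := by ring
      _ = D * (C * (n : ℝ) ^ (Θ + l / 16 + l / 16 + -(l * (1 / 2 + Θ)))) := by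
          rw [Real.rpow_add hn0 (Θ + l / 16 + l / 16)]
      _ ≤ D * (1 / 4 * (n : ℝ) ^ (l / 16) * (n : ℝ) ^ (Θ + l / 16 + l / 16 + -(l * (1 / 2 + Θ)))) := by
          gcongr; linarith
      _ = 1 / 4 * (D * (n : ℝ) ^ (l / 16 + (Θ + l / 16 + l / 16 + -(l * (1 / 2 + Θ))))) := by
          rw [Real.rpow_add hn0 (l / 16)]; ring
      _ ≤ 1 / 4 * (D * (n : ℝ) ^ ((1 - l) * (Θ - 3 * (l / 12)))) := by
          gcongr
          nlinarith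
  have h9 : C ≤ 1 / 4 * (D * (n : ℝ) ^ ((1 - l) * (Θ - 3 * (l / 12)))) := by
    have c1 : (1 : ℝ) ≤ (n : ℝ) ^ ((1 - l) * (Θ - 3 * (l / 12))) := by
      apply Real.one_le_rpow hn1
      apply mul_nonneg (by linarith) (by linarith)
    have c2 : 4 * C ≤ D := by
      refine g4.trans (le_trans ?_ hD1)
      exact Real.rpow_le_rpow_of_exponent_le hn1 (by linarith)
    nlinarith
  have h10 : (n : ℝ) ^ (Θ - 2 * l) ≤ 1 / 2 * (n : ℝ) ^ ((1 - l) * (Θ - 3 * (l / 12))) := by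
    have c1 : (n : ℝ) ^ (Θ - 3 / 2 * l) = (n : ℝ) ^ (l / 2) * (n : ℝ) ^ (Θ - 2 * l) := by
      rw [← Real.rpow_add hn0]; ring_nf
    have c2 : 0 < (n : ℝ) ^ (Θ - 2 * l) := by positivity
    nlinarith
  have h11 : |D * mOm φ X| ≤ |∑ e ∈ Icc 1 n, mu e * rho φ 0 1 D ((n : ℝ) / e) + D * mOm φ X| +
      |∑ e ∈ Icc 1 n, mu e * rho φ 0 1 D ((n : ℝ) / e)| := by
    have := abs_sub (∑ e ∈ Icc 1 n, mu e * rho φ 0 1 D ((n : ℝ) / e) + D * mOm φ X)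
      (∑ e ∈ Icc 1 n, mu e * rho φ 0 1 D ((n : ℝ) / e))
    rwa [add_sub_cancel_left] at this
  have h12 : D * (n : ℝ) ^ (Θ - 2 * l) ≤ D * (1 / 2 * (n : ℝ) ^ ((1 - l) * (Θ - 3 * (l / 12)))) := by
    gcongr
  linarith

/-- for every large `n` some value `Mx (n/h)` with `h ≤ n^δ` is as large as `n^(Θ-δ)` -/
theorem exists_h {Θ : ℝ} (h1 : 1 / 2 ≤ Θ) (h2 : Θ ≤ 1) (hfree : ∀ s : ℂ, Θ < s.re → Zs s ≠ 0)
    (hsup : ∀ κ > 0, ∃ s : ℂ, Θ - κ < s.re ∧ Zs s = 0) {δ : ℝ} (hδ : 0 < δ) (hδ1 : δ ≤ 1) :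
    ∀ᶠ n : ℕ in atTop, ∃ h : ℕ, 1 ≤ h ∧ (h : ℝ) ≤ (n : ℝ) ^ δ ∧
      (n : ℝ) ^ (Θ - δ) ≤ |Mx ((n : ℝ) / h)| := by
  obtain ⟨φ, hφ, hW⟩ := weighted h1 h2 hfree hsup (l := δ / 32) (by linarith) (by linarith)
  obtain ⟨Cb, hCb0, hCb⟩ := Pool.Agent.H295R2.bb_bound hφ (p := 0) (q := 1) (by norm_num)
  obtain ⟨CM, hCM0, hCM⟩ := Pool.Agent.H295R2.mertens_bound (θ := Θ) (σ := Θ + δ / 32) (by linarith)
    hfree (by linarith) (by linarith)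
  set S : ℝ := ∑' d : ℕ, (d : ℝ) ^ (-(1 + δ / 32)) with hS
  have hsum : Summable fun d : ℕ => (d : ℝ) ^ (-(1 + δ / 32)) := by
    have := Real.summable_nat_rpow_inv (p := 1 + δ / 32) |>.2 (by linarith)
    refine this.congr fun d => ?_
    rw [Real.rpow_neg (by positivity)]
  have hS0 : 0 ≤ S := tsum_nonneg fun d => by positivity
  have hcast := tendsto_natCast_atTop_atTop (R := ℝ)
  filter_upwards [hW, hcast.eventually (ev_log (ε := δ / 8) (by linarith) (4 * Cb)),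
    hcast.eventually (ev_pow (a := 0) (b := δ / 32) (by linarith) (4 * (Cb * CM * (S + 1)))),
    eventually_ge_atTop 1] with n hn g1 g2 hn1
  rw [Real.rpow_zero, mul_one] at g2
  have hn0 : (0 : ℝ) < n := by exact_mod_cast hn1
  have hn1' : (1 : ℝ) ≤ n := by exact_mod_cast hn1
  obtain ⟨D, hD4, hD⟩ := hn
  have hD0 : 0 < D := by linarith
  by_contra hcon
  push Not at hcon
  have hH0 : 0 < (n : ℝ) ^ δ := by positivity
  -- termwise bound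
  have key : ∀ d ∈ Icc 1 n, |Mx ((n : ℝ) / d) * bb φ 0 1 D d| ≤
      Cb * D * (n : ℝ) ^ (Θ - δ) * (1 / d) +
        Cb * CM * D * (n : ℝ) ^ (Θ + δ / 32 - δ / 4) * (d : ℝ) ^ (-(1 + δ / 32)) := by
    intro d hd
    rw [mem_Icc] at hd
    have hd0 : (0 : ℝ) < d := by exact_mod_cast hd.1
    have hd1 : (1 : ℝ) ≤ d := by exact_mod_cast hd.1
    have b1 : |bb φ 0 1 D d| ≤ Cb * (D / d) := by
      have := (hCb D hD0 d (by omega)).2
      refine this.trans ?_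
      split_ifs
      · positivity
      · exact le_rfl
    rw [abs_mul]
    rcases le_or_gt (d : ℝ) ((n : ℝ) ^ δ) with h3 | h3
    · have h4 := (hcon d hd.1 h3).le
      have h5 : 0 ≤ Cb * CM * D * (n : ℝ) ^ (Θ + δ / 32 - δ / 4) * (d : ℝ) ^ (-(1 + δ / 32)) := by
        positivity
      calc |Mx ((n : ℝ) / d)| * |bb φ 0 1 D d| ≤ (n : ℝ) ^ (Θ - δ) * (Cb * (D / d)) := by gcongr
        _ = Cb * D * (n : ℝ) ^ (Θ - δ) * (1 / d) := by ring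
        _ ≤ _ := by linarith
    · have h4 := hCM ((n : ℝ) / d) (by rw [one_le_div hd0]; exact_mod_cast hd.2)
      have h5 : 0 ≤ Cb * D * (n : ℝ) ^ (Θ - δ) * (1 / (d : ℝ)) := by positivity
      have h6 : ((n : ℝ) / d) ^ (Θ + δ / 32) * (1 / d) ≤
          (n : ℝ) ^ (Θ + δ / 32 - δ / 4) * (d : ℝ) ^ (-(1 + δ / 32)) := by
        rw [Real.div_rpow hn0.le hd0.le, one_div, ← Real.rpow_neg_one, div_eq_mul_inv,
          ← Real.rpow_neg hd0.le, mul_assoc, ← Real.rpow_add hd0]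
        have c1 : (d : ℝ) ^ (-(Θ + δ / 32) + -1) = (d : ℝ) ^ (-Θ) * (d : ℝ) ^ (-(1 + δ / 32)) := by
          rw [← Real.rpow_add hd0]; ring_nf
        have c2 : (d : ℝ) ^ (-Θ) ≤ (n : ℝ) ^ (-(δ / 4)) := by
          calc (d : ℝ) ^ (-Θ) ≤ ((n : ℝ) ^ δ) ^ (-Θ) :=
                Real.rpow_le_rpow_of_nonpos hH0 h3.le (by linarith)
            _ = (n : ℝ) ^ (-(δ * Θ)) := by rw [← Real.rpow_mul hn0.le]; ring_nf
            _ ≤ (n : ℝ) ^ (-(δ / 4)) := Real.rpow_le_rpow_of_exponent_le hn1' (by nlinarith)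
        rw [c1, sub_eq_add_neg (Θ + δ / 32), Real.rpow_add hn0 (Θ + δ / 32), mul_assoc]
        gcongr
      calc |Mx ((n : ℝ) / d)| * |bb φ 0 1 D d| ≤
            (CM * ((n : ℝ) / d) ^ (Θ + δ / 32)) * (Cb * (D / d)) := by gcongr
        _ = Cb * CM * D * (((n : ℝ) / d) ^ (Θ + δ / 32) * (1 / d)) := by ring
        _ ≤ Cb * CM * D * ((n : ℝ) ^ (Θ + δ / 32 - δ / 4) * (d : ℝ) ^ (-(1 + δ / 32))) := by gcongr
        _ = Cb * CM * D * (n : ℝ) ^ (Θ + δ / 32 - δ / 4) * (d : ℝ) ^ (-(1 + δ / 32)) := by ring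
        _ ≤ _ := by linarith
  have h3 : D * (n : ℝ) ^ (Θ - 2 * (δ / 32)) ≤
      Cb * D * (n : ℝ) ^ (Θ - δ) * (1 + Real.log n) +
        Cb * CM * D * (n : ℝ) ^ (Θ + δ / 32 - δ / 4) * S := by
    refine hD.trans ((abs_sum_le_sum_abs _ _).trans ((sum_le_sum key).trans ?_))
    rw [sum_add_distrib, ← mul_sum, ← mul_sum]
    gcongr
    · exact Pool.Agent.H295R2.harmonic_Icc_le hn1
    · exact hsum.sum_le_tsum _ fun d _ => by positivity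
  have h4 : (n : ℝ) ^ (Θ - 2 * (δ / 32)) ≤
      Cb * (n : ℝ) ^ (Θ - δ) * (1 + Real.log n) +
        Cb * CM * (n : ℝ) ^ (Θ + δ / 32 - δ / 4) * S := by
    have : D * (n : ℝ) ^ (Θ - 2 * (δ / 32)) ≤ D * (Cb * (n : ℝ) ^ (Θ - δ) * (1 + Real.log n) +
        Cb * CM * (n : ℝ) ^ (Θ + δ / 32 - δ / 4) * S) := by
      refine h3.trans (le_of_eq (by ring))
    exact le_of_mul_le_mul_left this hD0
  have hlog : 0 ≤ Real.log n := Real.log_nonneg hn1'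
  set P : ℝ := (n : ℝ) ^ (Θ - 2 * (δ / 32)) with hP
  have hP0 : 0 < P := by positivity
  have h5 : Cb * (n : ℝ) ^ (Θ - δ) * (1 + Real.log n) ≤ 1 / 4 * P := by
    have c1 : (n : ℝ) ^ (Θ - δ) * (n : ℝ) ^ (δ / 8) ≤ P := by
      rw [← Real.rpow_add hn0, hP]
      exact Real.rpow_le_rpow_of_exponent_le hn1' (by linarith)
    have c2 : 0 < (n : ℝ) ^ (Θ - δ) := by positivity
    nlinarith
  have h6 : Cb * CM * (n : ℝ) ^ (Θ + δ / 32 - δ / 4) * S ≤ 1 / 4 * P := by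
    have c1 : (n : ℝ) ^ (Θ + δ / 32 - δ / 4) * (n : ℝ) ^ (δ / 32) ≤ P := by
      rw [← Real.rpow_add hn0, hP]
      exact Real.rpow_le_rpow_of_exponent_le hn1' (by linarith)
    have c2 : 0 < (n : ℝ) ^ (Θ + δ / 32 - δ / 4) := by positivity
    have c3 : 4 * (Cb * CM * S) ≤ (n : ℝ) ^ (δ / 32) := by
      refine le_trans ?_ g2
      have : 0 ≤ Cb * CM := by positivity
      nlinarith
    nlinarith
  linarith

end

end Pool.Agent.H387R2.Thin
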