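import Pool.Agent.H387R2.ThinC
import Pool.Agent.H387R2.ThinLB
import Pool.Agent.H295R2.T1loc

set_option autoImplicit false

open Finset Filter Topology

namespace Pool.Agent.H387R2.Thin

open Pool.Agent.H295R2 (farey Mx mu Zs)

noncomputable section

lemma card_le {n : ℕ} : ((farey n).card : ℝ) ≤ (n : ℝ) ^ 2 := by
  rw [Pool.Agent.H295R2.farey_card_totient]
  push_cast
  calc ∑ k ∈ Icc 1 n, (Nat.totient k : ℝ) ≤ ∑ k ∈ Icc 1 n, (n : ℝ) := by
        refine sum_le_sum fun k hk => ?_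
        rw [mem_Icc] at hk
        exact_mod_cast (Nat.totient_le k).trans hk.2
    _ = (n : ℝ) ^ 2 := by rw [sum_const, Nat.card_Icc, nsmul_eq_mul]; simp [sq]

variable {p : ℕ} [hp : Fact p.Prime]

/-- upper bound in terms of the sums of squares -/
lemma thin_le : thinSum p ≤ 6 * (1 + Real.log p) / p *
    Real.sqrt (∑ d ∈ Icc 1 (p - 1), Mx ((p : ℝ) / d) ^ 2) := by
  have hp2 := hp.out.two_le
  have hp0 : (0 : ℝ) < p := by exact_mod_cast hp.out.pos
  have hlog : 0 ≤ Real.log p := Real.log_nonneg (by exact_mod_cast hp.out.one_le)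
  set V : ℝ := ∑ d ∈ Icc 1 (p - 1), Mx ((p : ℝ) / d) ^ 2 with hV
  have hV0 : 0 ≤ V := sum_nonneg fun d _ => sq_nonneg _
  have h1 := upper (p := p) (m := fun d => Mx ((p : ℝ) / d)) (mm_sum hp2)
  have h2 : (∑ a : ZMod p, |EE (fun d => Mx ((p : ℝ) / d)) a|) ^ 2 ≤
      p * ∑ a : ZMod p, EE (fun d => Mx ((p : ℝ) / d)) a ^ 2 := by
    have := sq_sum_le_card_mul_sum_sq (s := (univ : Finset (ZMod p)))
      (f := fun a => |EE (fun d => Mx ((p : ℝ) / d)) a|)
    simpa [sq_abs, ZMod.card] using this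
  have h3 : (∑ a : ZMod p, |EE (fun d => Mx ((p : ℝ) / d)) a|) ≤
      p / 2 * (1 + Real.log p) * Real.sqrt V := by
    have h4 : (∑ a : ZMod p, |EE (fun d => Mx ((p : ℝ) / d)) a|) ^ 2 ≤
        (p / 2 * (1 + Real.log p) * Real.sqrt V) ^ 2 := by
      rw [mul_pow, mul_pow, Real.sq_sqrt hV0]
      calc _ ≤ _ := h2
        _ ≤ p * (p / 4 * (1 + Real.log p) ^ 2 * V) := by gcongr
        _ = _ := by ring
    exact le_of_sq_le_sq h4 (by positivity)
  rw [thin_eq]
  have hA := Pool.Agent.H295R2.farey_card_lower p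
  have hA0 : (0 : ℝ) < (farey p).card := by
    have : (0 : ℝ) < (p : ℝ) ^ 2 := by positivity
    linarith
  rw [div_le_iff₀ hA0]
  refine h3.trans ?_
  calc p / 2 * (1 + Real.log p) * Real.sqrt V =
        6 * (1 + Real.log p) / p * Real.sqrt V * ((p : ℝ) ^ 2 / 12) := by field_simp; ring
    _ ≤ 6 * (1 + Real.log p) / p * Real.sqrt V * (farey p).card := by
        gcongr
        linarith

/-- the sum over `ZMod p` bounds each value `Mx (p/h)` -/
lemma abs_Mx_le {T : ℝ} (hT : ∀ N : ℕ, 1 ≤ N → N ≤ 2 * p ^ 2 → (N.divisors.card : ℝ) ≤ T) {h : ℕ}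
    (hh : 1 ≤ h) (hh2 : 2 * h ≤ p) :
    |Mx ((p : ℝ) / h)| ≤ 2 * Real.pi * T * ((∑ a : ZMod p, |EE (fun d => Mx ((p : ℝ) / d)) a|) / p +
      5 * T * (1 + Real.log p)) := by
  have hp2 := hp.out.two_le
  have hp0 : (0 : ℝ) < p := by exact_mod_cast hp.out.pos
  have hh0 : (0 : ℝ) < h := by exact_mod_cast hh
  have hlog : 0 ≤ Real.log p := Real.log_nonneg (by exact_mod_cast hp.out.one_le)
  have hpi := Real.pi_pos
  set m : ℕ → ℝ := fun d => Mx ((p : ℝ) / d) with hm
  set S : ℝ := ∑ a : ZMod p, |EE m a| with hS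
  have hS0 : 0 ≤ S := sum_nonneg fun a _ => abs_nonneg _
  have hT1 : 1 ≤ T := by
    have := hT 1 le_rfl (by nlinarith)
    simpa using this
  have hm1 : ∀ d ∈ Icc 1 (p - 1), |m d| ≤ p / d := by
    intro d _
    simp only [hm]
    exact Pool.Agent.H295R2.abs_Mx_le (by positivity)
  -- bound for each divisor
  have hg : ∀ k : ℕ, 1 ≤ k → k ∣ h → |∑ d ∈ k.divisors, (d : ℝ) * m d| ≤
      2 * Real.pi * h * (S / p + 5 * T * (1 + Real.log p)) := by
    intro k hk hkh
    have hkle : k ≤ h := Nat.le_of_dvd (by omega) hkh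
    have hk0 : (0 : ℝ) < k := by exact_mod_cast hk
    have h1 := lower hm1 hT hk (by omega : 2 * k ≤ p)
    have h2 : ∑ d ∈ k.divisors, |m d| ≤ p * T := by
      calc ∑ d ∈ k.divisors, |m d| ≤ ∑ d ∈ k.divisors, (p : ℝ) := by
            refine sum_le_sum fun d hd => ?_
            have hd1 := Nat.pos_of_mem_divisors hd
            have hd2 := Nat.divisor_le hd
            have hd0 : (1 : ℝ) ≤ d := by exact_mod_cast hd1
            refine (hm1 d (by rw [mem_Icc]; omega)).trans (div_le_self hp0.le hd0)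
        _ = k.divisors.card * p := by rw [sum_const, nsmul_eq_mul]
        _ ≤ T * p := by
            gcongr
            exact hT k hk (by nlinarith)
        _ = p * T := by ring
    have h3 : p / (2 * Real.pi * k) * |∑ d ∈ k.divisors, (d : ℝ) * m d| ≤
        S + 5 * (p * T * (1 + Real.log p)) := by
      have h4 : p * T ≤ p * T * (1 + Real.log p) := by
        have : 0 ≤ p * T := by positivity
        nlinarith
      linarith
    calc |∑ d ∈ k.divisors, (d : ℝ) * m d| =
          (2 * Real.pi * k / p) * (p / (2 * Real.pi * k) * |∑ d ∈ k.divisors, (d : ℝ) * m d|) := by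
          field_simp
      _ ≤ (2 * Real.pi * k / p) * (S + 5 * (p * T * (1 + Real.log p))) := by gcongr
      _ = 2 * Real.pi * k * (S / p + 5 * T * (1 + Real.log p)) := by field_simp
      _ ≤ 2 * Real.pi * h * (S / p + 5 * T * (1 + Real.log p)) := by gcongr
  -- Moebius inversion
  have hinv : (h : ℝ) * m h = ∑ x ∈ h.divisorsAntidiagonal,
      ((ArithmeticFunction.moebius x.1 : ℤ) : ℝ) * ∑ d ∈ x.2.divisors, (d : ℝ) * m d := by
    have := (ArithmeticFunction.sum_eq_iff_sum_mul_moebius_eq (R := ℝ) (f := fun d => (d : ℝ) * m d)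
      (g := fun k => ∑ d ∈ k.divisors, (d : ℝ) * m d)).1 (fun n _ => rfl) h (by omega)
    exact this.symm
  have h5 : (h : ℝ) * |m h| ≤ T * (2 * Real.pi * h * (S / p + 5 * T * (1 + Real.log p))) := by
    rw [← abs_of_pos hh0, ← abs_mul, hinv, abs_of_pos hh0]
    refine (abs_sum_le_sum_abs _ _).trans ?_
    have h6 : ∀ x ∈ h.divisorsAntidiagonal,
        |((ArithmeticFunction.moebius x.1 : ℤ) : ℝ) * ∑ d ∈ x.2.divisors, (d : ℝ) * m d| ≤
        2 * Real.pi * h * (S / p + 5 * T * (1 + Real.log p)) := by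
      intro x hx
      rw [Nat.mem_divisorsAntidiagonal] at hx
      have hx2 : x.2 ∣ h := ⟨x.1, by rw [← hx.1]; ring⟩
      have hx0 : 1 ≤ x.2 := Nat.pos_of_dvd_of_pos hx2 (by omega)
      rw [abs_mul]
      have h7 : |((ArithmeticFunction.moebius x.1 : ℤ) : ℝ)| ≤ 1 := by
        exact_mod_cast ArithmeticFunction.abs_moebius_le_one
      calc _ ≤ 1 * (2 * Real.pi * h * (S / p + 5 * T * (1 + Real.log p))) :=
            mul_le_mul h7 (hg x.2 hx0 hx2) (abs_nonneg _) (by norm_num)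
        _ = _ := by ring
    refine (sum_le_sum h6).trans ?_
    rw [sum_const, nsmul_eq_mul]
    have h8 : (h.divisorsAntidiagonal.card : ℝ) ≤ T := by
      have h9 : h.divisorsAntidiagonal.card = h.divisors.card := by
        rw [← Nat.map_div_right_divisors, card_map]
      rw [h9]
      exact hT h hh (by nlinarith)
    gcongr
  have h10 : (h : ℝ) * |m h| ≤ h * (2 * Real.pi * T * (S / p + 5 * T * (1 + Real.log p))) := by
    refine h5.trans (le_of_eq (by ring))
  exact le_of_mul_le_mul_left h10 hh0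

end

end Pool.Agent.H387R2.Thin
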