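import Pool.Agent.H387R2.ThinD
import Pool.Agent.H295R2.T6b

set_option autoImplicit false

open Finset Filter Topology

namespace Pool.Agent.H387R2.Thin

open Pool.Agent.H295R2 (farey Mx mu Zs zetaSup totalSum half_le_zetaSup zetaSup_le_one zetaSup_free
  zetaSup_sup)

noncomputable section

/-- upper bound, for all primes -/
theorem thin_upper {ε : ℝ} (hε : 0 < ε) (hε1 : ε ≤ 1) : ∃ K > 0, ∀ p : ℕ, p.Prime →
    thinSum p ≤ K * (p : ℝ) ^ (zetaSup - 1 + ε) := by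
  have hΘ1 := half_le_zetaSup
  have hΘ2 := zetaSup_le_one
  set σ : ℝ := zetaSup + ε / 2 with hσ
  obtain ⟨C, hC0, hC⟩ := Pool.Agent.H295R2.mertens_bound (θ := zetaSup) (σ := σ) (by linarith)
    zetaSup_free (by linarith) (by linarith)
  set S : ℝ := ∑' d : ℕ, (d : ℝ) ^ (-(2 * σ)) with hS
  have hsum : Summable fun d : ℕ => (d : ℝ) ^ (-(2 * σ)) := by
    have := Real.summable_nat_rpow_inv (p := 2 * σ) |>.2 (by linarith)
    refine this.congr fun d => ?_
    rw [Real.rpow_neg (by positivity)]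
  have hS0 : 0 ≤ S := tsum_nonneg fun d => by positivity
  have hlogb : ∀ x : ℝ, 1 ≤ x → 1 + Real.log x ≤ (1 + 2 / ε) * x ^ (ε / 2) := by
    intro x hx1
    have hx0 : 0 < x := by linarith
    have h2 : 1 ≤ x ^ (ε / 2) := Real.one_le_rpow hx1 (by linarith)
    have h3 : Real.log x ≤ x ^ (ε / 2) / (ε / 2) := Real.log_le_rpow_div hx0.le (by linarith)
    have : x ^ (ε / 2) / (ε / 2) = 2 / ε * x ^ (ε / 2) := by field_simp
    rw [this] at h3
    linarith
  refine ⟨6 * (1 + 2 / ε) * (C * Real.sqrt S + 1), by positivity, fun p hp => ?_⟩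
  have : Fact p.Prime := ⟨hp⟩
  have hp1 : (1 : ℝ) ≤ p := by exact_mod_cast hp.one_le
  have hp0 : (0 : ℝ) < p := by linarith
  have hlog : 0 ≤ Real.log p := Real.log_nonneg hp1
  have h1 : ∑ d ∈ Icc 1 (p - 1), Mx ((p : ℝ) / d) ^ 2 ≤ (C * (p : ℝ) ^ σ) ^ 2 * S := by
    calc ∑ d ∈ Icc 1 (p - 1), Mx ((p : ℝ) / d) ^ 2
        ≤ ∑ d ∈ Icc 1 (p - 1), (C * (p : ℝ) ^ σ) ^ 2 * (d : ℝ) ^ (-(2 * σ)) := by
          refine sum_le_sum fun d hd => ?_
          rw [mem_Icc] at hd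
          have hd0 : (0 : ℝ) < d := by exact_mod_cast hd.1
          have h2 := hC ((p : ℝ) / d) (by
            rw [one_le_div hd0]
            have : d ≤ p := by omega
            exact_mod_cast this)
          rw [Real.div_rpow hp0.le hd0.le] at h2
          have h3 : (d : ℝ) ^ (-(2 * σ)) = (((d : ℝ) ^ σ)⁻¹) ^ 2 := by
            rw [← Real.rpow_neg hd0.le, ← Real.rpow_natCast, ← Real.rpow_mul hd0.le]
            congr 1; push_cast; ring
          rw [h3, ← mul_pow, ← sq_abs]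
          apply pow_le_pow_left₀ (abs_nonneg _)
          refine h2.trans (le_of_eq ?_)
          rw [div_eq_mul_inv]; ring
      _ = (C * (p : ℝ) ^ σ) ^ 2 * ∑ d ∈ Icc 1 (p - 1), (d : ℝ) ^ (-(2 * σ)) := by rw [mul_sum]
      _ ≤ _ := by
          gcongr
          exact hsum.sum_le_tsum _ fun d _ => by positivity
  have h2 : Real.sqrt (∑ d ∈ Icc 1 (p - 1), Mx ((p : ℝ) / d) ^ 2) ≤ C * (p : ℝ) ^ σ * Real.sqrt S := by
    refine (Real.sqrt_le_sqrt h1).trans (le_of_eq ?_)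
    rw [Real.sqrt_mul (by positivity), Real.sqrt_sq (by positivity)]
  calc thinSum p ≤ 6 * (1 + Real.log p) / p *
        Real.sqrt (∑ d ∈ Icc 1 (p - 1), Mx ((p : ℝ) / d) ^ 2) := thin_le
    _ ≤ 6 * ((1 + 2 / ε) * (p : ℝ) ^ (ε / 2)) / p * (C * (p : ℝ) ^ σ * Real.sqrt S) := by
        gcongr
        exact hlogb p hp1
    _ = 6 * (1 + 2 / ε) * (C * Real.sqrt S) * ((p : ℝ) ^ (ε / 2) * (p : ℝ) ^ σ * (p : ℝ) ^ (-1 : ℝ)) := by
        rw [Real.rpow_neg_one]; ring
    _ = 6 * (1 + 2 / ε) * (C * Real.sqrt S) * (p : ℝ) ^ (zetaSup - 1 + ε) := by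
        rw [← Real.rpow_add hp0, ← Real.rpow_add hp0, hσ]; ring_nf
    _ ≤ _ := by
        gcongr
        linarith

/-- lower bound, for all large primes -/
theorem thin_lower {ε : ℝ} (hε : 0 < ε) (hε1 : ε ≤ 1 / 4) : ∀ᶠ p : ℕ in atTop, p.Prime →
    (p : ℝ) ^ (zetaSup - 1 - ε) ≤ thinSum p := by
  have hΘ1 := half_le_zetaSup
  have hΘ2 := zetaSup_le_one
  have hpi := Real.pi_pos
  obtain ⟨C, hC0, hC⟩ := Pool.Agent.H510R2.divisor_bound (ε / 16) (by linarith)
  have hcast := tendsto_natCast_atTop_atTop (R := ℝ)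
  filter_upwards [exists_h half_le_zetaSup zetaSup_le_one zetaSup_free zetaSup_sup (δ := ε / 4)
      (by linarith) (by linarith),
    hcast.eventually (ev_pow (a := ε / 4) (b := 1) (by linarith) 2),
    hcast.eventually (ev_pow (a := ε / 8) (b := ε / 4) (by linarith)
      (2 * (2 * Real.pi * (C * 2 ^ (ε / 16))))),
    hcast.eventually (ev_log (ε := 1 / 8) (by norm_num)
      (2 * (10 * Real.pi * (C * 2 ^ (ε / 16)) ^ 2))), eventually_ge_atTop 1]
    with p g1 g2 g3 g4 g5 hp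
  have : Fact p.Prime := ⟨hp⟩
  rw [Real.rpow_one] at g2
  have hp1 : (1 : ℝ) ≤ p := by exact_mod_cast hp.one_le
  have hp0 : (0 : ℝ) < p := by linarith
  have hlog : 0 ≤ Real.log p := Real.log_nonneg hp1
  obtain ⟨h, hh1, hh2, hh3⟩ := g1
  have hh4 : 2 * h ≤ p := by
    have : (2 : ℝ) * h ≤ p := by linarith
    exact_mod_cast this
  set T : ℝ := C * 2 ^ (ε / 16) * (p : ℝ) ^ (ε / 8) with hT
  have hT' : ∀ N : ℕ, 1 ≤ N → N ≤ 2 * p ^ 2 → (N.divisors.card : ℝ) ≤ T := by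
    intro N hN1 hN2
    have hN2' : (N : ℝ) ≤ 2 * (p : ℝ) ^ 2 := by exact_mod_cast hN2
    calc (N.divisors.card : ℝ) ≤ C * (N : ℝ) ^ (ε / 16) := hC N hN1
      _ ≤ C * (2 * (p : ℝ) ^ 2) ^ (ε / 16) := by gcongr
      _ = T := by
          rw [hT, Real.mul_rpow (by norm_num) (by positivity), ← Real.rpow_natCast,
            ← Real.rpow_mul hp0.le, ← mul_assoc]
          congr 2; push_cast; ring
  have h5 := abs_Mx_le hT' hh1 hh4
  set E : ℝ := ∑ a : ZMod p, |EE (fun d => Mx ((p : ℝ) / d)) a| with hE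
  have hE0 : 0 ≤ E := sum_nonneg fun a _ => abs_nonneg _
  have h6 := hh3.trans h5
  -- the error term is at most half of the main term
  have h7 : 2 * Real.pi * T * (5 * T * (1 + Real.log p)) ≤ 1 / 2 * (p : ℝ) ^ (zetaSup - ε / 4) := by
    have e1 : 2 * Real.pi * T * (5 * T * (1 + Real.log p)) =
        1 / 2 * ((p : ℝ) ^ (ε / 8) * (p : ℝ) ^ (ε / 8) *
          (2 * (10 * Real.pi * (C * 2 ^ (ε / 16)) ^ 2) * (1 + Real.log p))) := by
      rw [hT]; ring
    rw [e1]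
    have e2 : (p : ℝ) ^ (ε / 8) * (p : ℝ) ^ (ε / 8) * (p : ℝ) ^ (1 / 8 : ℝ) ≤ (p : ℝ) ^ (zetaSup - ε / 4) := by
      rw [← Real.rpow_add hp0, ← Real.rpow_add hp0]
      exact Real.rpow_le_rpow_of_exponent_le hp1 (by linarith)
    calc 1 / 2 * ((p : ℝ) ^ (ε / 8) * (p : ℝ) ^ (ε / 8) *
          (2 * (10 * Real.pi * (C * 2 ^ (ε / 16)) ^ 2) * (1 + Real.log p)))
        ≤ 1 / 2 * ((p : ℝ) ^ (ε / 8) * (p : ℝ) ^ (ε / 8) * (p : ℝ) ^ (1 / 8 : ℝ)) := by gcongr
      _ ≤ _ := by gcongr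
  have h8 : (p : ℝ) ^ (zetaSup - ε / 4) ≤ 2 * (2 * Real.pi * T * (E / p)) := by
    have e1 : 2 * Real.pi * T * (E / p + 5 * T * (1 + Real.log p)) =
        2 * Real.pi * T * (E / p) + 2 * Real.pi * T * (5 * T * (1 + Real.log p)) := by ring
    rw [e1] at h6
    linarith
  have h9 : (p : ℝ) ^ (zetaSup - ε / 4) ≤ (p : ℝ) ^ (ε / 4) * (E / p) := by
    calc (p : ℝ) ^ (zetaSup - ε / 4) ≤ 2 * (2 * Real.pi * T * (E / p)) := h8
      _ = 2 * (2 * Real.pi * (C * 2 ^ (ε / 16))) * (p : ℝ) ^ (ε / 8) * (E / p) := by rw [hT]; ring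
      _ ≤ (p : ℝ) ^ (ε / 4) * (E / p) := by gcongr
  rw [thin_eq, ← hE]
  have hA := card_le (n := p)
  have hA0 : (0 : ℝ) < (farey p).card := by
    exact_mod_cast Pool.Agent.H295R2.t1_card_pos hp.one_le
  rw [le_div_iff₀ hA0]
  calc (p : ℝ) ^ (zetaSup - 1 - ε) * (farey p).card ≤ (p : ℝ) ^ (zetaSup - 1 - ε) * (p : ℝ) ^ 2 := by
        gcongr
    _ ≤ (p : ℝ) ^ (zetaSup - 1 - ε / 2) * (p : ℝ) ^ 2 := by
        gcongr
        linarith
    _ = (p : ℝ) ^ (zetaSup - ε / 4) * ((p : ℝ) * (p : ℝ) ^ (-(ε / 4))) := by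
        rw [← Real.rpow_natCast (p : ℝ) 2, ← Real.rpow_add hp0]
        nth_rewrite 3 [← Real.rpow_one (p : ℝ)]
        rw [← Real.rpow_add hp0, ← Real.rpow_add hp0]
        congr 1; push_cast; ring
    _ ≤ ((p : ℝ) ^ (ε / 4) * (E / p)) * ((p : ℝ) * (p : ℝ) ^ (-(ε / 4))) := by gcongr
    _ = ((p : ℝ) ^ (ε / 4) * (p : ℝ) ^ (-(ε / 4))) * (E / p * p) := by ring
    _ = E := by
        rw [← Real.rpow_add hp0, add_neg_cancel, Real.rpow_zero, one_mul]
        field_simp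

lemma thinSum_nonneg (n : ℕ) : 0 ≤ thinSum n := sum_nonneg fun _ _ => abs_nonneg _

/-- **the thin limit theorem** -/
theorem thin_limit : Tendsto (fun p : ℕ => Real.log (thinSum p) / Real.log p)
    (atTop ⊓ 𝓟 {p : ℕ | p.Prime}) (𝓝 (zetaSup - 1)) := by
  rw [Metric.tendsto_nhds]
  intro ε hε
  rw [eventually_inf_principal]
  set e : ℝ := min (ε / 4) (1 / 4) with he
  have he0 : 0 < e := by rw [he]; apply lt_min <;> linarith
  have he1 : e ≤ ε / 4 := min_le_left _ _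
  have he2 : e ≤ 1 / 4 := min_le_right _ _
  obtain ⟨K, hK0, hK⟩ := thin_upper he0 (by linarith)
  have hcast := tendsto_natCast_atTop_atTop (R := ℝ)
  filter_upwards [thin_lower he0 he2, hcast.eventually (ev_pow (a := 0) (b := e) (by linarith) K)]
    with p h1 h2 hp
  rw [Real.rpow_zero, mul_one] at h2
  have hp2 : (1 : ℝ) < p := by exact_mod_cast hp.one_lt
  have hp0 : (0 : ℝ) < p := by linarith
  have hlog : 0 < Real.log p := Real.log_pos hp2
  have h1' := h1 hp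
  have hS0 : 0 < thinSum p := lt_of_lt_of_le (by positivity) h1'
  have h3 : thinSum p ≤ (p : ℝ) ^ (zetaSup - 1 + 2 * e) := by
    calc thinSum p ≤ K * (p : ℝ) ^ (zetaSup - 1 + e) := hK p hp
      _ ≤ (p : ℝ) ^ e * (p : ℝ) ^ (zetaSup - 1 + e) := by gcongr
      _ = (p : ℝ) ^ (zetaSup - 1 + 2 * e) := by rw [← Real.rpow_add hp0]; congr 1; ring
  have h4 : (zetaSup - 1 - e) * Real.log p ≤ Real.log (thinSum p) := by
    rw [← Real.log_rpow hp0]
    exact Real.log_le_log (by positivity) h1'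
  have h5 : Real.log (thinSum p) ≤ (zetaSup - 1 + 2 * e) * Real.log p := by
    rw [← Real.log_rpow hp0]
    exact Real.log_le_log hS0 h3
  rw [Real.dist_eq, abs_lt]
  constructor
  · have : zetaSup - 1 - e ≤ Real.log (thinSum p) / Real.log p := by
      rw [le_div_iff₀ hlog]; exact h4
    linarith
  · have : Real.log (thinSum p) / Real.log p ≤ zetaSup - 1 + 2 * e := by
      rw [div_le_iff₀ hlog]; exact h5
    linarith

/-- `Q1` holds iff `Θ = 1/2` -/
theorem q1_iff : (∀ r : ℝ, 1 / 2 < r → ∃ C : ℝ, ∀ n : ℕ, 1 ≤ n → totalSum n < C * (n : ℝ) ^ r) ↔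
    zetaSup ≤ 1 / 2 := by
  constructor
  · intro h
    by_contra hcon
    push Not at hcon
    set e : ℝ := (zetaSup - 1 / 2) / 4 with he
    have he0 : 0 < e := by rw [he]; linarith
    obtain ⟨C, hC⟩ := h (1 / 2 + e) (by linarith)
    have h1 := Pool.Agent.H295R2.interval_lower (α := 0) (β := 1) (by norm_num) (by norm_num)
      (by norm_num) he0
    have h2 := (tendsto_natCast_atTop_atTop (R := ℝ)).eventually
      (ev_pow (a := 1 / 2 + e) (b := zetaSup - e) (by linarith) C)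
    obtain ⟨n, h3, h4, h5⟩ := (h1.and (h2.and (eventually_ge_atTop 1))).exists
    have h6 := hC n h5
    have h7 := Pool.Agent.H295R2.localSum_le_total 0 1 n
    linarith
  · intro hΘ r hr
    obtain ⟨K, hK0, hK⟩ := Pool.Agent.H295R2.total_upper (ε := min (r - 1 / 2) 1)
      (lt_min (by linarith) one_pos) (min_le_right _ _)
    refine ⟨K + 1, fun n hn => ?_⟩
    have hn1 : (1 : ℝ) ≤ n := by exact_mod_cast hn
    calc totalSum n ≤ K * (n : ℝ) ^ (zetaSup + min (r - 1 / 2) 1) := hK n hn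
      _ ≤ K * (n : ℝ) ^ r := by
          have : min (r - 1 / 2) 1 ≤ r - 1 / 2 := min_le_left _ _
          gcongr
          linarith
      _ < (K + 1) * (n : ℝ) ^ r := by
          have : 0 < (n : ℝ) ^ r := by positivity
          nlinarith

/-- the thin criterion along any infinite set of primes -/
theorem thin_iff {S : Set ℕ} (hS : S.Infinite) (hSp : ∀ p ∈ S, p.Prime) :
    (∀ r : ℝ, 1 / 2 < r → ∃ C : ℝ, ∀ p ∈ S, thinSum p ≤ C * (p : ℝ) ^ (r - 1)) ↔
      zetaSup ≤ 1 / 2 := by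
  constructor
  · intro h
    by_contra hcon
    push Not at hcon
    have hΘ2 := zetaSup_le_one
    set e : ℝ := (zetaSup - 1 / 2) / 4 with he
    have he0 : 0 < e := by rw [he]; linarith
    obtain ⟨C, hC⟩ := h (1 / 2 + e) (by linarith)
    have h1 := thin_lower he0 (by linarith)
    have h2 := (tendsto_natCast_atTop_atTop (R := ℝ)).eventually
      (ev_pow (a := 1 / 2 + e - 1) (b := zetaSup - 1 - 2 * e) (by linarith) C)
    obtain ⟨n, h3, h4, h5⟩ := ((Nat.frequently_atTop_iff_infinite.2 hS).and_eventually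
      (h1.and (h2.and (eventually_ge_atTop 2)))).exists
    obtain ⟨h5, h6⟩ := h5
    have h7 := hC n h3
    have h8 := h4 (hSp n h3)
    have hn1 : (1 : ℝ) < n := by exact_mod_cast h6
    have h9 : (n : ℝ) ^ (zetaSup - 1 - e) ≤ (n : ℝ) ^ (zetaSup - 1 - 2 * e) := by linarith
    rw [Real.rpow_le_rpow_left_iff hn1] at h9
    linarith
  · intro hΘ r hr
    obtain ⟨K, hK0, hK⟩ := thin_upper (ε := min (r - 1 / 2) 1)
      (lt_min (by linarith) one_pos) (min_le_right _ _)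
    refine ⟨K, fun p hp => (hK p (hSp p hp)).trans ?_⟩
    have hp1 : (1 : ℝ) ≤ p := by exact_mod_cast (hSp p hp).one_le
    have : min (r - 1 / 2) 1 ≤ r - 1 / 2 := min_le_left _ _
    gcongr
    linarith

end

end Pool.Agent.H387R2.Thin
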