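import Mathlib

set_option autoImplicit false

open Finset

namespace Pool.Agent.H387R2.Uni

/-- `φ_k(u) = ∏_{i ≤ k} (1 - i u)_+` -/
noncomputable def ph (k : ℕ) (u : ℝ) : ℝ := ∏ i ∈ range k, max 0 (1 - (i + 1 : ℝ) * u)

/-- `G_k(x) = x ∏_{i ≤ k} (x - i)_+`, the falling factorial cut off at `0` -/
noncomputable def GG (k : ℕ) (x : ℝ) : ℝ := x * ∏ i ∈ range k, max 0 (x - (i + 1 : ℝ))

lemma ph_nonneg (k : ℕ) (u : ℝ) : 0 ≤ ph k u := prod_nonneg fun _ _ => le_max_left _ _

lemma ph_anti (k : ℕ) : Antitone (ph k) := by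
  intro u v huv
  unfold ph
  apply prod_le_prod
  · intro i _; exact le_max_left _ _
  · intro i _
    apply max_le_max le_rfl
    have : (0:ℝ) ≤ (i + 1 : ℝ) := by positivity
    nlinarith

lemma ph_convex (k : ℕ) : ConvexOn ℝ Set.univ (ph k) := by
  induction k with
  | zero =>
    have : ph 0 = fun _ => (1:ℝ) := by funext u; simp [ph]
    rw [this]
    exact convexOn_const 1 convex_univ
  | succ k ih =>
    have : ph (k + 1) = fun u => ph k u * max 0 (1 - (k + 1 : ℝ) * u) := by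
      funext u
      unfold ph
      rw [prod_range_succ]
    rw [this]
    have h1 : ConvexOn ℝ Set.univ (fun u : ℝ => max 0 (1 - (k + 1 : ℝ) * u)) := by
      apply ConvexOn.sup (convexOn_const 0 convex_univ)
      refine ⟨convex_univ, fun x _ y _ a b _ _ hab => ?_⟩
      simp only [smul_eq_mul]
      have : a = 1 - b := by linarith
      subst this
      nlinarith
    refine ConvexOn.mul ih h1 (fun x _ => ph_nonneg k x) (fun x _ => le_max_left _ _) ?_
    have h2 : Antitone (fun u : ℝ => max 0 (1 - (k + 1 : ℝ) * u)) := by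
      intro u v huv
      apply max_le_max le_rfl
      have : (0:ℝ) ≤ (k + 1 : ℝ) := by positivity
      nlinarith
    exact ((ph_anti k).monovary h2).monovaryOn _

lemma GG_eq (k : ℕ) {x : ℝ} (hx : 0 < x) : GG k x = x ^ (k + 1) * ph k (1 / x) := by
  unfold GG ph
  rw [pow_succ, mul_comm (x ^ k) x, mul_assoc]
  congr 1
  have : x ^ k = ∏ _i ∈ range k, x := by rw [prod_const, card_range]
  rw [this, ← prod_mul_distrib]
  apply prod_congr rfl
  intro i _
  rw [mul_max_of_nonneg _ _ hx.le, mul_zero]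
  congr 1
  field_simp

lemma GG_zero (k : ℕ) : GG k 0 = 0 := by simp [GG]

lemma GG_mono (k : ℕ) : MonotoneOn (GG k) (Set.Ici 0) := by
  intro x hx y hy hxy
  have hx0 : (0:ℝ) ≤ x := hx
  unfold GG
  apply mul_le_mul hxy _ (prod_nonneg fun _ _ => le_max_left _ _) (hx0.trans hxy)
  apply prod_le_prod
  · intro i _; exact le_max_left _ _
  · intro i _
    exact max_le_max le_rfl (by linarith)

lemma GG_nonneg (k : ℕ) {x : ℝ} (hx : 0 ≤ x) : 0 ≤ GG k x :=
  mul_nonneg hx (prod_nonneg fun _ _ => le_max_left _ _)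

lemma prod_convex (k : ℕ) : ConvexOn ℝ (Set.Ici (0:ℝ)) (fun x : ℝ => ∏ i ∈ range k, max 0 (x - (i + 1 : ℝ))) ∧
    Monotone (fun x : ℝ => ∏ i ∈ range k, max 0 (x - (i + 1 : ℝ))) := by
  induction k with
  | zero =>
    simp only [range_zero, prod_empty]
    exact ⟨convexOn_const 1 (convex_Ici 0), monotone_const⟩
  | succ k ih =>
    have h1 : ConvexOn ℝ (Set.Ici (0:ℝ)) (fun u : ℝ => max 0 (u - (k + 1 : ℝ))) := by
      apply ConvexOn.sup (convexOn_const 0 (convex_Ici 0))
      refine ⟨convex_Ici 0, fun x _ y _ a b _ _ hab => ?_⟩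
      simp only [smul_eq_mul]
      have : a = 1 - b := by linarith
      subst this
      nlinarith
    have h2 : Monotone (fun u : ℝ => max 0 (u - (k + 1 : ℝ))) := by
      intro u v huv
      exact max_le_max le_rfl (by linarith)
    constructor
    · simp only [prod_range_succ]
      exact ConvexOn.mul ih.1 h1 (fun x _ => prod_nonneg fun _ _ => le_max_left _ _)
        (fun x _ => le_max_left _ _) ((ih.2.monovary h2).monovaryOn _)
    · simp only [prod_range_succ]
      intro u v huv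
      exact mul_le_mul (ih.2 huv) (h2 huv) (le_max_left _ _) (prod_nonneg fun _ _ => le_max_left _ _)

lemma GG_convex (k : ℕ) : ConvexOn ℝ (Set.Ici (0:ℝ)) (GG k) := by
  have h1 := prod_convex k
  have h2 : ConvexOn ℝ (Set.Ici (0:ℝ)) (fun x : ℝ => x) := convexOn_id (convex_Ici 0)
  exact ConvexOn.mul h2 h1.1 (fun x hx => hx) (fun x _ => prod_nonneg fun _ _ => le_max_left _ _)
    ((monotone_id.monovary h1.2).monovaryOn _)

lemma GG_nat (k X : ℕ) : GG k X = (X.descFactorial (k + 1) : ℝ) := by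
  induction k with
  | zero => simp [GG]
  | succ k ih =>
    rw [Nat.descFactorial_succ]
    push_cast
    rw [← ih]
    unfold GG
    rw [prod_range_succ]
    rcases le_or_gt (k + 1) X with h | h
    · rw [Nat.cast_sub h]
      have : (0:ℝ) ≤ (X:ℝ) - (k + 1 : ℝ) := by
        have : ((k + 1 : ℕ) : ℝ) ≤ X := by exact_mod_cast h
        push_cast at this
        linarith
      rw [max_eq_right this]
      push_cast
      ring
    · have e : X - (k + 1) = 0 := by omega
      rw [e, Nat.cast_zero, zero_mul]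
      have : (X:ℝ) - (k + 1 : ℝ) ≤ 0 := by
        have : (X:ℝ) < ((k + 1 : ℕ) : ℝ) := by exact_mod_cast h
        push_cast at this
        linarith
      rw [max_eq_left this]
      ring

/-- Jensen for the cut off falling factorial -/
theorem jensen_desc {ι : Type*} (S : Finset ι) (X : ι → ℕ) (k : ℕ) {y : ℝ} (hy : 0 ≤ y)
    (h : y * S.card ≤ ∑ n ∈ S, (X n : ℝ)) :
    (S.card : ℝ) * GG k y ≤ ∑ n ∈ S, ((X n).descFactorial (k + 1) : ℝ) := by
  rcases S.eq_empty_or_nonempty with rfl | hne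
  · simp
  have hc : (0:ℝ) < S.card := by exact_mod_cast hne.card_pos
  have h1 := (GG_convex k).map_sum_le (t := S) (w := fun _ => 1 / (S.card : ℝ)) (p := fun n => (X n : ℝ))
    (fun _ _ => by positivity) (by
      rw [sum_const, nsmul_eq_mul]
      field_simp) (fun n _ => by simp)
  simp only [smul_eq_mul] at h1
  rw [← mul_sum, ← mul_sum] at h1
  have h2 : y ≤ 1 / (S.card : ℝ) * ∑ n ∈ S, (X n : ℝ) := by
    rw [one_div, inv_mul_eq_div, le_div_iff₀ hc]
    exact h
  have h3 := GG_mono k (show y ∈ Set.Ici (0:ℝ) from hy) (show _ ∈ Set.Ici (0:ℝ) from hy.trans h2) h2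
  have h4 := h3.trans h1
  rw [one_div, inv_mul_eq_div, le_div_iff₀ hc] at h4
  calc (S.card : ℝ) * GG k y = GG k y * S.card := by ring
    _ ≤ ∑ n ∈ S, GG k (X n) := h4
    _ = _ := sum_congr rfl fun n _ => GG_nat k (X n)

/-- the key convexity inequality: for nonnegative reals with mean at least `μ`,
`∑ G_k(x_i) ≥ φ_k(1/μ) ∑ x_i^(k+1)` -/
theorem key_ineq {ι : Type*} (s : Finset ι) (x : ι → ℝ) (hx : ∀ i ∈ s, 0 ≤ x i) (k : ℕ) {μ : ℝ}
    (hμ : 0 < μ) (hmean : μ * s.card ≤ ∑ i ∈ s, x i) :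
    ph k (1 / μ) * ∑ i ∈ s, x i ^ (k + 1) ≤ ∑ i ∈ s, GG k (x i) := by
  classical
  rcases s.eq_empty_or_nonempty with rfl | hne
  · simp
  have hc : (0:ℝ) < s.card := by exact_mod_cast hne.card_pos
  have hsum : 0 < ∑ i ∈ s, x i := lt_of_lt_of_le (by positivity) hmean
  set s' := s.filter (fun i => 0 < x i) with hs'
  have hz : ∀ i ∈ s, i ∉ s' → x i = 0 := by
    intro i hi hi'
    rw [hs', mem_filter, not_and, not_lt] at hi'
    exact le_antisymm (hi' hi) (hx i hi)
  have hsub : s' ⊆ s := filter_subset _ _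
  have e1 : ∑ i ∈ s, x i ^ (k + 1) = ∑ i ∈ s', x i ^ (k + 1) :=
    (sum_subset hsub fun i hi hi' => by rw [hz i hi hi']; simp).symm
  have e2 : ∑ i ∈ s, GG k (x i) = ∑ i ∈ s', GG k (x i) :=
    (sum_subset hsub fun i hi hi' => by rw [hz i hi hi', GG_zero]).symm
  have hs'ne : s'.Nonempty := by
    by_contra h
    rw [not_nonempty_iff_eq_empty] at h
    have : ∑ i ∈ s, x i = 0 := sum_eq_zero fun i hi => hz i hi (by rw [h]; exact notMem_empty i)
    linarith
  have hpos : ∀ i ∈ s', 0 < x i := fun i hi => (mem_filter.1 hi).2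
  set Wt := ∑ i ∈ s', x i ^ (k + 1) with hWt
  have hWt0 : 0 < Wt := sum_pos (fun i hi => pow_pos (hpos i hi) _) hs'ne
  -- Chebyshev
  have hcheb : μ * ∑ i ∈ s, x i ^ k ≤ ∑ i ∈ s, x i ^ (k + 1) := by
    have h1 : MonovaryOn x (fun i => x i ^ k) (s : Set ι) := by
      intro i hi j hj hij
      by_contra hcon
      rw [not_le] at hcon
      have : x j ^ k ≤ x i ^ k := pow_le_pow_left₀ (hx j hj) hcon.le k
      exact absurd hij (not_lt.2 this)
    have h2 := h1.sum_mul_sum_le_card_mul_sum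
    have h3 : ∑ i ∈ s, x i * x i ^ k = ∑ i ∈ s, x i ^ (k + 1) := sum_congr rfl fun i _ => by ring
    rw [h3] at h2
    have h4 : 0 ≤ ∑ i ∈ s, x i ^ k := sum_nonneg fun i hi => pow_nonneg (hx i hi) _
    have h5 : μ * s.card * ∑ i ∈ s, x i ^ k ≤ s.card * ∑ i ∈ s, x i ^ (k + 1) :=
      (mul_le_mul_of_nonneg_right hmean h4).trans h2
    have h6 : (s.card : ℝ) * (μ * ∑ i ∈ s, x i ^ k) ≤ s.card * ∑ i ∈ s, x i ^ (k + 1) := by
      calc _ = μ * s.card * ∑ i ∈ s, x i ^ k := by ring
        _ ≤ _ := h5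
    exact le_of_mul_le_mul_left h6 hc
  have hcheb' : μ * ∑ i ∈ s', x i ^ k ≤ Wt := by
    rw [e1] at hcheb
    refine le_trans ?_ hcheb
    apply mul_le_mul_of_nonneg_left _ hμ.le
    exact sum_le_sum_of_subset_of_nonneg hsub fun i hi _ => pow_nonneg (hx i hi) _
  -- Jensen
  have hJ := (ph_convex k).map_sum_le (t := s') (w := fun i => x i ^ (k + 1) / Wt) (p := fun i => 1 / x i)
    (fun i hi => div_nonneg (pow_nonneg (hpos i hi).le _) hWt0.le) (by
      rw [← sum_div]
      exact div_self hWt0.ne') (fun _ _ => Set.mem_univ _)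
  simp only [smul_eq_mul] at hJ
  have h7 : ∑ i ∈ s', x i ^ (k + 1) / Wt * (1 / x i) ≤ 1 / μ := by
    have : ∀ i ∈ s', x i ^ (k + 1) / Wt * (1 / x i) = x i ^ k / Wt := by
      intro i hi
      have := (hpos i hi).ne'
      rw [pow_succ]
      field_simp
    rw [sum_congr rfl this, ← sum_div, div_le_div_iff₀ hWt0 hμ]
    linarith
  have h8 := (ph_anti k h7).trans hJ
  have h9 : ∑ i ∈ s', x i ^ (k + 1) / Wt * ph k (1 / x i) = (∑ i ∈ s', GG k (x i)) / Wt := by
    rw [sum_div]
    apply sum_congr rfl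
    intro i hi
    rw [GG_eq k (hpos i hi)]
    ring
  rw [h9, le_div_iff₀ hWt0] at h8
  rw [e1, e2]
  exact h8

end Pool.Agent.H387R2.Uni
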