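import Pool.Agent.H387R2.U4
import Pool.Agent.H387R2.U1

set_option autoImplicit false

open Finset Filter Topology

namespace Pool.Agent.H387R2.Uni

variable {k : ℕ} {C δ : ℝ} {q N M y : ℕ}

/-- number of integers of `(A, B]` in a residue class -/
lemma size_bounds (A B b : ℕ) {W : ℕ} (hW : 0 < W) (hAB : A ≤ B) :
    ((B : ℝ) - A) / W - 1 ≤ (((Ioc A B).filter (fun n => n ≡ b [MOD W])).card : ℝ) ∧
    (((Ioc A B).filter (fun n => n ≡ b [MOD W])).card : ℝ) ≤ ((B : ℝ) - A) / W + 1 := by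
  have h := Nat.Ioc_filter_modEq_card A B hW b
  have hW0 : (0:ℝ) < W := by exact_mod_cast hW
  have h1 : ((((Ioc A B).filter (fun n => n ≡ b [MOD W])).card : ℤ) : ℝ) =
      ((max (⌊((B:ℚ) - b) / (W : ℚ)⌋ - ⌊((A:ℚ) - b) / (W : ℚ)⌋) 0 : ℤ) : ℝ) := by rw [h]
  have e1 : ⌊((B:ℚ) - b) / (W : ℚ)⌋ = ⌊((B:ℝ) - b) / (W : ℝ)⌋ := by
    rw [← Rat.floor_cast (α := ℝ)]
    push_cast
    rfl
  have e2 : ⌊((A:ℚ) - b) / (W : ℚ)⌋ = ⌊((A:ℝ) - b) / (W : ℝ)⌋ := by
    rw [← Rat.floor_cast (α := ℝ)]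
    push_cast
    rfl
  rw [e1, e2] at h1
  push_cast at h1
  have f1 := Int.floor_le (((B:ℝ) - b) / (W : ℝ))
  have f2 := Int.lt_floor_add_one (((B:ℝ) - b) / (W : ℝ))
  have f3 := Int.floor_le (((A:ℝ) - b) / (W : ℝ))
  have f4 := Int.lt_floor_add_one (((A:ℝ) - b) / (W : ℝ))
  have e3 : ((B:ℝ) - b) / (W : ℝ) - ((A:ℝ) - b) / (W : ℝ) = ((B : ℝ) - A) / W := by
    rw [← sub_div]; congr 1; ring
  rw [h1]
  constructor
  · refine le_trans ?_ (le_max_left _ _)
    linarith
  · apply max_le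
    · linarith
    · have : (A:ℝ) ≤ B := by exact_mod_cast hAB
      have : 0 ≤ ((B : ℝ) - A) / W := div_nonneg (by linarith) hW0.le
      linarith

lemma size_lower (hP : Par k C δ q N M y) (b : ℕ) :
    (1 - 2 * δ) * (N / WW y) ≤ (((Ioc (k + 1) (N - M)).filter (fun n => n ≡ b [MOD WW y])).card : ℝ) := by
  have hW : 0 < WW y := WW_pos y
  have hW0 : (0:ℝ) < WW y := by exact_mod_cast hW
  rcases le_or_gt (k + 1) (N - M) with h | h
  · refine le_trans ?_ (size_bounds (k + 1) (N - M) b hW h).1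
    rw [mul_div_assoc', sub_eq_add_neg _ (1:ℝ), ← sub_eq_add_neg, le_sub_iff_add_le, div_add_one hW0.ne',
      div_le_div_iff_of_pos_right hW0]
    have h1 := hP.hN'
    have h2 := hP.hW3
    push_cast
    linarith
  · have h1 := hP.hN'
    have h2 := hP.hW3
    have h3 : ((N - M : ℕ) : ℝ) < k + 1 := by exact_mod_cast h
    have h4 : (1 - 2 * δ) * N ≤ 0 := by linarith
    calc (1 - 2 * δ) * (N / WW y) = ((1 - 2 * δ) * N) / WW y := by ring
      _ ≤ 0 := div_nonpos_of_nonpos_of_nonneg h4 hW0.le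
      _ ≤ _ := Nat.cast_nonneg _

lemma size_upper (hP : Par k C δ q N M y) (b : ℕ) :
    (((Ioc (k + 1) (N - M)).filter (fun n => n ≡ b [MOD WW y])).card : ℝ) ≤ (1 + δ) * (N / WW y) := by
  have hW : 0 < WW y := WW_pos y
  have hW0 : (0:ℝ) < WW y := by exact_mod_cast hW
  have hNM : ((N - M : ℕ) : ℝ) ≤ N := by exact_mod_cast Nat.sub_le N M
  have h2 := hP.hW3
  have hk : (0:ℝ) ≤ k := Nat.cast_nonneg k
  rcases le_or_gt (k + 1) (N - M) with h | h
  · refine (size_bounds (k + 1) (N - M) b hW h).2.trans ?_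
    rw [mul_div_assoc', div_add_one hW0.ne', div_le_div_iff_of_pos_right hW0]
    push_cast
    linarith
  · rw [Ioc_eq_empty (by omega), filter_empty, card_empty, Nat.cast_zero]
    have : (0:ℝ) ≤ (1 + δ) * N := by
      have : (0:ℝ) ≤ N := Nat.cast_nonneg N
      nlinarith
    calc (0:ℝ) ≤ ((1 + δ) * N) / WW y := by positivity
      _ = _ := by ring

/-- primes in shifted classes -/
lemma class_lower (hP : Par k C δ q N M y) (hδ : 0 < δ) {b a : ℕ} (ha : a ≤ M)
    (hc : Nat.Coprime (WW y) (b + a)) :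
    (1 - 2 * δ) * (N / (Nat.totient (WW y) * Real.log N)) ≤
      (((Ioc (k + 1) (N - M)).filter (fun n => n ≡ b [MOD WW y] ∧ (n + a).Prime)).card : ℝ) := by
  classical
  have hW : 0 < WW y := WW_pos y
  have hW0 : (0:ℝ) < WW y := by exact_mod_cast hW
  set W := WW y with hWdef
  have hcW : (b + a) % W < W := Nat.mod_lt _ hW
  have hcc : ((b + a) % W).Coprime W := by
    rw [Nat.Coprime, ← Nat.gcd_rec]; exact hc
  have h1 := (abs_le.1 (hP.hSW W hW hP.hW1 _ hcW hcc)).1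
  have h2 : H343E.piAP (N - M) W ((b + a) % W) ≤
      (((Ioc (k + 1) (N - M)).filter (fun n => n ≡ b [MOD W] ∧ (n + a).Prime)).card : ℝ) + (a + k + 1 : ℕ) := by
    unfold H343E.piAP
    rw [← Nat.cast_add]
    apply Nat.cast_le.2
    have hsub : (Icc 1 (N - M)).filter (fun p => p.Prime ∧ p ≡ (b + a) % W [MOD W]) ⊆
        ((Ioc (k + 1) (N - M)).filter (fun n => n ≡ b [MOD W] ∧ (n + a).Prime)).image (· + a) ∪
          Icc 1 (a + k + 1) := by
      intro p hp
      rw [mem_filter, mem_Icc] at hp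
      obtain ⟨⟨hp1, hp2⟩, hp3, hp4⟩ := hp
      rw [mem_union]
      rcases le_or_gt p (a + k + 1) with h | h
      · right; exact mem_Icc.2 ⟨hp1, h⟩
      · left
        refine mem_image.2 ⟨p - a, ?_, by omega⟩
        rw [mem_filter, mem_Ioc]
        have e : p - a + a = p := by omega
        refine ⟨⟨by omega, by omega⟩, ?_, by rw [e]; exact hp3⟩
        have h5 : p ≡ b + a [MOD W] := hp4.trans (Nat.mod_modEq _ _)
        apply Nat.ModEq.add_right_cancel' a
        rw [e]; exact h5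
    refine (card_le_card hsub).trans ((card_union_le _ _).trans ?_)
    refine Nat.add_le_add card_image_le ?_
    rw [Nat.card_Icc]; omega
  have hφ : 0 < Nat.totient W := Nat.totient_pos.2 hW
  have hφ0 : (0:ℝ) < Nat.totient W := by exact_mod_cast hφ
  have hφ1 : (1:ℝ) ≤ Nat.totient W := by exact_mod_cast hφ
  have hφW : (Nat.totient W : ℝ) ≤ Real.log N ^ 2 :=
    (by exact_mod_cast Nat.totient_le W : (Nat.totient W : ℝ) ≤ W).trans hP.hW2
  have hL : 0 < Real.log N := by linarith [hP.hL]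
  have hN0 : (0:ℝ) ≤ N := Nat.cast_nonneg N
  have h3 : (1 - δ) * (N / Real.log N) / Nat.totient W ≤ H343E.pi1 (N - M) / Nat.totient W :=
    div_le_div_of_nonneg_right hP.hpi hφ0.le
  have h4 : (N:ℝ) / Real.log N ^ 3 ≤ N / (Nat.totient W * Real.log N) := by
    apply div_le_div_of_nonneg_left hN0 (by positivity)
    calc Nat.totient W * Real.log N ≤ Real.log N ^ 2 * Real.log N := by gcongr
      _ = Real.log N ^ 3 := by ring
  have h5 := hP.herr
  have h6 : ((a + k + 1 : ℕ) : ℝ) ≤ M + (k + 2) := by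
    push_cast
    have : (a:ℝ) ≤ M := by exact_mod_cast ha
    linarith
  have h7 : δ * ((N:ℝ) / Real.log N ^ 3) ≤ δ * (N / (Nat.totient W * Real.log N)) :=
    mul_le_mul_of_nonneg_left h4 hδ.le
  have e : (1 - δ) * ((N:ℝ) / Real.log N) / Nat.totient W = (1 - δ) * (N / (Nat.totient W * Real.log N)) := by
    field_simp
  rw [e] at h3
  linarith

end Pool.Agent.H387R2.Uni
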