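import Pool.Agent.H387R2.U5

set_option autoImplicit false

open Finset Filter Topology

namespace Pool.Agent.H387R2.Uni

/-- number of `a ∈ A` with `n + a` prime -/
def XX (A : Finset ℕ) (n : ℕ) : ℕ := (A.filter (fun a => (n + a).Prime)).card

/-- the `a ∈ A` with `b + a` coprime to `W` -/
def Ab (W : ℕ) (A : Finset ℕ) (b : ℕ) : Finset ℕ := A.filter (fun a => Nat.Coprime W (b + a))

/-- the count of `n ∈ (k+1, N']` with `n + T` prime -/
def cnt (k N' : ℕ) (T : Finset ℕ) : ℕ := ((Ioc (k + 1) N').filter (fun n => ∀ t ∈ T, (n + t).Prime)).card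

lemma sum_desc (A : Finset ℕ) (k N' : ℕ) :
    ∑ n ∈ Ioc (k + 1) N', (XX A n).descFactorial (k + 1) =
      (k + 1).factorial * ∑ T ∈ A.powersetCard (k + 1), cnt k N' T := by
  have h := sum_choose (Ioc (k + 1) N') A (k + 1) (fun n a => (n + a).Prime)
  unfold cnt
  rw [← h, mul_sum]
  apply sum_congr rfl
  intro n _
  rw [Nat.descFactorial_eq_factorial_mul_choose]
  rfl

lemma sum_desc_gT (A : Finset ℕ) (k W : ℕ) :
    ∑ b ∈ range W, (Ab W A b).card.descFactorial (k + 1) =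
      (k + 1).factorial * ∑ T ∈ A.powersetCard (k + 1), gT W T := by
  have h := sum_choose (range W) A (k + 1) (fun b a => Nat.Coprime W (b + a))
  unfold gT
  rw [← h, mul_sum]
  apply sum_congr rfl
  intro n _
  rw [Nat.descFactorial_eq_factorial_mul_choose]
  rfl

lemma shift_card (W c d : ℕ) (P : ℕ → Prop) [DecidablePred P] :
    ((range d).filter (fun b => P (b + c))).card = ((Ico c (c + d)).filter P).card := by
  apply card_nbij' (fun b => b + c) (fun x => x - c)
  · intro b hb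
    rw [mem_coe, mem_filter, mem_range] at hb
    rw [mem_coe, mem_filter, mem_Ico]
    beta_reduce
    exact ⟨⟨by omega, by omega⟩, hb.2⟩
  · intro x hx
    rw [mem_coe, mem_filter, mem_Ico] at hx
    rw [mem_coe, mem_filter, mem_range]
    have e : x - c + c = x := by omega
    beta_reduce
    rw [e]
    exact ⟨by omega, hx.2⟩
  · intro b _
    beta_reduce
    omega
  · intro x hx
    rw [mem_coe, mem_filter, mem_Ico] at hx
    beta_reduce
    omega

lemma sum_card_Ab (W : ℕ) (A : Finset ℕ) :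
    ∑ b ∈ range W, (Ab W A b).card = A.card * Nat.totient W := by
  unfold Ab
  simp_rw [card_filter]
  rw [sum_comm]
  rw [card_eq_sum_ones, sum_mul]
  apply sum_congr rfl
  intro a _
  rw [one_mul, ← card_filter, ← Nat.filter_coprime_Ico_eq_totient W a]
  exact shift_card W a W (fun x => W.Coprime x)

/-- good classes -/
def gd (W q c : ℕ) : Finset ℕ := (range W).filter (fun b => Nat.Coprime q (b + c))

lemma card_gd (W q c : ℕ) (hq : 1 ≤ q) : (gd W q c).card ≤ Nat.totient q * (W / q + 1) := by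
  unfold gd
  rw [shift_card W c W (fun x => q.Coprime x)]
  exact Nat.Ico_filter_coprime_le c W (by omega)

lemma Ab_empty {W q c y : ℕ} (hW : W = WW y) (hqy : q ≤ y) (hq : 1 ≤ q) {A : Finset ℕ}
    (hA : ∀ a ∈ A, a ≡ c [MOD q]) {b : ℕ} (hb : ¬ Nat.Coprime q (b + c)) : Ab W A b = ∅ := by
  unfold Ab
  rw [filter_eq_empty_iff]
  intro a ha hcop
  apply hb
  by_contra h
  obtain ⟨p, hp, hpq, hpb⟩ := Nat.Prime.not_coprime_iff_dvd.1 h
  have h1 : p ∣ b + a := by
    have h2 : b + a ≡ b + c [MOD p] := (Nat.ModEq.add_left b (hA a ha)).of_dvd hpq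
    exact (Nat.modEq_zero_iff_dvd.1 (h2.trans (Nat.modEq_zero_iff_dvd.2 hpb)))
  have h3 : p ∣ W := by
    rw [hW]
    unfold WW
    apply dvd_prod_of_mem
    rw [Nat.mem_primesBelow]
    have := Nat.le_of_dvd (by omega) hpq
    exact ⟨by omega, hp⟩
  have := Nat.dvd_gcd h3 h1
  rw [Nat.Coprime] at hcop
  rw [hcop] at this
  exact hp.one_lt.ne' (Nat.dvd_one.1 this)

variable {k : ℕ} {C δ : ℝ} {q N M y : ℕ}

/-- the constant -/
noncomputable def c1 (δ : ℝ) : ℝ := (1 - 2 * δ) / (1 + δ)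

/-- the average of `X` over the class of `b` -/
noncomputable def yb (δ : ℝ) (N W : ℕ) (A : Finset ℕ) (b : ℕ) : ℝ :=
  c1 δ * (Ab W A b).card * (W / (Nat.totient W * Real.log N))

lemma yb_nonneg (hδ : 0 < δ) (hδ1 : δ ≤ 1 / 4) (hL : 1 ≤ Real.log N) (W : ℕ) (A : Finset ℕ) (b : ℕ) :
    0 ≤ yb δ N W A b := by
  unfold yb c1
  have : 0 ≤ (1 - 2 * δ) / (1 + δ) := div_nonneg (by linarith) (by linarith)
  have : 0 ≤ Real.log N := by linarith
  positivity

lemma class_mean (hP : Par k C δ q N M y) (hδ : 0 < δ) (hδ1 : δ ≤ 1 / 4) {A : Finset ℕ}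
    (hA : ∀ a ∈ A, a ≤ M) (b : ℕ) :
    yb δ N (WW y) A b * ((Ioc (k + 1) (N - M)).filter (fun n => n ≡ b [MOD WW y])).card ≤
      ∑ n ∈ (Ioc (k + 1) (N - M)).filter (fun n => n ≡ b [MOD WW y]), (XX A n : ℝ) := by
  classical
  set S := (Ioc (k + 1) (N - M)).filter (fun n => n ≡ b [MOD WW y]) with hS
  have hW : 0 < WW y := WW_pos y
  have hW0 : (0:ℝ) < WW y := by exact_mod_cast hW
  have hL : 0 < Real.log N := by linarith [hP.hL]
  have hφ0 : (0:ℝ) < Nat.totient (WW y) := by exact_mod_cast Nat.totient_pos.2 hW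
  have h1 : ∑ n ∈ S, (XX A n : ℝ) = ∑ a ∈ A, ((S.filter (fun n => (n + a).Prime)).card : ℝ) := by
    unfold XX
    simp_rw [card_filter]
    push_cast
    rw [sum_comm]
  have h2 : ∀ a ∈ Ab (WW y) A b, (1 - 2 * δ) * (N / (Nat.totient (WW y) * Real.log N)) ≤
      ((S.filter (fun n => (n + a).Prime)).card : ℝ) := by
    intro a ha
    unfold Ab at ha
    rw [mem_filter] at ha
    have := class_lower hP hδ (hA a ha.1) ha.2
    rw [hS, filter_filter]
    exact this
  have h3 : ((Ab (WW y) A b).card : ℝ) * ((1 - 2 * δ) * (N / (Nat.totient (WW y) * Real.log N))) ≤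
      ∑ n ∈ S, (XX A n : ℝ) := by
    rw [h1]
    calc ((Ab (WW y) A b).card : ℝ) * ((1 - 2 * δ) * (N / (Nat.totient (WW y) * Real.log N)))
        = ∑ _a ∈ Ab (WW y) A b, (1 - 2 * δ) * (N / (Nat.totient (WW y) * Real.log N)) := by
          rw [sum_const, nsmul_eq_mul]
      _ ≤ ∑ a ∈ Ab (WW y) A b, ((S.filter (fun n => (n + a).Prime)).card : ℝ) := sum_le_sum h2
      _ ≤ _ := sum_le_sum_of_subset_of_nonneg (filter_subset _ _) fun _ _ _ => Nat.cast_nonneg _
  refine le_trans ?_ h3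
  have h4 := size_upper hP b
  rw [← hS] at h4
  refine (mul_le_mul_of_nonneg_left h4 (yb_nonneg hδ hδ1 hP.hL _ _ _)).trans (le_of_eq ?_)
  unfold yb c1
  field_simp

/-- the heart of the argument -/
theorem heart (hP : Par k C δ q N M y) (hδ : 0 < δ) (hδ1 : δ ≤ 1 / 4) {lam : ℝ} (hlam : 0 < lam)
    (hq : 1 ≤ q) (c : ℕ) {A : Finset ℕ} (hA : ∀ a ∈ A, a ≤ M) (hAc : ∀ a ∈ A, a ≡ c [MOD q])
    (hcard : lam * (Nat.totient q / q) * Real.log N ≤ A.card) :
    (1 - 2 * δ) * (N / WW y) * (ph k (1 / (c1 δ * lam / (1 + δ))) *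
      ((c1 δ * (WW y / (Nat.totient (WW y) * Real.log N))) ^ (k + 1) *
      ∑ T ∈ A.powersetCard (k + 1), (gT (WW y) T : ℝ))) ≤
      ∑ T ∈ A.powersetCard (k + 1), (cnt k (N - M) T : ℝ) := by
  classical
  set W := WW y with hWdef
  have hW : 0 < W := WW_pos y
  have hW0 : (0:ℝ) < W := by exact_mod_cast hW
  have hL : 0 < Real.log N := by linarith [hP.hL]
  have hφ0 : (0:ℝ) < Nat.totient W := by exact_mod_cast Nat.totient_pos.2 hW
  have hc1 : 0 < c1 δ := div_pos (by linarith) (by linarith)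
  have hq0 : (0:ℝ) < q := by exact_mod_cast hq
  have hφq : (0:ℝ) < Nat.totient q := by exact_mod_cast Nat.totient_pos.2 hq
  set μ := c1 δ * lam / (1 + δ) with hμ
  have hμ0 : 0 < μ := div_pos (mul_pos hc1 hlam) (by linarith)
  set Y := yb δ N W A with hY
  have hY0 : ∀ b, 0 ≤ Y b := yb_nonneg hδ hδ1 hP.hL W A
  -- outside the good classes nothing
  have hz : ∀ b ∈ range W, b ∉ gd W q c → Ab W A b = ∅ := by
    intro b hb hb'
    apply Ab_empty hWdef hP.hqy hq hAc
    intro h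
    exact hb' (mem_filter.2 ⟨hb, h⟩)
  have hgd : gd W q c ⊆ range W := filter_subset _ _
  -- step 1 : sum over classes
  have s1 : ∑ b ∈ range W, ∑ n ∈ (Ioc (k + 1) (N - M)).filter (fun n => n ≡ b [MOD W]),
      ((XX A n).descFactorial (k + 1) : ℝ) = ∑ n ∈ Ioc (k + 1) (N - M), ((XX A n).descFactorial (k + 1) : ℝ) := by
    rw [← sum_fiberwise_of_maps_to (s := Ioc (k + 1) (N - M)) (t := range W) (g := fun n => n % W)
      (fun n _ => mem_range.2 (Nat.mod_lt _ hW))]
    apply sum_congr rfl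
    intro b hb
    apply sum_congr _ fun _ _ => rfl
    apply filter_congr
    intro n _
    rw [Nat.ModEq, Nat.mod_eq_of_lt (mem_range.1 hb)]
  have s2 : ∀ b ∈ range W, (1 - 2 * δ) * (N / W) * GG k (Y b) ≤
      ∑ n ∈ (Ioc (k + 1) (N - M)).filter (fun n => n ≡ b [MOD W]), ((XX A n).descFactorial (k + 1) : ℝ) := by
    intro b _
    have h1 := jensen_desc _ (XX A) k (hY0 b) (class_mean hP hδ hδ1 hA b)
    refine le_trans ?_ h1
    exact mul_le_mul_of_nonneg_right (size_lower hP b) (GG_nonneg k (hY0 b))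
  have s3 : (1 - 2 * δ) * (N / W) * ∑ b ∈ gd W q c, GG k (Y b) ≤
      ((k + 1).factorial : ℝ) * ∑ T ∈ A.powersetCard (k + 1), (cnt k (N - M) T : ℝ) := by
    have h1 := sum_desc A k (N - M)
    have h2 : ∑ n ∈ Ioc (k + 1) (N - M), ((XX A n).descFactorial (k + 1) : ℝ) =
      ((k + 1).factorial : ℝ) * ∑ T ∈ A.powersetCard (k + 1), (cnt k (N - M) T : ℝ) := by exact_mod_cast h1
    rw [← h2, ← s1, mul_sum]
    refine (sum_le_sum fun b hb => s2 b (hgd hb)).trans ?_
    exact sum_le_sum_of_subset_of_nonneg hgd fun b _ _ => sum_nonneg fun _ _ => Nat.cast_nonneg _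
  -- step 2 : mean
  have s4 : μ * (gd W q c).card ≤ ∑ b ∈ gd W q c, Y b := by
    have h1 : ∑ b ∈ gd W q c, Y b = ∑ b ∈ range W, Y b :=
      sum_subset hgd fun b hb hb' => by
        rw [hY]; unfold yb; rw [hz b hb hb']; simp
    have h2 : ∑ b ∈ range W, Y b = c1 δ * (A.card * Nat.totient W) * (W / (Nat.totient W * Real.log N)) := by
      have h3 := sum_card_Ab W A
      have h4 : ∑ b ∈ range W, ((Ab W A b).card : ℝ) = A.card * Nat.totient W := by exact_mod_cast h3
      rw [← h4, hY]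
      unfold yb
      rw [mul_sum, sum_mul]
    have h5 : c1 δ * (A.card * Nat.totient W) * (W / (Nat.totient W * Real.log N)) =
        c1 δ * (A.card / Real.log N) * W := by field_simp
    have h6 : ((gd W q c).card : ℝ) ≤ (1 + δ) * (Nat.totient q / q * W) := by
      have h7 : ((gd W q c).card : ℝ) ≤ Nat.totient q * ((W / q : ℕ) + 1) := by exact_mod_cast card_gd W q c hq
      have h8 : ((W / q : ℕ) : ℝ) ≤ W / q := Nat.cast_div_le
      have h9 : (1:ℝ) ≤ δ * (W / q) := by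
        rw [mul_div_assoc', le_div_iff₀ hq0, one_mul]; exact hP.hW4
      calc ((gd W q c).card : ℝ) ≤ Nat.totient q * ((W / q : ℕ) + 1) := h7
        _ ≤ Nat.totient q * (W / q + δ * (W / q)) := by gcongr
        _ = _ := by field_simp
    rw [h1, h2, h5]
    have h10 : lam * (Nat.totient q / q) ≤ A.card / Real.log N := by
      rw [le_div_iff₀ hL]; exact hcard
    calc μ * (gd W q c).card ≤ μ * ((1 + δ) * (Nat.totient q / q * W)) := mul_le_mul_of_nonneg_left h6 hμ0.le
      _ = c1 δ * (lam * (Nat.totient q / q)) * W := by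
          rw [hμ]
          have : 1 + δ ≠ 0 := by linarith
          field_simp
      _ ≤ c1 δ * (A.card / Real.log N) * W := by gcongr
  -- step 3 : the key inequality
  have s5 := key_ineq (gd W q c) Y (fun b _ => hY0 b) k hμ0 s4
  have s6 : (c1 δ * (W / (Nat.totient W * Real.log N))) ^ (k + 1) *
      (((k + 1).factorial : ℝ) * ∑ T ∈ A.powersetCard (k + 1), (gT W T : ℝ)) ≤ ∑ b ∈ gd W q c, Y b ^ (k + 1) := by
    have h1 : ∑ b ∈ gd W q c, Y b ^ (k + 1) = ∑ b ∈ range W, Y b ^ (k + 1) :=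
      sum_subset hgd fun b hb hb' => by
        rw [hY]; unfold yb; rw [hz b hb hb']; simp
    have h2 : ∑ b ∈ range W, ((Ab W A b).card.descFactorial (k + 1) : ℝ) =
      ((k + 1).factorial : ℝ) * ∑ T ∈ A.powersetCard (k + 1), (gT W T : ℝ) := by
      exact_mod_cast sum_desc_gT A k W
    rw [h1, ← h2, mul_sum]
    apply sum_le_sum
    intro b _
    have h3 : ((Ab W A b).card.descFactorial (k + 1) : ℝ) ≤ ((Ab W A b).card : ℝ) ^ (k + 1) := by
      exact_mod_cast Nat.descFactorial_le_pow _ _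
    have h4 : 0 ≤ c1 δ * (W / (Nat.totient W * Real.log N)) := by positivity
    calc (c1 δ * (W / (Nat.totient W * Real.log N))) ^ (k + 1) * ((Ab W A b).card.descFactorial (k + 1) : ℝ)
        ≤ (c1 δ * (W / (Nat.totient W * Real.log N))) ^ (k + 1) * ((Ab W A b).card : ℝ) ^ (k + 1) :=
          mul_le_mul_of_nonneg_left h3 (pow_nonneg h4 _)
      _ = Y b ^ (k + 1) := by
          rw [← mul_pow, hY]
          unfold yb
          congr 1
          ring
  have hph := ph_nonneg k (1 / μ)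
  have hfac : (0:ℝ) < (k + 1).factorial := by exact_mod_cast Nat.factorial_pos _
  have h12 : (0:ℝ) ≤ (1 - 2 * δ) * (N / W) := by
    have : (0:ℝ) ≤ 1 - 2 * δ := by linarith
    positivity
  have s7 : (1 - 2 * δ) * (N / W) * (ph k (1 / μ) * ((c1 δ * (W / (Nat.totient W * Real.log N))) ^ (k + 1) *
      (((k + 1).factorial : ℝ) * ∑ T ∈ A.powersetCard (k + 1), (gT W T : ℝ)))) ≤
      ((k + 1).factorial : ℝ) * ∑ T ∈ A.powersetCard (k + 1), (cnt k (N - M) T : ℝ) := by
    refine le_trans ?_ s3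
    apply mul_le_mul_of_nonneg_left _ h12
    refine le_trans ?_ s5
    exact mul_le_mul_of_nonneg_left s6 hph
  refine le_of_mul_le_mul_left ?_ hfac
  refine le_trans (le_of_eq ?_) s7
  ring

end Pool.Agent.H387R2.Uni
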