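import Pool.Agent.H387R2.U6

set_option autoImplicit false

open Finset Filter Topology

namespace Pool.Agent.H387R2.Uni

/-- the shifted count is at most the count of constellations -/
lemma cnt_le_piT {k N M : ℕ} {T : Finset ℕ} (hT : T.card = k + 1) (hTM : ∀ t ∈ T, t ≤ M) (hMN : M ≤ N) :
    cnt k (N - M) T ≤ piT T N := by
  classical
  have hne : T.Nonempty := card_pos.1 (by omega)
  have hm : sInf (T : Set ℕ) ∈ T := by
    have : sInf (T : Set ℕ) ∈ (T : Set ℕ) := Nat.sInf_mem (by simpa using hne)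
    exact mem_coe.1 this
  have hmin : ∀ t ∈ T, sInf (T : Set ℕ) ≤ t := fun t ht => Nat.sInf_le (mem_coe.2 ht)
  by_cases hA : Adm T
  · unfold piT
    rw [if_pos hA]
    unfold cnt
    apply card_le_card_of_injOn (fun n => n + sInf (T : Set ℕ))
    · intro n hn
      rw [mem_coe, mem_filter, mem_Ioc] at hn
      obtain ⟨⟨h1, h2⟩, h3⟩ := hn
      rw [mem_coe, mem_filter, mem_Icc]
      beta_reduce
      have h4 := hTM _ hm
      refine ⟨⟨by omega, by omega⟩, fun t ht => ?_⟩
      have h5 := hmin t ht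
      have e : n + sInf (T : Set ℕ) + (t - sInf (T : Set ℕ)) = n + t := by omega
      rw [e]
      exact h3 t ht
    · intro n _ n' _ h
      beta_reduce at h
      omega
  · unfold Adm at hA
    push Not at hA
    obtain ⟨p, hp, hpn⟩ := hA
    have h0 : cnt k (N - M) T = 0 := by
      unfold cnt
      rw [card_eq_zero, filter_eq_empty_iff]
      intro n hn hall
      rw [mem_Ioc] at hn
      have himg : T.image (· % p) = range p := by
        apply eq_of_subset_of_card_le
        · intro v hv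
          obtain ⟨t, _, rfl⟩ := mem_image.1 hv
          exact mem_range.2 (Nat.mod_lt _ hp.pos)
        · rw [card_range]; exact hpn
      have hr : (p - n % p) % p ∈ T.image (· % p) := by
        rw [himg]; exact mem_range.2 (Nat.mod_lt _ hp.pos)
      obtain ⟨t, ht, htr⟩ := mem_image.1 hr
      beta_reduce at htr
      have h1 : p ∣ n + t := by
        have hlt := Nat.mod_lt n hp.pos
        apply Nat.dvd_of_mod_eq_zero
        rw [Nat.add_mod, htr]
        rw [Nat.add_mod_mod, ]
        have e : n % p + (p - n % p) = p := by omega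
        rw [e, Nat.mod_self]
      have h2 := (hall t ht)
      have h3 : p = n + t := (Nat.prime_dvd_prime_iff_eq hp h2).1 h1
      have h4 : p ≤ k + 1 := by
        have : nuT T p ≤ T.card := card_image_le
        omega
      omega
    rw [h0]; exact Nat.zero_le _

variable {k : ℕ} {C δ : ℝ} {q N M y : ℕ}

/-- the constant obtained with the parameter `δ` -/
noncomputable def FF (k : ℕ) (lam δ : ℝ) : ℝ :=
  (1 - 2 * δ) * ph k (1 / (c1 δ * lam / (1 + δ))) * c1 δ ^ (k + 1) / (1 + δ) ^ ((k + 1) * (k + 1))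

theorem par_bound (hP : Par k C δ q N M y) (hδ : 0 < δ) (hδ1 : δ ≤ 1 / 4) {lam : ℝ} (hlam : 0 < lam)
    (hq : 1 ≤ q) (c : ℕ) {A : Finset ℕ} (hA : ∀ a ∈ A, a ≤ M) (hAc : ∀ a ∈ A, a ≡ c [MOD q])
    (hcard : lam * (Nat.totient q / q) * Real.log N ≤ A.card) :
    FF k lam δ * (N / Real.log N ^ (k + 1)) * ∑ T ∈ A.powersetCard (k + 1), CT T ≤
      ∑ T ∈ A.powersetCard (k + 1), (piT T N : ℝ) := by
  classical
  have h1 := heart hP hδ hδ1 hlam hq c hA hAc hcard
  set W := WW y with hWdef
  have hW : 0 < W := WW_pos y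
  have hW0 : (0:ℝ) < W := by exact_mod_cast hW
  have hL : 0 < Real.log N := by linarith [hP.hL]
  have hφ0 : (0:ℝ) < Nat.totient W := by exact_mod_cast Nat.totient_pos.2 hW
  have hc1 : 0 < c1 δ := div_pos (by linarith) (by linarith)
  have h2 : ∑ T ∈ A.powersetCard (k + 1), (cnt k (N - M) T : ℝ) ≤
      ∑ T ∈ A.powersetCard (k + 1), (piT T N : ℝ) := by
    apply sum_le_sum
    intro T hT
    rw [mem_powersetCard] at hT
    exact_mod_cast cnt_le_piT hT.2 (fun t ht => hA t (hT.1 ht)) hP.hMN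
  refine le_trans ?_ (h1.trans h2)
  set K := (1 + δ) ^ ((k + 1) * (k + 1)) with hK
  have hK0 : 0 < K := pow_pos (by linarith) _
  have h3 : ∑ T ∈ A.powersetCard (k + 1), CT T ≤
      K * (((W : ℝ) / Nat.totient W) ^ (k + 1) * (1 / W)) * ∑ T ∈ A.powersetCard (k + 1), (gT W T : ℝ) := by
    rw [mul_sum]
    apply sum_le_sum
    intro T hT
    rw [mem_powersetCard] at hT
    have := CT_le T y (K := 1 + δ) (by linarith) (M := M) (fun t ht => hA t (hT.1 ht)) hP.htt
    rw [hT.2] at this
    refine this.trans (le_of_eq ?_)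
    rw [hK, hWdef]
    ring
  have hph := ph_nonneg k (1 / (c1 δ * lam / (1 + δ)))
  set P := ph k (1 / (c1 δ * lam / (1 + δ))) with hPdef
  have h12 : (0:ℝ) ≤ 1 - 2 * δ := by linarith
  have hN0 : (0:ℝ) ≤ N := Nat.cast_nonneg N
  have hcoef : 0 ≤ FF k lam δ * (N / Real.log N ^ (k + 1)) := by
    unfold FF
    rw [← hPdef]
    positivity
  refine (mul_le_mul_of_nonneg_left h3 hcoef).trans (le_of_eq ?_)
  unfold FF
  rw [← hPdef, ← hK]
  have e1 : (1 - 2 * δ) * P * c1 δ ^ (k + 1) / K * (N / Real.log N ^ (k + 1)) *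
      (K * (((W : ℝ) / Nat.totient W) ^ (k + 1) * (1 / W)) * ∑ T ∈ A.powersetCard (k + 1), (gT W T : ℝ)) =
      (K / K) * ((1 - 2 * δ) * (N / W) * (P * ((c1 δ ^ (k + 1) * (((W : ℝ) / Nat.totient W) ^ (k + 1)
        / Real.log N ^ (k + 1))) * ∑ T ∈ A.powersetCard (k + 1), (gT W T : ℝ)))) := by ring
  rw [e1, div_self hK0.ne', one_mul]
  congr 3
  rw [mul_pow, ← div_pow, div_div]

/-- the constant tends to `∏ (1 - i/lam)` -/
lemma FF_tendsto (k : ℕ) {lam : ℝ} (hlam : 0 < lam) :
    Tendsto (FF k lam) (𝓝 0) (𝓝 (ph k (1 / lam))) := by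
  have hc : ContinuousAt c1 0 := by
    unfold c1
    apply ContinuousAt.div
    · fun_prop
    · fun_prop
    · norm_num
  have hc0 : c1 0 = 1 := by unfold c1; norm_num
  have hph : Continuous (ph k) := by
    unfold ph
    fun_prop
  have h : ContinuousAt (FF k lam) 0 := by
    unfold FF
    have h1 : ContinuousAt (fun δ : ℝ => 1 / (c1 δ * lam / (1 + δ))) 0 := by
      apply ContinuousAt.div continuousAt_const
      · apply ContinuousAt.div (hc.mul continuousAt_const)
        · fun_prop
        · norm_num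
      · rw [hc0]; simp [hlam.ne']
    have h2 : ContinuousAt (fun δ : ℝ => ph k (1 / (c1 δ * lam / (1 + δ)))) 0 :=
      hph.continuousAt.comp h1
    apply ContinuousAt.div
    · apply ContinuousAt.mul
      · apply ContinuousAt.mul
        · fun_prop
        · exact h2
      · exact hc.pow _
    · fun_prop
    · norm_num
  have h3 : FF k lam 0 = ph k (1 / lam) := by
    unfold FF
    rw [hc0]
    simp
  rw [← h3]
  exact h

lemma ph_eq (k : ℕ) {lam : ℝ} (hlam : (k : ℝ) < lam) :
    ph k (1 / lam) = ∏ i ∈ range k, (1 - (i + 1 : ℝ) / lam) := by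
  have hlam0 : 0 < lam := lt_of_le_of_lt (Nat.cast_nonneg k) hlam
  unfold ph
  apply prod_congr rfl
  intro i hi
  rw [mem_range] at hi
  have h1 : ((i:ℝ) + 1) ≤ k := by exact_mod_cast hi
  rw [mul_one_div, max_eq_right]
  rw [sub_nonneg, div_le_one hlam0]
  linarith

end Pool.Agent.H387R2.Uni
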