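import Mathlib

set_option autoImplicit false

open Finset

namespace Pool.Agent.H387R2.Uni

/-- number of residue classes modulo `p` occupied by `T` -/
def nuT (T : Finset ℕ) (p : ℕ) : ℕ := (T.image (· % p)).card

/-- `T` is admissible: it misses a residue class modulo every prime -/
def Adm (T : Finset ℕ) : Prop := ∀ p : ℕ, p.Prime → nuT T p < p

/-- local factor of the Hardy-Littlewood constant of the pattern `T` -/
noncomputable def locT (T : Finset ℕ) (p : ℕ) : ℝ := (1 - (nuT T p : ℝ) / p) / (1 - 1 / (p : ℝ)) ^ T.card

/-- the Hardy-Littlewood constant of the pattern `T`, a convergent product over the primes -/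
noncomputable def CT (T : Finset ℕ) : ℝ := ∏' p : Nat.Primes, locT T p

open Classical in
/-- the number of primes `p ≤ N` such that all `p + (t - min T)`, `t ∈ T`, are prime (`0` if `T` is
not admissible) -/
noncomputable def piT (T : Finset ℕ) (N : ℕ) : ℕ :=
  if Adm T then ((Icc 1 N).filter (fun p => ∀ t ∈ T, (p + (t - sInf (T : Set ℕ))).Prime)).card else 0

end Pool.Agent.H387R2.Uni
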