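import Pool.Agent.H387R2.VorM

set_option autoImplicit false

open Filter Topology MeasureTheory Set

namespace Pool.Agent.H387R2.Vor

noncomputable section

/-- the function whose Mellin transform at `-s` is `LL s`, for `Re s = 2` -/
def hR (y : ℝ) : ℂ :=
  ph y * (Dsum y : ℂ) - (y : ℂ) ^ (1 : ℂ) • (Real.log y • ph y) -
    (2 * (Real.eulerMascheroniConstant : ℂ) - 1) • ((y : ℂ) ^ (1 : ℂ) • ph y) - (1 / 4 : ℂ) • ph y

/-- the function whose Mellin transform at `-s` is the polar part, for `Re s < 0` -/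
def hL (y : ℝ) : ℂ :=
  (y : ℂ) ^ (1 : ℂ) • (Real.log y • pL y) +
    (2 * (Real.eulerMascheroniConstant : ℂ) - 1) • ((y : ℂ) ^ (1 : ℂ) • pL y) + (1 / 4 : ℂ) • pL y

lemma hasMellin_hR {s : ℂ} (hs : 3 / 2 < s.re) : HasMellin hR (-s) (LL s) := by
  have h0 : s ≠ 0 := by rintro rfl; norm_num at hs
  have h1 : s ≠ 1 := by rintro rfl; norm_num at hs
  have h1' : s - 1 ≠ 0 := sub_ne_zero.2 h1
  have h1'' : 1 - s ≠ 0 := sub_ne_zero.2 (Ne.symm h1)
  have a1 := hasMellin_D hs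
  have a2 := hasMellin_log_ph (u := -s + 1) (by simp; linarith)
  have a3 := hasMellin_ph (u := -s + 1) (by simp; linarith)
  have a4 := hasMellin_ph (u := -s) (by simp; linarith)
  have b2 : HasMellin (fun y : ℝ => (y : ℂ) ^ (1 : ℂ) • (Real.log y • ph y)) (-s) (1 / (-s + 1) ^ 2) :=
    ⟨MellinConvergent.cpow_smul.2 a2.1, by rw [mellin_cpow_smul]; exact a2.2⟩
  have b3 : HasMellin (fun y : ℝ => (y : ℂ) ^ (1 : ℂ) • ph y) (-s) (-1 / (-s + 1)) :=
    ⟨MellinConvergent.cpow_smul.2 a3.1, by rw [mellin_cpow_smul]; exact a3.2⟩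
  have c1 := hasMellin_sub a1.1 b2.1
  have c2 := hasMellin_const_smul b3.1 (2 * (Real.eulerMascheroniConstant : ℂ) - 1)
  have c3 := hasMellin_sub c1.1 c2.1
  have c4 := hasMellin_const_smul a4.1 (1 / 4 : ℂ)
  have c5 := hasMellin_sub c3.1 c4.1
  refine ⟨c5.1, ?_⟩
  have := c5.2
  rw [c3.2, c1.2, c2.2, c4.2, a1.2, b2.2, b3.2, a4.2] at this
  change mellin hR (-s) = _ at this
  rw [this, LL_eq h0 h1]
  have e1 : (-s + 1) = -(s - 1) := by ring
  rw [e1]
  simp only [smul_eq_mul]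
  field_simp

lemma hasMellin_hL {s : ℂ} (hs : s.re < 0) : HasMellin hL (-s)
    (-(1 / (s - 1) ^ 2 + (2 * (Real.eulerMascheroniConstant : ℂ) - 1) / (s - 1) + 1 / (4 * s))) := by
  have h0 : s ≠ 0 := by rintro rfl; norm_num at hs
  have h1 : s ≠ 1 := by rintro rfl; norm_num at hs
  have h1' : s - 1 ≠ 0 := sub_ne_zero.2 h1
  have a2 := hasMellin_log_pL (u := -s + 1) (by simp; linarith)
  have a3 := hasMellin_pL (u := -s + 1) (by simp; linarith)
  have a4 := hasMellin_pL (u := -s) (by simp; linarith)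
  have b2 : HasMellin (fun y : ℝ => (y : ℂ) ^ (1 : ℂ) • (Real.log y • pL y)) (-s) (-1 / (-s + 1) ^ 2) :=
    ⟨MellinConvergent.cpow_smul.2 a2.1, by rw [mellin_cpow_smul]; exact a2.2⟩
  have b3 : HasMellin (fun y : ℝ => (y : ℂ) ^ (1 : ℂ) • pL y) (-s) (1 / (-s + 1)) :=
    ⟨MellinConvergent.cpow_smul.2 a3.1, by rw [mellin_cpow_smul]; exact a3.2⟩
  have c2 := hasMellin_const_smul b3.1 (2 * (Real.eulerMascheroniConstant : ℂ) - 1)
  have c3 := hasMellin_add b2.1 c2.1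
  have c4 := hasMellin_const_smul a4.1 (1 / 4 : ℂ)
  have c5 := hasMellin_add c3.1 c4.1
  refine ⟨c5.1, ?_⟩
  have := c5.2
  rw [c3.2, c2.2, c4.2, b2.2, b3.2, a4.2] at this
  change mellin hL (-s) = _ at this
  rw [this]
  have e1 : (-s + 1) = -(s - 1) := by ring
  rw [e1]
  simp only [smul_eq_mul]
  field_simp
  ring

lemma hR_eq {x : ℝ} (hx : 1 < x) :
    (x : ℂ) ^ ((2 * 0 - 1 / 2 : ℝ) : ℂ) * hR (x ^ (2:ℝ)) =
      (Ed x : ℂ) - (1 / 4 : ℂ) * (x : ℂ) ^ (-(1 / 2) : ℂ) := by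
  have hx0 : 0 < x := by linarith
  have h1 : 1 < x ^ (2:ℝ) := Real.one_lt_rpow hx (by norm_num)
  have h2 : x ^ (2:ℝ) = x ^ 2 := by norm_cast
  rw [h2] at h1 ⊢
  have e1 : (x : ℂ) ^ ((2 * 0 - 1 / 2 : ℝ) : ℂ) = ((1 / √x : ℝ) : ℂ) := by
    rw [← Complex.ofReal_cpow hx0.le]
    congr 1
    rw [show (2 * 0 - 1 / 2 : ℝ) = -(1 / 2) by norm_num, Real.rpow_neg hx0.le, ← Real.sqrt_eq_rpow, one_div]
  have e2 : (x : ℂ) ^ (-(1 / 2) : ℂ) = ((1 / √x : ℝ) : ℂ) := by
    have : (-(1 / 2) : ℂ) = ((-(1 / 2) : ℝ) : ℂ) := by push_cast; ring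
    rw [this, ← Complex.ofReal_cpow hx0.le]
    congr 1
    rw [Real.rpow_neg hx0.le, ← Real.sqrt_eq_rpow, one_div]
  rw [e1, e2]
  unfold hR Ed Del
  rw [ph_of_gt h1, Complex.cpow_one]
  simp only [smul_eq_mul, Complex.real_smul, mul_one, one_mul]
  push_cast
  ring

lemma hL_eq {x : ℝ} (hx : 1 < x) : hL (x ^ (2:ℝ)) = 0 := by
  have h1 : 1 < x ^ (2:ℝ) := Real.one_lt_rpow hx (by norm_num)
  unfold hL
  rw [pL_of_gt h1]
  simp

lemma rho_mul_integrable {R δ : ℝ} (_hR0 : 0 < R) (hδ : 0 < δ) {f : ℝ → ℂ}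
    (hf : IntervalIntegrable f volume R (R + 2 * δ)) :
    IntegrableOn (fun x => (rho R δ x : ℂ) * f x) (Ioi 0) := by
  have hint : IntegrableOn f (Ioc R (R + 2 * δ)) :=
    (intervalIntegrable_iff_integrableOn_Ioc_of_le (by linarith)).1 hf
  have h1 : IntegrableOn (fun x => (rho R δ x : ℂ) * f x) (Ioc R (R + 2 * δ)) := by
    refine Integrable.bdd_mul (c := 1 / δ) hint (continuous_rhoC R δ).aestronglyMeasurable ?_
    refine Eventually.of_forall fun x => ?_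
    rw [Complex.norm_real, Real.norm_of_nonneg (rho_nonneg R δ x)]
    exact rho_le hδ x
  refine h1.of_forall_sdiff_eq_zero measurableSet_Ioi fun x hx => ?_
  have : rho R δ x = 0 := by
    by_cases h : x ≤ R
    · exact rho_left h
    · push Not at h
      have : R + 2 * δ < x := by
        by_contra h'
        exact hx.2 ⟨h, not_lt.1 h'⟩
      exact rho_right this.le
  rw [this, Complex.ofReal_zero, zero_mul]

lemma Ed_intInt {R δ : ℝ} (hR : 1 ≤ R) (hδ : 0 < δ) : IntervalIntegrable Ed volume R (R + 2 * δ) := by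
  unfold Ed
  simp_rw [div_eq_mul_inv]
  refine IntervalIntegrable.mul_continuousOn ?_ ?_
  · unfold Del
    have h1 : IntervalIntegrable (fun x : ℝ => Dsum (x ^ 2)) volume R (R + 2 * δ) := by
      apply MonotoneOn.intervalIntegrable
      intro x hx y hy hxy
      rw [uIcc_of_le (by linarith)] at hx hy
      apply VorD.Dsum_mono
      nlinarith [hx.1, hy.1]
    refine (h1.sub ?_).sub ?_
    · apply ContinuousOn.intervalIntegrable
      intro x hx
      rw [uIcc_of_le (by linarith)] at hx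
      have hx0 : x ^ 2 ≠ 0 := by nlinarith [hx.1]
      have h2 : ContinuousAt (fun x : ℝ => x ^ 2 * Real.log (x ^ 2)) x :=
        ContinuousAt.mul (by fun_prop) (ContinuousAt.log (by fun_prop) hx0)
      exact h2.continuousWithinAt
    · apply Continuous.intervalIntegrable
      fun_prop
  · intro x hx
    rw [uIcc_of_le (by linarith)] at hx
    have hx0 : √x ≠ 0 := by
      rw [Real.sqrt_ne_zero']; linarith [hx.1]
    exact (Real.continuous_sqrt.continuousAt.inv₀ hx0).continuousWithinAt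

/-- the right side of the shift -/
lemma right_side {R δ : ℝ} (hR1 : 1 ≤ R) (hδ : 0 < δ) :
    ∫ t : ℝ, LL (((2 : ℝ) : ℂ) + t * Complex.I) * KA R δ (1 / 2 - 2 * (((2 : ℝ) : ℂ) + t * Complex.I)) =
      2 * Real.pi * (((1 / δ ^ 2) * (∫ u in (0:ℝ)..δ, ∫ v in (0:ℝ)..δ, Ed (R + u + v)) : ℝ) -
        (1 / 4 : ℂ) * KA R δ (1 / 2)) := by
  have hR0 : 0 < R := by linarith
  have h1 : ∀ t : ℝ, LL (((2 : ℝ) : ℂ) + t * Complex.I) = mellin hR (((0:ℝ) : ℂ) - (((2:ℝ) : ℂ) + t * Complex.I)) := by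
    intro t
    rw [Complex.ofReal_zero, zero_sub]
    exact (hasMellin_hR (s := ((2:ℝ) : ℂ) + t * Complex.I) (by simp; norm_num)).2.symm
  simp_rw [h1]
  rw [pars hR0 hδ (σ := 2) (by norm_num) (by norm_num) 0 (h := hR) (by
    have := (hasMellin_hR (s := ((2:ℝ) : ℂ)) (by simp; norm_num)).1
    simpa using this)]
  congr 1
  -- replace the integrand
  have h2 : ∫ x in Ioi (0:ℝ), (rho R δ x : ℂ) * ((x : ℂ) ^ ((2 * 0 - 1 / 2 : ℝ) : ℂ) * hR (x ^ (2:ℝ))) =
      ∫ x in Ioi (0:ℝ), ((rho R δ x : ℂ) * (Ed x : ℂ) - (1 / 4 : ℂ) * ((rho R δ x : ℂ) * (x : ℂ) ^ (-(1 / 2) : ℂ))) := by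
    refine setIntegral_congr_fun measurableSet_Ioi fun x _ => ?_
    beta_reduce
    by_cases hx : x ≤ R
    · rw [rho_left hx, Complex.ofReal_zero]; ring
    · push Not at hx
      rw [hR_eq (lt_of_le_of_lt hR1 hx)]
      ring
  rw [h2]
  have i1 : IntervalIntegrable (fun x => (Ed x : ℂ)) volume R (R + 2 * δ) := ⟨(Ed_intInt hR1 hδ).1.ofReal, (Ed_intInt hR1 hδ).2.ofReal⟩
  have i2 := cpow_intervalIntegrable hR0 hδ (-(1 / 2) : ℂ)
  rw [integral_sub (rho_mul_integrable hR0 hδ i1) ((rho_mul_integrable hR0 hδ i2).const_mul _),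
    integral_const_mul, ← av_eq hR0 hδ i1]
  congr 1
  · push_cast
    congr 1
    rw [← intervalIntegral.integral_ofReal]
    refine intervalIntegral.integral_congr fun u _ => ?_
    beta_reduce
    rw [← intervalIntegral.integral_ofReal]
  · congr 1
    unfold KA mellin
    refine setIntegral_congr_fun measurableSet_Ioi fun x _ => ?_
    beta_reduce
    rw [smul_eq_mul, mul_comm]
    congr 2
    ring

/-- the polar part does not contribute on the left line -/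
lemma polar_left {R δ : ℝ} (hR1 : 1 ≤ R) (hδ : 0 < δ) :
    ∫ t : ℝ, mellin hL (-(((-(1 / 4) : ℝ) : ℂ) + t * Complex.I)) *
      KA R δ (1 / 2 - 2 * (((-(1 / 4) : ℝ) : ℂ) + t * Complex.I)) = 0 := by
  have hR0 : 0 < R := by linarith
  have h1 := pars hR0 hδ (σ := -(1 / 4)) (by norm_num) (by norm_num) 0 (h := hL) (by
    have := (hasMellin_hL (s := ((-(1 / 4):ℝ) : ℂ)) (by simp)).1
    simpa using this)
  simp_rw [Complex.ofReal_zero, zero_sub] at h1
  rw [h1]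
  have h2 : ∫ x in Ioi (0:ℝ), (rho R δ x : ℂ) * ((x : ℂ) ^ ((2 * 0 - 1 / 2 : ℝ) : ℂ) * hL (x ^ (2:ℝ))) = 0 := by
    rw [← integral_zero (α := ℝ) (μ := volume.restrict (Ioi 0)) (G := ℂ)]
    refine setIntegral_congr_fun measurableSet_Ioi fun x _ => ?_
    beta_reduce
    by_cases hx : x ≤ R
    · rw [rho_left hx, Complex.ofReal_zero]; ring
    · push Not at hx
      rw [hL_eq (lt_of_le_of_lt hR1 hx)]
      ring
  rw [h2, mul_zero]

end

end Pool.Agent.H387R2.Vor
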