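import Mathlib
import Pool.Agent.H387R2.VorDefs

set_option autoImplicit false

open MeasureTheory Filter Topology
open Pool.Agent.H387R2.Vor

/-! Elementary bounds of the divisor problem (after `Pool.Agent.H383.DivA`). -/

namespace Pool.Agent.H387R2.VorD

lemma dv_nonneg (n : ℕ) : 0 ≤ dv n := by unfold dv; positivity

lemma Dsum_mono : Monotone Dsum := by
  intro x y h
  unfold Dsum
  apply Finset.sum_le_sum_of_subset_of_nonneg
  · exact Finset.Icc_subset_Icc le_rfl (Nat.floor_mono h)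
  · intro n _ _; exact dv_nonneg n

lemma Dsum_eq (x : ℝ) : Dsum x = ∑ n ∈ Finset.Icc 1 ⌊x⌋₊, ((⌊x⌋₊ / n : ℕ) : ℝ) := by
  have h := ArithmeticFunction.sum_Ioc_sigma0_eq_sum_div ⌊x⌋₊
  unfold Dsum dv
  rw [← Nat.cast_sum, ← Nat.cast_sum]
  congr 1
  have e : Finset.Icc 1 ⌊x⌋₊ = Finset.Ioc 0 ⌊x⌋₊ := by
    ext n; simp only [Finset.mem_Icc, Finset.mem_Ioc]; omega
  rw [e, ← h]
  apply Finset.sum_congr rfl
  intro n _
  rw [ArithmeticFunction.sigma_zero_apply]

lemma harm_real (n : ℕ) : ((harmonic n : ℚ) : ℝ) = ∑ i ∈ Finset.Icc 1 n, (1:ℝ)/i := by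
  rw [harmonic_eq_sum_Icc]
  push_cast
  apply Finset.sum_congr rfl
  intro i _
  rw [one_div]

lemma Del_abs {x : ℝ} (hx : 1 ≤ x) : |Del x| ≤ 3 * x := by
  set N := ⌊x⌋₊ with hN
  have hx0 : 0 ≤ x := by linarith
  have hN1 : 1 ≤ N := Nat.le_floor (by exact_mod_cast hx)
  have hN1' : (1:ℝ) ≤ N := by exact_mod_cast hN1
  have hNx : (N:ℝ) ≤ x := Nat.floor_le hx0
  have hxN : x < N + 1 := Nat.lt_floor_add_one x
  have hlog0 : 0 ≤ Real.log x := Real.log_nonneg hx
  have h1 := log_add_one_le_harmonic N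
  have h2 := harmonic_le_one_add_log N
  rw [harm_real] at h1 h2
  set H := ∑ i ∈ Finset.Icc 1 N, (1:ℝ)/i with hH
  have hup : Dsum x ≤ N * H := by
    rw [Dsum_eq, hH, Finset.mul_sum]
    apply Finset.sum_le_sum
    intro n hn
    rw [← hN]
    refine (Nat.cast_div_le).trans ?_
    rw [mul_one_div]
  have hlo : N * H - N ≤ Dsum x := by
    have e : (N:ℝ) * H - N = ∑ i ∈ Finset.Icc 1 N, ((N:ℝ) * (1/i) - 1) := by
      rw [Finset.sum_sub_distrib, ← Finset.mul_sum, ← hH]
      simp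
    rw [e, Dsum_eq, ← hN]
    apply Finset.sum_le_sum
    intro n hn
    rw [Finset.mem_Icc] at hn
    have hn0 : (0:ℝ) < n := by exact_mod_cast hn.1
    have h3 : N < n * (N / n + 1) := Nat.lt_mul_div_succ N (by omega)
    have h4 : (N:ℝ) < n * (((N / n : ℕ):ℝ) + 1) := by exact_mod_cast h3
    have h5 : (N:ℝ) * (1/n) ≤ ((N / n : ℕ):ℝ) + 1 := by
      rw [mul_one_div, div_le_iff₀ hn0]; linarith
    linarith
  have hg1 := Real.one_half_lt_eulerMascheroniConstant
  have hg2 := Real.eulerMascheroniConstant_lt_two_thirds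
  set g := Real.eulerMascheroniConstant
  have hlogN : Real.log N ≤ Real.log x := Real.log_le_log (by linarith) hNx
  have hlogN0 : 0 ≤ Real.log N := Real.log_nonneg hN1'
  have hlogx : Real.log x ≤ Real.log ((N:ℝ) + 1) := Real.log_le_log (by linarith) hxN.le
  have hlogx2 : Real.log x ≤ x := by
    have := Real.log_le_sub_one_of_pos (by linarith : 0 < x)
    linarith
  have hcast : Real.log ((N:ℝ) + 1) = Real.log (((N + 1 : ℕ) : ℝ)) := by push_cast; rfl
  have hH1 : Real.log x ≤ H := by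
    rw [hcast] at hlogx
    exact hlogx.trans h1
  have hU : Dsum x ≤ x * (1 + Real.log x) := by
    calc Dsum x ≤ N * H := hup
      _ ≤ N * (1 + Real.log N) := mul_le_mul_of_nonneg_left h2 (by linarith)
      _ ≤ x * (1 + Real.log x) := mul_le_mul hNx (by linarith) (by linarith) hx0
  have hL : x * Real.log x - 2 * x ≤ Dsum x := by
    have a1 : N * Real.log x ≤ N * H := mul_le_mul_of_nonneg_left hH1 (by linarith)
    have a2 : (x - 1) * Real.log x ≤ N * Real.log x := mul_le_mul_of_nonneg_right (by linarith) hlog0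
    have a3 : (x - 1) * Real.log x = x * Real.log x - Real.log x := by ring
    linarith
  unfold Del
  rw [abs_le]
  constructor
  · have : (2 * g - 1) * x ≤ x := by nlinarith
    linarith
  · have : 0 ≤ (2 * g - 1) * x := by
      apply mul_nonneg _ hx0; linarith
    linarith


lemma Dsum_nonneg (x : ℝ) : 0 ≤ Dsum x := Finset.sum_nonneg fun n _ => dv_nonneg n

lemma Dsum_le {x : ℝ} (hx : 1 ≤ x) : Dsum x ≤ 6 * x ^ (3 / 2 : ℝ) := by
  have hx0 : 0 < x := by linarith
  have h1 := (abs_le.1 (Del_abs hx)).2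
  have hg2 := Real.eulerMascheroniConstant_lt_two_thirds
  have hlog : Real.log x ≤ 2 * √x := by
    have h2 : Real.log x = 2 * Real.log (√x) := by
      rw [Real.log_sqrt hx0.le]; ring
    have h3 := Real.log_le_sub_one_of_pos (Real.sqrt_pos.2 hx0)
    linarith
  have hsq : 1 ≤ √x := Real.one_le_sqrt.2 hx
  have e : x ^ (3 / 2 : ℝ) = x * √x := by
    rw [Real.sqrt_eq_rpow, ← Real.rpow_one_add' hx0.le (by norm_num)]; norm_num
  have h4 : Dsum x = Del x + x * Real.log x + (2 * Real.eulerMascheroniConstant - 1) * x := by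
    unfold Del; ring
  rw [h4, e]
  have h5 : x * Real.log x ≤ x * (2 * √x) := by gcongr
  have h6 : x ≤ x * √x := by nlinarith
  nlinarith

end Pool.Agent.H387R2.VorD
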