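import Mathlib

set_option autoImplicit false

open Filter Topology

namespace Pool.Agent.H387R2.Vor

noncomputable section

lemma norm_add_nat_sq {w : ℂ} (hw : 0 ≤ w.re) (j : ℕ) : (‖w‖ + j) ^ 2 ≤ 2 * ‖w + j‖ ^ 2 := by
  have h1 : ‖w + j‖ ^ 2 = ‖w‖ ^ 2 + 2 * j * w.re + j ^ 2 := by
    rw [← Complex.normSq_eq_norm_sq, ← Complex.normSq_eq_norm_sq, Complex.normSq_apply,
      Complex.normSq_apply]
    simp
    ring
  rw [h1]
  have h2 : (0 : ℝ) ≤ j := Nat.cast_nonneg j
  nlinarith [sq_nonneg (‖w‖ - j), mul_nonneg h2 hw]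

lemma sum_inv_sq {x : ℝ} (hx : 0 < x) (n : ℕ) :
    ∑ j ∈ Finset.range (n + 1), 1 / (x + j) ^ 2 ≤ 1 / x ^ 2 + 1 / x - 1 / (x + n) := by
  induction n with
  | zero => simp
  | succ n ih =>
    rw [Finset.sum_range_succ]
    have h1 : 0 < x + n := by positivity
    have h2 : 0 < x + (n + 1 : ℕ) := by positivity
    have h3 : 1 / (x + (n + 1 : ℕ)) ^ 2 ≤ 1 / (x + n) - 1 / (x + (n + 1 : ℕ)) := by
      rw [div_sub_div _ _ h1.ne' h2.ne', div_le_div_iff₀ (by positivity) (by positivity)]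
      push_cast
      nlinarith [mul_pos h1 h2]
    linarith

/-- the quotient `Γ(w)² / (Γ(w - 1/4) Γ(w + 1/4))` is `1 + O(1/|w|)` -/
theorem gamma_ratio {w : ℂ} (hw : 1 ≤ w.re) :
    ‖Complex.Gamma w ^ 2 - Complex.Gamma (w - 1 / 4) * Complex.Gamma (w + 1 / 4)‖ ≤
      1 / (2 * ‖w‖) * ‖Complex.Gamma (w - 1 / 4) * Complex.Gamma (w + 1 / 4)‖ := by
  have hw1 : 1 ≤ ‖w‖ := hw.trans ((le_abs_self _).trans (Complex.abs_re_le_norm w))
  have hw0 : 0 < ‖w‖ := by linarith
  have hne : ∀ (a : ℝ) (j : ℕ), -1 < a → w + (a : ℂ) + j ≠ 0 := by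
    intro a j ha h
    have := congrArg Complex.re h
    simp at this
    have h2 : (0 : ℝ) ≤ j := Nat.cast_nonneg j
    linarith
  set f : ℕ → ℂ := fun j => -(1 / 16) / (w + j) ^ 2 with hf
  -- the finite identity
  have hid : ∀ n : ℕ, 1 ≤ n → Complex.GammaSeq w n ^ 2 =
      (∏ j ∈ Finset.range (n + 1), (1 + f j)) *
        (Complex.GammaSeq (w - 1 / 4) n * Complex.GammaSeq (w + 1 / 4) n) := by
    intro n hn
    have hn0 : (n : ℂ) ≠ 0 := by exact_mod_cast (by omega : n ≠ 0)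
    unfold Complex.GammaSeq
    have h1 : ∀ j ∈ Finset.range (n + 1), (1 + f j) =
        ((w - 1 / 4 + j) * (w + 1 / 4 + j)) / (w + j) ^ 2 := by
      intro j _
      have h2 : w + j ≠ 0 := by
        have := hne 0 j (by norm_num)
        simpa using this
      simp only [hf]
      field_simp
      ring
    rw [Finset.prod_congr rfl h1, Finset.prod_div_distrib, Finset.prod_mul_distrib, Finset.prod_pow]
    have hP0 : ∏ j ∈ Finset.range (n + 1), (w + j) ≠ 0 := by
      rw [Finset.prod_ne_zero_iff]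
      intro j _
      have := hne 0 j (by norm_num)
      simpa using this
    have hP1 : ∏ j ∈ Finset.range (n + 1), (w - 1 / 4 + j) ≠ 0 := by
      rw [Finset.prod_ne_zero_iff]
      intro j _
      have := hne (-(1 / 4)) j (by norm_num)
      push_cast at this
      rwa [← sub_eq_add_neg] at this
    have hP2 : ∏ j ∈ Finset.range (n + 1), (w + 1 / 4 + j) ≠ 0 := by
      rw [Finset.prod_ne_zero_iff]
      intro j _
      have := hne (1 / 4) j (by norm_num)
      push_cast at this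
      exact this
    have hpow : (n : ℂ) ^ (w - 1 / 4) * (n : ℂ) ^ (w + 1 / 4) = (n : ℂ) ^ w * (n : ℂ) ^ w := by
      rw [← Complex.cpow_add _ _ hn0, ← Complex.cpow_add _ _ hn0]
      congr 1; ring
    set P0 := ∏ j ∈ Finset.range (n + 1), (w + j)
    set P1 := ∏ j ∈ Finset.range (n + 1), (w - 1 / 4 + j)
    set P2 := ∏ j ∈ Finset.range (n + 1), (w + 1 / 4 + j)
    have e1 : P1 * P2 / P0 ^ 2 * ((n : ℂ) ^ (w - 1 / 4) * (n.factorial : ℂ) / P1 *
        ((n : ℂ) ^ (w + 1 / 4) * (n.factorial : ℂ) / P2)) =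
        ((n : ℂ) ^ (w - 1 / 4) * (n : ℂ) ^ (w + 1 / 4)) * (n.factorial : ℂ) ^ 2 / P0 ^ 2 := by
      field_simp
    rw [e1, hpow]
    ring
  -- bound of the sum
  have hsum : ∀ n : ℕ, ∑ j ∈ Finset.range (n + 1), ‖f j‖ ≤ 1 / (4 * ‖w‖) := by
    intro n
    have h1 : ∀ j ∈ Finset.range (n + 1), ‖f j‖ ≤ 1 / 8 * (1 / (‖w‖ + j) ^ 2) := by
      intro j _
      have h2 := norm_add_nat_sq (w := w) (by linarith) j
      have h3 : (0 : ℝ) < (‖w‖ + j) ^ 2 := by positivity
      simp only [hf]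
      rw [norm_div, norm_neg, norm_pow]
      have h4 : ‖(1 / 16 : ℂ)‖ = 1 / 16 := by norm_num
      rw [h4, div_mul_div_comm, one_mul, div_le_div_iff₀ (by nlinarith) (by positivity)]
      nlinarith
    refine (Finset.sum_le_sum h1).trans ?_
    rw [← Finset.mul_sum]
    have h5 := sum_inv_sq hw0 n
    have h6 : 0 < 1 / (‖w‖ + n) := by positivity
    have h7 : 1 / ‖w‖ ^ 2 ≤ 1 / ‖w‖ := by
      apply one_div_le_one_div_of_le hw0
      nlinarith
    have h8 : 1 / (4 * ‖w‖) = 1 / 8 * (1 / ‖w‖ + 1 / ‖w‖) := by field_simp; norm_num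
    rw [h8]
    nlinarith
  have hprod : ∀ n : ℕ, ‖∏ j ∈ Finset.range (n + 1), (1 + f j) - 1‖ ≤ 1 / (2 * ‖w‖) := by
    intro n
    refine (Finset.norm_prod_one_add_sub_one_le _ _).trans ?_
    have h1 := hsum n
    have h2 : (0 : ℝ) ≤ ∑ j ∈ Finset.range (n + 1), ‖f j‖ := Finset.sum_nonneg fun _ _ => norm_nonneg _
    have h3 : 1 / (4 * ‖w‖) ≤ 1 / 4 := by
      apply one_div_le_one_div_of_le (by norm_num); linarith
    set x := ∑ j ∈ Finset.range (n + 1), ‖f j‖
    have h4 : Real.exp x - 1 ≤ 2 * x := by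
      have := Real.abs_exp_sub_one_le (x := x) (by rw [abs_of_nonneg h2]; linarith)
      rw [abs_of_nonneg h2] at this
      exact (le_abs_self _).trans this
    have h5 : 1 / (2 * ‖w‖) = 2 * (1 / (4 * ‖w‖)) := by field_simp; norm_num
    rw [h5]; linarith
  have hlim0 := (Complex.GammaSeq_tendsto_Gamma w).pow 2
  have hlim1 := (Complex.GammaSeq_tendsto_Gamma (w - 1 / 4)).mul
    (Complex.GammaSeq_tendsto_Gamma (w + 1 / 4))
  refine le_of_tendsto_of_tendsto (hlim0.sub hlim1).norm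
    (hlim1.norm.const_mul (1 / (2 * ‖w‖))) ?_
  filter_upwards [eventually_ge_atTop 1] with n hn
  rw [hid n hn]
  have e2 : ∀ a b : ℂ, a * b - b = (a - 1) * b := fun a b => by ring
  rw [e2, norm_mul]
  exact mul_le_mul_of_nonneg_right (hprod n) (norm_nonneg _)

/-- `x / sinh x ≤ (1 + 2 x) exp (-x)` -/
lemma div_sinh_le {x : ℝ} (hx : 0 < x) : x / Real.sinh x ≤ (1 + 2 * x) * Real.exp (-x) := by
  have h1 : 0 < Real.sinh x := Real.sinh_pos_iff.2 hx
  rw [div_le_iff₀ h1, Real.sinh_eq]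
  have h2 : Real.exp (-x) * Real.exp x = 1 := by rw [← Real.exp_add]; simp
  have h3 : Real.exp (-x) * Real.exp (-x) ≤ 1 / (1 + 2 * x) := by
    rw [← Real.exp_add, show -x + -x = -(2 * x) by ring, Real.exp_neg, ← one_div]
    apply one_div_le_one_div_of_le (by positivity)
    linarith [Real.add_one_le_exp (2 * x)]
  have h4 : (1 + 2 * x) * (Real.exp (-x) * Real.exp (-x)) ≤ 1 := by
    calc (1 + 2 * x) * (Real.exp (-x) * Real.exp (-x)) ≤ (1 + 2 * x) * (1 / (1 + 2 * x)) := by gcongr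
      _ = 1 := by field_simp
  have h5 : (1 + 2 * x) * Real.exp (-x) * ((Real.exp x - Real.exp (-x)) / 2) =
      ((1 + 2 * x) * (Real.exp (-x) * Real.exp x) - (1 + 2 * x) * (Real.exp (-x) * Real.exp (-x))) / 2 := by
    ring
  rw [h5, h2]
  linarith

/-- exact size of `Γ` on the line `Re z = 1`, as an upper bound -/
theorem norm_Gamma_one (t : ℝ) :
    ‖Complex.Gamma (1 + t * Complex.I)‖ ^ 2 ≤ (1 + 2 * Real.pi * |t|) * Real.exp (-(Real.pi * |t|)) := by
  rcases eq_or_ne t 0 with rfl | ht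
  · simp
  have hpi := Real.pi_pos
  have htI : (t : ℂ) * Complex.I ≠ 0 := by
    simp [ht]
  have h1 : Complex.Gamma (1 + t * Complex.I) * Complex.Gamma (1 - t * Complex.I) =
      (t * Complex.I) * (Real.pi / Complex.sin (Real.pi * (t * Complex.I))) := by
    rw [← Complex.Gamma_mul_Gamma_one_sub, add_comm, Complex.Gamma_add_one _ htI]
    ring
  have h2 : Complex.Gamma (1 - t * Complex.I) = (starRingEnd ℂ) (Complex.Gamma (1 + t * Complex.I)) := by
    rw [← Complex.Gamma_conj]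
    simp [sub_eq_add_neg]
  have h3 : ‖Complex.Gamma (1 + t * Complex.I)‖ ^ 2 =
      ‖Complex.Gamma (1 + t * Complex.I) * Complex.Gamma (1 - t * Complex.I)‖ := by
    rw [h2, norm_mul, RCLike.norm_conj, sq]
  have h4 : Complex.sin (Real.pi * (t * Complex.I)) = ((Real.sinh (Real.pi * t) : ℝ) : ℂ) * Complex.I := by
    rw [← mul_assoc, Complex.sin_mul_I]
    push_cast
    rfl
  rw [h3, h1, h4, norm_mul, norm_div, norm_mul, norm_mul, Complex.norm_I, Complex.norm_real,
    Complex.norm_real, Complex.norm_real, Real.norm_eq_abs, Real.norm_eq_abs, Real.norm_eq_abs,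
    abs_of_pos hpi, mul_one, mul_one]
  have h5 : |Real.sinh (Real.pi * t)| = Real.sinh (Real.pi * |t|) := by
    rcases le_or_gt 0 t with h | h
    · rw [abs_of_nonneg h, abs_of_nonneg (Real.sinh_nonneg_iff.2 (by positivity))]
    · rw [abs_of_neg h, abs_of_nonpos (Real.sinh_nonpos_iff.2 (by nlinarith)), ← Real.sinh_neg]
      ring_nf
  rw [h5]
  have h6 := div_sinh_le (x := Real.pi * |t|) (by positivity)
  calc |t| * (Real.pi / Real.sinh (Real.pi * |t|)) = (Real.pi * |t|) / Real.sinh (Real.pi * |t|) := by ring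
    _ ≤ (1 + 2 * (Real.pi * |t|)) * Real.exp (-(Real.pi * |t|)) := h6
    _ = _ := by ring

end

end Pool.Agent.H387R2.Vor
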