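import Pool.Agent.H387R2.VorKD

set_option autoImplicit false

open Filter Topology MeasureTheory Set

namespace Pool.Agent.H387R2.Vor

noncomputable section

lemma rho_nonneg (R δ x : ℝ) : 0 ≤ rho R δ x := div_nonneg (le_max_left _ _) (sq_nonneg _)

lemma rho_le {R δ : ℝ} (hδ : 0 < δ) (x : ℝ) : rho R δ x ≤ 1 / δ := by
  unfold rho
  rw [div_le_div_iff₀ (by positivity) hδ]
  have h1 : max 0 (δ - |x - (R + δ)|) ≤ δ := max_le hδ.le (by linarith [abs_nonneg (x - (R + δ))])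
  nlinarith

lemma rho_left {R δ x : ℝ} (hx : x ≤ R) : rho R δ x = 0 := by
  unfold rho
  have h1 : δ - |x - (R + δ)| ≤ 0 := by
    have := neg_le_abs (x - (R + δ))
    linarith
  rw [max_eq_left h1, zero_div]

lemma rho_right {R δ x : ℝ} (hx : R + 2 * δ ≤ x) : rho R δ x = 0 := by
  unfold rho
  have h1 : δ - |x - (R + δ)| ≤ 0 := by
    have := le_abs_self (x - (R + δ))
    linarith
  rw [max_eq_left h1, zero_div]

lemma continuous_rho (R δ : ℝ) : Continuous (rho R δ) := by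
  unfold rho
  fun_prop

lemma continuous_rhoC (R δ : ℝ) : Continuous (fun x => (rho R δ x : ℂ)) :=
  Complex.continuous_ofReal.comp (continuous_rho R δ)

lemma rho_top (R δ a : ℝ) : (fun x => (rho R δ x : ℂ)) =O[atTop] (fun x : ℝ => x ^ a) := by
  have : (fun x => (rho R δ x : ℂ)) =ᶠ[atTop] fun _ => 0 := by
    filter_upwards [eventually_ge_atTop (R + 2 * δ)] with x hx
    rw [rho_right hx, Complex.ofReal_zero]
  exact this.trans_isBigO (Asymptotics.isBigO_zero _ _)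

lemma rho_bot {R : ℝ} (hR : 0 < R) (δ a : ℝ) :
    (fun x => (rho R δ x : ℂ)) =O[𝓝[>] 0] (fun x : ℝ => x ^ a) := by
  have : (fun x => (rho R δ x : ℂ)) =ᶠ[𝓝[>] 0] fun _ => 0 := by
    filter_upwards [mem_nhdsWithin_of_mem_nhds (Iio_mem_nhds hR)] with x hx
    rw [rho_left (le_of_lt hx), Complex.ofReal_zero]
  exact this.trans_isBigO (Asymptotics.isBigO_zero _ _)

lemma rho_locInt (R δ : ℝ) : LocallyIntegrableOn (fun x => (rho R δ x : ℂ)) (Ioi 0) :=
  (continuous_rhoC R δ).locallyIntegrable.locallyIntegrableOn _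

lemma rho_mellinConvergent {R : ℝ} (hR : 0 < R) (δ : ℝ) (s : ℂ) :
    MellinConvergent (fun x => (rho R δ x : ℂ)) s :=
  mellinConvergent_of_isBigO_rpow (a := s.re + 1) (b := s.re - 1) (rho_locInt R δ)
    (rho_top R δ _) (by linarith) (rho_bot hR δ _) (by linarith)

theorem differentiable_KA' {R δ : ℝ} (hR : 0 < R) : Differentiable ℂ (KA R δ) := by
  intro z
  have h : DifferentiableAt ℂ (mellin (fun x => (rho R δ x : ℂ))) (1 - z) :=
    mellin_differentiableAt_of_isBigO_rpow (a := (1 - z).re + 1) (b := (1 - z).re - 1) (rho_locInt R δ)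
      (rho_top R δ _) (by linarith) (rho_bot hR δ _) (by linarith)
  exact h.comp z (differentiableAt_const _ |>.sub differentiableAt_id)

theorem differentiable_KA {R δ : ℝ} (hR : 0 < R) (_hδ : 0 < δ) : Differentiable ℂ (KA R δ) :=
  differentiable_KA' hR

/-- the double average is the integral against the density `rho` -/
theorem av_eq {R δ : ℝ} (hR : 0 < R) (hδ : 0 < δ) {f : ℝ → ℂ}
    (hf : IntervalIntegrable f volume R (R + 2 * δ)) :
    ((1 / δ ^ 2 : ℝ) : ℂ) * (∫ u in (0:ℝ)..δ, ∫ v in (0:ℝ)..δ, f (R + u + v)) =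
      ∫ x in Ioi (0:ℝ), (rho R δ x : ℂ) * f x := by
  have hint : IntegrableOn f (Ioc R (R + 2 * δ)) :=
    (intervalIntegrable_iff_integrableOn_Ioc_of_le (by linarith)).1 hf
  -- the inner integral
  have h1 : ∫ u in (0:ℝ)..δ, ∫ v in (0:ℝ)..δ, f (R + u + v) =
      ∫ u in (0:ℝ)..δ, ∫ x in Ioc R (R + 2 * δ), (Ioc (R + u) (R + u + δ)).indicator f x := by
    refine intervalIntegral.integral_congr fun u hu => ?_
    rw [uIcc_of_le hδ.le] at hu
    rw [intervalIntegral.integral_comp_add_left (f := f) (a := 0) (b := δ) (d := R + u), add_zero,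
      intervalIntegral.integral_of_le (by linarith), setIntegral_indicator measurableSet_Ioc]
    congr 2
    rw [inter_eq_self_of_subset_right]
    intro x hx
    exact ⟨by linarith [hx.1, hu.1], by linarith [hx.2, hu.2]⟩
  rw [h1, intervalIntegral.integral_of_le hδ.le]
  -- Fubini
  have hmeas : MeasurableSet {p : ℝ × ℝ | p.2 ∈ Ioc (R + p.1) (R + p.1 + δ)} := by
    have e : {p : ℝ × ℝ | p.2 ∈ Ioc (R + p.1) (R + p.1 + δ)} =
        {p : ℝ × ℝ | R + p.1 < p.2} ∩ {p : ℝ × ℝ | p.2 ≤ R + p.1 + δ} := by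
      ext p; simp
    rw [e]
    exact (measurableSet_lt (by fun_prop) (by fun_prop)).inter
      (measurableSet_le (by fun_prop) (by fun_prop))
  have hI : Integrable (Function.uncurry fun u x => (Ioc (R + u) (R + u + δ)).indicator f x)
      ((volume.restrict (Ioc 0 δ)).prod (volume.restrict (Ioc R (R + 2 * δ)))) := by
    have h2 : Integrable (fun p : ℝ × ℝ => (1 : ℂ) * f p.2)
        ((volume.restrict (Ioc 0 δ)).prod (volume.restrict (Ioc R (R + 2 * δ)))) :=
      Integrable.mul_prod (f := fun _ : ℝ => (1 : ℂ)) (integrable_const _) hint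
    have h3 := h2.indicator hmeas
    refine h3.congr (Filter.Eventually.of_forall fun p => ?_)
    simp only [Function.uncurry, one_mul]
    by_cases h : p.2 ∈ Ioc (R + p.1) (R + p.1 + δ)
    · rw [indicator_of_mem h, indicator_of_mem]
      exact h
    · rw [indicator_of_notMem h, indicator_of_notMem]
      exact h
  rw [integral_integral_swap hI]
  -- restrict the right-hand side
  have h4 : ∫ x in Ioi (0:ℝ), (rho R δ x : ℂ) * f x = ∫ x in Ioc R (R + 2 * δ), (rho R δ x : ℂ) * f x := by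
    refine setIntegral_eq_of_subset_of_forall_sdiff_eq_zero measurableSet_Ioi
      (fun x hx => lt_trans hR hx.1) fun x hx => ?_
    have hx2 : x ∉ Ioc R (R + 2 * δ) := hx.2
    have : rho R δ x = 0 := by
      by_cases h : x ≤ R
      · exact rho_left h
      · push Not at h
        have : R + 2 * δ < x := by
          by_contra h'
          exact hx2 ⟨h, not_lt.1 h'⟩
        exact rho_right this.le
    rw [this, Complex.ofReal_zero, zero_mul]
  rw [h4, ← integral_const_mul]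
  refine setIntegral_congr_fun measurableSet_Ioc fun x hx => ?_
  -- the inner integral over `u`
  have h5 : ∀ u : ℝ, (Ioc (R + u) (R + u + δ)).indicator f x = (Ico (x - R - δ) (x - R)).indicator (fun _ => f x) u := by
    intro u
    by_cases h : x ∈ Ioc (R + u) (R + u + δ)
    · rw [indicator_of_mem h, indicator_of_mem]
      exact ⟨by linarith [h.2], by linarith [h.1]⟩
    · rw [indicator_of_notMem h, indicator_of_notMem]
      intro h'
      exact h ⟨by linarith [h'.2], by linarith [h'.1]⟩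
  simp_rw [h5]
  rw [setIntegral_indicator measurableSet_Ico, setIntegral_const, Complex.real_smul]
  have h6 : volume.real (Ioc 0 δ ∩ Ico (x - R - δ) (x - R)) = δ - |x - (R + δ)| := by
    rcases le_or_gt (x - R) δ with h | h
    · have e : Ioc 0 δ ∩ Ico (x - R - δ) (x - R) = Ioo 0 (x - R) := by
        ext u
        simp only [mem_inter_iff, mem_Ioc, mem_Ico, mem_Ioo]
        constructor
        · rintro ⟨⟨h1, _⟩, _, h4⟩; exact ⟨h1, h4⟩
        · rintro ⟨h1, h2⟩; exact ⟨⟨h1, by linarith⟩, by linarith, h2⟩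
      rw [e, Real.volume_real_Ioo_of_le (by linarith [hx.1]), abs_of_nonpos (by linarith)]
      ring
    · have e : Ioc 0 δ ∩ Ico (x - R - δ) (x - R) = Icc (x - R - δ) δ := by
        ext u
        simp only [mem_inter_iff, mem_Ioc, mem_Ico, mem_Icc]
        constructor
        · rintro ⟨⟨_, h2⟩, h3, _⟩; exact ⟨h3, h2⟩
        · rintro ⟨h1, h2⟩; exact ⟨⟨by linarith, h2⟩, h1, by linarith⟩
      rw [e, Real.volume_real_Icc_of_le (by linarith [hx.2]), abs_of_nonneg (by linarith)]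
      ring
  have h7 : max 0 (δ - |x - (R + δ)|) = δ - |x - (R + δ)| := by
    apply max_eq_right
    rw [sub_nonneg, abs_le]
    exact ⟨by linarith [hx.1], by linarith [hx.2]⟩
  rw [h6]
  unfold rho
  rw [h7]
  push_cast
  ring

lemma cpow_intervalIntegrable {R δ : ℝ} (hR : 0 < R) (hδ : 0 < δ) (z : ℂ) :
    IntervalIntegrable (fun x : ℝ => (x : ℂ) ^ z) volume R (R + 2 * δ) := by
  apply ContinuousOn.intervalIntegrable
  rw [uIcc_of_le (by linarith)]
  intro x hx
  have hx0 : 0 < x := by linarith [hx.1]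
  exact (Complex.continuousAt_ofReal_cpow_const x z (Or.inr hx0.ne')).continuousWithinAt

lemma KA_eq {R δ : ℝ} (hR : 0 < R) (hδ : 0 < δ) (z : ℂ) :
    KA R δ z = ((1 / δ ^ 2 : ℝ) : ℂ) *
      (∫ u in (0:ℝ)..δ, ∫ v in (0:ℝ)..δ, ((R + u + v : ℝ) : ℂ) ^ (-z)) := by
  rw [av_eq (f := fun x => (x : ℂ) ^ (-z)) hR hδ (cpow_intervalIntegrable hR hδ (-z))]
  unfold KA mellin
  refine setIntegral_congr_fun measurableSet_Ioi fun x hx => ?_
  simp only [smul_eq_mul]
  rw [mul_comm]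
  congr 2
  ring

lemma KA_sup {R δ : ℝ} (hR : 0 < R) (hδ : 0 < δ) {z : ℂ} {M : ℝ}
    (hM : ∀ x ∈ Icc R (R + 2 * δ), x ^ (-z.re) ≤ M) : ‖KA R δ z‖ ≤ M := by
  rw [KA_eq hR hδ, norm_mul, Complex.norm_real, Real.norm_of_nonneg (by positivity)]
  have h1 : ‖∫ u in (0:ℝ)..δ, ∫ v in (0:ℝ)..δ, ((R + u + v : ℝ) : ℂ) ^ (-z)‖ ≤ (M * |δ - 0|) * |δ - 0| := by
    refine intervalIntegral.norm_integral_le_of_norm_le_const fun u hu => ?_
    rw [uIoc_of_le hδ.le] at hu
    refine intervalIntegral.norm_integral_le_of_norm_le_const fun v hv => ?_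
    rw [uIoc_of_le hδ.le] at hv
    have hx : 0 < R + u + v := by linarith [hu.1, hv.1]
    rw [Complex.norm_cpow_eq_rpow_re_of_pos hx, Complex.neg_re]
    exact hM _ ⟨by linarith [hu.1, hv.1], by linarith [hu.2, hv.2]⟩
  rw [sub_zero, abs_of_pos hδ] at h1
  calc 1 / δ ^ 2 * _ ≤ 1 / δ ^ 2 * (M * δ * δ) := by gcongr
    _ = M := by field_simp

lemma KA_closed {R δ : ℝ} (hR : 0 < R) (hδ : 0 < δ) {z : ℂ} (h1 : 1 - z ≠ 0) (h2 : 2 - z ≠ 0) :
    KA R δ z = ((1 / δ ^ 2 : ℝ) : ℂ) *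
      ((((R + 2 * δ : ℝ) : ℂ) ^ (2 - z) - 2 * ((R + δ : ℝ) : ℂ) ^ (2 - z) + (R : ℂ) ^ (2 - z)) /
        ((1 - z) * (2 - z))) := by
  rw [KA_eq hR hδ]
  congr 1
  have e1 : ∀ u ∈ uIcc 0 δ, ∫ v in (0:ℝ)..δ, ((R + u + v : ℝ) : ℂ) ^ (-z) =
      (((R + δ + u : ℝ) : ℂ) ^ (1 - z) - ((R + u : ℝ) : ℂ) ^ (1 - z)) / (1 - z) := by
    intro u hu
    rw [uIcc_of_le hδ.le] at hu
    rw [intervalIntegral.integral_comp_add_left (f := fun x : ℝ => (x : ℂ) ^ (-z)) (a := 0) (b := δ)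
      (d := R + u), add_zero, integral_cpow]
    · have e : -z + 1 = 1 - z := by ring
      rw [e, show R + u + δ = R + δ + u by ring]
    · right
      constructor
      · intro h
        apply h1
        linear_combination h
      · rw [uIcc_of_le (by linarith)]
        intro h
        linarith [h.1, hu.1]
  rw [intervalIntegral.integral_congr e1, intervalIntegral.integral_div]
  have hii : ∀ a : ℝ, 0 < a → IntervalIntegrable (fun u : ℝ => ((a + u : ℝ) : ℂ) ^ (1 - z)) volume 0 δ := by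
    intro a ha
    apply ContinuousOn.intervalIntegrable
    rw [uIcc_of_le hδ.le]
    intro u hu
    have hx0 : 0 < a + u := by linarith [hu.1]
    have := (Complex.continuousAt_ofReal_cpow_const (a + u) (1 - z) (Or.inr hx0.ne'))
    exact (ContinuousAt.comp (f := fun u : ℝ => a + u) this (by fun_prop)).continuousWithinAt
  have e2 : ∀ a : ℝ, 0 < a → ∫ u in (0:ℝ)..δ, ((a + u : ℝ) : ℂ) ^ (1 - z) =
      (((a + δ : ℝ) : ℂ) ^ (2 - z) - ((a : ℝ) : ℂ) ^ (2 - z)) / (2 - z) := by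
    intro a ha
    rw [intervalIntegral.integral_comp_add_left (f := fun x : ℝ => (x : ℂ) ^ (1 - z)) (a := 0) (b := δ)
      (d := a), add_zero, integral_cpow]
    · have e : 1 - z + 1 = 2 - z := by ring
      rw [e]
    · right
      constructor
      · intro h
        apply h2
        linear_combination h
      · rw [uIcc_of_le (by linarith)]
        intro h
        linarith [h.1]
  rw [intervalIntegral.integral_sub (hii _ (by linarith)) (hii _ hR), e2 _ (by linarith), e2 _ hR]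
  rw [show R + δ + δ = R + 2 * δ by ring]
  field_simp
  ring

lemma KA_decay {R δ : ℝ} (hR : 0 < R) (hδ : 0 < δ) {z : ℂ} (hz : 1 ≤ |z.im|) {M : ℝ}
    (hM : ∀ x ∈ Icc R (R + 2 * δ), x ^ (2 - z.re) ≤ M) :
    ‖KA R δ z‖ ≤ 16 * M / (δ ^ 2 * (1 + |z.im|) ^ 2) := by
  have hz0 : 0 < |z.im| := by linarith
  have n1 : |z.im| ≤ ‖1 - z‖ := by
    have := Complex.abs_im_le_norm (1 - z)
    simpa using this
  have n2 : |z.im| ≤ ‖2 - z‖ := by
    have := Complex.abs_im_le_norm (2 - z)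
    simpa using this
  have h1 : 1 - z ≠ 0 := norm_pos_iff.1 (by linarith)
  have h2 : 2 - z ≠ 0 := norm_pos_iff.1 (by linarith)
  have hM0 : 0 < M := lt_of_lt_of_le (Real.rpow_pos_of_pos hR _) (hM R ⟨le_rfl, by linarith⟩)
  rw [KA_closed hR hδ h1 h2, norm_mul, Complex.norm_real, Real.norm_of_nonneg (by positivity),
    norm_div, norm_mul]
  have hx : ∀ x ∈ Icc R (R + 2 * δ), ‖((x : ℝ) : ℂ) ^ (2 - z)‖ ≤ M := by
    intro x hx
    rw [Complex.norm_cpow_eq_rpow_re_of_pos (by linarith [hx.1])]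
    simpa using hM x hx
  have n3 : ‖((R + 2 * δ : ℝ) : ℂ) ^ (2 - z) - 2 * ((R + δ : ℝ) : ℂ) ^ (2 - z) + (R : ℂ) ^ (2 - z)‖ ≤ 4 * M := by
    refine (norm_add_le _ _).trans ?_
    have a1 := norm_sub_le (((R + 2 * δ : ℝ) : ℂ) ^ (2 - z)) (2 * ((R + δ : ℝ) : ℂ) ^ (2 - z))
    have a2 := hx (R + 2 * δ) ⟨by linarith, le_rfl⟩
    have a3 := hx (R + δ) ⟨by linarith, by linarith⟩
    have a4 := hx R ⟨le_rfl, by linarith⟩
    have a5 : ‖2 * ((R + δ : ℝ) : ℂ) ^ (2 - z)‖ = 2 * ‖((R + δ : ℝ) : ℂ) ^ (2 - z)‖ := by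
      rw [norm_mul]; norm_num
    linarith
  have n4 : (1 + |z.im|) ^ 2 / 4 ≤ ‖1 - z‖ * ‖2 - z‖ := by
    have : (1 + |z.im|) / 2 ≤ |z.im| := by linarith
    calc (1 + |z.im|) ^ 2 / 4 = ((1 + |z.im|) / 2) * ((1 + |z.im|) / 2) := by ring
      _ ≤ ‖1 - z‖ * ‖2 - z‖ := by
        apply mul_le_mul (this.trans n1) (this.trans n2) (by positivity) (norm_nonneg _)
  calc 1 / δ ^ 2 * (_ / (‖1 - z‖ * ‖2 - z‖)) ≤ 1 / δ ^ 2 * (4 * M / ((1 + |z.im|) ^ 2 / 4)) := by
        gcongr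
    _ = _ := by field_simp; ring

theorem KA_bound {R δ : ℝ} (hR : 0 < R) (hδ : 0 < δ) : ∃ B : ℝ, 0 < B ∧
    ∀ z : ℂ, |z.re| ≤ 4 → ‖KA R δ z‖ ≤ B / (1 + |z.im|) ^ 2 := by
  set M : ℝ := R ^ (-(6:ℝ)) + (R + 2 * δ) ^ (6 : ℝ) + 1 with hM
  have hRp : 0 < R ^ (-(6:ℝ)) := Real.rpow_pos_of_pos hR _
  have hRq : 0 < (R + 2 * δ) ^ (6 : ℝ) := Real.rpow_pos_of_pos (by linarith) _
  have hM0 : 0 < M := by positivity
  have key : ∀ a : ℝ, |a| ≤ 6 → ∀ x ∈ Icc R (R + 2 * δ), x ^ a ≤ M := by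
    intro a ha x hx
    have hx0 : 0 < x := by linarith [hx.1]
    rw [abs_le] at ha
    rcases le_or_gt 1 x with h | h
    · calc x ^ a ≤ x ^ (6 : ℝ) := Real.rpow_le_rpow_of_exponent_le h ha.2
        _ ≤ (R + 2 * δ) ^ (6 : ℝ) := Real.rpow_le_rpow hx0.le hx.2 (by norm_num)
        _ ≤ M := by rw [hM]; linarith
    · calc x ^ a ≤ x ^ (-(6 : ℝ)) := Real.rpow_le_rpow_of_exponent_ge hx0 h.le ha.1
        _ ≤ R ^ (-(6 : ℝ)) := Real.rpow_le_rpow_of_nonpos hR hx.1 (by norm_num)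
        _ ≤ M := by rw [hM]; linarith
  refine ⟨4 * M + 16 * M / δ ^ 2, by positivity, fun z hz => ?_⟩
  rw [abs_le] at hz
  rcases le_or_gt 1 |z.im| with h | h
  · have h1 := KA_decay hR hδ h (key (2 - z.re) (by rw [abs_le]; constructor <;> linarith))
    refine h1.trans ?_
    rw [← div_div]
    gcongr
    linarith
  · have h1 := KA_sup hR hδ (key (-z.re) (by rw [abs_neg, abs_le]; constructor <;> linarith))
    refine h1.trans ?_
    rw [le_div_iff₀ (by positivity)]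
    have h2 : (1 + |z.im|) ^ 2 ≤ 4 := by nlinarith [abs_nonneg z.im]
    have h3 : 0 < 16 * M / δ ^ 2 := by positivity
    nlinarith

theorem KA_one_line {R δ : ℝ} (hR : 1 ≤ R) (hδ : 0 < δ) (hδ2 : δ ≤ 1 / 2) (τ : ℝ) :
    ‖KA R δ (1 + τ * Complex.I)‖ ≤ 1 / R ∧
      ‖KA R δ (1 + τ * Complex.I)‖ ≤ 64 * R / (δ ^ 2 * (1 + |τ|) ^ 2) := by
  have hR0 : 0 < R := by linarith
  have hre : (1 + (τ : ℂ) * Complex.I).re = 1 := by simp
  have him : (1 + (τ : ℂ) * Complex.I).im = τ := by simp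
  have h1 : ‖KA R δ (1 + τ * Complex.I)‖ ≤ 1 / R := by
    apply KA_sup hR0 hδ
    intro x hx
    rw [hre, Real.rpow_neg_one, one_div]
    exact inv_anti₀ hR0 hx.1
  refine ⟨h1, ?_⟩
  rcases le_or_gt 1 |τ| with h | h
  · have h2 := KA_decay (R := R) (δ := δ) (z := 1 + τ * Complex.I) (M := 2 * R) hR0 hδ (by rw [him]; exact h) (by
      intro x hx
      rw [hre, show (2 : ℝ) - 1 = 1 by norm_num, Real.rpow_one]
      linarith [hx.2])
    rw [him] at h2
    refine h2.trans (div_le_div_of_nonneg_right (by linarith) (by positivity))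
  · refine h1.trans ?_
    rw [div_le_div_iff₀ hR0 (by positivity)]
    have h2 : (1 + |τ|) ^ 2 ≤ 4 := by nlinarith [abs_nonneg τ]
    have h3 : δ ^ 2 ≤ 1 / 4 := by nlinarith
    have h4 : δ ^ 2 * (1 + |τ|) ^ 2 ≤ 1 / 4 * 4 := by gcongr
    nlinarith

lemma continuous_KA_line {R : ℝ} (hR : 0 < R) (δ c : ℝ) :
    Continuous fun τ : ℝ => KA R δ (c + τ * Complex.I) :=
  (differentiable_KA' hR).continuous.comp (by fun_prop)

lemma integrable_KA_line {R δ : ℝ} (hR : 0 < R) (hδ : 0 < δ) {c : ℝ} (hc : |c| ≤ 4) :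
    Integrable fun τ : ℝ => KA R δ (c + τ * Complex.I) := by
  obtain ⟨B, hB, h⟩ := KA_bound hR hδ
  have h1 : Integrable fun τ : ℝ => B * (1 + ‖τ‖) ^ (-(2:ℝ)) :=
    (integrable_one_add_norm (by simp)).const_mul B
  refine h1.mono' (continuous_KA_line hR δ c).aestronglyMeasurable (Filter.Eventually.of_forall fun τ => ?_)
  have h2 := h (c + τ * Complex.I) (by simpa using hc)
  have him : ((c : ℂ) + (τ : ℂ) * Complex.I).im = τ := by simp
  rw [him] at h2
  refine h2.trans (le_of_eq ?_)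
  rw [Real.rpow_neg (by positivity), div_eq_mul_inv, Real.norm_eq_abs]
  norm_cast

/-- Mellin inversion for the density -/
lemma rho_inversion {R δ : ℝ} (hR : 0 < R) (hδ : 0 < δ) {c : ℝ} (hc : |c| ≤ 4) {x : ℝ} (hx : 0 < x) :
    ∫ τ : ℝ, (x : ℂ) ^ ((c : ℂ) + τ * Complex.I - 1) * KA R δ (c + τ * Complex.I) =
      2 * Real.pi * (rho R δ x : ℂ) := by
  have hpi := Real.pi_pos
  have hvi : Complex.VerticalIntegrable (mellin (fun x => (rho R δ x : ℂ))) (1 - c) := by
    have h1 := (integrable_KA_line hR hδ hc).comp_neg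
    refine h1.congr (Filter.Eventually.of_forall fun y => ?_)
    simp only [KA]
    congr 1
    push_cast; ring
  have h1 := mellinInv_mellin_eq (1 - c) (fun x => (rho R δ x : ℂ)) hx (rho_mellinConvergent hR δ _) hvi
    (continuous_rhoC R δ).continuousAt
  unfold mellinInv at h1
  have h2 : ∫ τ : ℝ, (x : ℂ) ^ ((c : ℂ) + τ * Complex.I - 1) * KA R δ (c + τ * Complex.I) =
      ∫ y : ℝ, (x : ℂ) ^ (-(((1 - c : ℝ) : ℂ) + y * Complex.I)) •
        mellin (fun x => (rho R δ x : ℂ)) (((1 - c : ℝ) : ℂ) + y * Complex.I) := by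
    rw [← integral_neg_eq_self]
    refine integral_congr_ae (Filter.Eventually.of_forall fun y => ?_)
    simp only [KA, smul_eq_mul]
    congr 2
    · push_cast; ring
    · push_cast; ring
  rw [h2]
  rw [Complex.real_smul] at h1
  have h3 : (2 * (Real.pi : ℂ)) * ((1 / (2 * Real.pi) : ℝ) : ℂ) = 1 := by
    have : (Real.pi : ℂ) ≠ 0 := by exact_mod_cast hpi.ne'
    push_cast
    field_simp
  rw [← h1, ← mul_assoc, h3, one_mul]

theorem parseval {R δ : ℝ} (hR : 0 < R) (hδ : 0 < δ) {c : ℝ} (hc : |c| ≤ 4) {g : ℝ → ℂ}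
    (hg : MellinConvergent g (c : ℂ)) :
    ∫ τ : ℝ, mellin g (c + τ * Complex.I) * KA R δ (c + τ * Complex.I) =
      2 * Real.pi * ∫ x in Ioi (0:ℝ), (rho R δ x : ℂ) * g x := by
  have hK := integrable_KA_line hR hδ hc
  -- joint integrability
  have hJ0 : Integrable (fun p : ℝ × ℝ => KA R δ (c + p.1 * Complex.I) * ((p.2 : ℂ) ^ ((c : ℂ) - 1) • g p.2))
      ((volume : Measure ℝ).prod (volume.restrict (Ioi 0))) :=
    Integrable.mul_prod hK hg
  have hmeas : Measurable fun p : ℝ × ℝ => (p.2 : ℂ) ^ ((p.1 : ℂ) * Complex.I) := by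
    have h1 : Measurable fun p : ℝ × ℝ => (p.2 : ℂ) := by fun_prop
    have h2 : Measurable fun p : ℝ × ℝ => (p.1 : ℂ) * Complex.I := by fun_prop
    exact h1.pow h2
  have hbd : ∀ᵐ p : ℝ × ℝ ∂((volume : Measure ℝ).prod (volume.restrict (Ioi 0))),
      ‖(p.2 : ℂ) ^ ((p.1 : ℂ) * Complex.I)‖ ≤ 1 := by
    have h1 : ∀ᵐ p : ℝ × ℝ ∂((volume : Measure ℝ).prod (volume.restrict (Ioi (0:ℝ)))), p.2 ∈ Ioi (0:ℝ) := by
      have : (volume : Measure ℝ).prod (volume.restrict (Ioi (0:ℝ))) =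
          ((volume : Measure ℝ).prod volume).restrict (univ ×ˢ Ioi 0) := by
        rw [← Measure.prod_restrict, Measure.restrict_univ]
      rw [this]
      have h3 := ae_restrict_mem (μ := (volume : Measure ℝ).prod volume)
        (MeasurableSet.univ.prod (measurableSet_Ioi (a := (0:ℝ))))
      filter_upwards [h3] with p hp
      exact hp.2
    filter_upwards [h1] with p hp
    rw [Complex.norm_cpow_eq_rpow_re_of_pos hp]
    simp
  have hJ := hJ0.bdd_mul hmeas.aestronglyMeasurable hbd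
  have hJ' : Integrable (Function.uncurry fun (τ x : ℝ) => (x : ℂ) ^ ((τ : ℂ) * Complex.I) *
      (KA R δ (c + τ * Complex.I) * ((x : ℂ) ^ ((c : ℂ) - 1) • g x)))
      ((volume : Measure ℝ).prod (volume.restrict (Ioi 0))) := hJ
  have h1 : ∀ τ : ℝ, mellin g (c + τ * Complex.I) * KA R δ (c + τ * Complex.I) =
      ∫ x in Ioi (0:ℝ), (x : ℂ) ^ ((τ : ℂ) * Complex.I) *
        (KA R δ (c + τ * Complex.I) * ((x : ℂ) ^ ((c : ℂ) - 1) • g x)) := by
    intro τ
    rw [mellin, ← integral_mul_const]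
    refine setIntegral_congr_fun measurableSet_Ioi fun x hx => ?_
    have hx0 : (x : ℂ) ≠ 0 := Complex.ofReal_ne_zero.2 (ne_of_gt hx)
    simp only [smul_eq_mul]
    rw [show (c : ℂ) + τ * Complex.I - 1 = τ * Complex.I + (c - 1) by ring, Complex.cpow_add _ _ hx0]
    ring
  simp_rw [h1]
  rw [integral_integral_swap hJ', ← integral_const_mul]
  refine setIntegral_congr_fun measurableSet_Ioi fun x hx => ?_
  have hx0 : (x : ℂ) ≠ 0 := Complex.ofReal_ne_zero.2 (ne_of_gt hx)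
  have h2 := rho_inversion hR hδ hc hx
  rw [← mul_assoc, ← h2, ← integral_mul_const]
  refine integral_congr_ae (Filter.Eventually.of_forall fun τ => ?_)
  simp only [smul_eq_mul]
  rw [show (c : ℂ) + τ * Complex.I - 1 = τ * Complex.I + (c - 1) by ring, Complex.cpow_add _ _ hx0]
  ring

end

end Pool.Agent.H387R2.Vor
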