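import Pool.Agent.H387R2.VorH
import Pool.Agent.H387R2.VorDefs

set_option autoImplicit false

open Filter Topology MeasureTheory Set

namespace Pool.Agent.H387R2.Vor

noncomputable section

/-- the triangular density on `[R, R + 2 δ]`, the density of `R + u + v` for `u, v` uniform in `[0, δ]` -/
def rho (R δ x : ℝ) : ℝ := max 0 (δ - |x - (R + δ)|) / δ ^ 2

/-- the average of `Z ^ (-z)` over `Z = R + u + v` -/
def KA (R δ : ℝ) (z : ℂ) : ℂ := mellin (fun x => (rho R δ x : ℂ)) (1 - z)

end

end Pool.Agent.H387R2.Vor
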