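import Pool.Agent.H387R2.VorS
import Pool.Agent.H387R2.VorD

set_option autoImplicit false

open Filter Topology MeasureTheory Set

namespace Pool.Agent.H387R2.Vor

noncomputable section

lemma LSeriesHasSum_dv {s : ℂ} (hs : 1 < s.re) :
    LSeriesHasSum (fun n => (dv n : ℂ)) s (riemannZeta s ^ 2) := by
  have h1 : LSeriesHasSum (fun n => ((ArithmeticFunction.zeta n : ℕ) : ℂ)) s (riemannZeta s) := by
    have := (ArithmeticFunction.LSeriesSummable_zeta_iff.mpr hs).LSeriesHasSum
    rwa [ArithmeticFunction.LSeries_zeta_eq_riemannZeta hs] at this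
  have h2 := LSeriesHasSum.convolution h1 h1
  rw [← sq] at h2
  refine (LSeriesHasSum_congr s _ (fun {n} hn => ?_)).1 h2
  rw [LSeries.convolution_def]
  beta_reduce
  have h3 : ∀ p ∈ n.divisorsAntidiagonal, ((ArithmeticFunction.zeta p.1 : ℕ) : ℂ) *
      ((ArithmeticFunction.zeta p.2 : ℕ) : ℂ) = 1 := by
    intro p hp
    have := Nat.ne_zero_of_mem_divisorsAntidiagonal hp
    rw [ArithmeticFunction.zeta_apply_ne this.1, ArithmeticFunction.zeta_apply_ne this.2]
    simp
  rw [Finset.sum_congr rfl h3, Nat.sum_divisorsAntidiagonal (f := fun _ _ => (1:ℂ))]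
  unfold dv
  simp

lemma dv_zero : dv 0 = 0 := by simp [dv]

lemma dv_nonneg' (n : ℕ) : 0 ≤ dv n := VorD.dv_nonneg n

lemma hasSum_dv {s : ℂ} (hs : 1 < s.re) :
    HasSum (fun m : ℕ => (dv m : ℂ) * (m : ℂ) ^ (-s)) (riemannZeta s ^ 2) := by
  have h := LSeriesHasSum_dv hs
  unfold LSeriesHasSum at h
  have e : (fun m : ℕ => (dv m : ℂ) * (m : ℂ) ^ (-s)) = LSeries.term (fun n => (dv n : ℂ)) s := by
    funext m
    rcases eq_or_ne m 0 with rfl | hm
    · simp [dv_zero]
    · rw [LSeries.term_of_ne_zero hm, Complex.cpow_neg, div_eq_mul_inv]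
  rw [e]
  exact h

lemma summable_dv : Summable (fun m : ℕ => dv m * (m : ℝ) ^ (-(5 / 4) : ℝ)) := by
  have h := (hasSum_dv (s := (5 / 4 : ℂ)) (by norm_num)).summable.norm
  refine h.congr fun m => ?_
  rcases eq_or_ne m 0 with rfl | hm
  · simp [dv_zero]
  · rw [norm_mul, Complex.norm_real, Real.norm_of_nonneg (dv_nonneg' m)]
    have hm0 : (0:ℝ) < m := by exact_mod_cast Nat.pos_of_ne_zero hm
    have e : ((m : ℕ) : ℂ) = ((m : ℝ) : ℂ) := by norm_cast
    rw [e, Complex.norm_cpow_eq_rpow_re_of_pos hm0]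
    norm_num

/-- indicator of `y > 1` -/
def ph (y : ℝ) : ℂ := (Ioi (1:ℝ)).indicator (fun _ => 1) y

lemma ph_of_gt {y : ℝ} (hy : 1 < y) : ph y = 1 := by
  unfold ph; rw [indicator_of_mem]; exact hy

lemma ph_of_le {y : ℝ} (hy : y ≤ 1) : ph y = 0 := by
  unfold ph; rw [indicator_of_notMem]; exact not_lt.2 hy

lemma ph_meas : Measurable ph := by
  unfold ph
  exact measurable_const.indicator measurableSet_Ioi

lemma ph_norm_le (y : ℝ) : ‖ph y‖ ≤ 1 := by
  rcases le_or_gt y 1 with h | h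
  · rw [ph_of_le h, norm_zero]; exact zero_le_one
  · rw [ph_of_gt h, norm_one]

lemma ph_bot (a : ℝ) : ph =O[𝓝[>] 0] (fun y : ℝ => y ^ a) := by
  have : ph =ᶠ[𝓝[>] 0] fun _ => 0 := by
    filter_upwards [mem_nhdsWithin_of_mem_nhds (Iio_mem_nhds (show (0:ℝ) < 1 by norm_num))] with x hx
    exact ph_of_le (le_of_lt hx)
  exact this.trans_isBigO (Asymptotics.isBigO_zero _ _)

lemma ph_top : ph =O[atTop] (fun y : ℝ => y ^ (-(0:ℝ))) := by
  refine Asymptotics.IsBigO.of_bound 1 (Eventually.of_forall fun t => ?_)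
  simp only [neg_zero, Real.rpow_zero, norm_one, mul_one]
  exact ph_norm_le t

lemma ph_locInt : LocallyIntegrableOn ph (Ioi 0) := by
  refine LocallyIntegrable.locallyIntegrableOn ?_ _
  refine LocallyIntegrable.mono (locallyIntegrable_const (1:ℝ)) ph_meas.aestronglyMeasurable ?_
  refine Eventually.of_forall fun t => ?_
  rw [norm_one]
  exact ph_norm_le t

lemma mellin_ph_eq (f : ℝ → ℂ) (u : ℂ) :
    mellin (fun y => ph y * f y) u = ∫ y in Ioi (1:ℝ), (y : ℂ) ^ (u - 1) * f y := by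
  unfold mellin
  rw [setIntegral_eq_of_subset_of_forall_sdiff_eq_zero measurableSet_Ioi
    (Ioi_subset_Ioi (show (0:ℝ) ≤ 1 by norm_num))]
  · refine setIntegral_congr_fun measurableSet_Ioi fun y hy => ?_
    have hy' : 1 < y := hy
    simp only [ph_of_gt hy', one_mul, smul_eq_mul]
  · intro y hy
    have : y ≤ 1 := not_lt.1 hy.2
    beta_reduce
    rw [ph_of_le this, zero_mul, smul_zero]

lemma ph_conv {f : ℝ → ℂ} {u : ℂ} (h : IntegrableOn (fun y : ℝ => (y : ℂ) ^ (u - 1) * f y) (Ioi 1)) :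
    MellinConvergent (fun y => ph y * f y) u := by
  unfold MellinConvergent
  have h1 : IntegrableOn (fun y : ℝ => (y : ℂ) ^ (u - 1) • (ph y * f y)) (Ioi 1) := by
    refine h.congr_fun (fun y hy => ?_) measurableSet_Ioi
    have hy' : 1 < y := hy
    simp only [ph_of_gt hy', one_mul, smul_eq_mul]
  refine h1.of_forall_sdiff_eq_zero measurableSet_Ioi fun y hy => ?_
  have : y ≤ 1 := not_lt.1 hy.2
  rw [ph_of_le this, zero_mul, smul_zero]

lemma hasMellin_ph {u : ℂ} (hu : u.re < 0) : HasMellin ph u (-1 / u) := by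
  have h0 : u ≠ 0 := by rintro rfl; simp at hu
  have hre : (u - 1).re < -1 := by rw [Complex.sub_re, Complex.one_re]; linarith
  have e : ph = fun y => ph y * (fun _ => (1:ℂ)) y := by funext y; simp
  constructor
  · rw [e]
    apply ph_conv
    simp only [mul_one]
    exact integrableOn_Ioi_cpow_of_lt hre one_pos
  · rw [e, mellin_ph_eq]
    simp only [mul_one]
    rw [integral_Ioi_cpow_of_lt hre one_pos, sub_add_cancel, Complex.ofReal_one, Complex.one_cpow]

lemma hasMellin_log_ph {u : ℂ} (hu : u.re < 0) :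
    HasMellin (fun t : ℝ => Real.log t • ph t) u (1 / u ^ 2) := by
  have h0 : u ≠ 0 := by rintro rfl; simp at hu
  obtain ⟨h1, h2⟩ := mellin_hasDerivAt_of_isBigO_rpow (a := 0) (b := u.re - 1) (s := u) ph_locInt ph_top hu
    (ph_bot _) (by linarith)
  refine ⟨h1, ?_⟩
  have h3 : HasDerivAt (fun v : ℂ => -1 / v) (1 / u ^ 2) u := by
    have := (hasDerivAt_inv h0).neg
    refine (this.congr_deriv ?_).congr_of_eventuallyEq ?_
    · simp
    · exact Eventually.of_forall fun v => by simp [neg_div]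
  have h4 : mellin ph =ᶠ[𝓝 u] fun v : ℂ => -1 / v := by
    have : {v : ℂ | v.re < 0} ∈ 𝓝 u := (isOpen_lt Complex.continuous_re continuous_const).mem_nhds hu
    filter_upwards [this] with v hv
    exact (hasMellin_ph hv).2
  exact h2.unique (h3.congr_of_eventuallyEq h4)

/-- indicator of `0 < y ≤ 1` -/
def pL (y : ℝ) : ℂ := (Ioc (0:ℝ) 1).indicator (fun _ => 1) y

lemma pL_of_gt {y : ℝ} (hy : 1 < y) : pL y = 0 := by
  unfold pL; rw [indicator_of_notMem]; exact fun h => not_lt.2 h.2 hy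

lemma pL_norm_le (y : ℝ) : ‖pL y‖ ≤ 1 := by
  unfold pL
  by_cases h : y ∈ Ioc (0:ℝ) 1
  · rw [indicator_of_mem h, norm_one]
  · rw [indicator_of_notMem h, norm_zero]; exact zero_le_one

lemma hasMellin_pL {u : ℂ} (hu : 0 < u.re) : HasMellin pL u (1 / u) := hasMellin_one_Ioc hu

lemma hasMellin_log_pL {u : ℂ} (hu : 0 < u.re) :
    HasMellin (fun t : ℝ => Real.log t • pL t) u (-1 / u ^ 2) := by
  have h0 : u ≠ 0 := by rintro rfl; simp at hu
  obtain ⟨h1, h2⟩ := mellin_hasDerivAt_of_isBigO_rpow (a := u.re + 1) (b := 0) (s := u) (f := pL) (by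
      refine LocallyIntegrable.locallyIntegrableOn ?_ _
      refine LocallyIntegrable.mono (locallyIntegrable_const (1:ℝ)) ?_ ?_
      · exact (measurable_const.indicator measurableSet_Ioc).aestronglyMeasurable
      · refine Eventually.of_forall fun t => ?_
        rw [norm_one]
        exact pL_norm_le t) (by
      have : pL =ᶠ[atTop] fun _ => 0 := by
        filter_upwards [eventually_gt_atTop 1] with x hx
        exact pL_of_gt hx
      exact this.trans_isBigO (Asymptotics.isBigO_zero _ _)) (by linarith) (by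
      refine Asymptotics.IsBigO.of_bound 1 (Eventually.of_forall fun t => ?_)
      simp only [neg_zero, Real.rpow_zero, norm_one, mul_one]
      exact pL_norm_le t) hu
  refine ⟨h1, ?_⟩
  have h3 : HasDerivAt (fun v : ℂ => 1 / v) (-1 / u ^ 2) u := by
    have := (hasDerivAt_inv h0)
    refine (this.congr_deriv ?_).congr_of_eventuallyEq ?_
    · simp [neg_div]
    · exact Eventually.of_forall fun v => by simp
  have h4 : mellin pL =ᶠ[𝓝 u] fun v : ℂ => 1 / v := by
    have : {v : ℂ | 0 < v.re} ∈ 𝓝 u := (isOpen_lt continuous_const Complex.continuous_re).mem_nhds hu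
    filter_upwards [this] with v hv
    exact (hasMellin_pL hv).2
  exact h2.unique (h3.congr_of_eventuallyEq h4)

lemma Dsum_meas : Measurable Dsum := VorD.Dsum_mono.measurable

lemma hasMellin_D {s : ℂ} (hs : 3 / 2 < s.re) :
    HasMellin (fun y : ℝ => ph y * (Dsum y : ℂ)) (-s) (riemannZeta s ^ 2 / s) := by
  have h0 : s ≠ 0 := by rintro rfl; norm_num at hs
  constructor
  · apply ph_conv
    have h1 : IntegrableOn (fun y : ℝ => 6 * y ^ (-s.re - 1 + 3 / 2)) (Ioi 1) :=
      (integrableOn_Ioi_rpow_of_lt (by linarith) one_pos).const_mul 6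
    refine h1.mono' ?_ ?_
    · refine (AEStronglyMeasurable.mul ?_ ?_)
      · exact ((Complex.measurable_ofReal).pow_const _).aestronglyMeasurable
      · exact (Complex.measurable_ofReal.comp Dsum_meas).aestronglyMeasurable
    · refine (ae_restrict_iff' measurableSet_Ioi).2 (Eventually.of_forall fun y hy => ?_)
      have hy1 : 1 < y := hy
      have hy0 : 0 < y := by linarith
      rw [norm_mul, Complex.norm_cpow_eq_rpow_re_of_pos hy0, Complex.norm_real,
        Real.norm_of_nonneg (VorD.Dsum_nonneg y), Real.rpow_add hy0]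
      have := VorD.Dsum_le hy1.le
      have e : (-s - 1).re = -s.re - 1 := by simp
      rw [e]
      have h2 : 0 ≤ y ^ (-s.re - 1) := by positivity
      nlinarith
  · rw [mellin_ph_eq]
    have h1 := LSeries_eq_mul_integral_of_nonneg dv (r := 3 / 2) (by norm_num) hs (by
      refine Asymptotics.IsBigO.of_bound 6 ?_
      filter_upwards [eventually_ge_atTop 1] with n hn
      have hn1 : (1:ℝ) ≤ n := by exact_mod_cast hn
      have := VorD.Dsum_le hn1
      unfold Dsum at this
      rw [Nat.floor_natCast] at this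
      rw [Real.norm_of_nonneg (Finset.sum_nonneg fun k _ => dv_nonneg' k), Real.norm_of_nonneg (by positivity)]
      exact this) dv_nonneg'
    rw [(LSeriesHasSum_dv (by linarith)).LSeries_eq] at h1
    rw [h1, mul_div_cancel_left₀ _ h0]
    refine setIntegral_congr_fun measurableSet_Ioi fun y _ => ?_
    beta_reduce
    unfold Dsum
    rw [mul_comm]
    congr 1
    · push_cast; rfl
    · congr 1; ring

/-- Parseval in terms of `s` -/
lemma pars {R δ : ℝ} (hR : 0 < R) (hδ : 0 < δ) {σ : ℝ} (hσ1 : -(7 / 4) ≤ σ) (hσ2 : σ ≤ 9 / 4) (e : ℝ)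
    {h : ℝ → ℂ} (hc : MellinConvergent h (((e - σ : ℝ)) : ℂ)) :
    ∫ t : ℝ, mellin h (e - ((σ : ℂ) + t * Complex.I)) * KA R δ (1 / 2 - 2 * ((σ : ℂ) + t * Complex.I)) =
      2 * Real.pi * ∫ x in Ioi (0:ℝ), (rho R δ x : ℂ) * ((x : ℂ) ^ ((2 * e - 1 / 2 : ℝ) : ℂ) * h (x ^ (2:ℝ))) := by
  set c : ℝ := 1 / 2 - 2 * σ with hcdef
  set g : ℝ → ℂ := fun x => (x : ℂ) ^ ((2 * e - 1 / 2 : ℝ) : ℂ) • h (x ^ (2:ℝ)) with hg
  have hm : ∀ z : ℂ, mellin g z = (1 / 2 : ℂ) * mellin h ((z + ((2 * e - 1 / 2 : ℝ) : ℂ)) / 2) := by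
    intro z
    rw [hg, mellin_cpow_smul, mellin_comp_rpow, abs_two, Complex.real_smul]
    push_cast
    ring_nf
  have hgc : MellinConvergent g (c : ℂ) := by
    rw [hg, MellinConvergent.cpow_smul, MellinConvergent.comp_rpow (by norm_num)]
    convert hc using 1
    rw [hcdef]
    push_cast
    ring
  have hp := parseval hR hδ (c := c) (by rw [hcdef, abs_le]; constructor <;> linarith) hgc
  have hsub := Measure.integral_comp_mul_left
    (fun τ : ℝ => mellin g (c + τ * Complex.I) * KA R δ (c + τ * Complex.I)) (-2)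
  rw [hp] at hsub
  have h1 : ∫ t : ℝ, mellin h (e - ((σ : ℂ) + t * Complex.I)) * KA R δ (1 / 2 - 2 * ((σ : ℂ) + t * Complex.I)) =
      2 * ∫ t : ℝ, mellin g (c + ((-2 * t : ℝ) : ℂ) * Complex.I) * KA R δ (c + ((-2 * t : ℝ) : ℂ) * Complex.I) := by
    rw [← integral_const_mul]
    refine integral_congr_ae (Eventually.of_forall fun t => ?_)
    simp only
    rw [hm]
    have e1 : ((c : ℂ) + ((-2 * t : ℝ) : ℂ) * Complex.I + ((2 * e - 1 / 2 : ℝ) : ℂ)) / 2 =
        e - ((σ : ℂ) + t * Complex.I) := by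
      rw [hcdef]; push_cast; ring
    have e2 : (c : ℂ) + ((-2 * t : ℝ) : ℂ) * Complex.I = 1 / 2 - 2 * ((σ : ℂ) + t * Complex.I) := by
      rw [hcdef]; push_cast; ring
    rw [e1, e2]
    ring
  change _ = 2 * Real.pi * ∫ x in Ioi (0:ℝ), (rho R δ x : ℂ) * g x
  rw [h1, hsub]
  have e3 : |(-2 : ℝ)⁻¹| = 1 / 2 := by norm_num
  rw [e3, Complex.real_smul]
  push_cast
  ring

end

end Pool.Agent.H387R2.Vor
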