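import Pool.Agent.H387R2.VorK
import Pool.Agent.H295R2.P

set_option autoImplicit false

open Filter Topology MeasureTheory Set

namespace Pool.Agent.H387R2.Vor

noncomputable section

/-- the numerator of `LL` -/
def NN (s : ℂ) : ℂ :=
  riemannZeta₁ s ^ 2 - s - (2 * (Real.eulerMascheroniConstant : ℂ) - 1) * (s * (s - 1)) - (s - 1) ^ 2 / 4

/-- the entire function `ζ(s)²/s` minus its polar parts at `0` and `1` -/
def LL (s : ℂ) : ℂ := dslope (dslope (dslope NN 1) 1) 0 s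

lemma NN_diff : Differentiable ℂ NN := by
  have := differentiable_riemannZeta₁
  unfold NN
  fun_prop

lemma dslope_diff {f : ℂ → ℂ} (hf : Differentiable ℂ f) (c : ℂ) : Differentiable ℂ (dslope f c) := by
  rw [← differentiableOn_univ] at hf ⊢
  exact (Complex.differentiableOn_dslope univ_mem).2 hf

lemma LL_diff : Differentiable ℂ LL := dslope_diff (dslope_diff (dslope_diff NN_diff 1) 1) 0

lemma NN_one : NN 1 = 0 := by
  unfold NN
  rw [riemannZeta₁_one]
  ring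

lemma z1_eq {s : ℂ} (hs : s ≠ 1) : riemannZeta₁ s = (s - 1) * riemannZeta s := by
  rw [riemannZeta_eq_inv_sub_mul hs, ← mul_assoc, mul_inv_cancel₀ (sub_ne_zero.mpr hs), one_mul]

lemma NN_zero : NN 0 = 0 := by
  unfold NN
  rw [z1_eq (by norm_num), riemannZeta_zero]
  norm_num

lemma NN_deriv : deriv NN 1 = 0 := by
  have h1 : HasDerivAt riemannZeta₁ (Real.eulerMascheroniConstant : ℂ) 1 := by
    have := (differentiable_riemannZeta₁ 1).hasDerivAt
    rwa [deriv_riemannZeta₁_one] at this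
  have h2 : HasDerivAt NN _ 1 :=
    (((h1.fun_pow 2).sub (hasDerivAt_id (1:ℂ))).sub
      (((hasDerivAt_id (1:ℂ)).fun_mul ((hasDerivAt_id (1:ℂ)).sub_const 1)).const_mul
        (2 * (Real.eulerMascheroniConstant : ℂ) - 1))).sub
      ((((hasDerivAt_id (1:ℂ)).sub_const 1).fun_pow 2).div_const 4)
  rw [h2.deriv, riemannZeta₁_one]
  simp

lemma LL_eq {s : ℂ} (h0 : s ≠ 0) (h1 : s ≠ 1) :
    LL s = riemannZeta s ^ 2 / s - 1 / (s - 1) ^ 2 -
      (2 * (Real.eulerMascheroniConstant : ℂ) - 1) / (s - 1) - 1 / (4 * s) := by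
  have h1' := sub_ne_zero.mpr h1
  have e1 : ∀ z : ℂ, z ≠ 1 → dslope (dslope NN 1) 1 z = NN z / (z - 1) ^ 2 := by
    intro z hz
    have hz' := sub_ne_zero.mpr hz
    rw [dslope_of_ne _ hz, slope_def_field, dslope_same, NN_deriv, dslope_of_ne _ hz, slope_def_field,
      NN_one]
    field_simp
    ring
  unfold LL
  rw [dslope_of_ne _ h0, slope_def_field, e1 s h1, e1 0 (by norm_num), NN_zero]
  unfold NN
  rw [z1_eq h1]
  field_simp
  ring

/-- crude bound of `ζ` in the strip -/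
lemma zeta_crude : ∃ C : ℝ, 0 < C ∧ ∀ s : ℂ, -(1 / 4) ≤ s.re → s.re ≤ 2 → 1 ≤ |s.im| →
    ‖riemannZeta s‖ ≤ C * Real.exp (4 * |s.im|) := by
  have hpi := Real.pi_pos
  have hpi4 := Real.pi_le_four
  -- right part
  have hright : ∀ s : ℂ, 1 / 4 ≤ s.re → s.re ≤ 2 → 1 ≤ |s.im| →
      ‖riemannZeta s‖ ≤ 45 * Real.exp (2 * |s.im|) := by
    intro s h1 h2 h3
    have hs1 : s ≠ 1 := by
      intro h; rw [h] at h3; norm_num at h3
    have h4 := Pool.Agent.H295R2.Zs_norm_le h1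
    rw [← Pool.Agent.H295R2.Zs_eq hs1, norm_mul] at h4
    have h5 : 1 ≤ ‖s - 1‖ := by
      have := Complex.abs_im_le_norm (s - 1)
      rw [Complex.sub_im, Complex.one_im, sub_zero] at this
      linarith
    have h6 : ‖riemannZeta s‖ ≤ 5 * (‖s‖ + 1) ^ 2 := by nlinarith [norm_nonneg (riemannZeta s)]
    have h7 : ‖s‖ ≤ 2 + |s.im| := by
      refine (Complex.norm_le_abs_re_add_abs_im s).trans ?_
      rw [abs_of_nonneg (by linarith : (0:ℝ) ≤ s.re)]
      linarith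
    have h8 : ‖s‖ + 1 ≤ 3 * Real.exp |s.im| := by
      have := Real.add_one_le_exp |s.im|
      linarith
    calc ‖riemannZeta s‖ ≤ 5 * (‖s‖ + 1) ^ 2 := h6
      _ ≤ 5 * (3 * Real.exp |s.im|) ^ 2 := by gcongr
      _ = 45 * Real.exp (2 * |s.im|) := by
        rw [mul_pow, ← Real.exp_nat_mul]; push_cast; ring
  -- Gamma bound
  obtain ⟨G, hG⟩ := (isCompact_Icc (a := (3 / 4 : ℝ)) (b := 5 / 4)).exists_bound_of_continuousOn
    (f := Real.Gamma) (by
      intro x hx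
      exact (Real.differentiableAt_Gamma (fun m h => by
        have : (0:ℝ) ≤ m := Nat.cast_nonneg m
        linarith [hx.1])).continuousAt.continuousWithinAt)
  have hG0 : 0 ≤ G := (norm_nonneg _).trans (hG 1 ⟨by norm_num, by norm_num⟩)
  refine ⟨45 + 90 * G, by positivity, fun s h1 h2 h3 => ?_⟩
  have hexp : Real.exp (2 * |s.im|) ≤ Real.exp (4 * |s.im|) := Real.exp_le_exp.2 (by linarith)
  rcases le_or_gt (1 / 4) s.re with h | h
  · have := hright s h h2 h3
    have h4 := Real.exp_pos (4 * |s.im|)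
    nlinarith
  · set w := 1 - s with hw
    have hwre : w.re = 1 - s.re := by simp [hw]
    have hwim : |w.im| = |s.im| := by simp [hw]
    have hz := hright w (by rw [hwre]; linarith) (by rw [hwre]; linarith) (by rw [hwim]; exact h3)
    rw [hwim] at hz
    have hfe := riemannZeta_one_sub (s := w) (fun n h' => by
      have := congrArg Complex.re h'
      rw [hwre] at this
      simp at this
      have h4 : (0:ℝ) ≤ n := Nat.cast_nonneg n
      linarith) (fun h' => by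
        rw [h'] at hwim
        simp at hwim
        rw [← hwim] at h3
        norm_num at h3)
    rw [show (1:ℂ) - w = s by rw [hw]; ring] at hfe
    rw [hfe, norm_mul, norm_mul, norm_mul, norm_mul]
    have a1 : ‖(2:ℂ)‖ = 2 := by norm_num
    have a2 : ‖(2 * Real.pi : ℂ) ^ (-w)‖ ≤ 1 := by
      have : (2 * Real.pi : ℂ) = ((2 * Real.pi : ℝ) : ℂ) := by push_cast; ring
      rw [this, Complex.norm_cpow_eq_rpow_re_of_pos (by positivity)]
      apply Real.rpow_le_one_of_one_le_of_nonpos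
      · linarith [Real.pi_gt_three]
      · rw [Complex.neg_re, hwre]; linarith
    have a3 : ‖Complex.Gamma w‖ ≤ G := by
      refine (norm_Gamma_re (w := w) (by rw [hwre]; linarith)).trans ?_
      refine (le_abs_self _).trans ?_
      exact hG _ ⟨by rw [hwre]; linarith, by rw [hwre]; linarith⟩
    have a4 : ‖Complex.cos (Real.pi * w / 2)‖ ≤ Real.exp (2 * |s.im|) := by
      refine (norm_cos_le _).trans (Real.exp_le_exp.2 ?_)
      have e : ((Real.pi : ℂ) * w / 2).im = Real.pi / 2 * w.im := by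
        have : (Real.pi : ℂ) * w / 2 = ((Real.pi / 2 : ℝ) : ℂ) * w := by push_cast; ring
        rw [this, Complex.im_ofReal_mul]
      rw [e, abs_mul, hwim, abs_of_pos (by positivity)]
      have := abs_nonneg s.im
      nlinarith
    rw [a1]
    calc 2 * ‖(2 * Real.pi : ℂ) ^ (-w)‖ * ‖Complex.Gamma w‖ * ‖Complex.cos (Real.pi * w / 2)‖ * ‖riemannZeta w‖
        ≤ 2 * 1 * G * Real.exp (2 * |s.im|) * (45 * Real.exp (2 * |s.im|)) := by gcongr
      _ = 90 * G * Real.exp (4 * |s.im|) := by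
          rw [show (4:ℝ) * |s.im| = 2 * |s.im| + 2 * |s.im| by ring, Real.exp_add]; ring
      _ ≤ (45 + 90 * G) * Real.exp (4 * |s.im|) := by
          have h4 := Real.exp_pos (4 * |s.im|)
          nlinarith

lemma zeta_sq_left (t : ℝ) : riemannZeta (-1 / 4 + t * Complex.I) ^ 2 / (-1 / 4 + t * Complex.I) =
    Aw (wl (-t)) * riemannZeta (wl (-t)) ^ 2 := by
  have h := fe_sq (w := wl (-t)) (by rw [wl_re]; norm_num)
  have e : 1 - wl (-t) = -1 / 4 + t * Complex.I := by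
    unfold wl; push_cast; ring
  rw [e] at h
  exact h

lemma zeta_bdd_line {σ : ℝ} (hσ : 1 < σ) : ∃ Z : ℝ, 0 ≤ Z ∧ ∀ t : ℝ, ‖riemannZeta (σ + t * Complex.I)‖ ≤ Z := by
  refine ⟨∑' n : ℕ, ‖1 / ((n : ℂ) + 1) ^ (σ : ℂ)‖, tsum_nonneg fun _ => norm_nonneg _, fun t => ?_⟩
  have hs : Summable fun n : ℕ => ‖1 / ((n : ℂ) + 1) ^ (σ : ℂ)‖ := by
    have h1 : Summable fun n : ℕ => 1 / ((n : ℂ) + 1) ^ (σ : ℂ) := by
      have h2 := (Complex.summable_one_div_nat_cpow (p := (σ : ℂ))).2 (by simpa using hσ)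
      have h3 := (summable_nat_add_iff 1).2 h2
      refine h3.congr fun n => ?_
      push_cast
      rfl
    exact h1.norm
  rw [zeta_eq_tsum_one_div_nat_add_one_cpow (by simpa using hσ)]
  have h4 : ∀ n : ℕ, ‖1 / ((n : ℂ) + 1) ^ ((σ : ℂ) + t * Complex.I)‖ = ‖1 / ((n : ℂ) + 1) ^ (σ : ℂ)‖ := by
    intro n
    have e : ((n : ℂ) + 1) = ((n + 1 : ℝ) : ℂ) := by push_cast; rfl
    rw [e, norm_div, norm_div, Complex.norm_cpow_eq_rpow_re_of_pos (by positivity),
      Complex.norm_cpow_eq_rpow_re_of_pos (by positivity)]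
    simp
  have h5 : Summable fun n : ℕ => ‖1 / ((n : ℂ) + 1) ^ ((σ : ℂ) + t * Complex.I)‖ := by
    simp_rw [h4]; exact hs
  refine (norm_tsum_le_tsum_norm h5).trans (le_of_eq ?_)
  simp_rw [h4]

lemma one_add_abs_im_le {s : ℂ} (h1 : -(1 / 4) ≤ s.re) : 1 + |s.im| ≤ 2 * ‖s + 3‖ := by
  have a1 : |(s + 3).re| ≤ ‖s + 3‖ := Complex.abs_re_le_norm _
  have a2 : |(s + 3).im| ≤ ‖s + 3‖ := Complex.abs_im_le_norm _
  simp at a1 a2
  rw [abs_of_nonneg (by linarith)] at a1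
  linarith

lemma norm_add_three_le {s : ℂ} (h1 : -(1 / 4) ≤ s.re) (h2 : s.re ≤ 2) : ‖s + 3‖ ≤ 5 * (1 + |s.im|) := by
  refine (Complex.norm_le_abs_re_add_abs_im _).trans ?_
  have a1 : (s + 3).re = s.re + 3 := by simp
  have a2 : (s + 3).im = s.im := by simp
  rw [a1, a2, abs_of_nonneg (by linarith)]
  have := abs_nonneg s.im
  linarith

lemma norm_cpow_add_three {s : ℂ} (h1 : -(1 / 4) ≤ s.re) :
    ‖(s + 3) ^ (3 / 2 : ℂ)‖ = ‖s + 3‖ ^ (3 / 2 : ℝ) := by
  have hne : s + 3 ≠ 0 := by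
    intro h
    have := congrArg Complex.re h
    simp at this
    linarith
  rw [Complex.norm_cpow_of_ne_zero hne]
  have e1 : (3 / 2 : ℂ).re = 3 / 2 := by norm_num
  have e2 : (3 / 2 : ℂ).im = 0 := by norm_num
  rw [e1, e2, mul_zero, Real.exp_zero, div_one]

/-- the product to which the Phragmen-Lindelof principle is applied -/
def FF (R δ : ℝ) (s : ℂ) : ℂ := LL s * KA R δ (1 / 2 - 2 * s) * (s + 3) ^ (3 / 2 : ℂ)

lemma FF_diffAt {R δ : ℝ} (hR : 0 < R) {s : ℂ} (hs : -3 < s.re) : DifferentiableAt ℂ (FF R δ) s := by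
  unfold FF
  refine ((LL_diff s).mul ?_).mul ?_
  · exact ((differentiable_KA' hR) _).comp s (by fun_prop)
  · refine DifferentiableAt.cpow_const (by fun_prop) ?_
    rw [Complex.mem_slitPlane_iff]
    left
    simp
    linarith

lemma polar_le {s : ℂ} (h : 1 / 4 ≤ ‖s‖) (h' : 1 ≤ ‖s - 1‖) :
    ‖1 / (s - 1) ^ 2 + (2 * (Real.eulerMascheroniConstant : ℂ) - 1) / (s - 1) + 1 / (4 * s)‖ ≤ 5 := by
  have hg1 := Real.one_half_lt_eulerMascheroniConstant
  have hg2 := Real.eulerMascheroniConstant_lt_two_thirds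
  set g := Real.eulerMascheroniConstant
  have b1 : ‖1 / (s - 1) ^ 2‖ ≤ 1 := by
    rw [norm_div, norm_pow, norm_one]
    exact div_le_one_of_le₀ (by nlinarith) (by positivity)
  have b2 : ‖(2 * (g : ℂ) - 1) / (s - 1)‖ ≤ 1 := by
    have e : (2 * (g : ℂ) - 1) = ((2 * g - 1 : ℝ) : ℂ) := by push_cast; ring
    rw [e, norm_div, Complex.norm_real, Real.norm_of_nonneg (by linarith)]
    exact div_le_one_of_le₀ (by linarith) (by positivity)
  have b3 : ‖1 / (4 * s)‖ ≤ 1 := by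
    rw [norm_div, norm_mul, norm_one]
    have : ‖(4:ℂ)‖ = 4 := by norm_num
    rw [this]
    exact div_le_one_of_le₀ (by linarith) (by positivity)
  refine (norm_add₃_le).trans ?_
  linarith

lemma LL_le_of {s : ℂ} (h0 : s ≠ 0) (h1 : s ≠ 1) (h : 1 / 4 ≤ ‖s‖) (h' : 1 ≤ ‖s - 1‖) :
    ‖LL s‖ ≤ ‖riemannZeta s ^ 2 / s‖ + 5 := by
  rw [LL_eq h0 h1]
  have e : riemannZeta s ^ 2 / s - 1 / (s - 1) ^ 2 -
      (2 * (Real.eulerMascheroniConstant : ℂ) - 1) / (s - 1) - 1 / (4 * s) = riemannZeta s ^ 2 / s -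
      (1 / (s - 1) ^ 2 + (2 * (Real.eulerMascheroniConstant : ℂ) - 1) / (s - 1) + 1 / (4 * s)) := by ring
  rw [e]
  refine (norm_sub_le _ _).trans ?_
  linarith [polar_le h h']

theorem LK_bound {R δ : ℝ} (hR : 0 < R) (hδ : 0 < δ) : ∃ B : ℝ, ∀ s : ℂ, -(1 / 4) ≤ s.re → s.re ≤ 2 →
    ‖LL s * KA R δ (1 / 2 - 2 * s)‖ ≤ B * (1 + |s.im|) ^ (-(3 / 2 : ℝ)) := by
  obtain ⟨B, hB, hK⟩ := KA_bound hR hδ
  obtain ⟨CA, hCA, hA⟩ := Aw_le
  obtain ⟨Z1, hZ1, hz1⟩ := zeta_bdd_line (σ := 5 / 4) (by norm_num)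
  obtain ⟨Z2, hZ2, hz2⟩ := zeta_bdd_line (σ := 2) (by norm_num)
  obtain ⟨Cz, hCz, hz⟩ := zeta_crude
  -- kernel bound in terms of `s`
  have hK' : ∀ s : ℂ, -(1 / 4) ≤ s.re → s.re ≤ 2 → ‖KA R δ (1 / 2 - 2 * s)‖ ≤ B / (1 + |s.im|) ^ 2 := by
    intro s h1 h2
    have e1 : (1 / 2 - 2 * s).re = 1 / 2 - 2 * s.re := by simp
    have e2 : (1 / 2 - 2 * s).im = -(2 * s.im) := by simp
    have := hK (1 / 2 - 2 * s) (by rw [e1, abs_le]; constructor <;> linarith)
    rw [e2, abs_neg, abs_mul, abs_two] at this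
    refine this.trans ?_
    have := abs_nonneg s.im
    gcongr
    linarith
  have hP : ∀ s : ℂ, -(1 / 4) ≤ s.re → s.re ≤ 2 →
      ‖(s + 3) ^ (3 / 2 : ℂ)‖ ≤ 12 * (1 + |s.im|) ^ (3 / 2 : ℝ) := by
    intro s h1 h2
    rw [norm_cpow_add_three h1]
    have := abs_nonneg s.im
    calc ‖s + 3‖ ^ (3 / 2 : ℝ) ≤ (5 * (1 + |s.im|)) ^ (3 / 2 : ℝ) :=
          Real.rpow_le_rpow (norm_nonneg _) (norm_add_three_le h1 h2) (by norm_num)
      _ = 5 ^ (3 / 2 : ℝ) * (1 + |s.im|) ^ (3 / 2 : ℝ) := by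
          rw [Real.mul_rpow (by norm_num) (by positivity)]
      _ ≤ 12 * (1 + |s.im|) ^ (3 / 2 : ℝ) := by
          have : (5:ℝ) ^ (3 / 2 : ℝ) ≤ 12 := by
            rw [show (3 / 2 : ℝ) = 1 / 2 * (3:ℕ) by norm_num, Real.rpow_mul (by norm_num),
              Real.rpow_natCast, ← Real.sqrt_eq_rpow]
            have h5 : √5 ≤ 2.25 := by
              rw [Real.sqrt_le_left (by norm_num)]; norm_num
            have h6 : 0 ≤ √5 := Real.sqrt_nonneg _
            calc √5 ^ 3 ≤ 2.25 ^ 3 := by gcongr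
              _ ≤ 12 := by norm_num
          gcongr
  -- edges
  set C := 12 * B * (CA * Z1 ^ 2 + 5) + 12 * B * (Z2 ^ 2 + 5) with hC
  have hleft : ∀ s : ℂ, s.re = -(1 / 4) → ‖FF R δ s‖ ≤ C := by
    intro s hs
    have es : s = -1 / 4 + (s.im : ℂ) * Complex.I := by
      apply Complex.ext <;> simp [hs]
      norm_num
    have ht := abs_nonneg s.im
    have h0 : s ≠ 0 := by rintro rfl; norm_num at hs
    have h1 : s ≠ 1 := by rintro rfl; norm_num at hs
    have n0 : 1 / 4 ≤ ‖s‖ := by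
      have := Complex.abs_re_le_norm s
      rw [hs] at this
      norm_num at this
      linarith
    have n1 : 1 ≤ ‖s - 1‖ := by
      have := Complex.abs_re_le_norm (s - 1)
      rw [Complex.sub_re, hs, Complex.one_re] at this
      norm_num at this
      linarith
    have hL : ‖LL s‖ ≤ (CA * Z1 ^ 2 + 5) * (1 + |s.im|) ^ (1 / 2 : ℝ) := by
      have a1 := LL_le_of h0 h1 n0 n1
      have a2 : ‖riemannZeta s ^ 2 / s‖ ≤ CA * (1 + |s.im|) ^ (1 / 2 : ℝ) * Z1 ^ 2 := by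
        have := zeta_sq_left s.im
        rw [← es] at this
        rw [this, norm_mul, norm_pow]
        have a3 := hA (-s.im)
        rw [abs_neg] at a3
        have a4 := hz1 (-s.im)
        have a5 : (((5 / 4 : ℝ) : ℂ) + ((-s.im : ℝ) : ℂ) * Complex.I) = wl (-s.im) := by
          unfold wl; push_cast; ring
        rw [a5] at a4
        gcongr
      have a6 : 1 ≤ (1 + |s.im|) ^ (1 / 2 : ℝ) := Real.one_le_rpow (by linarith) (by norm_num)
      nlinarith
    have hk := hK' s (by rw [hs]) (by rw [hs]; norm_num)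
    have hp := hP s (by rw [hs]) (by rw [hs]; norm_num)
    unfold FF
    rw [norm_mul, norm_mul]
    calc ‖LL s‖ * ‖KA R δ (1 / 2 - 2 * s)‖ * ‖(s + 3) ^ (3 / 2 : ℂ)‖ ≤
          ((CA * Z1 ^ 2 + 5) * (1 + |s.im|) ^ (1 / 2 : ℝ)) * (B / (1 + |s.im|) ^ 2) *
            (12 * (1 + |s.im|) ^ (3 / 2 : ℝ)) := by gcongr
      _ = 12 * B * (CA * Z1 ^ 2 + 5) := by
          have e : (1 + |s.im|) ^ (1 / 2 : ℝ) * (1 + |s.im|) ^ (3 / 2 : ℝ) = (1 + |s.im|) ^ 2 := by
            rw [← Real.rpow_add (by positivity), ← Real.rpow_natCast]; norm_num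
          have e2 : (1 + |s.im|) ^ 2 ≠ 0 := by positivity
          have e3 : ((CA * Z1 ^ 2 + 5) * (1 + |s.im|) ^ (1 / 2 : ℝ)) * (B / (1 + |s.im|) ^ 2) *
            (12 * (1 + |s.im|) ^ (3 / 2 : ℝ)) = 12 * B * (CA * Z1 ^ 2 + 5) *
              (((1 + |s.im|) ^ (1 / 2 : ℝ) * (1 + |s.im|) ^ (3 / 2 : ℝ)) / (1 + |s.im|) ^ 2) := by ring
          rw [e3, e, div_self e2, mul_one]
      _ ≤ C := by rw [hC]; have : 0 ≤ 12 * B * (Z2 ^ 2 + 5) := by positivity
                  linarith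
  have hrt : ∀ s : ℂ, s.re = 2 → ‖FF R δ s‖ ≤ C := by
    intro s hs
    have es : s = ((2 : ℝ) : ℂ) + (s.im : ℂ) * Complex.I := by
      apply Complex.ext <;> simp [hs]
    have ht := abs_nonneg s.im
    have h0 : s ≠ 0 := by rintro rfl; norm_num at hs
    have h1 : s ≠ 1 := by rintro rfl; norm_num at hs
    have n0 : 2 ≤ ‖s‖ := by
      have := Complex.abs_re_le_norm s
      rw [hs] at this
      norm_num at this
      linarith
    have n1 : 1 ≤ ‖s - 1‖ := by
      have := Complex.abs_re_le_norm (s - 1)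
      rw [Complex.sub_re, hs, Complex.one_re] at this
      norm_num at this
      linarith
    have hL : ‖LL s‖ ≤ Z2 ^ 2 + 5 := by
      have a1 := LL_le_of h0 h1 (by linarith) n1
      have a2 : ‖riemannZeta s ^ 2 / s‖ ≤ Z2 ^ 2 := by
        rw [norm_div, norm_pow]
        have a3 := hz2 s.im
        rw [← es] at a3
        rw [div_le_iff₀ (by linarith)]
        have a4 : ‖riemannZeta s‖ ^ 2 ≤ Z2 ^ 2 := by gcongr
        nlinarith [sq_nonneg Z2]
      linarith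
    have hk := hK' s (by rw [hs]; norm_num) (by rw [hs])
    have hp := hP s (by rw [hs]; norm_num) (by rw [hs])
    unfold FF
    rw [norm_mul, norm_mul]
    calc ‖LL s‖ * ‖KA R δ (1 / 2 - 2 * s)‖ * ‖(s + 3) ^ (3 / 2 : ℂ)‖ ≤
          (Z2 ^ 2 + 5) * (B / (1 + |s.im|) ^ 2) * (12 * (1 + |s.im|) ^ (3 / 2 : ℝ)) := by gcongr
      _ ≤ (Z2 ^ 2 + 5) * (B / (1 + |s.im|) ^ 2) * (12 * (1 + |s.im|) ^ (2 : ℝ)) := by
          gcongr
          · linarith
          · norm_num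
      _ = 12 * B * (Z2 ^ 2 + 5) := by
          have e2 : (1 + |s.im|) ^ 2 ≠ 0 := by positivity
          rw [Real.rpow_two]
          field_simp
      _ ≤ C := by rw [hC]; have : 0 ≤ 12 * B * (CA * Z1 ^ 2 + 5) := by positivity
                  linarith
  -- growth
  have hgrow : ∃ c < Real.pi / (2 - (-(1 / 4) : ℝ)), ∃ B', FF R δ
      =O[comap (_root_.abs ∘ Complex.im) atTop ⊓ 𝓟 (Complex.re ⁻¹' Ioo (-(1 / 4) : ℝ) 2)]
      fun z => Real.exp (B' * Real.exp (c * |z.im|)) := by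
    refine ⟨1, ?_, 10, ?_⟩
    · rw [lt_div_iff₀ (by norm_num)]
      linarith [Real.pi_gt_three]
    · refine Asymptotics.IsBigO.of_bound ((Cz ^ 2 + 5) * B * 12 ) ?_
      rw [eventually_inf_principal]
      have hev : ∀ᶠ z : ℂ in comap (_root_.abs ∘ Complex.im) atTop, 1 ≤ |z.im| :=
        tendsto_comap.eventually (eventually_ge_atTop 1)
      filter_upwards [hev] with s h3 hs
      have h1 : -(1 / 4) ≤ s.re := hs.1.le
      have h2 : s.re ≤ 2 := hs.2.le
      have ht := abs_nonneg s.im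
      have h0 : s ≠ 0 := by rintro rfl; norm_num at h3
      have h1' : s ≠ 1 := by rintro rfl; norm_num at h3
      have n0 : 1 ≤ ‖s‖ := h3.trans (Complex.abs_im_le_norm s)
      have n1 : 1 ≤ ‖s - 1‖ := by
        have := Complex.abs_im_le_norm (s - 1)
        rw [Complex.sub_im, Complex.one_im, sub_zero] at this
        linarith
      have hz' := hz s h1 h2 h3
      have hL : ‖LL s‖ ≤ (Cz ^ 2 + 5) * Real.exp (8 * |s.im|) := by
        have a1 := LL_le_of h0 h1' (by linarith) n1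
        have a2 : ‖riemannZeta s ^ 2 / s‖ ≤ Cz ^ 2 * Real.exp (8 * |s.im|) := by
          rw [norm_div, norm_pow, div_le_iff₀ (by linarith)]
          have a4 : ‖riemannZeta s‖ ^ 2 ≤ (Cz * Real.exp (4 * |s.im|)) ^ 2 := by gcongr
          have a5 : (Cz * Real.exp (4 * |s.im|)) ^ 2 = Cz ^ 2 * Real.exp (8 * |s.im|) := by
            rw [mul_pow, ← Real.exp_nat_mul]; push_cast; ring_nf
          rw [a5] at a4
          have a6 : 0 ≤ Cz ^ 2 * Real.exp (8 * |s.im|) := by positivity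
          nlinarith
        have a7 : 1 ≤ Real.exp (8 * |s.im|) := Real.one_le_exp (by positivity)
        nlinarith
      have hk : ‖KA R δ (1 / 2 - 2 * s)‖ ≤ B := by
        refine (hK' s h1 h2).trans ?_
        apply div_le_self hB.le
        nlinarith
      have hp : ‖(s + 3) ^ (3 / 2 : ℂ)‖ ≤ 12 * Real.exp (2 * |s.im|) := by
        refine (hP s h1 h2).trans ?_
        have a1 : (1 + |s.im|) ^ (3 / 2 : ℝ) ≤ (1 + |s.im|) ^ (2 : ℝ) :=
          Real.rpow_le_rpow_of_exponent_le (by linarith) (by norm_num)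
        have a2 : (1 + |s.im|) ^ (2 : ℝ) ≤ Real.exp (2 * |s.im|) := by
          rw [Real.rpow_two, show 2 * |s.im| = ((2:ℕ) : ℝ) * |s.im| by push_cast; ring, Real.exp_nat_mul]
          have := Real.add_one_le_exp |s.im|
          gcongr
          linarith
        linarith
      unfold FF
      rw [norm_mul, norm_mul, Real.norm_of_nonneg (Real.exp_pos _).le]
      calc ‖LL s‖ * ‖KA R δ (1 / 2 - 2 * s)‖ * ‖(s + 3) ^ (3 / 2 : ℂ)‖ ≤
            ((Cz ^ 2 + 5) * Real.exp (8 * |s.im|)) * B * (12 * Real.exp (2 * |s.im|)) := by gcongr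
        _ = (Cz ^ 2 + 5) * B * 12 * Real.exp (10 * |s.im|) := by
            rw [show (10:ℝ) * |s.im| = 8 * |s.im| + 2 * |s.im| by ring, Real.exp_add]; ring
        _ ≤ (Cz ^ 2 + 5) * B * 12 * Real.exp (10 * Real.exp (1 * |s.im|)) := by
            have := Real.add_one_le_exp |s.im|
            rw [one_mul]
            gcongr
            linarith
  have hdc : DiffContOnCl ℂ (FF R δ) (Complex.re ⁻¹' Ioo (-(1 / 4) : ℝ) 2) := by
    apply DifferentiableOn.diffContOnCl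
    intro s hs
    refine (FF_diffAt hR ?_).differentiableWithinAt
    have : s ∈ Complex.re ⁻¹' Icc (-(1 / 4) : ℝ) 2 := by
      have h1 : closure (Complex.re ⁻¹' Ioo (-(1 / 4) : ℝ) 2) ⊆ Complex.re ⁻¹' Icc (-(1 / 4) : ℝ) 2 := by
        apply closure_minimal
        · intro z hz; exact ⟨hz.1.le, hz.2.le⟩
        · exact isClosed_Icc.preimage Complex.continuous_re
      exact h1 hs
    have := this.1
    linarith
  refine ⟨4 * C, fun s h1 h2 => ?_⟩
  have hmain := PhragmenLindelof.vertical_strip hdc hgrow hleft hrt h1 h2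
  unfold FF at hmain
  rw [norm_mul, norm_cpow_add_three h1] at hmain
  have ht := abs_nonneg s.im
  have hC0 : 0 ≤ C := by rw [hC]; positivity
  have hx : 0 < 1 + |s.im| := by positivity
  have h3 : ((1 + |s.im|) / 2) ^ (3 / 2 : ℝ) ≤ ‖s + 3‖ ^ (3 / 2 : ℝ) := by
    apply Real.rpow_le_rpow (by positivity) _ (by norm_num)
    linarith [one_add_abs_im_le h1]
  have h4 : (1 + |s.im|) ^ (3 / 2 : ℝ) / 4 ≤ ((1 + |s.im|) / 2) ^ (3 / 2 : ℝ) := by
    rw [Real.div_rpow hx.le (by norm_num)]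
    have : (2:ℝ) ^ (3 / 2 : ℝ) ≤ 4 := by
      calc (2:ℝ) ^ (3 / 2 : ℝ) ≤ 2 ^ (2:ℝ) := Real.rpow_le_rpow_of_exponent_le (by norm_num) (by norm_num)
        _ = 4 := by norm_num
    gcongr
  have h5 : 0 < (1 + |s.im|) ^ (3 / 2 : ℝ) := by positivity
  rw [Real.rpow_neg hx.le, ← div_eq_mul_inv, le_div_iff₀ h5]
  have h6 := norm_nonneg (LL s * KA R δ (1 / 2 - 2 * s))
  have h7 := mul_le_mul_of_nonneg_left (h4.trans h3) h6
  linarith

/-- the contour shift from `Re s = 2` to `Re s = -1/4` -/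
theorem shift {R δ : ℝ} (hR : 0 < R) (hδ : 0 < δ) :
    ∫ t : ℝ, LL (((-(1 / 4) : ℝ) : ℂ) + t * Complex.I) * KA R δ (1 / 2 - 2 * (((-(1 / 4) : ℝ) : ℂ) + t * Complex.I)) =
      ∫ t : ℝ, LL (((2 : ℝ) : ℂ) + t * Complex.I) * KA R δ (1 / 2 - 2 * (((2 : ℝ) : ℂ) + t * Complex.I)) := by
  obtain ⟨B, hB⟩ := LK_bound hR hδ
  exact Pool.Agent.H295R2.contour_shift (H := fun s => LL s * KA R δ (1 / 2 - 2 * s)) (B := B) (by norm_num)
    (fun s _ _ => (LL_diff s).mul (((differentiable_KA' hR) _).comp s (by fun_prop))) hB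

end

end Pool.Agent.H387R2.Vor
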